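import Pool.Agent.GNH.Defs
import Pool.Agent.SST.D.Rank

/-!
# GNH-AreaZero: make the area of the two cocycles zero without changing the periods
-/

namespace GNH

open SST Classical

variable {D : Type} [Fintype D]

private theorem two_darts (T : Tri D) [Nonempty D] {n g : ℕ} (hD : Fintype.card D = 6 * n)
    (hg : T.Genus n g) (h3 : 3 ≤ g) : ∃ e e' : D, e' ≠ e ∧ e' ≠ T.a e := by
  obtain ⟨e⟩ := (inferInstance : Nonempty D)
  by_contra hcon
  push Not at hcon
  have h1 : (Finset.univ : Finset D) ⊆ {e, T.a e} := by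
    intro e' _
    by_cases h2 : e' = e
    · rw [h2]
      exact Finset.mem_insert_self _ _
    · rw [hcon e e' h2]
      exact Finset.mem_insert_of_mem (Finset.mem_singleton_self _)
  have h2 := Finset.card_le_card h1
  rw [Finset.card_univ, hD] at h2
  have h4 : ({e, T.a e} : Finset D).card ≤ 2 := Finset.card_le_two
  have h5 : Nat.card T.V + 2 * g = n + 2 := hg
  have h6 : 0 < Fintype.card D := Fintype.card_pos
  omega

private theorem coc_add {T : Tri D} {x u : D → ℝ} (hx : T.IsCoc x) (hu : T.IsCoc u) (s : ℝ) :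
    T.IsCoc fun d => x d + s * u d := by
  refine ⟨fun d => ?_, fun d => ?_⟩
  · show x (T.a d) + s * u (T.a d) = -(x d + s * u d)
    rw [hx.1, hu.1]
    ring
  · show x d + s * u d + (x (T.f d) + s * u (T.f d)) + (x (T.f (T.f d)) + s * u (T.f (T.f d))) = 0
    linear_combination hx.2 d + s * hu.2 d

private theorem per_add_zero {x u : D → ℝ} {c : List D} (s : ℝ) (hu : per u c = 0) :
    per (fun d => x d + s * u d) c = per x c := by
  have h1 := per_add x (fun d => s * u d) c
  rw [per_smul, hu, mul_zero, add_zero] at h1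
  exact h1

private theorem area_bil (T : Tri D) (x u y w : D → ℝ) (s t : ℝ) :
    T.Area (fun d => x d + s * u d) (fun d => y d + t * w d) =
      T.Area x y + t * T.Area x w + s * T.Area u y + s * t * T.Area u w := by
  unfold Tri.Area
  rw [Finset.mul_sum, Finset.mul_sum, Finset.mul_sum, ← Finset.sum_add_distrib,
    ← Finset.sum_add_distrib, ← Finset.sum_add_distrib]
  refine Finset.sum_congr rfl fun d _ => ?_
  ring

private theorem per_xx_add (T : Tri D) (h h' : D → ℝ) (c : List D) :
    per (T.xx (h + h')) c = per (T.xx h) c + per (T.xx h') c := by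
  rw [← per_add]
  congr 1
  funext d
  simp only [Tri.xx, Pi.add_apply]
  ring

private theorem per_xx_smul (T : Tri D) (s : ℝ) (h : D → ℝ) (c : List D) :
    per (T.xx (s • h)) c = s * per (T.xx h) c := by
  rw [← per_smul]
  congr 1
  funext d
  simp only [Tri.xx, Pi.smul_apply, smul_eq_mul]
  ring

theorem exists_area_zero (T : Tri D) [Nonempty D] {n g : ℕ} (hD : Fintype.card D = 6 * n)
    (hg : T.Genus n g) (h3 : 3 ≤ g) {α β : List D} {x y : D → ℝ} (hx : T.IsCoc x) (hy : T.IsCoc y)
    (h : per x α * per y β - per x β * per y α ≠ 0) :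
    ∃ x' y' : D → ℝ, T.IsCoc x' ∧ T.IsCoc y' ∧ T.Area x' y' = 0 ∧
      per x' α * per y' β - per x' β * per y' α ≠ 0 := by
  obtain ⟨e, e', he1, he2⟩ := two_darts T hD hg h3
  have hea : T.a e ≠ e := T.ane e
  have he'a : T.a e' ≠ e' := T.ane e'
  have he3 : T.a e' ≠ e := by
    intro h1
    apply he2
    rw [← h1, T.aa]
  have he4 : T.a e' ≠ T.a e := fun h1 => he1 (T.a.injective h1)
  let L : (D → ℝ) →ₗ[ℝ] (D → ℝ) :=
    { toFun := fun h d =>
        ((if d = e then 1 else 0) - (if T.a d = e then 1 else 0)) * per (T.xx h) α +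
          ((if d = e' then 1 else 0) - (if T.a d = e' then 1 else 0)) * per (T.xx h) β
      map_add' := fun h h' => by
        funext d
        simp only [Pi.add_apply, per_xx_add]
        ring
      map_smul' := fun c h => by
        funext d
        simp only [Pi.smul_apply, smul_eq_mul, RingHom.id_apply, per_xx_smul]
        ring }
  have hLdef : ∀ h d, L h d =
      ((if d = e then 1 else 0) - (if T.a d = e then 1 else 0)) * per (T.xx h) α +
          ((if d = e' then 1 else 0) - (if T.a d = e' then 1 else 0)) * per (T.xx h) β :=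
    fun h d => rfl
  have hL : ∀ h, T.InH h → ∀ d, L h (T.a d) = - L h d := by
    intro h _ d
    rw [hLdef, hLdef, T.aa]
    ring
  have hC : T.AC {e, T.a e, e', T.a e'} := by
    intro d hd
    simp only [Finset.mem_insert, Finset.mem_singleton] at hd ⊢
    rcases hd with rfl | rfl | rfl | rfl
    · exact Or.inr (Or.inl rfl)
    · exact Or.inl (T.aa e)
    · exact Or.inr (Or.inr (Or.inr rfl))
    · exact Or.inr (Or.inr (Or.inl (T.aa e')))
  have hlt : ({e, T.a e, e', T.a e'} : Finset D).card < 2 * g := by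
    have h1 : ({e, T.a e, e', T.a e'} : Finset D).card ≤ 4 := Finset.card_le_four
    omega
  obtain ⟨k, k', hk, hk', h0, h0', hne⟩ := T.not_isotropic hD hg _ hC hlt L hL
  have key : ∀ k : D → ℝ, (∀ d ∈ ({e, T.a e, e', T.a e'} : Finset D), L k d = 0) →
      per (T.xx k) α = 0 ∧ per (T.xx k) β = 0 := by
    intro k h0
    have h1 := h0 e (by simp)
    have h2 := h0 e' (by simp)
    rw [hLdef, if_pos rfl, if_neg hea, if_neg (Ne.symm he1), if_neg (Ne.symm he2)] at h1
    rw [hLdef, if_neg he1, if_neg he3, if_pos rfl, if_neg he'a] at h2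
    constructor <;> linarith
  obtain ⟨ka, kb⟩ := key k h0
  obtain ⟨ka', kb'⟩ := key k' h0'
  have hu : T.IsCoc (T.xx k) := T.xx_coc hk
  have hw : T.IsCoc (T.xx k') := T.xx_coc hk'
  have hA : T.Area (T.xx k) (T.xx k') ≠ 0 := by
    rw [T.Area_xx]
    exact mul_ne_zero three_ne_zero hne
  obtain ⟨s, hs⟩ : ∃ s : ℝ, T.Area x (T.xx k') + s * T.Area (T.xx k) (T.xx k') ≠ 0 := by
    by_cases h1 : T.Area x (T.xx k') = 0
    · refine ⟨1, ?_⟩
      rw [h1, zero_add, one_mul]
      exact hA
    · refine ⟨0, ?_⟩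
      rw [zero_mul, add_zero]
      exact h1
  obtain ⟨t, ht⟩ : ∃ t : ℝ, t = -(T.Area x y + s * T.Area (T.xx k) y) /
      (T.Area x (T.xx k') + s * T.Area (T.xx k) (T.xx k')) := ⟨_, rfl⟩
  refine ⟨fun d => x d + s * T.xx k d, fun d => y d + t * T.xx k' d, coc_add hx hu s,
    coc_add hy hw t, ?_, ?_⟩
  · rw [area_bil]
    have h1 : t * (T.Area x (T.xx k') + s * T.Area (T.xx k) (T.xx k')) =
        -(T.Area x y + s * T.Area (T.xx k) y) := by
      rw [ht]
      exact div_mul_cancel₀ _ hs
    linear_combination h1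
  · rw [per_add_zero s ka, per_add_zero t kb', per_add_zero s kb, per_add_zero t ka']
    exact h

end GNH
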