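import Pool.Agent.SST.D.DDefs
import Pool.Agent.SST.Walk

/-!
# GNH-Cap: capping one side of a simple separating cycle by a cone.  Definitions: DO NOT CHANGE.
`Cut T A c`: `A` is a union of faces whose boundary darts are `c 0, …, c (ℓ-1)`, in this cyclic order, with
different tails.  `cap`: glue the triangles `(i,0),(i,1),(i,2)`, `i : Fin ℓ`, along `c i ~ (i,0)` and
`(i,2) ~ (i+1,1)`.  `rc`: the reversed cycle, boundary of the complement.
-/

namespace GNH

open SST Classical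

variable {D : Type} [Fintype D] {ℓ : ℕ}

structure Cut (T : Tri D) (A : Finset D) (c : Fin ℓ → D) : Prop where
  pos : 0 < ℓ
  fA : ∀ d, T.f d ∈ A ↔ d ∈ A
  bd : ∀ d, (d ∈ A ∧ T.a d ∉ A) ↔ ∃ i, c i = d
  next : ∀ i, T.hd (c i) = T.tl (c (finRotate ℓ i))
  inj : Function.Injective fun i => T.tl (c i)

theorem Cut.mem {T : Tri D} {A : Finset D} {c : Fin ℓ → D} (h : Cut T A c) (i : Fin ℓ) : c i ∈ A :=
  ((h.bd (c i)).2 ⟨i, rfl⟩).1

theorem Cut.anmem {T : Tri D} {A : Finset D} {c : Fin ℓ → D} (h : Cut T A c) (i : Fin ℓ) :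
    T.a (c i) ∉ A :=
  ((h.bd (c i)).2 ⟨i, rfl⟩).2

theorem Cut.cinj {T : Tri D} {A : Finset D} {c : Fin ℓ → D} (h : Cut T A c) :
    Function.Injective c := fun i j hij => h.inj (congrArg T.tl hij)

/-- Gluing of the capped side. -/
noncomputable def capA {T : Tri D} {A : Finset D} {c : Fin ℓ → D} (h : Cut T A c) :
    {d // d ∈ A} ⊕ Fin ℓ × Fin 3 → {d // d ∈ A} ⊕ Fin ℓ × Fin 3
  | Sum.inl d => if h' : T.a d.1 ∈ A then Sum.inl ⟨T.a d.1, h'⟩
      else Sum.inr (Classical.choose ((h.bd d.1).1 ⟨d.2, h'⟩), 0)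
  | Sum.inr x => if x.2 = 0 then Sum.inl ⟨c x.1, h.mem x.1⟩
      else if x.2 = 1 then Sum.inr ((finRotate ℓ).symm x.1, 2) else Sum.inr (finRotate ℓ x.1, 1)

/-- Faces of the capped side. -/
def capF {T : Tri D} {A : Finset D} {c : Fin ℓ → D} (h : Cut T A c) :
    {d // d ∈ A} ⊕ Fin ℓ × Fin 3 → {d // d ∈ A} ⊕ Fin ℓ × Fin 3
  | Sum.inl d => Sum.inl ⟨T.f d.1, (h.fA d.1).2 d.2⟩
  | Sum.inr x => Sum.inr (x.1, x.2 + 1)

section
variable {T : Tri D} {A : Finset D} {c : Fin ℓ → D} (h : Cut T A c)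

theorem capA_in {d : D} (hd : d ∈ A) (h' : T.a d ∈ A) :
    capA h (Sum.inl ⟨d, hd⟩) = Sum.inl ⟨T.a d, h'⟩ := by
  unfold capA
  exact dif_pos h'

theorem capA_bd (i : Fin ℓ) : capA h (Sum.inl ⟨c i, h.mem i⟩) = Sum.inr (i, 0) := by
  have h1 : capA h (Sum.inl ⟨c i, h.mem i⟩) =
      Sum.inr (Classical.choose ((h.bd (c i)).1 ⟨h.mem i, h.anmem i⟩), 0) := by
    unfold capA
    exact dif_neg (h.anmem i)
  rw [h1]
  have h2 := Classical.choose_spec ((h.bd (c i)).1 ⟨h.mem i, h.anmem i⟩)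
  rw [h.cinj h2]

theorem capA_zero (i : Fin ℓ) : capA h (Sum.inr (i, 0)) = Sum.inl ⟨c i, h.mem i⟩ := rfl

theorem capA_one (i : Fin ℓ) : capA h (Sum.inr (i, 1)) = Sum.inr ((finRotate ℓ).symm i, 2) := rfl

theorem capA_two (i : Fin ℓ) : capA h (Sum.inr (i, 2)) = Sum.inr (finRotate ℓ i, 1) := rfl

theorem capA_out {d : D} (hd : d ∈ A) (h' : T.a d ∉ A) :
    ∃ i, c i = d ∧ capA h (Sum.inl ⟨d, hd⟩) = Sum.inr (i, 0) := by
  obtain ⟨i, hi⟩ := (h.bd d).1 ⟨hd, h'⟩
  subst hi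
  exact ⟨i, rfl, capA_bd h i⟩

private theorem fin3 (j : Fin 3) : j = 0 ∨ j = 1 ∨ j = 2 := by
  revert j; decide

theorem capA_invol : Function.Involutive (capA h) := by
  rintro (⟨d, hd⟩ | ⟨i, j⟩)
  · by_cases h' : T.a d ∈ A
    · rw [capA_in h hd h', capA_in h h' (by rw [T.aa]; exact hd)]
      congr 2
      exact T.aa d
    · obtain ⟨i, rfl, hi⟩ := capA_out h hd h'
      rw [hi, capA_zero]
  · rcases fin3 j with rfl | rfl | rfl
    · rw [capA_zero, capA_bd]
    · rw [capA_one, capA_two, Equiv.apply_symm_apply]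
    · rw [capA_two, capA_one, Equiv.symm_apply_apply]

theorem capA_ne (x : {d // d ∈ A} ⊕ Fin ℓ × Fin 3) : capA h x ≠ x := by
  rcases x with ⟨d, hd⟩ | ⟨i, j⟩
  · by_cases h' : T.a d ∈ A
    · rw [capA_in h hd h']
      intro h1
      have h2 := Sum.inl_injective h1
      exact T.ane d (congrArg Subtype.val h2)
    · obtain ⟨i, -, hi⟩ := capA_out h hd h'
      rw [hi]
      exact Sum.inr_ne_inl
  · rcases fin3 j with rfl | rfl | rfl
    · rw [capA_zero]
      exact Sum.inl_ne_inr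
    · rw [capA_one]
      intro h1
      have h2 : (2 : Fin 3) = 1 := congrArg Prod.snd (Sum.inr_injective h1)
      exact absurd h2 (by decide)
    · rw [capA_two]
      intro h1
      have h2 : (1 : Fin 3) = 2 := congrArg Prod.snd (Sum.inr_injective h1)
      exact absurd h2 (by decide)

theorem capF_three (x : {d // d ∈ A} ⊕ Fin ℓ × Fin 3) : capF h (capF h (capF h x)) = x := by
  rcases x with ⟨d, hd⟩ | ⟨i, j⟩
  · show Sum.inl _ = _
    congr 2
    exact T.fff d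
  · show Sum.inr (i, j + 1 + 1 + 1) = Sum.inr (i, j)
    rcases fin3 j with rfl | rfl | rfl <;> rfl

theorem capF_ne (x : {d // d ∈ A} ⊕ Fin ℓ × Fin 3) : capF h x ≠ x := by
  rcases x with ⟨d, hd⟩ | ⟨i, j⟩
  · intro h1
    have h2 := Sum.inl_injective h1
    exact T.fne d (congrArg Subtype.val h2)
  · intro h1
    have h2 : j + 1 = j := congrArg Prod.snd (Sum.inr_injective h1)
    revert h2
    rcases fin3 j with rfl | rfl | rfl <;> decide

/-- The side `A` capped by a cone. -/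
noncomputable def cap : Tri ({d // d ∈ A} ⊕ Fin ℓ × Fin 3) where
  a := (capA_invol h).toPerm (capA h)
  f := ⟨capF h, fun x => capF h (capF h x), capF_three h, capF_three h⟩
  aa := capA_invol h
  ane := capA_ne h
  fff := capF_three h
  fne := capF_ne h

theorem cap_a (x : {d // d ∈ A} ⊕ Fin ℓ × Fin 3) : (cap h).a x = capA h x := rfl

theorem cap_f (x : {d // d ∈ A} ⊕ Fin ℓ × Fin 3) : (cap h).f x = capF h x := rfl

end

/-- The reversed cycle. -/
def rc (T : Tri D) (c : Fin ℓ → D) (i : Fin ℓ) : D := T.a (c i.rev)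

end GNH
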