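import Pool.Agent.GNH.Cap

/-!
# GNH-CapTwo: the complement, vertices of the two sides
* `Cut.compl`: `fA` clear.  `bd`: `d ∉ A`, `a d ∈ A` iff `a d = c i` for some `i` iff `d = a (c i)`; `i ↦ i.rev` is a bijection.
  `next`: `hd (a (c i.rev)) = tl (c i.rev)`; `tl (a (c j.rev)) = hd (c j.rev) = tl (c (rot j.rev))` with `j = rot i`:
  `rot (rot i).rev = i.rev` (for `i + 1 < ℓ`: `(i+1).rev = ℓ - 2 - i`, rotated `ℓ - 1 - i`; for `i = ℓ - 1`: `rot i = 0`,
  `0.rev = ℓ - 1`, rotated `0 = i.rev`).  `inj`: `tl (a (c i.rev)) = hd (c i.rev) = tl (c (rot i.rev))`, composition of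
  injective maps.
* `cap_two`: `VK A ∪ VK Aᶜ = univ`, `VK A ∩ VK Aᶜ = {tl (c i)}`, which has `ℓ` elements (`inj`): if `v = tl d`, `d ∈ A` and
  `v = tl d'`, `d' ∉ A` then rotating from `d` to `d'` there is `e ∈ A`, `tl e = v`, with `T.s e ∉ A`; `T.s e = f (a e)`, so
  `a e ∉ A` and `e = c i`.  Conversely `tl (c i)` is the tail of `c i ∈ A` and of `T.s (c i) = f (a (c i)) ∉ A`.
  `Finset.card_union_add_card_inter`; `T.V` is finite (`Quotient.finite`), `Nat.card T.V = card univ`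
  (every vertex is a tail: `Quotient.exists_rep`).
-/

namespace GNH

open SST Classical

variable {D : Type} [Fintype D] {ℓ : ℕ}

private theorem rot_rev (i : Fin ℓ) : finRotate ℓ (finRotate ℓ i).rev = i.rev := by
  cases ℓ with
  | zero => exact i.elim0
  | succ n =>
    rcases i with ⟨i, hi⟩
    by_cases h : i = n
    · subst h
      have h1 : finRotate (i + 1) ⟨i, hi⟩ = 0 := finRotate_last
      rw [h1]
      have h2 : (0 : Fin (i + 1)).rev = Fin.last i := by
        ext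
        simp [Fin.val_rev]
      rw [h2, finRotate_last]
      ext
      simp [Fin.val_rev]
    · have h1 : finRotate (n + 1) ⟨i, hi⟩ = ⟨i + 1, by omega⟩ := finRotate_of_lt (by omega)
      rw [h1]
      have h2 : (⟨i + 1, by omega⟩ : Fin (n + 1)).rev = ⟨n - (i + 1), by omega⟩ := by
        ext
        simp only [Fin.val_rev]
        omega
      rw [h2]
      have h3 : finRotate (n + 1) ⟨n - (i + 1), by omega⟩ = ⟨n - (i + 1) + 1, by omega⟩ :=
        finRotate_of_lt (by omega)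
      rw [h3]
      ext
      simp only [Fin.val_rev]
      omega

private theorem leave (T : Tri D) (A : Finset D) (n : ℕ) : ∀ d ∈ A, (T.s ^ n) d ∉ A →
    ∃ e ∈ A, T.tl e = T.tl d ∧ T.s e ∉ A := by
  induction n with
  | zero =>
    intro d hd h
    exact absurd hd h
  | succ n ih =>
    intro d hd h
    rw [pow_succ, Equiv.Perm.mul_apply] at h
    by_cases h1 : T.s d ∈ A
    · obtain ⟨e, he, h2, h3⟩ := ih _ h1 h
      exact ⟨e, he, by rw [h2, T.tl_s], h3⟩
    · exact ⟨d, hd, rfl, h1⟩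

private theorem s_notMem {T : Tri D} {A : Finset D} {c : Fin ℓ → D} (h : Cut T A c) (i : Fin ℓ) :
    T.s (c i) ∉ A := by
  intro h1
  exact h.anmem i ((h.fA _).1 h1)

theorem Cut.compl {T : Tri D} {A : Finset D} {c : Fin ℓ → D} (h : Cut T A c) :
    Cut T Aᶜ (rc T c) := by
  refine ⟨h.pos, ?_, ?_, ?_, ?_⟩
  · intro d
    rw [Finset.mem_compl, Finset.mem_compl, h.fA]
  · intro d
    rw [Finset.mem_compl, Finset.mem_compl, not_not]
    constructor
    · rintro ⟨h1, h2⟩
      obtain ⟨i, hi⟩ := (h.bd (T.a d)).1 ⟨h2, by rw [T.aa]; exact h1⟩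
      refine ⟨i.rev, ?_⟩
      show T.a (c i.rev.rev) = d
      rw [Fin.rev_rev, hi, T.aa]
    · rintro ⟨i, rfl⟩
      refine ⟨h.anmem _, ?_⟩
      show T.a (T.a (c i.rev)) ∈ A
      rw [T.aa]
      exact h.mem _
  · intro i
    show T.hd (T.a (c i.rev)) = T.tl (T.a (c (finRotate ℓ i).rev))
    rw [T.hd_a]
    have h1 : T.tl (T.a (c (finRotate ℓ i).rev)) = T.hd (c (finRotate ℓ i).rev) := rfl
    rw [h1, h.next, rot_rev]
  · intro i j hij
    have h1 : T.hd (c i.rev) = T.hd (c j.rev) := hij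
    rw [h.next, h.next] at h1
    have h2 := h.inj h1
    exact Fin.rev_injective ((finRotate ℓ).injective h2)

theorem cap_two {T : Tri D} {A : Finset D} {c : Fin ℓ → D} (h : Cut T A c) :
    (T.VK A).card + (T.VK Aᶜ).card = Nat.card T.V + ℓ ∧ ℓ ≤ (T.VK A).card ∧
      ℓ ≤ (T.VK Aᶜ).card := by
  haveI : Finite T.V := Quotient.finite _
  haveI : Fintype T.V := Fintype.ofFinite _
  have hCcard : (Finset.univ.image fun i => T.tl (c i)).card = ℓ := by
    rw [Finset.card_image_of_injective _ h.inj, Finset.card_univ, Fintype.card_fin]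
  have hCA : (Finset.univ.image fun i => T.tl (c i)) ⊆ T.VK A := by
    intro v hv
    obtain ⟨i, _, rfl⟩ := Finset.mem_image.1 hv
    exact Finset.mem_image.2 ⟨c i, h.mem i, rfl⟩
  have hCB : (Finset.univ.image fun i => T.tl (c i)) ⊆ T.VK Aᶜ := by
    intro v hv
    obtain ⟨i, _, rfl⟩ := Finset.mem_image.1 hv
    exact Finset.mem_image.2 ⟨T.s (c i), Finset.mem_compl.2 (s_notMem h i), T.tl_s _⟩
  have hU : T.VK A ∪ T.VK Aᶜ = Finset.univ := by
    ext v
    simp only [Finset.mem_union, Finset.mem_univ, iff_true]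
    obtain ⟨d, rfl⟩ := Quotient.exists_rep v
    by_cases hd : d ∈ A
    · exact Or.inl (Finset.mem_image.2 ⟨d, hd, rfl⟩)
    · exact Or.inr (Finset.mem_image.2 ⟨d, Finset.mem_compl.2 hd, rfl⟩)
  have hI : T.VK A ∩ T.VK Aᶜ = Finset.univ.image fun i => T.tl (c i) := by
    apply Finset.Subset.antisymm
    · intro v hv
      obtain ⟨h1, h2⟩ := Finset.mem_inter.1 hv
      obtain ⟨d, hd, rfl⟩ := Finset.mem_image.1 h1
      obtain ⟨d', hd', he⟩ := Finset.mem_image.1 h2
      rw [Finset.mem_compl] at hd'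
      have hs : T.s.SameCycle d d' := (T.tl_eq_iff d d').1 he.symm
      obtain ⟨n, hn⟩ := hs.exists_nat_pow_eq
      obtain ⟨e, heA, he1, he2⟩ := leave T A n d hd (by rw [hn]; exact hd')
      have h3 : T.a e ∉ A := fun h4 => he2 ((h.fA _).2 h4)
      obtain ⟨i, hi⟩ := (h.bd e).1 ⟨heA, h3⟩
      refine Finset.mem_image.2 ⟨i, Finset.mem_univ _, ?_⟩
      rw [hi, he1]
    · exact Finset.subset_inter hCA hCB
  refine ⟨?_, ?_, ?_⟩
  · rw [← Finset.card_union_add_card_inter, hU, hI, hCcard, Finset.card_univ,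
      Nat.card_eq_fintype_card]
  · calc ℓ = _ := hCcard.symm
      _ ≤ _ := Finset.card_le_card hCA
  · calc ℓ = _ := hCcard.symm
      _ ≤ _ := Finset.card_le_card hCB

end GNH
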