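import Pool.Agent.GNH.Cap

/-!
# GNH-CapV: number of vertices of the capped side

The map `capV` sends the darts of the capped side to their tails in `T` (the darts at the apex of the cone are sent to
`none`). It is constant on the vertices of the capped side, injective on vertices, and its values are `none` and the
vertices of `A`.
-/

namespace GNH

open SST Classical

variable {D : Type} [Fintype D] {ℓ : ℕ}

/-- the tail in `T` of a dart of the capped side, `none` at the apex -/
private noncomputable def capV (T : Tri D) (A : Finset D) (c : Fin ℓ → D) :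
    {d // d ∈ A} ⊕ Fin ℓ × Fin 3 → Option T.V
  | Sum.inl d => some (T.tl d.1)
  | Sum.inr x => if x.2 = 0 then some (T.hd (c x.1)) else if x.2 = 1 then some (T.tl (c x.1))
      else none

section
variable {T : Tri D} {A : Finset D} {c : Fin ℓ → D} (h : Cut T A c)

omit [Fintype D] in
private theorem capV_inl {d : D} (hd : d ∈ A) : capV T A c (Sum.inl ⟨d, hd⟩) = some (T.tl d) := rfl

omit [Fintype D] in
private theorem capV_zero (i : Fin ℓ) : capV T A c (Sum.inr (i, 0)) = some (T.hd (c i)) := rfl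

omit [Fintype D] in
private theorem capV_one (i : Fin ℓ) : capV T A c (Sum.inr (i, 1)) = some (T.tl (c i)) := rfl

omit [Fintype D] in
private theorem capV_two (i : Fin ℓ) : capV T A c (Sum.inr (i, 2)) = none := rfl

private theorem capS_in {d : D} (hd : d ∈ A) (h' : T.a d ∈ A) :
    (cap h).s (Sum.inl ⟨d, hd⟩) = Sum.inl ⟨T.s d, (h.fA (T.a d)).2 h'⟩ := by
  show capF h (capA h (Sum.inl ⟨d, hd⟩)) = _
  rw [capA_in h hd h']
  rfl

private theorem capS_bd (i : Fin ℓ) : (cap h).s (Sum.inl ⟨c i, h.mem i⟩) = Sum.inr (i, 1) := by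
  show capF h (capA h (Sum.inl ⟨c i, h.mem i⟩)) = _
  rw [capA_bd h i]
  rfl

private theorem capS_zero (i : Fin ℓ) : (cap h).s (Sum.inr (i, 0)) =
    Sum.inl ⟨T.f (c i), (h.fA (c i)).2 (h.mem i)⟩ := rfl

private theorem capS_one (i : Fin ℓ) : (cap h).s (Sum.inr (i, 1)) =
    Sum.inr ((finRotate ℓ).symm i, 0) := rfl

private theorem capS_two (i : Fin ℓ) : (cap h).s (Sum.inr (i, 2)) = Sum.inr (finRotate ℓ i, 2) :=
  rfl

private theorem fin3' (j : Fin 3) : j = 0 ∨ j = 1 ∨ j = 2 := by
  revert j; decide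

private theorem capV_s (x : {d // d ∈ A} ⊕ Fin ℓ × Fin 3) :
    capV T A c ((cap h).s x) = capV T A c x := by
  rcases x with ⟨d, hd⟩ | ⟨i, j⟩
  · by_cases h' : T.a d ∈ A
    · rw [capS_in h hd h', capV_inl, capV_inl, T.tl_s]
    · obtain ⟨i, rfl⟩ := (h.bd d).1 ⟨hd, h'⟩
      rw [capS_bd, capV_one, capV_inl]
  · rcases fin3' j with rfl | rfl | rfl
    · rw [capS_zero, capV_zero, capV_inl, T.tl_f]
    · rw [capS_one, capV_zero, capV_one, h.next, Equiv.apply_symm_apply]
    · rw [capS_two, capV_two, capV_two]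

private theorem capT_s (x : {d // d ∈ A} ⊕ Fin ℓ × Fin 3) :
    (cap h).tl ((cap h).s x) = (cap h).tl x := Tri.tl_s _ _

/-- the darts at the apex have the same tail -/
private theorem capT_two (i j : Fin ℓ) :
    (cap h).tl (Sum.inr (i, 2)) = (cap h).tl (Sum.inr (j, 2)) := by
  have hs : ∀ i, (cap h).tl (Sum.inr (finRotate ℓ i, 2)) = (cap h).tl (Sum.inr (i, 2)) := by
    intro i
    rw [← capS_two h, capT_s]
  have key : ∀ (n : ℕ) (g : Fin n → (cap h).V), (∀ i, g (finRotate n i) = g i) →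
      ∀ i j, g i = g j := by
    intro n g hg
    cases n with
    | zero => exact fun i => i.elim0
    | succ n =>
      have h0 : ∀ (k : ℕ) (hk : k < n + 1), g ⟨k, hk⟩ = g 0 := by
        intro k
        induction k with
        | zero => exact fun _ => rfl
        | succ k ih =>
          intro hk
          have h1 : k < n := Nat.lt_of_succ_lt_succ hk
          rw [← ih (h1.trans (Nat.lt_succ_self n)), ← hg ⟨k, h1.trans (Nat.lt_succ_self n)⟩,
            finRotate_of_lt h1]
      exact fun i j => (h0 i.1 i.2).trans (h0 j.1 j.2).symm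
  exact key ℓ (fun i => (cap h).tl (Sum.inr (i, 2))) hs i j

private theorem capT_one (i : Fin ℓ) :
    (cap h).tl (Sum.inr (i, 1)) = (cap h).tl (Sum.inl ⟨c i, h.mem i⟩) := by
  rw [← capS_bd h, capT_s]

private theorem capT_zero (i : Fin ℓ) : (cap h).tl (Sum.inr (i, 0)) =
    (cap h).tl (Sum.inl ⟨T.f (c i), (h.fA (c i)).2 (h.mem i)⟩) := by
  rw [← capS_zero h, capT_s]

/-- going around a vertex of `T`, over the complement of `A` -/
private theorem capT_pow (m : ℕ) : ∀ (d : D) (hd : d ∈ A) (hm : (T.s ^ m) d ∈ A),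
    (cap h).tl (Sum.inl ⟨d, hd⟩) = (cap h).tl (Sum.inl ⟨(T.s ^ m) d, hm⟩) := by
  induction m using Nat.strong_induction_on with
  | _ m ih =>
    intro d hd hm
    rcases Nat.eq_zero_or_pos m with rfl | hm0
    · rfl
    by_cases h' : T.a d ∈ A
    · have h1 : T.s d ∈ A := (h.fA (T.a d)).2 h'
      have h2 : (T.s ^ (m - 1)) (T.s d) = (T.s ^ m) d := by
        rw [← Equiv.Perm.mul_apply, ← pow_succ, Nat.sub_add_cancel hm0]
      have h3 := ih (m - 1) (by omega) (T.s d) h1 (by rw [h2]; exact hm)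
      have h4 : (cap h).tl (Sum.inl ⟨d, hd⟩) = (cap h).tl (Sum.inl ⟨T.s d, h1⟩) := by
        rw [← capT_s h (Sum.inl ⟨d, hd⟩), capS_in h hd h']
      rw [h4, h3]
      congr 2
      exact Subtype.ext h2
    · obtain ⟨i, rfl⟩ := (h.bd d).1 ⟨hd, h'⟩
      have hex : ∃ k, 0 < k ∧ (T.s ^ k) (c i) ∈ A := ⟨m, hm0, hm⟩
      obtain ⟨k, ⟨hk0, hkA⟩, hmin⟩ : ∃ k, (0 < k ∧ (T.s ^ k) (c i) ∈ A) ∧
          ∀ l, l < k → ¬ (0 < l ∧ (T.s ^ l) (c i) ∈ A) :=
        ⟨Nat.find hex, Nat.find_spec hex, fun l hl => Nat.find_min hex hl⟩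
      have hkm : k ≤ m := by
        by_contra hlt
        exact hmin m (not_le.1 hlt) ⟨hm0, hm⟩
      obtain ⟨e, he⟩ : ∃ e, e = (T.s ^ (k - 1)) (c i) := ⟨_, rfl⟩
      have hse : T.s e = (T.s ^ k) (c i) := by
        rw [he, ← Equiv.Perm.mul_apply, ← pow_succ', Nat.sub_add_cancel hk0]
      have hae : T.a e ∈ A := by
        rw [← h.fA]
        have : T.f (T.a e) = T.s e := rfl
        rw [this, hse]
        exact hkA
      have heA : e ∉ A := by
        intro heA
        rcases Nat.eq_or_lt_of_le (Nat.succ_le_of_lt hk0) with h1 | h1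
        · rw [← h1] at he
          have h2 : e = c i := he
          rw [h2] at hae
          exact h' hae
        · exact hmin (k - 1) (by omega) ⟨by omega, he ▸ heA⟩
      obtain ⟨j, hj⟩ := (h.bd (T.a e)).1 ⟨hae, by rw [T.aa]; exact heA⟩
      have htl : ∀ n : ℕ, T.tl ((T.s ^ n) (c i)) = T.tl (c i) := by
        intro n
        induction n with
        | zero => rfl
        | succ n ihn => rw [pow_succ', Equiv.Perm.mul_apply, T.tl_s, ihn]
      have hji : finRotate ℓ j = i := by
        apply h.inj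
        show T.tl (c (finRotate ℓ j)) = T.tl (c i)
        rw [← h.next, hj, T.hd_a, he, htl]
      have hj' : (finRotate ℓ).symm i = j := by rw [← hji, Equiv.symm_apply_apply]
      have hfc : T.f (c j) = (T.s ^ k) (c i) := by
        rw [hj, ← hse]
        rfl
      have h5 : (cap h).tl (Sum.inl ⟨c i, hd⟩) = (cap h).tl (Sum.inl ⟨(T.s ^ k) (c i), hkA⟩) := by
        rw [← capT_one h i, ← capT_s h (Sum.inr (i, 1)), capS_one, hj', capT_zero]
        congr 2
        exact Subtype.ext hfc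
      have h6 : (T.s ^ (m - k)) ((T.s ^ k) (c i)) = (T.s ^ m) (c i) := by
        rw [← Equiv.Perm.mul_apply, ← pow_add, Nat.sub_add_cancel hkm]
      have h7 := ih (m - k) (by omega) ((T.s ^ k) (c i)) hkA (by rw [h6]; exact hm)
      rw [h5, h7]
      congr 2
      exact Subtype.ext h6

private theorem capT_inl {d d' : D} (hd : d ∈ A) (hd' : d' ∈ A) (he : T.tl d = T.tl d') :
    (cap h).tl (Sum.inl ⟨d, hd⟩) = (cap h).tl (Sum.inl ⟨d', hd'⟩) := by
  obtain ⟨m, rfl⟩ : ∃ m : ℕ, (T.s ^ m) d = d' := by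
    obtain ⟨m, -, hm⟩ := ((T.tl_eq_iff d d').1 he).exists_pow_eq'
    exact ⟨m, hm⟩
  exact capT_pow h m d hd hd'

/-- every dart not at the apex is at the vertex of a dart of `A` -/
private theorem cap_rep (x : {d // d ∈ A} ⊕ Fin ℓ × Fin 3) (hx : capV T A c x ≠ none) :
    ∃ d, ∃ hd : d ∈ A, (cap h).tl x = (cap h).tl (Sum.inl ⟨d, hd⟩) ∧
      capV T A c x = some (T.tl d) := by
  rcases x with ⟨d, hd⟩ | ⟨i, j⟩
  · exact ⟨d, hd, rfl, rfl⟩
  · rcases fin3' j with rfl | rfl | rfl
    · exact ⟨T.f (c i), (h.fA (c i)).2 (h.mem i), capT_zero h i, by rw [capV_zero, T.tl_f]⟩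
    · exact ⟨c i, h.mem i, capT_one h i, by rw [capV_one]⟩
    · exact absurd (capV_two i) hx

private theorem cap_none (x : {d // d ∈ A} ⊕ Fin ℓ × Fin 3) (hx : capV T A c x = none) :
    ∃ i : Fin ℓ, x = Sum.inr (i, 2) := by
  rcases x with ⟨d, hd⟩ | ⟨i, j⟩
  · rw [capV_inl] at hx
    exact absurd hx (Option.some_ne_none _)
  · rcases fin3' j with rfl | rfl | rfl
    · rw [capV_zero] at hx
      exact absurd hx (Option.some_ne_none _)
    · rw [capV_one] at hx
      exact absurd hx (Option.some_ne_none _)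
    · exact ⟨i, rfl⟩

private theorem cap_inj {x y : {d // d ∈ A} ⊕ Fin ℓ × Fin 3}
    (hxy : capV T A c x = capV T A c y) : (cap h).tl x = (cap h).tl y := by
  by_cases hx : capV T A c x = none
  · obtain ⟨i, rfl⟩ := cap_none x hx
    obtain ⟨j, rfl⟩ := cap_none y (hxy ▸ hx)
    exact capT_two h i j
  · obtain ⟨d, hd, h1, h2⟩ := cap_rep h x hx
    obtain ⟨e, he, h3, h4⟩ := cap_rep h y (hxy ▸ hx)
    rw [h1, h3]
    refine capT_inl h hd he ?_
    rw [h2, h4] at hxy
    exact Option.some_injective _ hxy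

private theorem capV_cyc {x y : {d // d ∈ A} ⊕ Fin ℓ × Fin 3} (hxy : (cap h).s.SameCycle x y) :
    capV T A c x = capV T A c y := by
  obtain ⟨k, rfl⟩ := hxy
  have hn : ∀ (n : ℕ) (x : {d // d ∈ A} ⊕ Fin ℓ × Fin 3),
      capV T A c (((cap h).s ^ n) x) = capV T A c x := by
    intro n
    induction n with
    | zero => exact fun _ => rfl
    | succ n ihn =>
      intro x
      rw [pow_succ', Equiv.Perm.mul_apply, capV_s, ihn]
  rcases k with n | n
  · exact (hn n x).symm
  · have h1 := hn (n + 1) (((cap h).s ^ (Int.negSucc n)) x)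
    rw [← h1, ← Equiv.Perm.mul_apply, ← zpow_natCast, ← zpow_add]
    have h2 : ((n + 1 : ℕ) : ℤ) + Int.negSucc n = 0 := by
      rw [Int.negSucc_eq]
      push_cast
      ring
    rw [h2, zpow_zero]
    rfl

end

theorem cap_card_V {T : Tri D} {A : Finset D} {c : Fin ℓ → D} (h : Cut T A c) :
    Nat.card (cap h).V = (T.VK A).card + 1 := by
  obtain ⟨F, hF⟩ : ∃ F : (cap h).V → Option T.V, ∀ x, F ((cap h).tl x) = capV T A c x :=
    ⟨Quotient.lift (capV T A c) fun x y hxy => capV_cyc h hxy, fun _ => rfl⟩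
  have hsurj : ∀ v : (cap h).V, ∃ x, (cap h).tl x = v := fun v => Quotient.exists_rep v
  have hinj : Function.Injective F := by
    intro v w hvw
    obtain ⟨x, rfl⟩ := hsurj v
    obtain ⟨y, rfl⟩ := hsurj w
    rw [hF, hF] at hvw
    exact cap_inj h hvw
  have hrange : Set.range F = insert none (some '' (T.VK A : Set T.V)) := by
    ext o
    constructor
    · rintro ⟨v, rfl⟩
      obtain ⟨x, rfl⟩ := hsurj v
      rw [hF]
      by_cases hx : capV T A c x = none
      · rw [hx]
        exact Set.mem_insert _ _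
      · obtain ⟨d, hd, -, h2⟩ := cap_rep h x hx
        rw [h2]
        exact Set.mem_insert_of_mem _ ⟨T.tl d, Finset.mem_coe.2 (Finset.mem_image_of_mem _ hd), rfl⟩
    · rintro (rfl | ⟨v, hv, rfl⟩)
      · exact ⟨(cap h).tl (Sum.inr (⟨0, h.pos⟩, 2)), by rw [hF, capV_two]⟩
      · obtain ⟨d, hd, rfl⟩ := Finset.mem_image.1 (Finset.mem_coe.1 hv)
        exact ⟨(cap h).tl (Sum.inl ⟨d, hd⟩), by rw [hF, capV_inl]⟩
  have h1 : Nat.card (cap h).V = (Set.range F).ncard := by
    rw [← Set.image_univ, Set.ncard_image_of_injective _ hinj, Set.ncard_univ]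
  rw [h1, hrange, Set.ncard_insert_of_notMem, Set.ncard_image_of_injective _ (Option.some_injective _),
    Set.ncard_coe_finset]
  · rintro ⟨v, -, hv⟩
    exact Option.some_ne_none _ hv

end GNH
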