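import Pool.Agent.GNH.Defs
import Pool.Agent.SST.D.Rank

/-!
# GNH-CocDim: the space of cocycles has dimension at least `n + 1`
Model: `SST/D/Rank.lean` (`dim_H`, `range_AA`, `finrank_invS`, `card_a`, `card_f`; they are private, copy what
you need).  The antisymmetric functions `x (a d) = - x d` form a space of dimension at least `3 n` (kernel of
`x ↦ x + x ∘ a`, whose range consists of `a`-invariant functions, dimension at most the number of orbits of `a`
`≤ 3 n`; the total dimension is `6 n`).  The linear map `x ↦ (d ↦ x d + x (f d) + x (f (f d)))` from the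
antisymmetric functions takes values in the `f`-invariant functions (dimension `≤ 2 n`) with total sum 0
(`∑ x d = 0` as `x (a d) = - x d`), a proper subspace (constants), dimension `≤ 2 n - 1`.  So the kernel
`Co T` has dimension at least `3 n - (2 n - 1) = n + 1`.
(Alternative: `liftx` + `dim_H`.)
-/

namespace GNH

open SST Classical

variable {D : Type} [Fintype D]

/-- Functions invariant under a permutation. -/
private def invS (σ : Equiv.Perm D) : Submodule ℝ (D → ℝ) where
  carrier := {g | ∀ d, g (σ d) = g d}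
  add_mem' := by
    intro g g' hg hg' d
    rw [Pi.add_apply, Pi.add_apply, hg d, hg' d]
  zero_mem' := by
    intro d
    rfl
  smul_mem' := by
    intro c g hg d
    rw [Pi.smul_apply, Pi.smul_apply, hg d]

private theorem inv_pow {σ : Equiv.Perm D} {g : D → ℝ} (hg : ∀ d, g (σ d) = g d) (n : ℕ) (d : D) :
    g ((σ ^ n) d) = g d := by
  induction n generalizing d with
  | zero => rfl
  | succ n ih => rw [pow_succ, Equiv.Perm.mul_apply, ih, hg]

private theorem inv_sc {σ : Equiv.Perm D} {g : D → ℝ} (hg : ∀ d, g (σ d) = g d) {d e : D}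
    (h : σ.SameCycle d e) : g d = g e := by
  obtain ⟨i, rfl⟩ := h
  obtain ⟨n, rfl | rfl⟩ := i.eq_nat_or_neg
  · rw [zpow_natCast, inv_pow hg]
  · have h1 := inv_pow hg n ((σ ^ (-(n : ℤ))) d)
    rw [← zpow_natCast, ← Equiv.Perm.mul_apply, ← zpow_add, add_neg_cancel, zpow_zero,
      Equiv.Perm.one_apply] at h1
    exact h1

private theorem finrank_invS (σ : Equiv.Perm D) :
    Module.finrank ℝ (invS σ) ≤ Nat.card (Quotient (Equiv.Perm.SameCycle.setoid σ)) := by
  have : Fintype (Quotient (Equiv.Perm.SameCycle.setoid σ)) := Fintype.ofFinite _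
  let Φ : invS σ →ₗ[ℝ] (Quotient (Equiv.Perm.SameCycle.setoid σ) → ℝ) :=
    { toFun := fun g q => g.1 q.out
      map_add' := fun g g' => rfl
      map_smul' := fun c g => rfl }
  have hΦ : Function.Injective Φ := by
    intro g g' h
    apply Subtype.ext
    funext d
    have h1 : σ.SameCycle (Quotient.mk (Equiv.Perm.SameCycle.setoid σ) d).out d :=
      Quotient.exact (Quotient.out_eq (Quotient.mk (Equiv.Perm.SameCycle.setoid σ) d))
    rw [← inv_sc g.2 h1, ← inv_sc g'.2 h1]
    exact congrFun h (Quotient.mk (Equiv.Perm.SameCycle.setoid σ) d)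
  have h2 := LinearMap.finrank_le_finrank_of_injective hΦ
  rwa [Module.finrank_fintype_fun_eq_card, ← Nat.card_eq_fintype_card] at h2

private theorem mk_out {σ : Equiv.Perm D} (q : Quotient (Equiv.Perm.SameCycle.setoid σ)) (n : ℕ) :
    Quotient.mk (Equiv.Perm.SameCycle.setoid σ) ((σ ^ n) q.out) = q := by
  conv_rhs => rw [← Quotient.out_eq q]
  apply Quotient.sound
  exact Equiv.Perm.sameCycle_pow_left.2 (Equiv.Perm.SameCycle.refl σ _)

private theorem card_quot (σ : Equiv.Perm D) (k : ℕ)
    (hk : ∀ (d : D) (i j : Fin k), (σ ^ (i : ℕ)) d = (σ ^ (j : ℕ)) d → i = j) :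
    k * Nat.card (Quotient (Equiv.Perm.SameCycle.setoid σ)) ≤ Fintype.card D := by
  have : Fintype (Quotient (Equiv.Perm.SameCycle.setoid σ)) := Fintype.ofFinite _
  let u : Fin k × Quotient (Equiv.Perm.SameCycle.setoid σ) → D := fun x => (σ ^ (x.1 : ℕ)) x.2.out
  have hu : Function.Injective u := by
    rintro ⟨i, q⟩ ⟨j, q'⟩ h
    have h1 : q = q' := by
      rw [← mk_out q i, ← mk_out q' j]
      exact congrArg _ h
    subst h1
    rw [hk q.out i j h]
  have h2 := Fintype.card_le_of_injective u hu
  rwa [Fintype.card_prod, Fintype.card_fin, ← Nat.card_eq_fintype_card] at h2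

private theorem card_a (T : Tri D) :
    2 * Nat.card (Quotient (Equiv.Perm.SameCycle.setoid T.a)) ≤ Fintype.card D := by
  apply card_quot
  intro d i j h
  have h1 := T.ane d
  obtain ⟨i, hi⟩ := i
  obtain ⟨j, hj⟩ := j
  change (T.a ^ i) d = (T.a ^ j) d at h
  apply Fin.ext
  change i = j
  have e0 : (T.a ^ 0) d = d := rfl
  have e1 : (T.a ^ 1) d = T.a d := by rw [pow_one]
  interval_cases i <;> interval_cases j <;> first | rfl | (exfalso; simp only [e0, e1] at h)
  · exact h1 h.symm
  · exact h1 h

private theorem card_f (T : Tri D) :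
    3 * Nat.card (Quotient (Equiv.Perm.SameCycle.setoid T.f)) ≤ Fintype.card D := by
  apply card_quot
  intro d i j h
  have h1 : T.f d ≠ d := T.fne d
  have h2 : T.f (T.f d) ≠ T.f d := T.fne (T.f d)
  have h3 : T.f (T.f d) ≠ d := by
    intro h4
    have h5 := T.fff d
    rw [h4] at h5
    exact h1 h5
  have e0 : (T.f ^ 0) d = d := rfl
  have e1 : (T.f ^ 1) d = T.f d := by rw [pow_one]
  have e2 : (T.f ^ 2) d = T.f (T.f d) := by rw [pow_two, Equiv.Perm.mul_apply]
  obtain ⟨i, hi⟩ := i
  obtain ⟨j, hj⟩ := j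
  change (T.f ^ i) d = (T.f ^ j) d at h
  apply Fin.ext
  change i = j
  interval_cases i <;> interval_cases j <;> first | rfl | (exfalso; simp only [e0, e1, e2] at h)
  · exact h1 h.symm
  · exact h3 h.symm
  · exact h1 h
  · exact h2 h.symm
  · exact h3 h
  · exact h2 h

/-- `x ↦ x + x ∘ a`; its kernel consists of the antisymmetric functions -/
private def AS (T : Tri D) : (D → ℝ) →ₗ[ℝ] (D → ℝ) where
  toFun x := fun d => x d + x (T.a d)
  map_add' := by
    intro h h'
    funext d
    simp only [Pi.add_apply]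
    ring
  map_smul' := by
    intro c h
    funext d
    simp only [Pi.smul_apply, smul_eq_mul, RingHom.id_apply]
    ring

private theorem mem_ker_AS {T : Tri D} {x : D → ℝ} (h : x ∈ LinearMap.ker (AS T)) (d : D) :
    x (T.a d) = - x d := by
  rw [LinearMap.mem_ker] at h
  have h1 : x d + x (T.a d) = 0 := congrFun h d
  linarith

private theorem sum_ker_AS {T : Tri D} {x : D → ℝ} (h : x ∈ LinearMap.ker (AS T)) :
    ∑ d, x d = 0 := by
  have h1 := Equiv.sum_comp T.a x
  have h2 : ∑ d, x (T.a d) = - ∑ d, x d := by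
    rw [← Finset.sum_neg_distrib]
    exact Finset.sum_congr rfl fun d _ => mem_ker_AS h d
  linarith

private theorem dim_AS (T : Tri D) {n : ℕ} (hD : Fintype.card D = 6 * n) :
    3 * n ≤ Module.finrank ℝ (LinearMap.ker (AS T)) := by
  have h1 := (AS T).finrank_range_add_finrank_ker
  rw [Module.finrank_fintype_fun_eq_card, hD] at h1
  have h2 : LinearMap.range (AS T) ≤ invS T.a := by
    rintro _ ⟨x, rfl⟩ d
    change x (T.a d) + x (T.a (T.a d)) = x d + x (T.a d)
    rw [T.aa]
    ring
  have h3 := Submodule.finrank_mono h2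
  have h4 := finrank_invS T.a
  have h5 := card_a T
  omega

/-- the coboundary map on antisymmetric functions -/
private def FF (T : Tri D) : LinearMap.ker (AS T) →ₗ[ℝ] (D → ℝ) where
  toFun x := fun d => x.1 d + x.1 (T.f d) + x.1 (T.f (T.f d))
  map_add' := by
    intro h h'
    funext d
    simp only [Submodule.coe_add, Pi.add_apply]
    ring
  map_smul' := by
    intro c h
    funext d
    simp only [Submodule.coe_smul, Pi.smul_apply, smul_eq_mul, RingHom.id_apply]
    ring

private theorem range_FF (T : Tri D) [Nonempty D] :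
    Module.finrank ℝ (LinearMap.range (FF T)) + 1 ≤ Module.finrank ℝ (invS T.f) := by
  let tot : (D → ℝ) →ₗ[ℝ] ℝ :=
    { toFun := fun h => ∑ d, h d
      map_add' := fun h h' => by simp only [Pi.add_apply, Finset.sum_add_distrib]
      map_smul' := fun c h => by
        simp only [Pi.smul_apply, smul_eq_mul, RingHom.id_apply, Finset.mul_sum] }
  have h1 : LinearMap.range (FF T) ≤ invS T.f ⊓ LinearMap.ker tot := by
    rintro _ ⟨x, rfl⟩
    refine ⟨?_, ?_⟩
    · intro d
      change x.1 (T.f d) + x.1 (T.f (T.f d)) + x.1 (T.f (T.f (T.f d))) =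
        x.1 d + x.1 (T.f d) + x.1 (T.f (T.f d))
      rw [T.fff]
      ring
    · change FF T x ∈ LinearMap.ker tot
      rw [LinearMap.mem_ker]
      change ∑ d, (x.1 d + x.1 (T.f d) + x.1 (T.f (T.f d))) = 0
      have h2 := Equiv.sum_comp T.f x.1
      have h3 := Equiv.sum_comp T.f (fun d => x.1 (T.f d))
      have h4 := sum_ker_AS x.2
      rw [Finset.sum_add_distrib, Finset.sum_add_distrib]
      have h5 : ∑ d, x.1 (T.f (T.f d)) = ∑ d, x.1 (T.f d) := h3
      rw [h5, h2, h4]
      ring
  have h2 : invS T.f ⊓ LinearMap.ker tot < invS T.f := by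
    refine lt_of_le_of_ne inf_le_left ?_
    intro h3
    have h4 : (fun _ => (1 : ℝ)) ∈ invS T.f := fun d => rfl
    rw [← h3] at h4
    have h5 : ∑ _d : D, (1 : ℝ) = 0 := h4.2
    rw [Finset.sum_const, Finset.card_univ, nsmul_eq_mul, mul_one] at h5
    have h6 : 0 < Fintype.card D := Fintype.card_pos
    have h7 : (Fintype.card D : ℝ) ≠ 0 := by positivity
    exact h7 h5
  exact (Nat.succ_le_succ (Submodule.finrank_mono h1)).trans
    (Nat.succ_le_of_lt (Submodule.finrank_lt_finrank_of_lt h2))

theorem finrank_Co (T : Tri D) [Nonempty D] {n : ℕ} (hD : Fintype.card D = 6 * n) :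
    n + 1 ≤ Module.finrank ℝ (Co T) := by
  have h1 := (FF T).finrank_range_add_finrank_ker
  have h2 := range_FF T
  have h3 := finrank_invS T.f
  have h4 := card_f T
  have h5 := dim_AS T hD
  have h6 : (LinearMap.ker (FF T)).map (LinearMap.ker (AS T)).subtype ≤ Co T := by
    rintro _ ⟨x, hx, rfl⟩
    refine ⟨fun d => mem_ker_AS x.2 d, fun d => ?_⟩
    exact congrFun (LinearMap.mem_ker.1 hx) d
  have h7 := Submodule.finrank_mono h6
  rw [Submodule.finrank_map_subtype_eq] at h7
  omega

end GNH
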