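import Pool.Agent.GNH.Defs
import Pool.Agent.SST.D.NonCon

/-!
# GNH-Comm: the commutator is separating and not contractible
`c := α ++ β ++ (α.map a).reverse ++ (β.map a).reverse`.
* `Closed`: `walk_append`, `walk_rev`.
* chain 0: `chain_append`, `chain_rev`; `NullHom` with `k = 0`.
* not null-homotopic: `A d := - (x d * y (f d) - x (f d) * y d)` satisfies `A (f d) = A d` (cocycle identities:
  `x (f (f d)) = - x d - x (f d)`, the same for `y`, and `T.fff`; see the proof of `Tri.not_htp` in
  `SST/D/NonCon`) and `∑ A = - Area x y = 0`; `exists_prim` (`SST/D/Prim`) gives `t` antisymmetric with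
  `t d + t (f d) + t (f (f d)) = A d`.  If `c` were null-homotopic then `hol x y t c = 0` (`Tri.hol_htp`).
  `hol` of a list `l` has first components `per x l`, `per y l`.  `hol (reversed) ` is the inverse:
  `hm (hol l) (hol (l.map a).reverse) = (0,0,0)` for antisymmetric `x, y, t` (induction on `l`, `hm_assoc`).
  In the Heisenberg group the commutator of `(p, q, r)` and `(p', q', r')` is `(0, 0, 2 (p q' - p' q))` (`hm` with the
  sign convention `p.1 * q.2.1 - q.1 * p.2.1`; the inverse of `(p,q,r)` is `(-p,-q,-r)`).  So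
  `0 = 2 (per x α * per y β - per x β * per y α)`: contradiction.
-/

namespace GNH

open SST Classical

variable {D : Type} [Fintype D]

omit [Fintype D] in
private theorem hol_fst (x y t : D → ℝ) (l : List D) : (Tri.hol x y t l).1 = per x l := by
  induction l with
  | nil => rfl
  | cons d l ih =>
    rw [per_cons, ← ih]
    rfl

omit [Fintype D] in
private theorem hol_snd (x y t : D → ℝ) (l : List D) : (Tri.hol x y t l).2.1 = per y l := by
  induction l with
  | nil => rfl
  | cons d l ih =>
    rw [per_cons, ← ih]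
    rfl

omit [Fintype D] in
private theorem hol_rev (T : Tri D) {x y t : D → ℝ} (hx : ∀ d, x (T.a d) = - x d)
    (hy : ∀ d, y (T.a d) = - y d) (ht : ∀ d, t (T.a d) = - t d) (l : List D) :
    Tri.hol x y t (l.map T.a).reverse =
      (- (Tri.hol x y t l).1, - (Tri.hol x y t l).2.1, - (Tri.hol x y t l).2.2) := by
  induction l with
  | nil =>
    show ((0 : ℝ), (0 : ℝ), (0 : ℝ)) = (-(0 : ℝ), -(0 : ℝ), -(0 : ℝ))
    rw [neg_zero]
  | cons d l ih =>
    rw [List.map_cons, List.reverse_cons, Tri.hol_append, ih]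
    have h1 : Tri.hol x y t [T.a d] = Tri.hm (x (T.a d), y (T.a d), t (T.a d)) (0, 0, 0) := rfl
    have h2 : Tri.hol x y t (d :: l) = Tri.hm (x d, y d, t d) (Tri.hol x y t l) := rfl
    rw [h1, h2, hx, hy, ht]
    generalize Tri.hol x y t l = q
    obtain ⟨q1, q2, q3⟩ := q
    simp only [Tri.hm]
    refine Prod.ext ?_ (Prod.ext ?_ ?_)
    · show -q1 + (-x d + 0) = -(x d + q1)
      ring
    · show -q2 + (-y d + 0) = -(y d + q2)
      ring
    · show -q3 + (-t d + 0 + (-x d * 0 - 0 * -y d)) + (-q1 * (-y d + 0) - (-x d + 0) * -q2) =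
        -(t d + q3 + (x d * q2 - q1 * y d))
      ring

theorem comm_walk (T : Tri D) (hc : T.Conn) {x y : D → ℝ} (hx : T.IsCoc x) (hy : T.IsCoc y)
    (hA : T.Area x y = 0) {v : T.V} {α β : List D} (hα : T.IsWalk v α v) (hβ : T.IsWalk v β v)
    (h : per x α * per y β - per x β * per y α ≠ 0) :
    T.Closed (α ++ β ++ (α.map T.a).reverse ++ (β.map T.a).reverse) ∧
      T.NullHom (α ++ β ++ (α.map T.a).reverse ++ (β.map T.a).reverse) ∧
      ¬ T.NullHtp (α ++ β ++ (α.map T.a).reverse ++ (β.map T.a).reverse) := by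
  refine ⟨⟨v, ?_⟩, ?_, ?_⟩
  · exact T.walk_append (T.walk_append (T.walk_append hα hβ) (T.walk_rev hα)) (T.walk_rev hβ)
  · refine T.nullHom_congr (c' := []) (fun d => ?_) T.nullHom_nil
    rw [T.chain_append, T.chain_append, T.chain_append, T.chain_rev, T.chain_rev, T.chain_nil]
    ring
  · intro hnull
    obtain ⟨A, hAdef⟩ : ∃ A : D → ℝ, A = fun d => - (x d * y (T.f d) - x (T.f d) * y d) := ⟨_, rfl⟩
    have hAf : ∀ d, A (T.f d) = A d := by
      intro d
      rw [hAdef]
      show - (x (T.f d) * y (T.f (T.f d)) - x (T.f (T.f d)) * y (T.f d)) =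
        - (x d * y (T.f d) - x (T.f d) * y d)
      have h1 : x (T.f (T.f d)) = - (x d + x (T.f d)) := by linarith [hx.2 d]
      have h2 : y (T.f (T.f d)) = - (y d + y (T.f d)) := by linarith [hy.2 d]
      rw [h1, h2]
      ring
    have hA0 : ∑ d, A d = 0 := by
      have h1 : ∑ d, A d = - T.Area x y := by
        rw [hAdef]
        unfold Tri.Area
        rw [← Finset.sum_neg_distrib]
      rw [h1, hA, neg_zero]
    obtain ⟨t, hta, htA⟩ := T.exists_prim hc hAf hA0
    have hhol := T.hol_htp (x := x) (y := y) (t := t) hx.1 hy.1 hta hx.2 hy.2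
      (by intro d; rw [htA d, hAdef]; ring) hnull
    rw [Tri.hol_append, Tri.hol_append, Tri.hol_append, hol_rev T hx.1 hy.1 hta,
      hol_rev T hx.1 hy.1 hta] at hhol
    have e1 := hol_fst x y t α
    have e2 := hol_snd x y t α
    have e3 := hol_fst x y t β
    have e4 := hol_snd x y t β
    apply h
    rw [← e1, ← e2, ← e3, ← e4]
    have h3 := congrArg (fun p : ℝ × ℝ × ℝ => p.2.2) hhol
    generalize Tri.hol x y t α = P at *
    generalize Tri.hol x y t β = Q at *
    obtain ⟨p1, p2, p3⟩ := P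
    obtain ⟨q1, q2, q3⟩ := Q
    simp only [Tri.hm] at h3
    show p1 * q2 - q1 * p2 = 0
    linarith

end GNH
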