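import Pool.Agent.SST.D.DDefs
import Pool.Agent.SST.Walk

/-!
# GNH-Euler: Euler's inequality for connected triangulations
The antisymmetric functions `x (a d) = - x d` have dimension at most `3 n` (`x` is determined by its values on one dart
of each pair).  They contain `B_V := {d ↦ q (a d) - q d : q ∘ s = q}`, of dimension `card V - 1` (kernel of
`q ↦ q ∘ a - q`: `q` invariant under `s` and `a`, so under `f = s ∘ a`, constant by `Conn`; the `s`-invariant functions
have dimension `card V`), and `B_F := {d ↦ k d - k (a d) : k ∘ f = k}`, of dimension `2 n - 1` (there are `2 n`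
`f`-orbits, all of length 3).  `B_V ∩ B_F = 0`: if `x = q ∘ a - q = k - k ∘ a` then
`∑ x d ^ 2 = ∑ (q (a d) - q d) (k d - k (a d)) = 2 ∑ q (a d) k d - 2 ∑ q d k d`, and `q (a d) = q (s (a d)) = q (f d)`,
`k d = k (f d)`: `∑ q (f d) k (f d) = ∑ q k`.  So `∑ x ^ 2 = 0`.  Hence `card V - 1 + 2 n - 1 ≤ 3 n`.
(Model for the dimension counts: `SST/D/Rank.lean`.  Alternative without linear algebra: spanning trees.)
-/

namespace GNH

open SST Classical

variable {D : Type} [Fintype D]

private def invS (σ : Equiv.Perm D) : Submodule ℝ (D → ℝ) where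
  carrier := {g | ∀ d, g (σ d) = g d}
  add_mem' := by
    intro g g' hg hg' d
    rw [Pi.add_apply, Pi.add_apply, hg d, hg' d]
  zero_mem' := by
    intro d
    rfl
  smul_mem' := by
    intro c g hg d
    rw [Pi.smul_apply, Pi.smul_apply, hg d]

private def antiS (σ : Equiv.Perm D) : Submodule ℝ (D → ℝ) where
  carrier := {g | ∀ d, g (σ d) = - g d}
  add_mem' := by
    intro g g' hg hg' d
    rw [Pi.add_apply, Pi.add_apply, hg d, hg' d, neg_add]
  zero_mem' := by
    intro d
    simp
  smul_mem' := by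
    intro c g hg d
    rw [Pi.smul_apply, Pi.smul_apply, hg d, smul_neg]

private theorem inv_pow {σ : Equiv.Perm D} {g : D → ℝ} (hg : ∀ d, g (σ d) = g d) (n : ℕ) (d : D) :
    g ((σ ^ n) d) = g d := by
  induction n generalizing d with
  | zero => rfl
  | succ n ih => rw [pow_succ, Equiv.Perm.mul_apply, ih, hg]

private theorem le_finrank_invS (σ : Equiv.Perm D) :
    Nat.card (Quotient (Equiv.Perm.SameCycle.setoid σ)) ≤ Module.finrank ℝ (invS σ) := by
  have : Fintype (Quotient (Equiv.Perm.SameCycle.setoid σ)) := Fintype.ofFinite _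
  let Φ : (Quotient (Equiv.Perm.SameCycle.setoid σ) → ℝ) →ₗ[ℝ] invS σ :=
    { toFun := fun g => ⟨fun d => g (Quotient.mk _ d), fun d =>
        congrArg g (Quotient.sound (Equiv.Perm.sameCycle_apply_left.mpr
          (Equiv.Perm.SameCycle.refl _ _)))⟩
      map_add' := fun g g' => rfl
      map_smul' := fun c g => rfl }
  have hΦ : Function.Injective Φ := by
    intro g g' h
    funext q
    induction q using Quotient.inductionOn with
    | h d => exact congrFun (congrArg Subtype.val h) d
  have h2 := LinearMap.finrank_le_finrank_of_injective hΦ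
  rwa [Module.finrank_fintype_fun_eq_card, ← Nat.card_eq_fintype_card] at h2

private theorem card_le_quot (σ : Equiv.Perm D) (k : ℕ) (hk : 0 < k)
    (h : σ ^ k = 1) :
    Fintype.card D ≤ k * Nat.card (Quotient (Equiv.Perm.SameCycle.setoid σ)) := by
  have : Fintype (Quotient (Equiv.Perm.SameCycle.setoid σ)) := Fintype.ofFinite _
  let u : Fin k × Quotient (Equiv.Perm.SameCycle.setoid σ) → D := fun x => (σ ^ (x.1 : ℕ)) x.2.out
  have hu : Function.Surjective u := by
    intro d
    have h1 : σ.SameCycle (Quotient.mk (Equiv.Perm.SameCycle.setoid σ) d).out d :=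
      Quotient.exact (Quotient.out_eq (Quotient.mk (Equiv.Perm.SameCycle.setoid σ) d))
    obtain ⟨i, hi⟩ := h1
    have hk' : (0 : ℤ) < k := by exact_mod_cast hk
    have h2 : 0 ≤ i % k := Int.emod_nonneg _ hk'.ne'
    have h3 : i % k < k := Int.emod_lt_of_pos _ hk'
    obtain ⟨m, hm⟩ := Int.eq_ofNat_of_zero_le h2
    have h4 : m < k := by omega
    refine ⟨⟨⟨m, h4⟩, Quotient.mk (Equiv.Perm.SameCycle.setoid σ) d⟩, ?_⟩
    change (σ ^ m) (Quotient.mk (Equiv.Perm.SameCycle.setoid σ) d).out = d
    have h5 : σ ^ i = σ ^ m := by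
      have h6 : i = k * (i / k) + i % k := (Int.mul_ediv_add_emod i k).symm
      conv_lhs => rw [h6]
      rw [zpow_add, zpow_mul, zpow_natCast, h, one_zpow, one_mul, hm, zpow_natCast]
    rw [← h5]
    exact hi
  have h2 := Fintype.card_le_of_surjective u hu
  rw [Fintype.card_prod, Fintype.card_fin] at h2
  rw [Nat.card_eq_fintype_card]
  exact h2

private theorem finrank_anti (T : Tri D) {n : ℕ} (hD : Fintype.card D = 6 * n) :
    Module.finrank ℝ (antiS T.a) ≤ 3 * n := by
  have h1 := Submodule.finrank_sup_add_finrank_inf_eq (antiS T.a) (invS T.a)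
  have h2 : Module.finrank ℝ (antiS T.a ⊔ invS T.a : Submodule ℝ (D → ℝ)) ≤ 6 * n := by
    refine (Submodule.finrank_le _).trans ?_
    rw [Module.finrank_fintype_fun_eq_card, hD]
  have h3 : antiS T.a ⊓ invS T.a = ⊥ := by
    rw [eq_bot_iff]
    rintro x ⟨hx, hx'⟩
    rw [Submodule.mem_bot]
    funext d
    have h4 : x (T.a d) = - x d := hx d
    have h5 : x (T.a d) = x d := hx' d
    change x d = 0
    linarith
  have h6 := le_finrank_invS T.a
  have h7 := card_le_quot T.a 2 (by norm_num) (by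
    apply Equiv.ext
    intro d
    exact T.aa d)
  rw [h3, finrank_bot] at h1
  omega

private theorem orth (T : Tri D) {q k : D → ℝ} (hq : ∀ d, q (T.s d) = q d) (hk : ∀ d, k (T.f d) = k d)
    (h : ∀ d, q (T.a d) - q d = k d - k (T.a d)) (d : D) : q (T.a d) - q d = 0 := by
  have h1 : ∑ d, q (T.a d) * k (T.a d) = ∑ d, q d * k d := Equiv.sum_comp T.a (fun d => q d * k d)
  have h2 : ∑ d, q d * k (T.a d) = ∑ d, q (T.a d) * k d := by
    rw [← Equiv.sum_comp T.a (fun d => q d * k (T.a d))]
    exact Finset.sum_congr rfl (fun d _ => by rw [T.aa])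
  have h3 : ∑ d, q (T.a d) * k d = ∑ d, q d * k d := by
    rw [← Equiv.sum_comp T.f (fun d => q d * k d)]
    refine Finset.sum_congr rfl (fun d _ => ?_)
    rw [hk d, ← hq (T.a d), SST.Tri.s_a]
  have h4 : ∑ d, (q (T.a d) - q d) ^ 2 = 0 := by
    have h5 : ∀ d, (q (T.a d) - q d) ^ 2 =
        q (T.a d) * k d - q (T.a d) * k (T.a d) - q d * k d + q d * k (T.a d) := by
      intro d
      have := h d
      calc (q (T.a d) - q d) ^ 2 = (q (T.a d) - q d) * (k d - k (T.a d)) := by rw [← this]; ring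
        _ = _ := by ring
    rw [Finset.sum_congr rfl (fun d _ => h5 d), Finset.sum_add_distrib, Finset.sum_sub_distrib,
      Finset.sum_sub_distrib, h1, h2, h3]
    ring
  have h6 := (Finset.sum_eq_zero_iff_of_nonneg (fun d _ => sq_nonneg (q (T.a d) - q d))).1 h4 d
    (Finset.mem_univ d)
  exact pow_eq_zero_iff (two_ne_zero) |>.1 h6

private theorem const (T : Tri D) (hT : T.Conn) {q : D → ℝ} (ha : ∀ d, q (T.a d) = q d)
    (hf : ∀ d, q (T.f d) = q d) (d e : D) : q d = q e := by
  have h1 := hT {x | q x = q e} ⟨e, rfl⟩ (by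
    intro x hx
    have hx' : q x = q e := hx
    exact ⟨(ha x).trans hx', (hf x).trans hx'⟩)
  have h2 : d ∈ {x | q x = q e} := by
    rw [h1]
    exact Set.mem_univ d
  exact h2

/-- The map `(q, k) ↦ q ∘ a - q - (k - k ∘ a)`. -/
private def Lm (T : Tri D) : (invS T.s × invS T.f) →ₗ[ℝ] (D → ℝ) where
  toFun x := fun d => (x.1.1 (T.a d) - x.1.1 d) - (x.2.1 d - x.2.1 (T.a d))
  map_add' := by
    intro x y
    funext d
    simp only [Prod.fst_add, Prod.snd_add, Submodule.coe_add, Pi.add_apply]
    ring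
  map_smul' := by
    intro c x
    funext d
    simp only [Prod.smul_fst, Prod.smul_snd, Submodule.coe_smul, Pi.smul_apply, smul_eq_mul,
      RingHom.id_apply]
    ring

theorem euler (T : Tri D) (hT : T.Conn) [Nonempty D] {n : ℕ} (hD : Fintype.card D = 6 * n) :
    Nat.card T.V ≤ n + 2 := by
  obtain ⟨d0⟩ := (inferInstance : Nonempty D)
  have h1 := (Lm T).finrank_range_add_finrank_ker
  rw [Module.finrank_prod] at h1
  have h2 : LinearMap.range (Lm T) ≤ antiS T.a := by
    rintro _ ⟨x, rfl⟩ d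
    change (x.1.1 (T.a (T.a d)) - x.1.1 (T.a d)) - (x.2.1 (T.a d) - x.2.1 (T.a (T.a d))) =
      -((x.1.1 (T.a d) - x.1.1 d) - (x.2.1 d - x.2.1 (T.a d)))
    rw [T.aa]
    ring
  have h3 : Module.finrank ℝ (LinearMap.range (Lm T)) ≤ 3 * n :=
    (Submodule.finrank_mono h2).trans (finrank_anti T hD)
  have key : ∀ z ∈ LinearMap.ker (Lm T), z.1.1 d0 = 0 → z.2.1 d0 = 0 → z = 0 := by
    rintro ⟨q, k⟩ hx h6 h7
    have hx' : ∀ d, q.1 (T.a d) - q.1 d = k.1 d - k.1 (T.a d) := by
      intro d
      have h5 : (q.1 (T.a d) - q.1 d) - (k.1 d - k.1 (T.a d)) = 0 :=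
        congrFun (LinearMap.mem_ker.1 hx) d
      linarith
    have hq : ∀ d, q.1 (T.s d) = q.1 d := q.2
    have hk : ∀ d, k.1 (T.f d) = k.1 d := k.2
    have h5 := orth T hq hk hx'
    have hqa : ∀ d, q.1 (T.a d) = q.1 d := fun d => by
      have := h5 d
      linarith
    have hka : ∀ d, k.1 (T.a d) = k.1 d := fun d => by
      have := h5 d
      have := hx' d
      linarith
    have hqf : ∀ d, q.1 (T.f d) = q.1 d := fun d => by
      rw [← SST.Tri.s_a, hq, hqa]
    change q.1 d0 = 0 at h6
    change k.1 d0 = 0 at h7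
    apply Prod.ext
    · apply Subtype.ext
      funext d
      change q.1 d = 0
      rw [const T hT hqa hqf d d0, h6]
    · apply Subtype.ext
      funext d
      change k.1 d = 0
      rw [const T hT hka hk d d0, h7]
  have h4 : Module.finrank ℝ (LinearMap.ker (Lm T)) ≤ 2 := by
    let Ψ : LinearMap.ker (Lm T) →ₗ[ℝ] (ℝ × ℝ) :=
      { toFun := fun x => (x.1.1.1 d0, x.1.2.1 d0)
        map_add' := fun x y => rfl
        map_smul' := fun c x => rfl }
    have hΨ : Function.Injective Ψ := by
      intro x y hxy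
      have e1 : x.1.1.1 d0 = y.1.1.1 d0 := congrArg Prod.fst hxy
      have e2 : x.1.2.1 d0 = y.1.2.1 d0 := congrArg Prod.snd hxy
      have h5 := key (x.1 - y.1) (Submodule.sub_mem _ x.2 y.2) (by
        change x.1.1.1 d0 - y.1.1.1 d0 = 0
        rw [e1, sub_self]) (by
        change x.1.2.1 d0 - y.1.2.1 d0 = 0
        rw [e2, sub_self])
      exact Subtype.ext (sub_eq_zero.1 h5)
    have h5 := LinearMap.finrank_le_finrank_of_injective hΨ
    rwa [Module.finrank_prod, Module.finrank_self] at h5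
  have h5 : Nat.card T.V ≤ Module.finrank ℝ (invS T.s) := le_finrank_invS T.s
  have h6 := le_finrank_invS T.f
  have h7 := card_le_quot T.f 3 (by norm_num) (by
    apply Equiv.ext
    intro d
    exact T.fff d)
  omega

end GNH
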