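import Pool.Agent.SST.D.DDefs
import Pool.Agent.SST.Walk

/-!
# GNH-Parity: divisibility and parity
* `six_dvd`: `a` is an involution without fixed points: `2 ∣ card D`; `f ^ 3 = 1` without fixed points: `3 ∣ card D`
  (`Equiv.Perm.card_fixedPoints_modEq` or `Equiv.Perm.exists_fixed_point_of_prime`, see `tri_empty` in `SST/T/Rec`).
* `parity`: `sign T.s = sign T.f * sign T.a`; `sign T.f = 1` (`f ^ 3 = 1`, so `sign ^ 3 = 1`); `sign T.a = (-1)^(3n)`
  (`3n` transpositions: `Equiv.Perm.sign_of_cycleType`, cycle type `replicate (3n) 2`); `sign T.s = (-1)^(6n - card V)`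
  (number of points minus number of orbits; `Equiv.Perm.sign_of_cycleType`: `(-1)^(sum + card)` of the cycle type; the
  number of orbits is `card (cycleType)` + number of fixed points = `card cycleType + 6n - sum`).
  So `card V ≡ 3 n ≡ n mod 2`.
-/

namespace GNH

open SST Classical

variable {D : Type} [Fintype D]

private theorem a_sq (T : Tri D) : T.a ^ 2 = 1 := by
  ext d
  rw [pow_two, Equiv.Perm.mul_apply, T.aa]
  rfl

private theorem f_cube (T : Tri D) : T.f ^ 3 = 1 := by
  ext d
  rw [pow_succ, pow_two, Equiv.Perm.mul_apply, Equiv.Perm.mul_apply, T.fff]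
  rfl

theorem six_dvd (T : Tri D) : 6 ∣ Fintype.card D := by
  have h2 : 2 ∣ Fintype.card D := by
    by_contra h
    haveI : Fact (Nat.Prime 2) := ⟨Nat.prime_two⟩
    obtain ⟨d, hd⟩ := Equiv.Perm.exists_fixed_point_of_prime (p := 2) (n := 1) h
      (σ := T.a) (by rw [pow_one]; exact a_sq T)
    exact T.ane d hd
  have h3 : 3 ∣ Fintype.card D := by
    by_contra h
    haveI : Fact (Nat.Prime 3) := ⟨Nat.prime_three⟩
    obtain ⟨d, hd⟩ := Equiv.Perm.exists_fixed_point_of_prime (p := 3) (n := 1) h
      (σ := T.f) (by rw [pow_one]; exact f_cube T)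
    exact T.fne d hd
  omega

private theorem same_fix {σ : Equiv.Perm D} {x y : D} (h : σ.SameCycle x y) (hx : σ x = x) :
    x = y := by
  obtain ⟨i, hi⟩ := h
  rw [← hi]
  exact (Equiv.Perm.zpow_apply_eq_self_of_apply_eq_self hx i).symm

/-- number of orbits -/
private theorem card_quot (σ : Equiv.Perm D) :
    Nat.card (Quotient (Equiv.Perm.SameCycle.setoid σ)) + σ.cycleType.sum =
      Multiset.card σ.cycleType + Fintype.card D := by
  have hne : ∀ c : {c // c ∈ σ.cycleFactorsFinset}, ∃ x, x ∈ c.1.support := by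
    intro c
    have hc := (Equiv.Perm.mem_cycleFactorsFinset_iff.1 c.2).1
    exact hc.nonempty_support
  choose pt hpt using hne
  have hpt' : ∀ c : {c // c ∈ σ.cycleFactorsFinset}, c.1 = σ.cycleOf (pt c) := by
    intro c
    exact Equiv.Perm.cycle_is_cycleOf (hpt c) c.2
  have hmv : ∀ c : {c // c ∈ σ.cycleFactorsFinset}, σ (pt c) ≠ pt c := by
    intro c
    have := Equiv.Perm.mem_cycleFactorsFinset_support_le c.2 (hpt c)
    exact Equiv.Perm.mem_support.1 this
  let φ : {c // c ∈ σ.cycleFactorsFinset} ⊕ {d : D // σ d = d} →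
      Quotient (Equiv.Perm.SameCycle.setoid σ) :=
    Sum.elim (fun c => Quotient.mk (Equiv.Perm.SameCycle.setoid σ) (pt c))
      (fun d => Quotient.mk (Equiv.Perm.SameCycle.setoid σ) d.1)
  have hex : ∀ x y : D, Quotient.mk (Equiv.Perm.SameCycle.setoid σ) x =
      Quotient.mk (Equiv.Perm.SameCycle.setoid σ) y → σ.SameCycle x y := by
    intro x y h
    exact Quotient.exact h
  have hφ : Function.Bijective φ := by
    constructor
    · rintro (c | d) (c' | d') h
      · have := hex _ _ h
        have e := this.cycleOf_eq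
        rw [← hpt' c, ← hpt' c'] at e
        rw [Subtype.ext e]
      · have := hex _ _ h
        exact absurd (same_fix this.symm d'.2) (fun e => hmv c (e ▸ d'.2))
      · have := hex _ _ h
        exact absurd (same_fix this d.2) (fun e => hmv c' (e ▸ d.2))
      · have := hex _ _ h
        rw [Subtype.ext (same_fix this d.2)]
    · intro q
      induction q using Quotient.inductionOn with
      | h d =>
        by_cases hd : σ d = d
        · exact ⟨Sum.inr ⟨d, hd⟩, rfl⟩
        · have hm : σ.cycleOf d ∈ σ.cycleFactorsFinset :=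
            Equiv.Perm.cycleOf_mem_cycleFactorsFinset_iff.2 (Equiv.Perm.mem_support.2 hd)
          refine ⟨Sum.inl ⟨_, hm⟩, ?_⟩
          have h1 := hpt ⟨_, hm⟩
          have h2 : σ.SameCycle d (pt ⟨_, hm⟩) := (Equiv.Perm.mem_support_cycleOf_iff.1 h1).1
          exact Quotient.sound h2.symm
  rw [← Nat.card_eq_of_bijective φ hφ, Nat.card_eq_fintype_card, Fintype.card_sum,
    Fintype.card_coe, Equiv.Perm.sum_cycleType]
  have h1 : Multiset.card σ.cycleType = σ.cycleFactorsFinset.card := by
    rw [Equiv.Perm.cycleType_def]; simp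
  have h2 : Fintype.card {d : D // σ d = d} + σ.support.card = Fintype.card D := by
    rw [Fintype.card_subtype, ← Finset.card_univ (α := D),
      ← Finset.card_filter_add_card_filter_not (s := (Finset.univ : Finset D)) (fun d => σ d = d)]
    rfl
  omega

theorem parity (T : Tri D) {n : ℕ} (hD : Fintype.card D = 6 * n) : Even (Nat.card T.V + n) := by
  have hs : Equiv.Perm.sign T.s = (-1) ^ (Nat.card T.V) := by
    rw [Equiv.Perm.sign_of_cycleType]
    have h := card_quot T.s
    change Nat.card T.V + _ = _ at h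
    have hle : T.s.cycleType.sum ≤ Fintype.card D := by
      rw [Equiv.Perm.sum_cycleType]; exact Finset.card_le_univ _
    rcases Nat.even_or_odd (Nat.card T.V) with he | ho
    · rw [he.neg_one_pow, Even.neg_one_pow]
      rw [Nat.even_iff] at he ⊢
      omega
    · rw [ho.neg_one_pow, Odd.neg_one_pow]
      rw [Nat.odd_iff] at ho ⊢
      omega
  have hf : Equiv.Perm.sign T.f = 1 := by
    have h := congrArg Equiv.Perm.sign (f_cube T)
    rw [map_pow, map_one] at h
    rcases Int.units_eq_one_or (Equiv.Perm.sign T.f) with h1 | h1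
    · exact h1
    · rw [h1] at h
      exact absurd h (by decide)
  have ha : Equiv.Perm.sign T.a = (-1) ^ n := by
    rw [Equiv.Perm.sign_of_cycleType]
    haveI : Fact (Nat.Prime 2) := ⟨Nat.prime_two⟩
    have h1 : ∀ c ∈ T.a.cycleType, c = 2 := Equiv.Perm.pow_prime_eq_one_iff.1 (a_sq T)
    have h2 : T.a.cycleType = Multiset.replicate (Multiset.card T.a.cycleType) 2 :=
      Multiset.eq_replicate.2 ⟨rfl, h1⟩
    have h3 : T.a.cycleType.sum = 2 * Multiset.card T.a.cycleType := by
      conv_lhs => rw [h2]
      rw [Multiset.sum_replicate, smul_eq_mul, mul_comm]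
    have h4 : T.a.cycleType.sum = Fintype.card D := by
      rw [Equiv.Perm.sum_cycleType, ← Finset.card_univ]
      congr 1
      ext d
      simp [T.ane d]
    rcases Nat.even_or_odd n with he | ho
    · rw [he.neg_one_pow, Even.neg_one_pow]
      rw [Nat.even_iff] at he ⊢
      omega
    · rw [ho.neg_one_pow, Odd.neg_one_pow]
      rw [Nat.odd_iff] at ho ⊢
      omega
  have hmul : Equiv.Perm.sign T.s = Equiv.Perm.sign T.f * Equiv.Perm.sign T.a := by
    rw [Tri.s, Equiv.Perm.sign_mul]
  rw [hs, hf, ha, one_mul] at hmul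
  rcases Nat.even_or_odd (Nat.card T.V) with he | ho <;> rcases Nat.even_or_odd n with he' | ho'
  · exact he.add he'
  · rw [he.neg_one_pow, ho'.neg_one_pow] at hmul
    exact absurd hmul (by decide)
  · rw [ho.neg_one_pow, he'.neg_one_pow] at hmul
    exact absurd hmul (by decide)
  · exact ho.add_odd ho'

end GNH
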