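import Pool.Agent.SST.T.Final
import Pool.Agent.GNH.Parity
import Pool.Agent.GNH.Euler

/-!
# GNH-Mv: weighted numbers of triangulations with given number of vertices
`mv n V = #{T on Fin (6n) connected with V vertices} / (6n)!`.
* `mv_cp`: `SST.T.cp_coeff` with `j = 2 n` (`Fin (3 * (2 * n))` versus `Fin (6 * n)`: see the proof of
  `SST.T.nu_eq`, same transport).
* `mv_nu`: `Trn n g` is the set of connected `T` with `card V + 2 g = n + 2`.
* `mv_ineq`: `SST.T.cp_main n w` with `w + 1 = V` and `mv_cp`.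
* `mv_parity`: `parity`.  `mv_gt`: `euler` (`n ≥ 1`).  `mv_zero`: a vertex exists for `n ≥ 1`.
-/

namespace GNH

open SST

/-- Connected triangulations with `2n` faces and `V` vertices, weighted. -/
noncomputable def mv (n V : ℕ) : ℝ :=
  ({T : Tri (Fin (6 * n)) | T.Conn ∧ Nat.card T.V = V}.ncard : ℝ) / (6 * n).factorial

theorem mv_nonneg (n V : ℕ) : 0 ≤ mv n V := by
  unfold mv
  positivity

theorem mv_cp (n V : ℕ) : mv n V = (((SST.T.cp (2 * n)).coeff V : ℚ) : ℝ) := by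
  have e : Fin (6 * n) ≃ Fin (3 * (2 * n)) := finCongr (by ring)
  have h6 : (6 * n).factorial = (3 * (2 * n)).factorial := by
    congr 1; ring
  rw [SST.T.cp_coeff, mv, h6]
  have h1 : ({T : Tri (Fin (6 * n)) | T.Conn ∧ Nat.card T.V = V}).ncard =
      Nat.card {T : {T : Tri (Fin (3 * (2 * n))) // T.Conn} // Nat.card T.1.V = V} := by
    rw [← Nat.card_coe_set_eq]
    refine Nat.card_congr ?_
    refine (Equiv.subtypeEquiv (SST.T.transEquiv e)
      (p := fun T => T ∈ {T : Tri (Fin (6 * n)) | T.Conn ∧ Nat.card T.V = V})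
      (q := fun T => T.Conn ∧ Nat.card T.V = V) ?_).trans ?_
    · intro T
      show (T.Conn ∧ Nat.card T.V = V) ↔
        ((SST.T.trans e T).Conn ∧ Nat.card (SST.T.trans e T).V = V)
      rw [SST.T.conn_trans, SST.T.card_V_trans]
    · exact
        { toFun := fun T => ⟨⟨T.1, T.2.1⟩, T.2.2⟩
          invFun := fun T => ⟨T.1.1, T.1.2, T.2⟩
          left_inv := fun T => rfl
          right_inv := fun T => rfl }
  rw [h1]
  push_cast
  rfl

theorem mv_nu {n g : ℕ} (h : 2 * g ≤ n + 2) : nu n g = mv n (n + 2 - 2 * g) := by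
  rw [SST.T.nu_eq n g h, mv_cp]

theorem mv_ineq {n V : ℕ} (hn : 1 ≤ n) (hV : 1 ≤ V) :
    ((V + 1).choose 2 : ℝ) * mv (n + 1) (V + 1) + ((V + 3).choose 4 : ℝ) * mv (n + 1) (V + 3) ≤
      6 * n * (3 * n + 2) * mv n V := by
  obtain ⟨w, rfl⟩ : ∃ w, V = w + 1 := ⟨V - 1, by omega⟩
  rw [mv_cp, mv_cp, mv_cp]
  have h := SST.T.cp_main n w hn
  exact_mod_cast h

theorem mv_parity {n V : ℕ} (h : ¬ Even (n + V)) : mv n V = 0 := by
  have h1 : {T : Tri (Fin (6 * n)) | T.Conn ∧ Nat.card T.V = V} = ∅ := by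
    refine Set.eq_empty_iff_forall_notMem.2 fun T hT => ?_
    have h2 := parity T (n := n) (by simp)
    rw [hT.2, add_comm] at h2
    exact h h2
  unfold mv
  rw [h1]
  simp

theorem mv_gt {n V : ℕ} (hn : 1 ≤ n) (h : n + 2 < V) : mv n V = 0 := by
  have h1 : {T : Tri (Fin (6 * n)) | T.Conn ∧ Nat.card T.V = V} = ∅ := by
    refine Set.eq_empty_iff_forall_notMem.2 fun T hT => ?_
    have : Nonempty (Fin (6 * n)) := ⟨⟨0, by omega⟩⟩
    have h2 := euler T hT.1 (n := n) (by simp)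
    rw [hT.2] at h2
    omega
  unfold mv
  rw [h1]
  simp

theorem mv_zero {n : ℕ} (hn : 1 ≤ n) : mv n 0 = 0 := by
  rw [mv_cp, SST.T.cp_coeff_zero n hn]
  simp

end GNH
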