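import Pool.Agent.GNH.GlEst
import Pool.Agent.GNH.Mv
import Pool.Agent.SST.T.Rec

/-!
# GNH-ConnLow: at least half of the gluings are connected
`cn n := #{T on Fin (6n) connected}/(6n)! = ∑ V, mv n V` (`mv_gt`: `V ≤ n + 2`).
Recursion over the component of a fixed dart: `SST.T.tot_rec (6 n - 1) 1`, where `tot (Fin m) 1 = #Tri (Fin m)`, `con (Fin m) 1 =
#{T : Tri (Fin m) connected}`, both 0 unless `6 ∣ m` (`six_dvd` of `GNH/Parity`): for `n ≥ 1`
`gl n = ∑_{k=1}^{n} (k/n) cn k gl (n-k)` (`(6n-1).choose (6k-1) / (6n)! * (6k)! (6n-6k)! = k/n`).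
`cn k ≤ gl k`, `gl k gl (n-k) ≤ gl n / n.choose k` (`gl_mul`), `gl 0 = 1`:
`cn n ≥ gl n (1 - ∑_{k=1}^{n-1} (k/n) / n.choose k)`, and `∑_{k=1}^{n-1} (k/n)/n.choose k = (1/2) ∑_{k=1}^{n-1} 1/n.choose k ≤ 1/2`
(symmetry `k ↔ n-k`; `n.choose k ≥ n ≥ n - 1` for `1 ≤ k ≤ n-1`).
-/

namespace GNH

open SST

private noncomputable def tt (m : ℕ) : ℝ := (Nat.card (Tri (Fin m)) : ℝ)

private noncomputable def cc (m : ℕ) : ℝ := (Nat.card {T : Tri (Fin m) // T.Conn} : ℝ)

private theorem tot_one (m : ℕ) : SST.T.tot (Fin m) 1 = (Nat.card (Tri (Fin m)) : ℚ) := by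
  unfold SST.T.tot
  have := Fintype.ofFinite (Tri (Fin m))
  rw [finsum_eq_sum_of_fintype]
  simp [Nat.card_eq_fintype_card]

private theorem con_one (m : ℕ) :
    SST.T.con (Fin m) 1 = (Nat.card {T : Tri (Fin m) // T.Conn} : ℚ) := by
  unfold SST.T.con
  have := Fintype.ofFinite {T : Tri (Fin m) // T.Conn}
  rw [finsum_eq_sum_of_fintype]
  simp [Nat.card_eq_fintype_card]

private theorem tt_rec (m : ℕ) : tt (m + 1) =
    ∑ k ∈ Finset.range (m + 1), (m.choose k : ℝ) * cc (k + 1) * tt (m - k) := by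
  have h := SST.T.tot_rec m 1
  simp only [tot_one, con_one] at h
  unfold tt cc
  exact_mod_cast h

private theorem cc_zero {m : ℕ} (h : ¬ 6 ∣ m) : cc m = 0 := by
  have : IsEmpty {T : Tri (Fin m) // T.Conn} := by
    constructor
    intro T
    have h1 := six_dvd T.1
    rw [Fintype.card_fin] at h1
    exact h h1
  unfold cc
  rw [Nat.card_of_isEmpty, Nat.cast_zero]

private theorem cc_le (m : ℕ) : cc m ≤ tt m := by
  unfold cc tt
  exact_mod_cast Nat.card_le_card_of_injective (Subtype.val : {T : Tri (Fin m) // T.Conn} → _)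
    Subtype.val_injective

private theorem choose_id (j b : ℕ) :
    (6 * j + 6 * b + 5).choose (6 * j + 5) * (6 * j + 6).factorial * (6 * b).factorial * (j + 1 + b) =
      (j + 1) * (6 * j + 6 * b + 6).factorial := by
  have h := Nat.choose_mul_factorial_mul_factorial (show 6 * j + 5 ≤ 6 * j + 6 * b + 5 by omega)
  have h1 : 6 * j + 6 * b + 5 - (6 * j + 5) = 6 * b := by omega
  rw [h1] at h
  have h2 : (6 * j + 6).factorial = (6 * j + 6) * (6 * j + 5).factorial := Nat.factorial_succ _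
  have h3 : (6 * j + 6 * b + 6).factorial = (6 * j + 6 * b + 6) * (6 * j + 6 * b + 5).factorial :=
    Nat.factorial_succ _
  rw [h2, h3, ← h]
  ring

private theorem gl_eq (n : ℕ) : gl n = tt (6 * n) / ((6 * n).factorial : ℝ) := rfl

private theorem term_eq (j b : ℕ) :
    ((6 * j + 6 * b + 5).choose (6 * j + 5) : ℝ) * cc (6 * j + 6) * tt (6 * b) /
      ((6 * j + 6 * b + 6).factorial : ℝ) =
      (((j : ℝ) + 1) / ((j : ℝ) + 1 + b)) * (cc (6 * (j + 1)) / ((6 * (j + 1)).factorial : ℝ)) * gl b := by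
  have h := choose_id j b
  have h' : ((6 * j + 6 * b + 5).choose (6 * j + 5) : ℝ) * ((6 * j + 6).factorial : ℝ) *
      ((6 * b).factorial : ℝ) * ((j : ℝ) + 1 + b) =
      ((j : ℝ) + 1) * ((6 * j + 6 * b + 6).factorial : ℝ) := by exact_mod_cast h
  have e : 6 * (j + 1) = 6 * j + 6 := by ring
  rw [gl_eq, e]
  have p1 : ((6 * j + 6).factorial : ℝ) ≠ 0 := by positivity
  have p2 : ((6 * b).factorial : ℝ) ≠ 0 := by positivity
  have p3 : ((6 * j + 6 * b + 6).factorial : ℝ) ≠ 0 := by positivity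
  have p4 : ((j : ℝ) + 1 + b) ≠ 0 := by positivity
  rw [div_mul_div_comm, div_mul_div_comm, div_eq_div_iff p3 (by positivity)]
  linear_combination (cc (6 * j + 6) * tt (6 * b)) * h'

private theorem gl_rec (p : ℕ) : gl (p + 1) = ∑ j ∈ Finset.range (p + 1),
    (((j : ℝ) + 1) / ((p : ℝ) + 1)) * (cc (6 * (j + 1)) / ((6 * (j + 1)).factorial : ℝ)) *
      gl (p - j) := by
  rw [gl_eq]
  have e : 6 * (p + 1) = (6 * p + 5) + 1 := by ring
  rw [e, tt_rec]
  have hsub : (Finset.range (p + 1)).image (fun j => 6 * j + 5) ⊆ Finset.range (6 * p + 5 + 1) := by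
    intro k hk
    obtain ⟨j, hj, rfl⟩ := Finset.mem_image.1 hk
    have := Finset.mem_range.1 hj
    rw [Finset.mem_range]
    omega
  rw [← Finset.sum_subset hsub, Finset.sum_image, Finset.sum_div]
  · refine Finset.sum_congr rfl fun j hj => ?_
    have hj' := Finset.mem_range.1 hj
    obtain ⟨b, hb⟩ : ∃ b, p = j + b := ⟨p - j, by omega⟩
    subst hb
    have e1 : 6 * (j + b) + 5 = 6 * j + 6 * b + 5 := by ring
    have e2 : 6 * j + 6 * b + 5 - (6 * j + 5) = 6 * b := by omega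
    have e3 : 6 * j + 5 + 1 = 6 * j + 6 := rfl
    have e4 : 6 * j + 6 * b + 5 + 1 = 6 * j + 6 * b + 6 := rfl
    have e5 : j + b - j = b := by omega
    rw [e1, e2, e3, e4, e5, term_eq]
    have e6 : (((j + b : ℕ) : ℝ) + 1) = (j : ℝ) + 1 + b := by push_cast; ring
    rw [e6]
  · intro x _ y _ hxy
    simp only at hxy
    omega
  · intro k hk hk'
    have : ¬ 6 ∣ k + 1 := by
      intro hd
      apply hk'
      obtain ⟨c, hc⟩ := hd
      rw [Finset.mem_range] at hk
      refine Finset.mem_image.2 ⟨c - 1, ?_, ?_⟩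
      · rw [Finset.mem_range]; omega
      · show 6 * (c - 1) + 5 = k
        omega
    rw [cc_zero this, mul_zero, zero_mul]

private theorem choose_ge (n j : ℕ) (h1 : 1 ≤ j) (h2 : j < n) : n ≤ n.choose j := by
  induction n generalizing j with
  | zero => omega
  | succ n ih =>
    obtain ⟨i, rfl⟩ : ∃ i, j = i + 1 := ⟨j - 1, by omega⟩
    rw [Nat.choose_succ_succ']
    rcases Nat.eq_zero_or_pos i with h0 | h0
    · subst h0
      simp
    · have h3 := ih i h0 (by omega)
      have h4 : 0 < n.choose (i + 1) := Nat.choose_pos (by omega)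
      omega

private theorem sum_id (p : ℕ) : ∑ j ∈ Finset.range p, ((j : ℝ) + 1) = p * (p + 1) / 2 := by
  induction p with
  | zero => simp
  | succ p ih => rw [Finset.sum_range_succ, ih]; push_cast; ring

private theorem cn_low (p : ℕ) :
    gl (p + 1) / 2 ≤ cc (6 * (p + 1)) / ((6 * (p + 1)).factorial : ℝ) := by
  have h := gl_rec p
  rw [Finset.sum_range_succ, Nat.sub_self, gl_zero, mul_one,
    div_self (by positivity : ((p : ℝ) + 1) ≠ 0), one_mul] at h
  have hle : ∑ j ∈ Finset.range p,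
    (((j : ℝ) + 1) / ((p : ℝ) + 1)) * (cc (6 * (j + 1)) / ((6 * (j + 1)).factorial : ℝ)) *
      gl (p - j) ≤ ∑ j ∈ Finset.range p, ((j : ℝ) + 1) * (gl (p + 1) / ((p : ℝ) + 1) ^ 2) := by
    refine Finset.sum_le_sum fun j hj => ?_
    have hj' := Finset.mem_range.1 hj
    have h1 : cc (6 * (j + 1)) / ((6 * (j + 1)).factorial : ℝ) ≤ gl (j + 1) := by
      rw [gl_eq]
      exact div_le_div_of_nonneg_right (cc_le _) (by positivity)
    have h2 := gl_mul (j + 1) (p - j)
    have e : j + 1 + (p - j) = p + 1 := by omega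
    rw [e] at h2
    have h3 : ((p : ℝ) + 1) ≤ ((p + 1).choose (j + 1) : ℝ) := by
      exact_mod_cast choose_ge (p + 1) (j + 1) (by omega) (by omega)
    have h4 : gl (j + 1) * gl (p - j) * ((p : ℝ) + 1) ≤ gl (p + 1) :=
      (mul_le_mul_of_nonneg_left h3 (mul_nonneg (gl_pos _).le (gl_pos _).le)).trans h2
    have h5 : gl (j + 1) * gl (p - j) ≤ gl (p + 1) / ((p : ℝ) + 1) := by
      rw [le_div_iff₀ (by positivity)]; exact h4
    have h6 : cc (6 * (j + 1)) / ((6 * (j + 1)).factorial : ℝ) * gl (p - j) ≤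
        gl (p + 1) / ((p : ℝ) + 1) :=
      (mul_le_mul_of_nonneg_right h1 (gl_pos _).le).trans h5
    have h7 : (0 : ℝ) ≤ ((j : ℝ) + 1) / ((p : ℝ) + 1) := by positivity
    calc
      _ = (((j : ℝ) + 1) / ((p : ℝ) + 1)) *
        (cc (6 * (j + 1)) / ((6 * (j + 1)).factorial : ℝ) * gl (p - j)) := by ring
      _ ≤ (((j : ℝ) + 1) / ((p : ℝ) + 1)) * (gl (p + 1) / ((p : ℝ) + 1)) :=
        mul_le_mul_of_nonneg_left h6 h7
      _ = ((j : ℝ) + 1) * (gl (p + 1) / ((p : ℝ) + 1) ^ 2) := by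
        field_simp
  rw [← Finset.sum_mul, sum_id] at hle
  have h8 : (p : ℝ) * (p + 1) / 2 * (gl (p + 1) / ((p : ℝ) + 1) ^ 2) ≤ gl (p + 1) / 2 := by
    have h9 : (p : ℝ) * (p + 1) / 2 * (gl (p + 1) / ((p : ℝ) + 1) ^ 2) =
        (p / ((p : ℝ) + 1)) * (gl (p + 1) / 2) := by
      field_simp
    rw [h9]
    have h10 : (p : ℝ) / ((p : ℝ) + 1) ≤ 1 := by
      rw [div_le_one (by positivity)]; linarith
    have h11 : 0 ≤ gl (p + 1) / 2 := by
      have := gl_pos (p + 1)
      linarith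
    exact mul_le_of_le_one_left h11 h10
  linarith

private theorem cc_eq_sum {n : ℕ} (hn : 1 ≤ n) :
    cc (6 * n) / ((6 * n).factorial : ℝ) = ∑ V ∈ Finset.range (n + 3), mv n V := by
  classical
  have := Fintype.ofFinite (Tri (Fin (6 * n)))
  set S : Finset (Tri (Fin (6 * n))) := Finset.univ.filter (fun T => T.Conn) with hS
  have h1 : cc (6 * n) = (S.card : ℝ) := by
    unfold cc
    rw [Nat.card_eq_fintype_card, Fintype.card_subtype]
  have h2 : ∀ V, mv n V = ((S.filter (fun T => Nat.card T.V = V)).card : ℝ) /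
      ((6 * n).factorial : ℝ) := by
    intro V
    unfold mv
    congr 2
    rw [Set.ncard_eq_toFinset_card']
    congr 1
    ext T
    simp [hS]
  have hmaps : ∀ T ∈ S, Nat.card T.V ∈ Finset.range (n + 3) := by
    intro T hT
    by_contra hcon
    rw [Finset.mem_range, not_lt] at hcon
    have h3 := mv_gt hn (show n + 2 < Nat.card T.V by omega)
    rw [h2] at h3
    have h4 : 0 < (S.filter (fun T' => Nat.card T'.V = Nat.card T.V)).card :=
      Finset.card_pos.2 ⟨T, Finset.mem_filter.2 ⟨hT, rfl⟩⟩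
    have h5 : (0 : ℝ) < ((S.filter (fun T' => Nat.card T'.V = Nat.card T.V)).card : ℝ) /
      ((6 * n).factorial : ℝ) := by
      have : (0 : ℝ) < ((S.filter (fun T' => Nat.card T'.V = Nat.card T.V)).card : ℝ) := by
        exact_mod_cast h4
      positivity
    linarith
  have hm2 : Set.MapsTo (fun T : Tri (Fin (6 * n)) => Nat.card T.V) (S : Set _)
      (Finset.range (n + 3) : Set ℕ) := fun T hT => Finset.mem_coe.2 (hmaps T (Finset.mem_coe.1 hT))
  rw [h1, Finset.card_eq_sum_card_fiberwise hm2]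
  simp only [h2]
  rw [← Finset.sum_div]
  push_cast
  rfl

theorem conn_low {n : ℕ} (hn : 1 ≤ n) : gl n / 2 ≤ ∑ V ∈ Finset.range (n + 3), mv n V := by
  rw [← cc_eq_sum hn]
  obtain ⟨p, rfl⟩ : ∃ p, n = p + 1 := ⟨n - 1, by omega⟩
  exact cn_low p

theorem mv_le_gl (n V : ℕ) : mv n V ≤ gl n := by
  unfold mv gl
  refine div_le_div_of_nonneg_right ?_ (by positivity)
  have h := Set.ncard_le_ncard (Set.subset_univ {T : Tri (Fin (6 * n)) | T.Conn ∧ Nat.card T.V = V})
    Set.finite_univ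
  rw [Set.ncard_univ] at h
  exact_mod_cast h

end GNH
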