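import Pool.Agent.GNH.Htp
import Pool.Agent.SST.D.DDefs

/-!
# GNH-Side: the two sides of a simple separating cycle
`NullHom c` gives `k : D → ℤ` with `k (f d) = k d`, `chain c d = k d - k (a d)`.
(1) `a e ∉ c` for `e ∈ c`: suppose `e, a e ∈ c`.  As `tl (a e) = hd e` is the tail of the (cyclic) successor of `e` and
`c` is simple, `a e` is the successor of `e`; also the successor of `a e` has tail `hd (a e) = tl e`, so it is `e`: `c`
is `[e, a e]` or `[a e, e]` (`c` nodup; `length = 1` is impossible since `a e ≠ e`), which is null-homotopic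
(one step): contradiction.
(2) So `chain c d = 1` for `d ∈ c`, `-1` if `a d ∈ c`, 0 otherwise (`c` is nodup).
(3) `k (next d) = k d` for `d ∈ c`, `next d` the successor: let `v := hd d = tl (next d)`, `e₀ := next d`.  The darts
with tail `v` in `c` : only `e₀`; the darts with tail `v` and `a e ∈ c`: only `a d` (`hd (a e) = v`...: `a e ∈ c` has head
`v`, so its successor has tail `v`, it is `e₀`, and `a e = d` as the predecessor of `e₀` is unique in the nodup list).
`k (s e) = k (f (a e)) = k (a e)`, which is `k e` if `e` is neither `e₀` nor `a d`, `k e - 1` for `e = e₀`, `k e + 1` for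
`e = a d`.  Let `j ≥ 1` be least with `s^j e₀ = a d` (same `s`-cycle, `a d ≠ e₀` by (1)).  For `1 ≤ i ≤ j`:
`k (s^i e₀) = k e₀ - 1` (for `1 ≤ i < j`, `s^i e₀ ≠ e₀`: otherwise `s^(j-i) e₀ = a d`, contradiction with the minimality).  So
`k (a d) = k e₀ - 1` and `k d = k (a d) + 1 = k e₀`.
(4) So `k = t` on all darts of `c` (`c` is one cycle).  `A := {d : t ≤ k d}`.  `d ∈ c`: `k d = t`, `k (a d) = t - 1`.  If
`d ∈ A`, `a d ∉ A` then `chain c d > 0`, so `d ∈ c`.
-/

namespace GNH

open SST Classical

variable {D : Type} [Fintype D]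

omit [Fintype D] in
/-- tails and heads of a walk -/
private theorem side_list (T : Tri D) {u v : T.V} {c : List D} (h : T.IsWalk u c v) :
    c.map T.tl ++ [v] = u :: c.map T.hd := by
  induction c generalizing u with
  | nil =>
    have : u = v := h
    rw [this]
    rfl
  | cons d l ih =>
    obtain ⟨h1, h2⟩ := h
    have := ih h2
    rw [List.map_cons, List.cons_append, this, h1, List.map_cons]

omit [Fintype D] in
private theorem side_perm (T : Tri D) {c : List D} (hc : T.Closed c) : (c.map T.tl).Perm (c.map T.hd) := by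
  obtain ⟨v, hv⟩ := hc
  have h1 := side_list T hv
  have h2 : (v :: c.map T.tl).Perm (c.map T.tl ++ [v]) := (List.perm_append_singleton v _).symm
  rw [h1] at h2
  exact h2.cons_inv

omit [Fintype D] in
private theorem side_walk (T : Tri D) (Q : D → Prop) {u v : T.V} {d : D} {l : List D}
    (h : T.IsWalk u (d :: l) v)
    (hQ : ∀ x ∈ d :: l, ∀ y ∈ d :: l, T.tl y = T.hd x → Q x → Q y) (hd : Q d) :
    (∀ x ∈ d :: l, Q x) ∧ ∃ e ∈ d :: l, T.hd e = v ∧ Q e := by
  induction l generalizing u d with
  | nil =>
    refine ⟨fun x hx => ?_, d, List.mem_cons_self, h.2, hd⟩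
    rw [List.mem_singleton] at hx
    rw [hx]
    exact hd
  | cons d' l ih =>
    obtain ⟨h1, h2⟩ := h
    have h3 : Q d' := hQ d List.mem_cons_self d' (List.mem_cons_of_mem _ List.mem_cons_self) h2.1 hd
    obtain ⟨h4, e, he, he1, he2⟩ := ih h2
      (fun x hx y hy => hQ x (List.mem_cons_of_mem _ hx) y (List.mem_cons_of_mem _ hy)) h3
    refine ⟨fun x hx => ?_, e, List.mem_cons_of_mem _ he, he1, he2⟩
    rcases List.mem_cons.1 hx with rfl | hx
    · exact hd
    · exact h4 x hx

omit [Fintype D] in
private theorem side_trans (T : Tri D) (Q : D → Prop) {c : List D} (hc : T.Closed c)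
    (hQ : ∀ x ∈ c, ∀ y ∈ c, T.tl y = T.hd x → Q x → Q y) {d : D} (hd : d ∈ c) (hq : Q d) :
    ∀ x ∈ c, Q x := by
  obtain ⟨v, hv⟩ := hc
  obtain ⟨l1, l2, rfl⟩ := List.append_of_mem hd
  obtain ⟨w, hw1, hw2⟩ := Tri.walk_split T hv
  obtain ⟨-, e, he, he1, he2⟩ := side_walk T Q hw2
    (fun x hx y hy => hQ x (List.mem_append_right _ hx) y (List.mem_append_right _ hy)) hq
  have hne : l1 ++ d :: l2 ≠ [] := by simp
  obtain ⟨d0, c', hc'⟩ := List.exists_cons_of_ne_nil hne
  have hv' := hv
  rw [hc'] at hv'
  have h0 : Q d0 := by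
    refine hQ e (List.mem_append_right _ he) d0 ?_ ?_ he2
    · rw [hc']
      exact List.mem_cons_self
    · rw [he1]
      exact hv'.1
  have := (side_walk T Q hv' (fun x hx y hy => hQ x (by rw [hc']; exact hx) y (by rw [hc']; exact hy)) h0).1
  intro x hx
  rw [hc'] at hx
  exact this x hx

omit [Fintype D] in
private theorem side_chain (T : Tri D) {c : List D} (hn : c.Nodup) (d : D) :
    T.chain c d = (if d ∈ c then 1 else 0) - (if T.a d ∈ c then 1 else 0) := by
  unfold Tri.chain
  induction c with
  | nil => simp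
  | cons e l ih =>
    rw [List.nodup_cons] at hn
    rw [List.map_cons, List.sum_cons, ih hn.2]
    by_cases h1 : d = e
    · subst h1
      have h2 : d ∉ l := hn.1
      rw [Tri.ind_self, if_neg h2, if_pos List.mem_cons_self]
      have h3 : (T.a d ∈ d :: l) ↔ T.a d ∈ l := by
        rw [List.mem_cons]
        exact or_iff_right (T.ane d)
      rw [Tri.ind_ne (T.ane d).symm]
      simp only [h3]
      ring
    · have h2 : (d ∈ e :: l) ↔ d ∈ l := by
        rw [List.mem_cons]
        exact or_iff_right h1
      rw [Tri.ind_ne (fun h => h1 h.symm)]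
      by_cases h3 : T.a d = e
      · have h4 : T.a d ∉ l := by rw [h3]; exact hn.1
        rw [← h3, Tri.ind_self, if_neg h4, if_pos List.mem_cons_self]
        rw [h3]
        simp only [h2]
        ring
      · have h4 : (T.a d ∈ e :: l) ↔ T.a d ∈ l := by
          rw [List.mem_cons]
          exact or_iff_right h3
        rw [Tri.ind_ne (fun h => h3 h.symm)]
        simp only [h2, h4]
        ring

theorem exists_side (T : Tri D) {c : List D} (hne : c ≠ []) (hc : T.Closed c) (hs : T.Simple c)
    (h0 : T.NullHom c) (hn : ¬ T.NullHtp c) :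
    ∃ A : Finset D, (∀ d, T.f d ∈ A ↔ d ∈ A) ∧ ∀ d, (d ∈ A ∧ T.a d ∉ A) ↔ d ∈ c := by
  have hnd : c.Nodup := List.Nodup.of_map _ hs
  have tlinj : ∀ x ∈ c, ∀ y ∈ c, T.tl x = T.tl y → x = y := fun x hx y hy h =>
    List.inj_on_of_nodup_map hs hx hy h
  have hperm := side_perm T hc
  have hhd : (c.map T.hd).Nodup := hperm.nodup_iff.1 hs
  have hdinj : ∀ x ∈ c, ∀ y ∈ c, T.hd x = T.hd y → x = y := fun x hx y hy h =>
    List.inj_on_of_nodup_map hhd hx hy h
  have hnext : ∀ d ∈ c, ∃ e ∈ c, T.tl e = T.hd d := by
    intro d hd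
    have h1 : T.hd d ∈ c.map T.tl := hperm.mem_iff.2 (List.mem_map_of_mem hd)
    obtain ⟨e, he, h2⟩ := List.mem_map.1 h1
    exact ⟨e, he, h2⟩
  -- (1)
  have hanot : ∀ e ∈ c, T.a e ∉ c := by
    intro e he hae
    apply hn
    have h1 : ∀ x ∈ c, x = e ∨ x = T.a e := by
      refine side_trans T (fun x => x = e ∨ x = T.a e) hc ?_ he (Or.inl rfl)
      rintro x hx y hy hxy (rfl | rfl)
      · right
        refine tlinj _ hy _ hae ?_
        rw [hxy]
        rfl
      · left
        refine tlinj _ hy _ he ?_
        rw [hxy, Tri.hd_a]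
    have h2 : T.Closed [] := ⟨T.tl e, rfl⟩
    have key : ∀ x y : D, c = [x, y] → y = T.a x → T.NullHtp c := by
      rintro x y hxy rfl
      subst hxy
      refine Relation.EqvGen.symm _ _ (Relation.EqvGen.rel _ _ ⟨h2, hc, ?_⟩)
      exact Tri.Step.spur [] [] x
    have hsub : c ⊆ [e, T.a e] := by
      intro x hx
      rcases h1 x hx with rfl | rfl
      · exact List.mem_cons_self
      · exact List.mem_cons_of_mem _ List.mem_cons_self
    have hsup : [e, T.a e] ⊆ c := by
      intro x hx
      rcases List.mem_cons.1 hx with rfl | hx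
      · exact he
      · rw [List.mem_singleton] at hx
        rw [hx]
        exact hae
    have hnd2 : ([e, T.a e] : List D).Nodup := by
      simp [(T.ane e).symm]
    have hp : c.Perm [e, T.a e] :=
      (List.perm_ext_iff_of_nodup hnd hnd2).2 fun x => ⟨fun h => hsub h, fun h => hsup h⟩
    have hlen : c.length = 2 := by
      rw [hp.length_eq]
      rfl
    obtain ⟨x, y, hxy⟩ := List.length_eq_two.1 hlen
    have hx : x ∈ c := by rw [hxy]; exact List.mem_cons_self
    have hy : y ∈ c := by rw [hxy]; exact List.mem_cons_of_mem _ List.mem_cons_self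
    have hne2 : x ≠ y := by
      rw [hxy] at hnd
      intro h
      subst h
      simp at hnd
    refine key x y hxy ?_
    rcases h1 x hx with rfl | rfl
    · rcases h1 y hy with rfl | rfl
      · exact absurd rfl hne2
      · rfl
    · rcases h1 y hy with rfl | rfl
      · exact (T.aa _).symm
      · exact absurd rfl hne2
  obtain ⟨k, hkf, hkc⟩ := h0
  have hka : ∀ d, k (T.a d) = k d - ((if d ∈ c then 1 else 0) - (if T.a d ∈ c then 1 else 0)) := by
    intro d
    have := hkc d
    rw [side_chain T hnd] at this
    linarith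
  -- (3)
  have hconst : ∀ d ∈ c, ∀ e ∈ c, T.tl e = T.hd d → k e = k d := by
    intro d hd e he htl
    have hstep : ∀ x, T.tl x = T.hd d → k (T.s x) = k x - (if x = e then 1 else 0) +
        (if x = T.a d then 1 else 0) := by
      intro x hx
      rw [Tri.s_apply, hkf, hka]
      have h1 : (x ∈ c) ↔ x = e := by
        constructor
        · intro h
          exact tlinj _ h _ he (hx.trans htl.symm)
        · rintro rfl
          exact he
      have h2 : (T.a x ∈ c) ↔ x = T.a d := by
        constructor
        · intro h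
          have h3 : T.hd (T.a x) = T.hd d := by rw [Tri.hd_a, hx]
          have h4 := hdinj _ h _ hd h3
          rw [← h4, T.aa]
        · rintro rfl
          rw [T.aa]
          exact hd
      simp only [h1, h2]
      ring
    have had : T.a d ≠ e := fun h => hanot d hd (h ▸ he)
    have hsame : T.s.SameCycle e (T.a d) := (Tri.tl_eq_iff T _ _).1 htl
    obtain ⟨n, hn1⟩ := hsame.exists_nat_pow_eq
    have hex : ∃ n : ℕ, (T.s ^ n) e = T.a d := ⟨n, hn1⟩
    set j := Nat.find hex with hj
    have hj1 : (T.s ^ j) e = T.a d := Nat.find_spec hex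
    have hjmin : ∀ i < j, (T.s ^ i) e ≠ T.a d := fun i hi => Nat.find_min hex hi
    have hj0 : 1 ≤ j := by
      by_contra h
      have h1 : j = 0 := by omega
      rw [h1, pow_zero, Equiv.Perm.one_apply] at hj1
      exact had hj1.symm
    have htls : ∀ i, T.tl ((T.s ^ i) e) = T.hd d := by
      intro i
      induction i with
      | zero => exact htl
      | succ i ih => rw [pow_succ', Equiv.Perm.mul_apply, Tri.tl_s, ih]
    have hval : ∀ i, 1 ≤ i → i ≤ j → k ((T.s ^ i) e) = k e - 1 := by
      intro i hi
      induction i, hi using Nat.le_induction with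
      | base =>
        intro _
        rw [pow_one, hstep e htl, if_pos rfl, if_neg (fun h => had h.symm)]
        ring
      | succ i hi ih =>
        intro hij
        have h1 := ih (by omega)
        rw [pow_succ', Equiv.Perm.mul_apply, hstep _ (htls i), h1, if_neg, if_neg (hjmin i (by omega))]
        · ring
        · intro h
          apply hjmin (j - i) (by omega)
          have h2 : (T.s ^ (j - i)) ((T.s ^ i) e) = (T.s ^ j) e := by
            rw [← Equiv.Perm.mul_apply, ← pow_add]
            congr 2
            omega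
          rw [h] at h2
          rw [h2, hj1]
    have h5 := hval j hj0 le_rfl
    rw [hj1, hka, if_pos hd, if_neg (hanot d hd)] at h5
    linarith
  obtain ⟨d0, hd0⟩ := List.exists_mem_of_ne_nil c hne
  have hall : ∀ x ∈ c, k x = k d0 :=
    side_trans T (fun x => k x = k d0) hc (fun x hx y hy hxy hx1 => (hconst x hx y hy hxy).trans hx1) hd0 rfl
  refine ⟨Finset.univ.filter fun d => k d0 ≤ k d, fun d => ?_, fun d => ?_⟩
  · simp only [Finset.mem_filter, Finset.mem_univ, true_and, hkf]
  · simp only [Finset.mem_filter, Finset.mem_univ, true_and, not_le]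
    constructor
    · rintro ⟨h1, h2⟩
      by_contra hd
      have := hka d
      rw [if_neg hd] at this
      split_ifs at this <;> linarith
    · intro hd
      have := hka d
      rw [if_pos hd, if_neg (hanot d hd), hall d hd] at this
      rw [hall d hd]
      constructor
      · exact le_rfl
      · linarith

end GNH
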