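import Pool.Agent.GNH.CountA
import Pool.Agent.GNH.Side

/-!
# GNH-Count: the cut inequality
`SSC n V ℓ`: pairs (connected `T` on `Fin (6n)` with `V` vertices, `c : Fin ℓ → Fin (6n)`) with `List.ofFn c` closed, simple,
null-homologous, not null-homotopic.
(1) every `(T, c) ∈ SSC` is in some `XA (Fin (6n)) V ℓ A`: `exists_side` for the list `List.ofFn c` (non-empty as `ℓ ≥ 1`) gives `A`;
`Cut`: `next` from `Closed (List.ofFn c)` (successor in the list, cyclically), `inj` from `Simple`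
(`List.nodup_ofFn`), `bd`: `List.mem_ofFn`.
(2) `SSC.ncard ≤ ∑ A, (XA A).ncard` (`Set.ncard` of the union over the finite type of all `A`).
(3) if `XA A` is non-empty: `A.card + 3 ℓ = 6 n₁`, `Aᶜ.card + 3 ℓ = 6 n₂` (`xa_dvd`), `n₁ + n₂ = n + ℓ` (as
`A.card + Aᶜ.card = 6 n`), and by `xa_card`, `capT_card`:
`(XA A).ncard ≤ ∑ q, [..] 36 n₁ n₂ mv n₁ q.1 * mv n₂ q.2 * A.card! * Aᶜ.card!`.
(4) number of `A` with `A.card = m₁`: `(6n).choose m₁`, `(6n).choose m₁ * m₁! * (6n - m₁)! = (6n)!`.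
Group the `A` according to `p = (n₁, n₂) ∈ antidiagonal (n + ℓ)`.
-/

namespace GNH

open SST Classical Finset

/-- Pairs (triangulation, simple separating non-contractible cycle of length `ℓ`). -/
def SSC (n V ℓ : ℕ) : Set (Tri (Fin (6 * n)) × (Fin ℓ → Fin (6 * n))) :=
  {x | x.1.Conn ∧ Nat.card x.1.V = V ∧ x.1.Closed (List.ofFn x.2) ∧ x.1.Simple (List.ofFn x.2) ∧
    x.1.NullHom (List.ofFn x.2) ∧ ¬ x.1.NullHtp (List.ofFn x.2)}

private theorem walk_next {D : Type} (T : Tri D) (l : List D) : ∀ (u v : T.V), T.IsWalk u l v →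
    (∀ (i : ℕ) (h : i + 1 < l.length), T.hd (l[i]'(by omega)) = T.tl (l[i + 1]'h)) ∧
    (∀ h : 0 < l.length, T.tl (l[0]'h) = u) ∧
    (∀ h : 0 < l.length, T.hd (l[l.length - 1]'(by omega)) = v) := by
  induction l with
  | nil =>
    intro u v _
    refine ⟨fun i h => absurd h (by simp), fun h => absurd h (by simp), fun h => absurd h (by simp)⟩
  | cons d l ih =>
    intro u v hw
    obtain ⟨h1, h2⟩ := hw
    obtain ⟨i1, i2, i3⟩ := ih _ _ h2
    refine ⟨?_, fun _ => h1, ?_⟩
    · intro i hi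
      cases i with
      | zero =>
        have hl : 0 < l.length := by simp at hi; omega
        have := i2 hl
        simp only [List.getElem_cons_zero, List.getElem_cons_succ, Nat.zero_add]
        exact this.symm
      | succ i =>
        have hl : i + 1 < l.length := by simp at hi; omega
        have := i1 i hl
        simp only [List.getElem_cons_succ]
        exact this
    · intro _
      by_cases hl : 0 < l.length
      · have := i3 hl
        have e : (d :: l).length - 1 = (l.length - 1) + 1 := by simp; omega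
        simp only [e, List.getElem_cons_succ]
        exact this
      · have hnil : l = [] := List.eq_nil_of_length_eq_zero (by omega)
        subst hnil
        exact h2

private theorem closed_next {D : Type} (T : Tri D) {ℓ : ℕ} (c : Fin ℓ → D)
    (h : T.Closed (List.ofFn c)) (i : Fin ℓ) : T.hd (c i) = T.tl (c (finRotate ℓ i)) := by
  obtain ⟨v, hv⟩ := h
  obtain ⟨h1, h2, h3⟩ := walk_next T _ _ _ hv
  cases ℓ with
  | zero => exact i.elim0
  | succ m =>
    by_cases hi : i.1 < m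
    · have h4 := h1 i.1 (by simp; omega)
      rw [List.getElem_ofFn, List.getElem_ofFn] at h4
      have e : finRotate (m + 1) i = ⟨i.1 + 1, by omega⟩ := by
        have := finRotate_of_lt (n := m) (k := i.1) hi
        convert this using 2
      rw [e]
      convert h4 using 2
    · have him : i = Fin.last m := by
        apply Fin.ext
        have := i.2
        simp only [Fin.val_last]
        omega
      rw [him, finRotate_last]
      have h5 := h2 (by simp)
      have h6 := h3 (by simp)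
      rw [List.getElem_ofFn] at h5 h6
      have e0 : (⟨0, by omega⟩ : Fin (m + 1)) = 0 := rfl
      rw [← h5] at h6
      rw [e0] at h6
      have e1 : (⟨(List.ofFn c).length - 1, by simp⟩ : Fin (m + 1)) = Fin.last m := by
        apply Fin.ext
        simp
      rw [← e1]
      exact h6

private theorem ssc_sub {n V ℓ : ℕ} (hℓ : 1 ≤ ℓ) (x : Tri (Fin (6 * n)) × (Fin ℓ → Fin (6 * n)))
    (hx : x ∈ SSC n V ℓ) : ∃ A : Finset (Fin (6 * n)), x ∈ XA (Fin (6 * n)) V ℓ A := by
  obtain ⟨h1, h2, h3, h4, h5, h6⟩ := hx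
  have hne : List.ofFn x.2 ≠ [] := by
    intro h
    have := congrArg List.length h
    simp at this
    omega
  obtain ⟨A, hA1, hA2⟩ := exists_side x.1 hne h3 h4 h5 h6
  refine ⟨A, h1, h2, ⟨hℓ, hA1, ?_, closed_next x.1 x.2 h3, ?_⟩, h6⟩
  · intro d
    rw [hA2 d, List.mem_ofFn]
  · have h7 : ((List.ofFn x.2).map x.1.tl).Nodup := h4
    rw [List.map_ofFn, List.nodup_ofFn] at h7
    exact h7

private noncomputable def WW (V ℓ : ℕ) (p : ℕ × ℕ) : ℝ :=
  ∑ q ∈ antidiagonal (V + ℓ + 2),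
    if ℓ + 1 ≤ q.1 ∧ q.1 ≤ p.1 ∧ ℓ + 1 ≤ q.2 ∧ q.2 ≤ p.2 then
      36 * (p.1 : ℝ) * p.2 * mv p.1 q.1 * mv p.2 q.2 else 0

private theorem WW_nonneg (V ℓ : ℕ) (p : ℕ × ℕ) : 0 ≤ WW V ℓ p := by
  unfold WW
  refine Finset.sum_nonneg (fun q _ => ?_)
  split_ifs
  · have h1 := mv_nonneg p.1 q.1
    have h2 := mv_nonneg p.2 q.2
    positivity
  · exact le_refl _

private theorem xa_le {D : Type} [Fintype D] {n V ℓ : ℕ} (hD : Fintype.card D = 6 * n)
    (A : Finset D) :
    ((XA D V ℓ A).ncard : ℝ) ≤ ∑ p ∈ antidiagonal (n + ℓ),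
      if A.card + 3 * ℓ = 6 * p.1 then
        (A.card.factorial : ℝ) * ((6 * n - A.card).factorial : ℝ) * WW V ℓ p else 0 := by
  have hnn : ∀ p ∈ antidiagonal (n + ℓ), (0 : ℝ) ≤ if A.card + 3 * ℓ = 6 * p.1 then
        (A.card.factorial : ℝ) * ((6 * n - A.card).factorial : ℝ) * WW V ℓ p else 0 := by
    intro p _
    split_ifs
    · have := WW_nonneg V ℓ p
      positivity
    · exact le_refl _
  by_cases hne : (XA D V ℓ A).Nonempty
  · obtain ⟨hpos, ⟨n₁, h1⟩, ⟨n₂, h2⟩⟩ := xa_dvd hne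
    have hc : Aᶜ.card = 6 * n - A.card := by rw [Finset.card_compl, hD]
    have hle : A.card ≤ 6 * n := by rw [← hD]; exact Finset.card_le_univ A
    have hsum : n₁ + n₂ = n + ℓ := by
      rw [hc] at h2
      omega
    have hmem : (n₁, n₂) ∈ antidiagonal (n + ℓ) := by
      rw [HasAntidiagonal.mem_antidiagonal]; exact hsum
    have hk := xa_card (V := V) h1 h2
    refine le_trans hk (le_trans ?_ (Finset.single_le_sum hnn hmem))
    rw [if_pos h1]
    unfold WW
    rw [Finset.mul_sum]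
    refine Finset.sum_le_sum (fun q _ => ?_)
    by_cases hq : ℓ + 1 ≤ q.1 ∧ q.1 ≤ n₁ ∧ ℓ + 1 ≤ q.2 ∧ q.2 ≤ n₂
    · rw [if_pos hq, if_pos hq]
      have c1 := capT_card (A := A) (V₁ := q.1) hpos h1
      have c2 := capT_card (A := Aᶜ) (V₁ := q.2) hpos h2
      rw [hc] at c2
      have c0 : (0 : ℝ) ≤ ((CapT Aᶜ ℓ q.2).ncard : ℝ) := Nat.cast_nonneg _
      have m1 := mv_nonneg n₁ q.1
      refine le_trans (mul_le_mul c1 c2 c0 (by positivity)) (le_of_eq ?_)
      ring
    · rw [if_neg hq, if_neg hq, mul_zero]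
  · rw [Set.not_nonempty_iff_eq_empty] at hne
    rw [hne, Set.ncard_empty]
    simp only [Nat.cast_zero]
    exact Finset.sum_nonneg hnn

private theorem total {D : Type} [Fintype D] {n V ℓ : ℕ} (hD : Fintype.card D = 6 * n) :
    ∑ A : Finset D, ((XA D V ℓ A).ncard : ℝ) ≤
      (6 * n).factorial * ∑ p ∈ antidiagonal (n + ℓ), WW V ℓ p := by
  refine le_trans (Finset.sum_le_sum (fun A _ => xa_le (V := V) (ℓ := ℓ) hD A)) ?_
  rw [Finset.sum_comm, Finset.mul_sum]
  refine Finset.sum_le_sum (fun p _ => ?_)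
  have hw := WW_nonneg V ℓ p
  rw [← Finset.powerset_univ, Finset.sum_powerset_apply_card (fun m : ℕ =>
    if m + 3 * ℓ = 6 * p.1 then
        (m.factorial : ℝ) * ((6 * n - m).factorial : ℝ) * WW V ℓ p else 0)]
  rw [Finset.card_univ, hD]
  have hterm : ∀ m ∈ Finset.range (6 * n + 1), (6 * n).choose m • (if m + 3 * ℓ = 6 * p.1 then
        (m.factorial : ℝ) * ((6 * n - m).factorial : ℝ) * WW V ℓ p else 0) =
      if m + 3 * ℓ = 6 * p.1 then ((6 * n).factorial : ℝ) * WW V ℓ p else 0 := by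
    intro m hm
    have hm' : m ≤ 6 * n := by
      rw [Finset.mem_range] at hm
      omega
    split_ifs
    · have hf : ((6 * n).factorial : ℝ) =
          ((6 * n).choose m : ℝ) * (m.factorial : ℝ) * ((6 * n - m).factorial : ℝ) := by
        have := Nat.choose_mul_factorial_mul_factorial hm'
        rw [← this]
        push_cast
        ring
      rw [nsmul_eq_mul, hf]
      ring
    · simp
  rw [Finset.sum_congr rfl hterm]
  by_cases hp : 3 * ℓ ≤ 6 * p.1
  · have hcond : ∀ m : ℕ, (m + 3 * ℓ = 6 * p.1) ↔ (6 * p.1 - 3 * ℓ = m) := by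
      intro m
      omega
    have : ∑ m ∈ Finset.range (6 * n + 1),
        (if m + 3 * ℓ = 6 * p.1 then ((6 * n).factorial : ℝ) * WW V ℓ p else 0) =
        ∑ m ∈ Finset.range (6 * n + 1),
        (if 6 * p.1 - 3 * ℓ = m then ((6 * n).factorial : ℝ) * WW V ℓ p else 0) := by
      refine Finset.sum_congr rfl (fun m _ => ?_)
      by_cases hm : m + 3 * ℓ = 6 * p.1
      · rw [if_pos hm, if_pos ((hcond m).1 hm)]
      · rw [if_neg hm, if_neg (fun h => hm ((hcond m).2 h))]
    rw [this, Finset.sum_ite_eq]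
    split_ifs
    · exact le_refl _
    · positivity
  · have : ∑ m ∈ Finset.range (6 * n + 1),
        (if m + 3 * ℓ = 6 * p.1 then ((6 * n).factorial : ℝ) * WW V ℓ p else 0) = 0 := by
      refine Finset.sum_eq_zero (fun m _ => ?_)
      rw [if_neg (by omega)]
    rw [this]
    positivity

private theorem ncard_le_sum {α ι : Type} [Finite α] [Fintype ι] (S : Set α) (X : ι → Set α)
    (h : ∀ x ∈ S, ∃ i, x ∈ X i) : (S.ncard : ℝ) ≤ ∑ i, ((X i).ncard : ℝ) := by
  have h1 : S.toFinite.toFinset ⊆ Finset.univ.biUnion (fun i => (X i).toFinite.toFinset) := by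
    intro x hx
    rw [Set.Finite.mem_toFinset] at hx
    obtain ⟨i, hi⟩ := h x hx
    rw [Finset.mem_biUnion]
    exact ⟨i, Finset.mem_univ _, by rw [Set.Finite.mem_toFinset]; exact hi⟩
  have h2 := (Finset.card_le_card h1).trans Finset.card_biUnion_le
  rw [← Set.ncard_eq_toFinset_card S S.toFinite] at h2
  have h3 : ∑ i : ι, (X i).toFinite.toFinset.card = ∑ i : ι, (X i).ncard := by
    refine Finset.sum_congr rfl (fun i _ => ?_)
    rw [← Set.ncard_eq_toFinset_card (X i) (X i).toFinite]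
  rw [h3] at h2
  exact_mod_cast h2

theorem cut_count {n V ℓ : ℕ} (hn : 1 ≤ n) (hℓ : 1 ≤ ℓ) :
    ((SSC n V ℓ).ncard : ℝ) / (6 * n).factorial ≤
      ∑ p ∈ antidiagonal (n + ℓ), ∑ q ∈ antidiagonal (V + ℓ + 2),
        if ℓ + 1 ≤ q.1 ∧ q.1 ≤ p.1 ∧ ℓ + 1 ≤ q.2 ∧ q.2 ≤ p.2 then
          36 * (p.1 : ℝ) * p.2 * mv p.1 q.1 * mv p.2 q.2 else 0 := by
  have h1 := ncard_le_sum (SSC n V ℓ) (fun A => XA (Fin (6 * n)) V ℓ A)
    (fun x hx => ssc_sub hℓ x hx)
  have h2 := total (D := Fin (6 * n)) (n := n) (V := V) (ℓ := ℓ) (by rw [Fintype.card_fin])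
  have h3 := h1.trans h2
  have hpos : (0 : ℝ) < (6 * n).factorial := by exact_mod_cast Nat.factorial_pos _
  rw [div_le_iff₀ hpos]
  calc ((SSC n V ℓ).ncard : ℝ) ≤ (6 * n).factorial * ∑ p ∈ antidiagonal (n + ℓ), WW V ℓ p := h3
    _ = _ := by rw [mul_comm]; rfl

end GNH
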