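import Pool.Agent.GNH.Cap

/-!
# GNH-SideConn: the sides and the capped sides are connected
* `side_conn`: a non-empty part `S` of a side `A`, closed under `f` and, within `A`, under `a`, is `A`.
* `cap_conn`: the capped side is connected.
-/

namespace GNH

open SST Classical

variable {D : Type} [Fintype D] {ℓ : ℕ}

private theorem rot_ind (P : Fin ℓ → Prop) (h : ∀ i, P i → P (finRotate ℓ i)) {i0 : Fin ℓ}
    (h0 : P i0) (i : Fin ℓ) : P i := by
  cases ℓ with
  | zero => exact i.elim0
  | succ n =>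
    have h1 : ∀ k : ℕ, P (i0 + Fin.ofNat (n + 1) k) := by
      intro k
      induction k with
      | zero =>
        have h2 : Fin.ofNat (n + 1) 0 = 0 := rfl
        rw [h2, add_zero]
        exact h0
      | succ k ih =>
        have h2 := h _ ih
        rw [finRotate_apply] at h2
        have h3 : Fin.ofNat (n + 1) (k + 1) = Fin.ofNat (n + 1) k + 1 := by
          apply Fin.ext
          rw [Fin.val_add, Fin.val_ofNat, Fin.val_ofNat, Fin.val_one']
          exact Nat.add_mod k 1 (n + 1)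
        rw [h3, ← add_assoc]
        exact h2
    have h4 := h1 (i - i0).val
    have h5 : Fin.ofNat (n + 1) (i - i0).val = i - i0 := by
      apply Fin.ext
      rw [Fin.val_ofNat, Nat.mod_eq_of_lt (i - i0).isLt]
    rw [h5, add_sub_cancel] at h4
    exact h4

private theorem fin3_cases : ∀ j j' : Fin 3, j' = j ∨ j' = j + 1 ∨ j' = j + 1 + 1 := by
  decide

theorem side_conn {T : Tri D} {A : Finset D} {c : Fin ℓ → D} (h : Cut T A c) (hT : T.Conn) :
    ∀ S ⊆ A, S.Nonempty → (∀ d ∈ S, T.f d ∈ S ∧ (T.a d ∈ A → T.a d ∈ S)) → S = A := by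
  intro S hSA hne hcl
  -- (i)
  have h1 : ∃ i, c i ∈ S := by
    by_contra hno
    push Not at hno
    have h2 : (S : Set D) = Set.univ := by
      apply hT
      · exact hne
      · intro d hd
        have hd' : d ∈ S := hd
        refine ⟨?_, (hcl d hd').1⟩
        have h3 : T.a d ∈ A := by
          by_contra h4
          obtain ⟨i, hi⟩ := (h.bd d).1 ⟨hSA hd', h4⟩
          exact hno i (hi ▸ hd')
        exact (hcl d hd').2 h3
    have h3 : c ⟨0, h.pos⟩ ∈ (S : Set D) := by
      rw [h2]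
      exact Set.mem_univ _
    exact hno _ h3
  -- (ii)
  have h2 : ∀ i, c i ∈ S → c (finRotate ℓ i) ∈ S := by
    intro i hi
    have he0 : T.f (c i) ∈ S := (hcl _ hi).1
    have htl : T.tl (T.f (c i)) = T.tl (c (finRotate ℓ i)) := by
      rw [Tri.tl_f]
      exact h.next i
    have hsame : T.s.SameCycle (T.f (c i)) (c (finRotate ℓ i)) := (Tri.tl_eq_iff T _ _).1 htl
    have hex : ∃ n : ℕ, (T.s ^ n) (T.f (c i)) = c (finRotate ℓ i) := hsame.exists_nat_pow_eq
    have htls : ∀ j, T.tl ((T.s ^ j) (T.f (c i))) = T.tl (c (finRotate ℓ i)) := by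
      intro j
      induction j with
      | zero => exact htl
      | succ j ih => rw [pow_succ', Equiv.Perm.mul_apply, Tri.tl_s, ih]
    have hall : ∀ j, j ≤ Nat.find hex → (T.s ^ j) (T.f (c i)) ∈ S := by
      intro j
      induction j with
      | zero => exact fun _ => he0
      | succ j ih =>
        intro hj
        have h3 := ih (by omega)
        have h4 : (T.s ^ j) (T.f (c i)) ≠ c (finRotate ℓ i) := Nat.find_min hex (by omega)
        have h5 : T.a ((T.s ^ j) (T.f (c i))) ∈ A := by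
          by_contra h6
          obtain ⟨k, hk⟩ := (h.bd _).1 ⟨hSA h3, h6⟩
          apply h4
          have h7 : T.tl (c k) = T.tl (c (finRotate ℓ i)) := by rw [hk, htls j]
          have h8 : k = finRotate ℓ i := h.inj h7
          rw [← hk, h8]
        rw [pow_succ', Equiv.Perm.mul_apply, Tri.s_apply]
        exact (hcl _ ((hcl _ h3).2 h5)).1
    have h9 := hall _ le_rfl
    rw [Nat.find_spec hex] at h9
    exact h9
  obtain ⟨i0, hi0⟩ := h1
  have h3 : ∀ i, c i ∈ S := rot_ind (fun i => c i ∈ S) h2 hi0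
  -- (iii)
  by_contra hne2
  have h4 : {d : D | d ∈ A ∧ d ∉ S} = Set.univ := by
    apply hT
    · by_contra h5
      apply hne2
      apply Finset.Subset.antisymm hSA
      intro d hd
      by_contra h6
      exact h5 ⟨d, hd, h6⟩
    · rintro d ⟨hd, hdS⟩
      refine ⟨?_, (h.fA d).2 hd, fun h5 => hdS ?_⟩
      · have h5 : T.a d ∈ A := by
          by_contra h6
          obtain ⟨i, hi⟩ := (h.bd d).1 ⟨hd, h6⟩
          exact hdS (hi ▸ h3 i)
        refine ⟨h5, fun h6 => hdS ?_⟩
        have h7 := (hcl _ h6).2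
        rw [T.aa] at h7
        exact h7 hd
      · have h6 := (hcl _ (hcl _ h5).1).1
        rw [T.fff] at h6
        exact h6
  have h5 : c i0 ∈ {d : D | d ∈ A ∧ d ∉ S} := by
    rw [h4]
    exact Set.mem_univ _
  exact h5.2 hi0

theorem cap_conn {T : Tri D} {A : Finset D} {c : Fin ℓ → D} (h : Cut T A c) (hT : T.Conn) :
    (cap h).Conn := by
  intro S hne hcl
  have hf : ∀ x, x ∈ S → capF h x ∈ S := fun x hx => (hcl x hx).2
  have ha : ∀ x, x ∈ S → capA h x ∈ S := fun x hx => (hcl x hx).1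
  have h3 : ∀ i j, Sum.inr (i, j) ∈ S → ∀ j', Sum.inr (i, j') ∈ S := by
    intro i j hj
    have h1 : Sum.inr (i, j + 1) ∈ S := hf _ hj
    have h2 : Sum.inr (i, j + 1 + 1) ∈ S := hf _ h1
    intro j'
    rcases fin3_cases j j' with rfl | rfl | rfl
    · exact hj
    · exact h1
    · exact h2
  set S' : Finset D := A.filter fun d => ∃ hd : d ∈ A, Sum.inl ⟨d, hd⟩ ∈ S with hS'
  have hmem : ∀ d (hd : d ∈ A), Sum.inl ⟨d, hd⟩ ∈ S ↔ d ∈ S' := by
    intro d hd
    rw [hS', Finset.mem_filter]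
    exact ⟨fun h1 => ⟨hd, hd, h1⟩, fun h1 => h1.2.2⟩
  have hne' : S'.Nonempty := by
    obtain ⟨x, hx⟩ := hne
    rcases x with ⟨d, hd⟩ | ⟨i, j⟩
    · exact ⟨d, (hmem d hd).1 hx⟩
    · have h1 := ha _ (h3 i j hx 0)
      rw [capA_zero] at h1
      exact ⟨c i, (hmem _ _).1 h1⟩
  have hS'A : S' = A := by
    refine side_conn h hT S' (Finset.filter_subset _ _) hne' fun d hd => ?_
    have hdA : d ∈ A := (Finset.mem_filter.1 hd).1
    have h1 := (hmem d hdA).2 hd
    refine ⟨(hmem _ ((h.fA d).2 hdA)).1 (hf _ h1), fun h2 => ?_⟩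
    have h4 := ha _ h1
    rw [capA_in h hdA h2] at h4
    exact (hmem _ h2).1 h4
  have hinl : ∀ d (hd : d ∈ A), Sum.inl ⟨d, hd⟩ ∈ S := by
    intro d hd
    rw [hmem, hS'A]
    exact hd
  rw [Set.eq_univ_iff_forall]
  rintro (⟨d, hd⟩ | ⟨i, j⟩)
  · exact hinl d hd
  · have h1 := ha _ (hinl (c i) (h.mem i))
    rw [capA_bd] at h1
    exact h3 i 0 h1 j

end GNH
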