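import Pool.Agent.GNH.Defs

/-!
# GNH-UniA: subgraphs of a connected graph with at most one independent cycle

A nonempty subgraph `H` of a connected graph `G` with at most as many edges as vertices again has at most as many
edges as vertices: enlarge `H` edge by edge until all vertices of `G` are reached.
-/

namespace GNH

open SST Classical

variable {D : Type} [Fintype D]

theorem uni_sub (T : Tri D) {G H : Finset D} (hG : T.AC G) (hH : T.AC H) (hHG : H ⊆ G)
    (hne : H.Nonempty) (hb : G.card ≤ 2 * (T.VK G).card)
    (hcon : ∀ S ⊆ G, S.Nonempty → (∀ d ∈ S, T.a d ∈ S) →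
      (∀ d ∈ S, ∀ e ∈ G, T.tl e = T.tl d → e ∈ S) → S = G) :
    H.card ≤ 2 * (T.VK H).card := by
  have hVmono : ∀ {K K' : Finset D}, K ⊆ K' → T.VK K ⊆ T.VK K' := fun h => Finset.image_subset_image h
  have hmemV : ∀ {K : Finset D} {d : D}, d ∈ K → T.tl d ∈ T.VK K := fun h => Finset.mem_image_of_mem _ h
  let 𝓕 : Finset (Finset D) := Finset.univ.filter fun K =>
    H ⊆ K ∧ K ⊆ G ∧ T.AC K ∧ H.card + 2 * (T.VK K).card ≤ K.card + 2 * (T.VK H).card
  have hne𝓕 : 𝓕.Nonempty := ⟨H, Finset.mem_filter.2 ⟨Finset.mem_univ _, subset_rfl, hHG, hH, le_rfl⟩⟩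
  obtain ⟨K, hK, hmax⟩ := Finset.exists_max_image 𝓕 Finset.card hne𝓕
  obtain ⟨-, hHK, hKG, hKa, hKc⟩ := Finset.mem_filter.1 hK
  by_cases hV : T.VK K = T.VK G
  · have h1 := Finset.card_le_card hKG
    rw [hV] at hKc
    omega
  · exfalso
    have hex : ∃ e ∈ G, T.tl e ∈ T.VK K ∧ T.hd e ∉ T.VK K := by
      by_contra hcontra
      push Not at hcontra
      apply hV
      refine Finset.Subset.antisymm (hVmono hKG) ?_
      have hS : G.filter (fun d => T.tl d ∈ T.VK K) = G := by
        apply hcon _ (Finset.filter_subset _ _)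
        · obtain ⟨d, hd⟩ := hne
          exact ⟨d, Finset.mem_filter.2 ⟨hHG hd, hmemV (hHK hd)⟩⟩
        · intro d hd
          obtain ⟨h1, h2⟩ := Finset.mem_filter.1 hd
          exact Finset.mem_filter.2 ⟨hG d h1, hcontra d h1 h2⟩
        · intro d hd e he hed
          obtain ⟨h1, h2⟩ := Finset.mem_filter.1 hd
          exact Finset.mem_filter.2 ⟨he, hed ▸ h2⟩
      intro v hv
      obtain ⟨d, hd, rfl⟩ := Finset.mem_image.1 hv
      rw [← hS] at hd
      exact (Finset.mem_filter.1 hd).2
    obtain ⟨e, heG, hte, hhe⟩ := hex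
    have haeK : T.a e ∉ K := fun h => hhe (hmemV h)
    have heK : e ∉ K := fun h => haeK (hKa e h)
    have hne' : e ≠ T.a e := fun h => T.ane e h.symm
    have hein : e ∉ insert (T.a e) K := by
      rw [Finset.mem_insert]
      rintro (h | h)
      · exact hne' h
      · exact heK h
    have hcard : (insert e (insert (T.a e) K)).card = K.card + 2 := by
      rw [Finset.card_insert_of_notMem hein, Finset.card_insert_of_notMem haeK]
    have hVK : T.VK (insert e (insert (T.a e) K)) = insert (T.hd e) (T.VK K) := by
      unfold Tri.VK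
      rw [Finset.image_insert, Finset.image_insert, Finset.insert_comm]
      change insert (T.hd e) (insert (T.tl e) (T.VK K)) = _
      rw [Finset.insert_eq_of_mem hte]
      rfl
    have hVc : (T.VK (insert e (insert (T.a e) K))).card = (T.VK K).card + 1 := by
      rw [hVK, Finset.card_insert_of_notMem hhe]
    have hmem : insert e (insert (T.a e) K) ∈ 𝓕 := by
      refine Finset.mem_filter.2 ⟨Finset.mem_univ _, ?_, ?_, ?_, ?_⟩
      · exact hHK.trans ((Finset.subset_insert _ _).trans (Finset.subset_insert _ _))
      · intro d hd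
        rcases Finset.mem_insert.1 hd with h | h
        · rw [h]; exact heG
        · rcases Finset.mem_insert.1 h with h | h
          · rw [h]; exact hG e heG
          · exact hKG h
      · intro d hd
        rcases Finset.mem_insert.1 hd with h | h
        · rw [h]; exact Finset.mem_insert_of_mem (Finset.mem_insert_self _ _)
        · rcases Finset.mem_insert.1 h with h | h
          · rw [h, T.aa]; exact Finset.mem_insert_self _ _
          · exact Finset.mem_insert_of_mem (Finset.mem_insert_of_mem (hKa d h))
      · rw [hcard, hVc]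
        omega
    have := hmax _ hmem
    rw [hcard] at this
    omega

end GNH
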