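import Pool.Agent.GNH.Defs

/-!
# GNH-UniB: a cyclically reduced closed walk in a graph with at most one cycle has non-zero chain
`w` is a non-empty closed walk without spurs (also cyclically), `H` = the darts `d` with `d ∈ w` or `a d ∈ w`,
`H.card ≤ 2 * (VK H).card`.  Then the chain of `w` is not 0.
PROOF.  Every dart `d ∈ w` has a (cyclic) successor `e ∈ w`: `tl e = hd d`, `e ≠ a d`; and a predecessor.
(1) every `v ∈ VK H` has `degK H v ≥ 2`: `v = tl x`, `x ∈ H`; if `x ∈ w` let `y` be its predecessor: `x` and `a y` are
different darts of `H` with tail `v`; if `a x ∈ w` let `z` be the successor of `a x`: `tl z = hd (a x) = v`, `z ≠ x`.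
`∑_{v ∈ VK H} degK H v = H.card ≤ 2 (VK H).card` (`Finset.card_eq_sum_card_fiberwise`), so all degrees are 2.
(2) So for `d ∈ H` there is exactly one `e ∈ H` with `tl e = hd d`, `e ≠ a d` (`a d ∈ H` has tail `hd d`): `next d`.
`next : H → H`, `next d ≠ a d`, and `next (a (next d)) = a d` (at the vertex `hd d` the darts of `H` are `next d` and
`a d`).  Hence `next` is injective (`a d = next (a (next d))`).
(3) The successor of `d ∈ w` in `w` is `next d`; so every dart of `w` is `next^m d` for the first dart `d`, and
`w` is closed under `next`.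
(4) Suppose the chain is 0 and let `d ∈ w`: `0 = chain w d = count d w - count (a d) w`, so `a d ∈ w`, and
`a d = next^m d` for some `m ≥ 0` (walk along `w` from `d` cyclically).  By induction on `j ≤ m`:
`a (next^j d) = next^(m-j) d` (`next (a (next^(j+1) d)) = a (next^j d) = next^(m-j) d`, `next` injective).  If
`m = 2 j`: `a x = x` for `x = next^j d`, impossible (`ane`).  If `m = 2 j + 1`: `a x = next x`, impossible.
(`chain w d = count d w - count (a d) w`: induction on the list with `chain_cons`, `ind`; or use the
lemmas in `SST/Walk`, `SST/D/CycL`.)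
-/

namespace GNH

open SST Classical

variable {D : Type} [Fintype D]

private theorem uni_chain_pos (T : Tri D) (d : D) : ∀ l : List D, T.a d ∉ l →
    0 ≤ T.chain l d ∧ (d ∈ l → 1 ≤ T.chain l d) := by
  intro l
  induction l with
  | nil =>
    intro _
    exact ⟨by rw [Tri.chain_nil], fun h => absurd h List.not_mem_nil⟩
  | cons e l ih =>
    intro h
    rw [List.mem_cons, not_or] at h
    obtain ⟨h3, h4⟩ := ih h.2
    have he : Tri.ind e (T.a d) = 0 := Tri.ind_ne (fun x => h.1 x.symm)
    rw [Tri.chain_cons, he]
    by_cases hh : e = d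
    · rw [hh, Tri.ind_self]
      exact ⟨by omega, fun _ => by omega⟩
    · rw [Tri.ind_ne hh]
      refine ⟨by omega, fun hd => ?_⟩
      rcases List.mem_cons.1 hd with h5 | h5
      · exact absurd h5.symm hh
      · have := h4 h5
        omega

private theorem uni_walk_get (T : Tri D) : ∀ (l : List D) (u v : T.V), T.IsWalk u l v →
    ∀ (i : ℕ) (d e : D), l[i]? = some d → l[i + 1]? = some e → T.tl e = T.hd d := by
  intro l
  induction l with
  | nil =>
    intro u v _ i d e h
    simp at h
  | cons x l ih =>
    intro u v hw i d e hd he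
    cases i with
    | zero =>
      rw [List.getElem?_cons_zero, Option.some.injEq] at hd
      rw [List.getElem?_cons_succ] at he
      subst hd
      cases l with
      | nil => simp at he
      | cons y l =>
        rw [List.getElem?_cons_zero, Option.some.injEq] at he
        subst he
        exact hw.2.1
    | succ i =>
      rw [List.getElem?_cons_succ] at hd he
      exact ih _ _ hw.2 i d e hd he

private theorem uni_walk_last (T : Tri D) (l : List D) (x : D) (u v : T.V)
    (h : T.IsWalk u (l ++ [x]) v) : T.hd x = v := by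
  obtain ⟨z, _, h2⟩ := Tri.walk_split T h
  exact h2.2

private theorem uni_split_two (l : List D) (i : ℕ) (hi : i + 1 < l.length) :
    l = l.take i ++ [l[i], l[i + 1]] ++ l.drop (i + 2) := by
  conv_lhs => rw [← List.take_append_drop i l]
  rw [List.append_assoc]
  congr 1
  rw [List.drop_eq_getElem_cons (by omega), List.drop_eq_getElem_cons hi]
  rfl

/-- The cyclic sequence of the darts of a closed walk without spurs. -/
private theorem uni_seq (T : Tri D) {w : List D} (hw : T.Closed w) (hne : w ≠ [])
    (h1 : ∀ (u v : List D) (d : D), w ≠ u ++ [d, T.a d] ++ v)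
    (h2 : ∀ (u : List D) (d : D), w ≠ [d] ++ u ++ [T.a d]) :
    ∃ (n : ℕ) (g : ℕ → D), 0 < n ∧ (∀ i, g (i + n) = g i) ∧ (∀ i, g i ∈ w) ∧
      (∀ d ∈ w, ∃ i, i < n ∧ g i = d) ∧ (∀ i, T.tl (g (i + 1)) = T.hd (g i)) ∧
      ∀ i, g (i + 1) ≠ T.a (g i) := by
  have hn : 0 < w.length := List.length_pos_iff.2 hne
  obtain ⟨v0, hwalk⟩ := hw
  have hmod : ∀ i, i % w.length < w.length := fun i => Nat.mod_lt _ hn
  refine ⟨w.length, fun i => w[i % w.length]'(hmod i), hn, ?_, ?_, ?_, ?_, ?_⟩
  · intro i
    simp only [Nat.add_mod_right]
  · intro i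
    exact List.getElem_mem _
  · intro d hd
    obtain ⟨i, hi, hid⟩ := List.getElem_of_mem hd
    refine ⟨i, hi, ?_⟩
    simp only [Nat.mod_eq_of_lt hi]
    exact hid
  · intro i
    have hr := hmod i
    by_cases hc : i % w.length + 1 < w.length
    · have e1 : (i + 1) % w.length = i % w.length + 1 := by
        rw [Nat.add_mod]
        by_cases h1' : w.length = 1
        · omega
        · rw [Nat.mod_eq_of_lt (show 1 < w.length by omega), Nat.mod_eq_of_lt hc]
      simp only [e1]
      exact uni_walk_get T w v0 v0 hwalk (i % w.length) _ _ (List.getElem?_eq_getElem hr)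
        (List.getElem?_eq_getElem hc)
    · have e0 : i % w.length = w.length - 1 := by omega
      have e1 : (i + 1) % w.length = 0 := by
        have : i + 1 = w.length * (i / w.length) + w.length := by
          have := Nat.div_add_mod i w.length
          omega
        rw [this, Nat.add_mod_right, Nat.mul_mod_right]
      simp only [e0, e1]
      have h3 : T.tl (w[0]'hn) = v0 := by
        cases w with
        | nil => exact absurd rfl hne
        | cons x l => exact hwalk.1
      have h4 : T.hd (w[w.length - 1]'(by omega)) = v0 := by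
        have h5 : w = w.dropLast ++ [w[w.length - 1]'(by omega)] := by
          conv_lhs => rw [← List.dropLast_append_getLast hne]
          rw [List.getLast_eq_getElem]
        rw [h5] at hwalk
        exact uni_walk_last T _ _ _ _ hwalk
      rw [h3, h4]
  · intro i
    have hr := hmod i
    by_cases hc : i % w.length + 1 < w.length
    · have e1 : (i + 1) % w.length = i % w.length + 1 := by
        rw [Nat.add_mod]
        by_cases h1' : w.length = 1
        · omega
        · rw [Nat.mod_eq_of_lt (show 1 < w.length by omega), Nat.mod_eq_of_lt hc]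
      simp only [e1]
      intro h3
      have h4 := uni_split_two w (i % w.length) hc
      rw [h3] at h4
      exact h1 _ _ _ h4
    · have e0 : i % w.length = w.length - 1 := by omega
      have e1 : (i + 1) % w.length = 0 := by
        have : i + 1 = w.length * (i / w.length) + w.length := by
          have := Nat.div_add_mod i w.length
          omega
        rw [this, Nat.add_mod_right, Nat.mul_mod_right]
      simp only [e0, e1]
      intro h3
      have h5 : w = w.dropLast ++ [w[w.length - 1]'(by omega)] := by
        conv_lhs => rw [← List.dropLast_append_getLast hne]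
        rw [List.getLast_eq_getElem]
      have h6 : w[w.length - 1]'(by omega) = T.a (w[0]'hn) := by
        rw [h3, T.aa]
      by_cases hl : w.length = 1
      · have h7 : w[w.length - 1]'(by omega) = w[0]'hn := by
          simp only [hl, Nat.sub_self]
        rw [h7] at h6
        exact T.ane _ h6.symm
      · have h8 : w.dropLast = [w[0]'hn] ++ w.dropLast.tail := by
          have hdl : w.dropLast ≠ [] := by
            intro h9
            have : w.dropLast.length = 0 := by rw [h9]; rfl
            rw [List.length_dropLast] at this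
            omega
          rw [List.singleton_append]
          conv_lhs => rw [← List.cons_head_tail hdl]
          congr 1
          rw [List.head_eq_getElem, List.getElem_dropLast]
        rw [h8, h6] at h5
        exact h2 _ _ h5

theorem uni_cycle (T : Tri D) {w : List D} (hw : T.Closed w) (hne : w ≠ [])
    (h1 : ∀ (u v : List D) (d : D), w ≠ u ++ [d, T.a d] ++ v)
    (h2 : ∀ (u : List D) (d : D), w ≠ [d] ++ u ++ [T.a d])
    (hH : (Finset.univ.filter fun d => d ∈ w ∨ T.a d ∈ w).card ≤
      2 * (T.VK (Finset.univ.filter fun d => d ∈ w ∨ T.a d ∈ w)).card) :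
    ∃ d, T.chain w d ≠ 0 := by
  obtain ⟨n, g, hn, hper, hmem, hsur, htl, hna⟩ := uni_seq T hw hne h1 h2
  by_contra hcon
  push Not at hcon
  set H : Finset D := Finset.univ.filter fun d => d ∈ w ∨ T.a d ∈ w with hHdef
  have mem1 : ∀ i, g i ∈ H := fun i => by
    rw [hHdef, Finset.mem_filter]
    exact ⟨Finset.mem_univ _, Or.inl (hmem i)⟩
  have mem2 : ∀ i, T.a (g i) ∈ H := fun i => by
    rw [hHdef, Finset.mem_filter]
    refine ⟨Finset.mem_univ _, Or.inr ?_⟩
    rw [T.aa]
    exact hmem i
  have tl2 : ∀ i, T.tl (T.a (g i)) = T.hd (g i) := fun i => rfl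
  -- every vertex of `H` is the head of some `g i`
  have hv : ∀ v ∈ T.VK H, ∃ i, v = T.hd (g i) := by
    intro v hv
    obtain ⟨x, hx, hxv⟩ := Finset.mem_image.1 hv
    rw [hHdef, Finset.mem_filter] at hx
    rcases hx.2 with h3 | h3
    · obtain ⟨i, hi, hix⟩ := hsur x h3
      refine ⟨i + n - 1, ?_⟩
      rw [← htl, show i + n - 1 + 1 = i + n by omega, hper, hix, hxv]
    · obtain ⟨i, hi, hix⟩ := hsur _ h3
      refine ⟨i, ?_⟩
      rw [hix, Tri.hd_a, hxv]
  have hsub : ∀ i, ({g (i + 1), T.a (g i)} : Finset D) ⊆
      H.filter fun d => T.tl d = T.hd (g i) := by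
    intro i x hx
    rw [Finset.mem_insert, Finset.mem_singleton] at hx
    rw [Finset.mem_filter]
    rcases hx with rfl | rfl
    · exact ⟨mem1 _, htl i⟩
    · exact ⟨mem2 _, tl2 i⟩
  have hpair : ∀ i, ({g (i + 1), T.a (g i)} : Finset D).card = 2 := fun i =>
    Finset.card_pair (hna i)
  have hge : ∀ v ∈ T.VK H, 2 ≤ T.degK H v := by
    intro v hvv
    obtain ⟨i, rfl⟩ := hv v hvv
    have := Finset.card_le_card (hsub i)
    rw [hpair i] at this
    exact this
  have hsum : ∑ v ∈ T.VK H, T.degK H v = H.card := by
    unfold Tri.degK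
    exact (Finset.card_eq_sum_card_fiberwise (fun x hx => Finset.mem_image_of_mem _ hx)).symm
  have hdeg : ∀ v ∈ T.VK H, T.degK H v = 2 := by
    intro v hvv
    by_contra hne2
    have hlt : 2 < T.degK H v := lt_of_le_of_ne (hge v hvv) (Ne.symm hne2)
    have h3 : ∑ v ∈ T.VK H, 2 < ∑ v ∈ T.VK H, T.degK H v :=
      Finset.sum_lt_sum hge ⟨v, hvv, hlt⟩
    rw [hsum, Finset.sum_const, smul_eq_mul] at h3
    omega
  have hkey : ∀ i x, x ∈ H → T.tl x = T.hd (g i) → x = g (i + 1) ∨ x = T.a (g i) := by
    intro i x hx hxt
    have hvm : T.hd (g i) ∈ T.VK H := by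
      rw [← hxt]
      exact Finset.mem_image_of_mem _ hx
    have h3 : ({g (i + 1), T.a (g i)} : Finset D) = H.filter fun d => T.tl d = T.hd (g i) := by
      apply Finset.eq_of_subset_of_card_le (hsub i)
      rw [hpair i]
      exact (hdeg _ hvm).le
    have h4 : x ∈ H.filter fun d => T.tl d = T.hd (g i) := Finset.mem_filter.2 ⟨hx, hxt⟩
    rw [← h3, Finset.mem_insert, Finset.mem_singleton] at h4
    exact h4
  -- the reversed dart of `g 0` occurs
  have hrev : T.a (g 0) ∈ w := by
    by_contra h3
    have h4 := (uni_chain_pos T (g 0) w h3).2 (hmem 0)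
    rw [hcon (g 0)] at h4
    omega
  obtain ⟨m, hm, hgm⟩ := hsur _ hrev
  have hind : ∀ k, k ≤ n → g (m + k) = T.a (g (n - k)) := by
    intro k
    induction k with
    | zero =>
      intro _
      rw [Nat.add_zero, Nat.sub_zero, hgm]
      have := hper 0
      rw [Nat.zero_add] at this
      rw [this]
    | succ k ih =>
      intro hk
      have h3 := ih (by omega)
      have h4 : T.tl (g (m + (k + 1))) = T.hd (g (n - (k + 1))) := by
        rw [← Nat.add_assoc, htl, h3, Tri.hd_a, ← htl]
        congr 2
        omega
      rcases hkey _ _ (mem1 _) h4 with h5 | h5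
      · exfalso
        apply hna (m + k)
        rw [Nat.add_assoc, h5, h3, T.aa]
        congr 1
        omega
      · exact h5
  rcases Nat.even_or_odd' (n - m) with ⟨k, hk | hk⟩
  · have h3 := hind k (by omega)
    have h4 : n - k = m + k := by omega
    rw [h4] at h3
    exact T.ane _ h3.symm
  · have h3 := hind (k + 1) (by omega)
    have h4 : m + (k + 1) = (n - (k + 1)) + 1 := by omega
    rw [h4] at h3
    exact hna _ h3

end GNH
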