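import Pool.Agent.GNH.Htp
import Pool.Agent.GNH.UniA
import Pool.Agent.GNH.UniB

/-!
# GNH-Unicyc: closed walks with chain 0 in a graph with at most one cycle are contractible
Strong induction on the length: remove a spur, or conjugate, or use `uni_sub` and `uni_cycle`.
-/

namespace GNH

open SST Classical

variable {D : Type} [Fintype D]

omit [Fintype D] in
private theorem chain_pair (T : Tri D) (x e : D) : T.chain [x, T.a x] e = 0 := by
  rw [Tri.chain_cons, Tri.chain_cons, Tri.chain_nil, Tri.ind_a, Tri.ind_a, T.aa]
  ring

theorem unicyclic (T : Tri D) {G : Finset D} (hG : T.AC G) (hb : G.card ≤ 2 * (T.VK G).card)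
    (hcon : ∀ S ⊆ G, S.Nonempty → (∀ d ∈ S, T.a d ∈ S) →
      (∀ d ∈ S, ∀ e ∈ G, T.tl e = T.tl d → e ∈ S) → S = G)
    {w : List D} (hw : T.Closed w) (hwG : ∀ d ∈ w, d ∈ G) (h0 : ∀ d, T.chain w d = 0) :
    T.NullHtp w := by
  induction hn : w.length using Nat.strong_induction_on generalizing w with
  | _ n ih =>
    by_cases hne : w = []
    · rw [hne]
      exact Relation.EqvGen.refl _
    by_cases h1 : ∃ (u v : List D) (d : D), w = u ++ [d, T.a d] ++ v
    · obtain ⟨u, v, d, rfl⟩ := h1
      have hc := closed_spur T hw
      refine htp_spur T hw (ih (u ++ v).length ?_ hc ?_ ?_ rfl)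
      · rw [← hn]
        simp only [List.length_append, List.length_cons, List.length_nil]
        omega
      · intro e he
        rw [List.mem_append] at he
        rcases he with he | he
        · exact hwG e (by simp [he])
        · exact hwG e (by simp [he])
      · intro e
        have h := h0 e
        rw [Tri.chain_append, Tri.chain_append, chain_pair] at h
        rw [Tri.chain_append]
        linarith
    by_cases h2 : ∃ (u : List D) (d : D), w = [d] ++ u ++ [T.a d]
    · obtain ⟨u, d, rfl⟩ := h2
      have hwalk : T.IsWalk (T.hd d) u (T.hd d) := by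
        have h3 := (Tri.closed_iff T d (u ++ [T.a d])).mp hw
        have h4 : T.IsWalk (T.hd d) (u ++ [T.a d]) (T.tl d) := h3.2
        obtain ⟨v, h5, h6⟩ := Tri.walk_split T h4
        have h7 : T.hd d = v := h6.1
        rw [← h7] at h5
        exact h5
      refine htp_conj T hwalk (ih u.length ?_ ⟨_, hwalk⟩ ?_ ?_ rfl)
      · rw [← hn]
        simp only [List.length_append, List.length_cons, List.length_nil]
        omega
      · intro e he
        exact hwG e (by simp [he])
      · intro e
        have h := h0 e
        have h8 := chain_pair T d e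
        rw [Tri.chain_append, Tri.chain_append] at h
        rw [show [d, T.a d] = [d] ++ [T.a d] from rfl, Tri.chain_append] at h8
        linarith
    · exfalso
      have hH : T.AC (Finset.univ.filter fun d => d ∈ w ∨ T.a d ∈ w) := by
        intro d hd
        rw [Finset.mem_filter] at hd ⊢
        refine ⟨Finset.mem_univ _, ?_⟩
        rw [T.aa]
        exact hd.2.symm
      have hHG : (Finset.univ.filter fun d => d ∈ w ∨ T.a d ∈ w) ⊆ G := by
        intro d hd
        rw [Finset.mem_filter] at hd
        rcases hd.2 with h | h
        · exact hwG d h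
        · have h3 := hG _ (hwG _ h)
          rw [T.aa] at h3
          exact h3
      have hne' : (Finset.univ.filter fun d => d ∈ w ∨ T.a d ∈ w).Nonempty := by
        obtain ⟨d, hd⟩ := List.exists_mem_of_ne_nil w hne
        exact ⟨d, Finset.mem_filter.mpr ⟨Finset.mem_univ _, Or.inl hd⟩⟩
      have h3 := uni_sub T hG hH hHG hne' hb hcon
      obtain ⟨d, hd⟩ := uni_cycle T hw hne (fun u v d h => h1 ⟨u, v, d, h⟩)
        (fun u d h => h2 ⟨u, d, h⟩) h3
      exact hd (h0 d)

end GNH
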