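import Pool.Agent.GNH.Polygon
import Pool.Agent.GNH.Unicyc
import Pool.Agent.GNH.SideConn
import Pool.Agent.GNH.CapTwo

/-!
# GNH-Disc: a cycle which bounds a disc is contractible
`polygon` gives a contractible closed walk `w` in the side `A` with the chain of the cycle; the graph of the edges of `w`
is connected and has at most one independent cycle, so `unicyclic` applies to the cycle followed by the reverse of `w`.
-/

namespace GNH

open SST Classical

variable {D : Type} [Fintype D] {ℓ : ℕ}

omit [Fintype D] in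
private theorem walk_ofFn (T : Tri D) : ∀ (m : ℕ) (g : Fin (m + 1) → D),
    (∀ i : Fin m, T.hd (g i.castSucc) = T.tl (g i.succ)) →
    T.IsWalk (T.tl (g 0)) (List.ofFn g) (T.hd (g (Fin.last m))) := by
  intro m
  induction m with
  | zero =>
    intro g _
    rw [List.ofFn_succ]
    exact ⟨rfl, rfl⟩
  | succ m ih =>
    intro g hg
    rw [List.ofFn_succ]
    refine ⟨rfl, ?_⟩
    have h1 := ih (fun i => g i.succ) (fun i => by
      have := hg i.succ
      rwa [← Fin.succ_castSucc] at this)
    have h2 : T.hd (g 0) = T.tl (g (Fin.succ 0)) := by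
      have := hg 0
      rwa [Fin.castSucc_zero] at this
    rw [h2]
    exact h1

theorem closed_ofFn {T : Tri D} {c : Fin ℓ → D}
    (h : ∀ i, T.hd (c i) = T.tl (c (finRotate ℓ i))) (i0 : Fin ℓ) (h0 : i0.1 = 0) :
    T.IsWalk (T.tl (c i0)) (List.ofFn c) (T.tl (c i0)) := by
  obtain _ | m := ℓ
  · exact absurd i0.2 (by omega)
  · have hi : i0 = 0 := Fin.ext h0
    subst hi
    have h1 := walk_ofFn T m c (fun i => by
      rw [h, finRotate_apply, Fin.coeSucc_eq_succ])
    rwa [h, finRotate_last] at h1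

omit [Fintype D] in
private theorem chain_nodup (T : Tri D) {l : List D} (hl : l.Nodup) (d : D) :
    T.chain l d = (if d ∈ l then 1 else 0) - (if T.a d ∈ l then 1 else 0) := by
  have key : ∀ (l : List D), l.Nodup → ∀ x, (l.map fun e => SST.Tri.ind e x).sum = (if x ∈ l then 1 else 0) := by
    intro l
    induction l with
    | nil => intro _ x; simp
    | cons e l ih =>
      intro hl x
      rw [List.map_cons, List.sum_cons, ih (List.nodup_cons.1 hl).2 x]
      by_cases hx : e = x
      · subst hx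
        rw [SST.Tri.ind_self, if_neg (List.nodup_cons.1 hl).1, if_pos (List.mem_cons_self ..), add_zero]
      · rw [SST.Tri.ind_ne hx, zero_add]
        have : (x ∈ e :: l) ↔ x ∈ l := by
          rw [List.mem_cons]
          exact ⟨fun h => h.resolve_left (fun h' => hx h'.symm), Or.inr⟩
        simp only [this]
  have h1 : ∀ l : List D, T.chain l d = (l.map fun e => SST.Tri.ind e d).sum -
      (l.map fun e => SST.Tri.ind e (T.a d)).sum := by
    intro l
    induction l with
    | nil => rw [SST.Tri.chain_nil]; simp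
    | cons e l ih =>
      rw [SST.Tri.chain_cons, ih, List.map_cons, List.map_cons, List.sum_cons, List.sum_cons]
      ring
  rw [h1, key l hl, key l hl]

omit [Fintype D] in
private theorem walk_in (T : Tri D) {G S : Finset D} (hSa : ∀ d ∈ S, T.a d ∈ S)
    (hSt : ∀ d ∈ S, ∀ e ∈ G, T.tl e = T.tl d → e ∈ S) : ∀ (l : List D) (p q : T.V), T.IsWalk p l q →
    (∀ d ∈ l, d ∈ G) → (∃ x ∈ S, T.tl x = p) → ∀ d ∈ l, d ∈ S := by
  intro l
  induction l with
  | nil => intro p q _ _ _ d hd; exact absurd hd (List.not_mem_nil)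
  | cons e l ih =>
    intro p q hw hG hx d hd
    obtain ⟨x, hxS, hxp⟩ := hx
    have heS : e ∈ S := hSt x hxS e (hG e (List.mem_cons_self ..)) (hw.1.trans hxp.symm)
    rcases List.mem_cons.1 hd with rfl | hd
    · exact heS
    · exact ih (T.hd e) q hw.2 (fun y hy => hG y (List.mem_cons_of_mem _ hy)) ⟨T.a e, hSa e heS, rfl⟩ d hd

theorem disc {T : Tri D} {A : Finset D} {c : Fin ℓ → D} (h : Cut T A c) (hT : T.Conn) {n₁ : ℕ}
    (hA : A.card + 3 * ℓ = 6 * n₁) (hV : n₁ + 1 ≤ (T.VK A).card) : T.NullHtp (List.ofFn c) := by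
  obtain ⟨i0, hi0⟩ : ∃ i0 : Fin ℓ, i0.1 = 0 := ⟨⟨0, h.pos⟩, rfl⟩
  obtain ⟨w, hwc, hwn, hnd, hwA, h5, h6, h7⟩ := polygon T (fun d hd => (h.fA d).2 hd) ⟨c i0, h.mem i0⟩
    (side_conn h hT)
  have hcw : ∀ i, c i ∈ w := by
    intro i
    by_contra hc
    exact h.anmem i (h5 (c i) (h.mem i) hc).1
  have hw2 : ∀ d ∈ w, (∃ i, c i = d) ∨ T.a d ∈ w := by
    intro d hd
    by_cases hi : ∃ i, c i = d
    · exact Or.inl hi
    · right
      have h1 : T.a d ∈ A := by
        by_contra h1
        exact hi ((h.bd d).1 ⟨hwA d hd, h1⟩)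
      by_contra h2
      have := (h5 (T.a d) h1 h2).2
      rw [T.aa] at this
      exact this hd
  set G : Finset D := Finset.univ.filter fun d => d ∈ w ∨ T.a d ∈ w with hGdef
  have hmG : ∀ d, d ∈ G ↔ d ∈ w ∨ T.a d ∈ w := by
    intro d
    rw [hGdef, Finset.mem_filter]
    exact ⟨fun x => x.2, fun x => ⟨Finset.mem_univ _, x⟩⟩
  have hGa : T.AC G := by
    intro d hd
    rw [hmG] at hd ⊢
    rw [T.aa]
    exact hd.symm
  have hGc : G.card = w.length + ℓ := by
    have h1 : G = w.toFinset ∪ (Finset.univ.image fun i => T.a (c i)) := by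
      ext d
      rw [hmG, Finset.mem_union, List.mem_toFinset, Finset.mem_image]
      constructor
      · rintro (hd | hd)
        · exact Or.inl hd
        · rcases hw2 _ hd with ⟨i, hi⟩ | h2
          · right
            exact ⟨i, Finset.mem_univ _, by rw [hi, T.aa]⟩
          · left
            rwa [T.aa] at h2
      · rintro (hd | ⟨i, _, rfl⟩)
        · exact Or.inl hd
        · right
          rw [T.aa]
          exact hcw i
    have h2 : Disjoint w.toFinset (Finset.univ.image fun i => T.a (c i)) := by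
      rw [Finset.disjoint_left]
      intro d hd hd'
      obtain ⟨i, _, rfl⟩ := Finset.mem_image.1 hd'
      exact h.anmem i (hwA _ (List.mem_toFinset.1 hd))
    rw [h1, Finset.card_union_of_disjoint h2, List.toFinset_card_of_nodup hnd,
      Finset.card_image_of_injective _ (fun i j hij => h.cinj (T.a.injective hij)), Finset.card_univ,
      Fintype.card_fin]
  have hVG : (T.VK A).card ≤ (T.VK G).card := by
    apply Finset.card_le_card
    intro v hv
    obtain ⟨d, hd, rfl⟩ := Finset.mem_image.1 hv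
    obtain ⟨e, he, hed⟩ := h7 d hd
    exact Finset.mem_image.2 ⟨e, (hmG e).2 (Or.inl he), hed⟩
  have hb : G.card ≤ 2 * (T.VK G).card := by omega
  have hcon : ∀ S ⊆ G, S.Nonempty → (∀ d ∈ S, T.a d ∈ S) →
      (∀ d ∈ S, ∀ e ∈ G, T.tl e = T.tl d → e ∈ S) → S = G := by
    intro S hSG hne hSa hSt
    obtain ⟨x, hxw, hxS⟩ : ∃ x ∈ w, x ∈ S := by
      obtain ⟨d, hd⟩ := hne
      rcases (hmG d).1 (hSG hd) with h1 | h1
      · exact ⟨d, h1, hd⟩
      · exact ⟨T.a d, h1, hSa d hd⟩
    obtain ⟨u, v, huv⟩ := List.append_of_mem hxw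
    have hc' : T.Closed ((x :: v) ++ u) := by
      rw [huv] at hwc
      exact SST.Tri.closed_rotate T hwc
    have hwalk := (SST.Tri.closed_iff T x (v ++ u)).1 (by simpa using hc')
    have hall : ∀ d ∈ x :: (v ++ u), d ∈ S := by
      refine walk_in T hSa hSt _ _ _ hwalk ?_ ⟨x, hxS, rfl⟩
      intro d hd
      refine (hmG d).2 (Or.inl ?_)
      rw [huv]
      simp only [List.mem_cons, List.mem_append] at hd ⊢
      tauto
    have hwS : ∀ d ∈ w, d ∈ S := by
      intro d hd
      apply hall
      rw [huv] at hd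
      simp only [List.mem_cons, List.mem_append] at hd ⊢
      tauto
    apply Finset.Subset.antisymm hSG
    intro d hd
    rcases (hmG d).1 hd with h1 | h1
    · exact hwS d h1
    · have := hSa _ (hwS _ h1)
      rwa [T.aa] at this
  have hcn : (List.ofFn c).Nodup := List.nodup_ofFn.2 h.cinj
  have hch : ∀ d, T.chain (List.ofFn c) d = T.chain w d := by
    intro d
    rw [chain_nodup T hcn, chain_nodup T hnd]
    have hm : ∀ x, x ∈ List.ofFn c ↔ x ∈ w ∧ T.a x ∉ w := by
      intro x
      rw [List.mem_ofFn]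
      constructor
      · rintro ⟨i, rfl⟩
        exact ⟨hcw i, fun h1 => h.anmem i (hwA _ h1)⟩
      · rintro ⟨h1, h2⟩
        rcases hw2 x h1 with h3 | h3
        · exact h3
        · exact absurd h3 h2
    rw [if_congr (hm d) rfl rfl, if_congr (hm (T.a d)) rfl rfl, T.aa]
    by_cases h1 : d ∈ w <;> by_cases h2 : T.a d ∈ w <;> simp [h1, h2]
  obtain ⟨u, v, huv⟩ := List.append_of_mem (hcw i0)
  have hc' : T.Closed ((c i0 :: v) ++ u) := by
    rw [huv] at hwc
    exact SST.Tri.closed_rotate T hwc
  have hn' : T.NullHtp ((c i0 :: v) ++ u) := by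
    rw [huv] at hwc hwn
    exact htp_rot T hwc hwn
  have hwalk : T.IsWalk (T.tl (c i0)) ((c i0 :: v) ++ u) (T.tl (c i0)) := by
    have := (SST.Tri.closed_iff T (c i0) (v ++ u)).1 (by simpa using hc')
    simpa using this
  have hrw := SST.Tri.walk_rev T hwalk
  have hrn := htp_inv T hc' hn'
  have hfc := closed_ofFn (c := c) h.next i0 hi0
  refine htp_cancel T hfc hrw ?_ hrn
  refine unicyclic T hGa hb hcon ⟨_, SST.Tri.walk_append T hfc hrw⟩ ?_ ?_
  · intro d hd
    rw [List.mem_append] at hd
    rcases hd with hd | hd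
    · obtain ⟨i, rfl⟩ := List.mem_ofFn.1 hd
      exact (hmG _).2 (Or.inl (hcw i))
    · rw [List.mem_reverse, List.mem_map] at hd
      obtain ⟨e, he, rfl⟩ := hd
      refine (hmG _).2 (Or.inr ?_)
      rw [T.aa, huv]
      simp only [List.mem_cons, List.mem_append] at he ⊢
      tauto
  · intro d
    rw [SST.Tri.chain_append, SST.Tri.chain_rev, hch, huv, SST.Tri.chain_append, SST.Tri.chain_append]
    ring

end GNH
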