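import Pool.Agent.GNH.Cap
import Pool.Agent.GNH.Mv
import Pool.Agent.SST.S.Transfer
import Pool.Agent.SST.S.SumMap

/-!
# GNH-TransA: number of the possible capped sides
`CapT A ℓ V₁`: connected triangulations on `A ⊕ Fin ℓ × Fin 3` with `V₁` vertices and with the cone in the fixed position.
`capT_card`: at most `6 n₁ * mv n₁ V₁ * |A|!` of them, by the transfer lemma: a renamed capped side together with the
name of the dart `(0,0)` of the cone determines the names of all the darts of the cone.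
-/

namespace GNH

open SST Classical

/-- Possible capped sides. -/
def CapT {D : Type} (A : Finset D) (ℓ V₁ : ℕ) : Set (Tri ({d // d ∈ A} ⊕ Fin ℓ × Fin 3)) :=
  {U | U.Conn ∧ Nat.card U.V = V₁ ∧ (∀ i j, U.f (Sum.inr (i, j)) = Sum.inr (i, j + 1)) ∧
    ∀ i, U.a (Sum.inr (i, 2)) = Sum.inr (finRotate ℓ i, 1)}

private theorem rot_iter (m : ℕ) (k : ℕ) (hk : k < m + 1) :
    (finRotate (m + 1))^[k] 0 = ⟨k, hk⟩ := by
  induction k with
  | zero => rfl
  | succ k ih =>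
    rw [Function.iterate_succ_apply', ih (by omega), finRotate_apply]
    apply Fin.ext
    rw [Fin.val_add_one_of_lt]
    rw [Fin.lt_def]
    simp only [Fin.val_last]
    omega

private theorem f_iter {X Y : Type} {ℓ : ℕ} (U : Tri (X ⊕ Fin ℓ × Fin 3))
    (hf : ∀ i j, U.f (Sum.inr (i, j)) = Sum.inr (i, j + 1))
    (e : X ⊕ Fin ℓ × Fin 3 ≃ Y) (i : Fin ℓ) (j : Fin 3) :
    (U.map e).f^[j.val] (e (Sum.inr (i, 0))) = e (Sum.inr (i, j)) := by
  have h0 : ∀ (j : Fin 3), (U.map e).f (e (Sum.inr (i, j))) = e (Sum.inr (i, j + 1)) := by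
    intro j
    rw [Tri.map_f, hf]
  fin_cases j
  · rfl
  · show (U.map e).f (e (Sum.inr (i, 0))) = _
    rw [h0]
    rfl
  · show (U.map e).f ((U.map e).f (e (Sum.inr (i, 0)))) = _
    rw [h0, h0]
    rfl

private theorem g_iter {X Y : Type} {m : ℕ} (U : Tri (X ⊕ Fin (m + 1) × Fin 3))
    (hf : ∀ i j, U.f (Sum.inr (i, j)) = Sum.inr (i, j + 1))
    (ha : ∀ i, U.a (Sum.inr (i, 2)) = Sum.inr (finRotate (m + 1) i, 1))
    (e : X ⊕ Fin (m + 1) × Fin 3 ≃ Y) (k : ℕ) :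
    (fun x => (U.map e).f ((U.map e).f ((U.map e).a ((U.map e).f ((U.map e).f x)))))^[k]
      (e (Sum.inr (0, 0))) = e (Sum.inr ((finRotate (m + 1))^[k] 0, 0)) := by
  induction k with
  | zero => rfl
  | succ k ih =>
    rw [Function.iterate_succ_apply', ih, Function.iterate_succ_apply', Tri.map_f, Tri.map_f, Tri.map_a, Tri.map_f, Tri.map_f, hf, hf]
    have h2 : (0 : Fin 3) + 1 + 1 = 2 := rfl
    rw [h2, ha, hf, hf]
    have h3 : (1 : Fin 3) + 1 + 1 = 0 := rfl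
    rw [h3]

theorem capT_card {D : Type} [Fintype D] {A : Finset D} {ℓ n₁ V₁ : ℕ} (hℓ : 0 < ℓ)
    (hA : A.card + 3 * ℓ = 6 * n₁) :
    ((CapT A ℓ V₁).ncard : ℝ) ≤ 6 * n₁ * mv n₁ V₁ * A.card.factorial := by
  obtain ⟨m, rfl⟩ : ∃ m, ℓ = m + 1 := ⟨ℓ - 1, by omega⟩
  have hcX : Fintype.card {d // d ∈ A} = A.card := Fintype.card_coe A
  have hcY : Fintype.card (Fin (6 * n₁)) =
      Fintype.card {d // d ∈ A} + Fintype.card (Fin (m + 1) × Fin 3) := by
    rw [hcX, Fintype.card_prod, Fintype.card_fin, Fintype.card_fin, Fintype.card_fin]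
    omega
  have key := transfer_ncard (X := {d // d ∈ A}) (E := Fin (m + 1) × Fin 3) (Y := Fin (6 * n₁))
    (A := Tri ({d // d ∈ A} ⊕ Fin (m + 1) × Fin 3)) (B := Tri (Fin (6 * n₁)) × Fin (6 * n₁))
    hcY (CapT A (m + 1) V₁)
    ({T : Tri (Fin (6 * n₁)) | T.Conn ∧ Nat.card T.V = V₁} ×ˢ (Set.univ : Set (Fin (6 * n₁))))
    (fun e U => (U.map e, e (Sum.inr (0, 0))))
    (fun p i => p.1.f^[i.2.val]
      ((fun x => p.1.f (p.1.f (p.1.a (p.1.f (p.1.f x)))))^[i.1.val] p.2))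
    (by
      rintro e U ⟨-, -, hf, ha⟩ ⟨i, j⟩
      simp only
      rw [g_iter U hf ha e i.val, rot_iter m i.val i.isLt, f_iter U hf e])
    (by
      intro e U _ U' _ h
      exact Tri.map_inj U U' e (congrArg Prod.fst h))
    (by
      rintro e U ⟨hc, hv, -, -⟩
      refine ⟨⟨(Tri.map_conn U e).2 hc, ?_⟩, Set.mem_univ _⟩
      rw [Tri.map_V]
      exact hv)
  rw [hcX, Fintype.card_fin, Set.ncard_prod, Set.ncard_univ, Nat.card_eq_fintype_card,
    Fintype.card_fin] at key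
  have hpos : (0 : ℝ) < (6 * n₁).factorial := by
    exact_mod_cast Nat.factorial_pos _
  have key' : ((CapT A (m + 1) V₁).ncard : ℝ) * (6 * n₁).factorial ≤
      (({T : Tri (Fin (6 * n₁)) | T.Conn ∧ Nat.card T.V = V₁}.ncard : ℝ) * (6 * n₁)) *
        A.card.factorial := by
    exact_mod_cast key
  unfold mv
  rw [← mul_le_mul_iff_left₀ hpos]
  refine key'.trans (le_of_eq ?_)
  field_simp

end GNH
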