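import Pool.Agent.GNH.Inj
import Pool.Agent.GNH.Disc
import Pool.Agent.GNH.CapV
import Pool.Agent.GNH.TransA

/-!
# GNH-CountA: pairs (T, c) with given side A
`XA`: connected triangulations `T` on `D` with `V` vertices and `c : Fin ℓ → D` with `Cut T A c` and
`List.ofFn c` not null-homotopic.
`xa_card`: the map `(T, c) ↦ (cap h, cap h.compl)` is injective (`cap_inj`) and maps `XA` into the union over
`q ∈ antidiagonal (V + ℓ + 2)` of `CapT A ℓ q.1 ×ˢ CapT Aᶜ ℓ q.2`; the constraints on `q` come from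
`cap_two`, `disc` and `parity`.
-/

namespace GNH

open SST Classical Finset

variable {D : Type} [Fintype D]

def XA (D : Type) [Fintype D] (V ℓ : ℕ) (A : Finset D) : Set (Tri D × (Fin ℓ → D)) :=
  {x | x.1.Conn ∧ Nat.card x.1.V = V ∧ Cut x.1 A x.2 ∧ ¬ x.1.NullHtp (List.ofFn x.2)}

omit [Fintype D] in
private theorem card_side {ℓ : ℕ} (A : Finset D) :
    Fintype.card ({d // d ∈ A} ⊕ Fin ℓ × Fin 3) = A.card + 3 * ℓ := by
  rw [Fintype.card_sum, Fintype.card_prod, Fintype.card_fin, Fintype.card_fin, Fintype.card_coe, mul_comm ℓ 3]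

private theorem cap_mem {ℓ : ℕ} {T : Tri D} {A : Finset D} {c : Fin ℓ → D} (h : Cut T A c) (hT : T.Conn) :
    cap h ∈ CapT A ℓ ((T.VK A).card + 1) :=
  ⟨cap_conn h hT, cap_card_V h, fun _ _ => rfl, fun _ => rfl⟩

omit [Fintype D] in
private theorem rc_rev {ℓ : ℕ} (T : Tri D) (c : Fin ℓ → D) :
    ((List.ofFn (rc T c)).map T.a).reverse = List.ofFn c := by
  refine List.ext_getElem (by simp) fun i h1 h2 => ?_
  have hi : i < ℓ := by simpa using h2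
  simp only [List.getElem_reverse, List.getElem_map, List.getElem_ofFn, List.length_map, List.length_ofFn, rc]
  rw [T.aa]
  congr 1
  apply Fin.ext
  simp only [Fin.val_rev]
  omega

private theorem bound1 {ℓ n₁ : ℕ} {T : Tri D} {A : Finset D} {c : Fin ℓ → D} (h : Cut T A c) (hT : T.Conn)
    (hA : A.card + 3 * ℓ = 6 * n₁) (hn : ¬ T.NullHtp (List.ofFn c)) : (T.VK A).card + 1 ≤ n₁ := by
  by_contra hcon
  have h1 : (T.VK A).card ≤ n₁ := by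
    by_contra h2
    exact hn (disc h hT hA (by omega))
  have h2 : (T.VK A).card = n₁ := by omega
  have h3 := parity (cap h) (n := n₁) (by rw [card_side]; exact hA)
  rw [cap_card_V h, h2] at h3
  obtain ⟨k, hk⟩ := h3
  omega

private theorem bound2 {ℓ n₂ : ℕ} {T : Tri D} {A : Finset D} {c : Fin ℓ → D} (h : Cut T A c) (hT : T.Conn)
    (hA : Aᶜ.card + 3 * ℓ = 6 * n₂) (hn : ¬ T.NullHtp (List.ofFn c)) : (T.VK Aᶜ).card + 1 ≤ n₂ := by
  refine bound1 h.compl hT hA fun h1 => hn ?_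
  have h2 := htp_inv T (c := List.ofFn (rc T c))
    ⟨_, closed_ofFn (T := T) (c := rc T c) h.compl.next ⟨0, h.pos⟩ rfl⟩ h1
  rwa [rc_rev] at h2

theorem xa_card {V ℓ n₁ n₂ : ℕ} {A : Finset D} (hA : A.card + 3 * ℓ = 6 * n₁)
    (hA' : Aᶜ.card + 3 * ℓ = 6 * n₂) :
    ((XA D V ℓ A).ncard : ℝ) ≤ ∑ q ∈ antidiagonal (V + ℓ + 2),
      if ℓ + 1 ≤ q.1 ∧ q.1 ≤ n₁ ∧ ℓ + 1 ≤ q.2 ∧ q.2 ≤ n₂ then
        ((CapT A ℓ q.1).ncard : ℝ) * ((CapT Aᶜ ℓ q.2).ncard : ℝ) else 0 := by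
  rw [← Finset.sum_filter]
  set Q := (antidiagonal (V + ℓ + 2)).filter
    (fun q => ℓ + 1 ≤ q.1 ∧ q.1 ≤ n₁ ∧ ℓ + 1 ≤ q.2 ∧ q.2 ≤ n₂) with hQ
  set U : Set (Tri ({d // d ∈ A} ⊕ Fin ℓ × Fin 3) × Tri ({d // d ∈ Aᶜ} ⊕ Fin ℓ × Fin 3)) :=
    ⋃ q ∈ Q, CapT A ℓ q.1 ×ˢ CapT Aᶜ ℓ q.2 with hU
  have h1 : (XA D V ℓ A).ncard ≤ U.ncard := by
    rw [← Nat.card_coe_set_eq, ← Nat.card_coe_set_eq]
    have hmem : ∀ x : XA D V ℓ A, (cap x.2.2.2.1, cap x.2.2.2.1.compl) ∈ U := by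
      rintro ⟨⟨T, c⟩, hT, hV, h, hn⟩
      rw [hU, Set.mem_iUnion₂]
      refine ⟨((T.VK A).card + 1, (T.VK Aᶜ).card + 1), ?_, cap_mem h hT, cap_mem h.compl hT⟩
      have h2 : (T.VK A).card + (T.VK Aᶜ).card = Nat.card T.V + ℓ ∧ ℓ ≤ (T.VK A).card ∧
        ℓ ≤ (T.VK Aᶜ).card := cap_two h
      have h3 : (T.VK A).card + 1 ≤ n₁ := bound1 h hT hA hn
      have h4 : (T.VK Aᶜ).card + 1 ≤ n₂ := bound2 h hT hA' hn
      have hV' : Nat.card T.V = V := hV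
      rw [hQ, Finset.mem_filter, Finset.HasAntidiagonal.mem_antidiagonal]
      refine ⟨?_, ?_, h3, ?_, h4⟩
      · show (T.VK A).card + 1 + ((T.VK Aᶜ).card + 1) = V + ℓ + 2
        omega
      · show ℓ + 1 ≤ (T.VK A).card + 1
        omega
      · show ℓ + 1 ≤ (T.VK Aᶜ).card + 1
        omega
    refine Nat.card_le_card_of_injective (fun x : XA D V ℓ A => (⟨_, hmem x⟩ : U)) ?_
    rintro ⟨⟨T, c⟩, hT, hV, h, hn⟩ ⟨⟨T', c'⟩, hT', hV', h', hn'⟩ hxy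
    have h2 := congrArg Subtype.val hxy
    have h3 : cap h = cap h' := congrArg Prod.fst h2
    have h4 : cap h.compl = cap h'.compl := congrArg Prod.snd h2
    obtain ⟨h5, h6⟩ := cap_inj h h' h3 h4
    exact Subtype.ext (Prod.ext h5 h6)
  have h2 : U.ncard ≤ ∑ q ∈ Q, (CapT A ℓ q.1).ncard * (CapT Aᶜ ℓ q.2).ncard := by
    refine (Finset.set_ncard_biUnion_le Q _).trans (le_of_eq ?_)
    exact Finset.sum_congr rfl fun q _ => Set.ncard_prod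
  have h3 : ((XA D V ℓ A).ncard : ℝ) ≤ ((∑ q ∈ Q, (CapT A ℓ q.1).ncard * (CapT Aᶜ ℓ q.2).ncard : ℕ) : ℝ) := by
    exact_mod_cast h1.trans h2
  refine h3.trans (le_of_eq ?_)
  push_cast
  rfl

theorem xa_dvd {V ℓ : ℕ} {A : Finset D} (h : (XA D V ℓ A).Nonempty) :
    0 < ℓ ∧ 6 ∣ A.card + 3 * ℓ ∧ 6 ∣ Aᶜ.card + 3 * ℓ := by
  obtain ⟨⟨T, c⟩, -, -, hc, -⟩ := h
  refine ⟨hc.pos, ?_, ?_⟩
  · have := six_dvd (cap hc)
    rwa [card_side] at this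
  · have := six_dvd (cap hc.compl)
    rwa [card_side] at this

end GNH
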