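import Pool.Agent.SST.D.DDefs
import Pool.Agent.SST.Walk

/-!
# Project GNH (MP_650813_pr, GapNearHalf): common definitions, part A.  DO NOT CHANGE.
Blueprint: `/team-store/gnh_blueprint.md`.
-/

namespace GNH

open SST Classical

variable {D : Type}

/-- Period of a function on the darts along a list of darts. -/
def per (x : D → ℝ) (c : List D) : ℝ := (c.map x).sum

theorem per_nil (x : D → ℝ) : per x [] = 0 := rfl

theorem per_cons (x : D → ℝ) (d : D) (c : List D) : per x (d :: c) = x d + per x c := by
  simp [per]

theorem per_append (x : D → ℝ) (c c' : List D) : per x (c ++ c') = per x c + per x c' := by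
  simp [per]

theorem per_add (x y : D → ℝ) (c : List D) : per (fun d => x d + y d) c = per x c + per y c := by
  induction c with
  | nil => simp [per]
  | cons d c ih => rw [per_cons, per_cons, per_cons, ih]; ring

theorem per_smul (s : ℝ) (x : D → ℝ) (c : List D) : per (fun d => s * x d) c = s * per x c := by
  induction c with
  | nil => simp [per]
  | cons d c ih => rw [per_cons, per_cons, ih]; ring

theorem per_rev (T : Tri D) {x : D → ℝ} (hx : ∀ d, x (T.a d) = - x d) (c : List D) :
    per x (c.map T.a).reverse = - per x c := by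
  induction c with
  | nil => simp [per]
  | cons d c ih =>
    rw [List.map_cons, List.reverse_cons, per_append, ih, per_cons, per_cons, per_nil, hx]
    ring

/-- Antisymmetric functions all of whose periods along the closed walks of length at most `2k`
vanish. -/
def Wk (T : Tri D) (k : ℕ) : Submodule ℝ (D → ℝ) where
  carrier := {x | (∀ d, x (T.a d) = - x d) ∧ ∀ c, T.Closed c → c.length ≤ 2 * k → per x c = 0}
  add_mem' := by
    rintro x y ⟨h1, h2⟩ ⟨h3, h4⟩
    refine ⟨fun d => ?_, fun c hc hl => ?_⟩
    · simp only [Pi.add_apply, h1, h3]; ring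
    · have := per_add x y c
      rw [h2 c hc hl, h4 c hc hl, add_zero] at this
      exact this
  zero_mem' := by
    refine ⟨fun d => by simp, fun c _ _ => ?_⟩
    have h : ∀ c : List D, (List.map (0 : D → ℝ) c).sum = 0 := by
      intro c
      induction c with
      | nil => rfl
      | cons d c ih => rw [List.map_cons, List.sum_cons, ih]; simp
    exact h c
  smul_mem' := by
    rintro s x ⟨h1, h2⟩
    refine ⟨fun d => ?_, fun c hc hl => ?_⟩
    · simp only [Pi.smul_apply, smul_eq_mul, h1]; ring
    · have := per_smul s x c
      rw [h2 c hc hl, mul_zero] at this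
      exact this

/-- The real 1-cocycles as a subspace. -/
def Co (T : Tri D) : Submodule ℝ (D → ℝ) where
  carrier := {x | (∀ d, x (T.a d) = - x d) ∧ ∀ d, x d + x (T.f d) + x (T.f (T.f d)) = 0}
  add_mem' := by
    rintro x y ⟨h1, h2⟩ ⟨h3, h4⟩
    refine ⟨fun d => ?_, fun d => ?_⟩
    · simp only [Pi.add_apply, h1, h3]; ring
    · simp only [Pi.add_apply]; linear_combination h2 d + h4 d
  zero_mem' := by
    refine ⟨fun d => by simp, fun d => by simp⟩
  smul_mem' := by
    rintro s x ⟨h1, h2⟩
    refine ⟨fun d => ?_, fun d => ?_⟩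
    · simp only [Pi.smul_apply, smul_eq_mul, h1]; ring
    · simp only [Pi.smul_apply, smul_eq_mul]; linear_combination s * h2 d

theorem mem_Co [Fintype D] (T : Tri D) (x : D → ℝ) : x ∈ Co T ↔ T.IsCoc x := Iff.rfl

end GNH
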