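import Pool.Agent.GNH.DetMain

/-!
# GNH-DetAsym: sepsys(T) ≤ C log n / log (1/(1-2θ)) for all triangulations
`η := 1 - 2 θ ∈ (0, 1/100]` (take `θ₀ := 99/200`).  `card V = n + 2 - 2 g n`, `card V / n → η`; so for large `n`:
`card V ≤ (6/5) η n`, `g n ≥ 3`, `n ≥ 2`.
`δ := ⌊1/(2η)⌋` (`≥ 50`), `k := ⌈log n / log δ⌉ + 1`: `δ ^ k ≥ δ n > n ≥ card V`, and
`8 k ≤ 17 log n / log (1/η)` for large `n` (depending on `θ`).
-/

namespace GNH

open SST Filter Topology

theorem det_asym : ∀ θ : ℝ, 99 / 200 < θ → θ < 1 / 2 → ∀ g : ℕ → ℕ,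
    Tendsto (fun n => (g n : ℝ) / n) atTop (𝓝 θ) → ∀ᶠ n : ℕ in atTop, ∀ T ∈ Trn n (g n),
      T.HasSep (17 * Real.log n / Real.log (1 / (1 - 2 * θ))) := by
  intro θ hθ1 hθ2 g hg
  set η : ℝ := 1 - 2 * θ with hη
  have hη0 : 0 < η := by rw [hη]; linarith
  have hη1 : η < 1 / 100 := by rw [hη]; linarith
  -- the integer `δ`
  set δ : ℕ := ⌊1 / (2 * η)⌋₊ with hδ
  have h50 : (50 : ℝ) < 1 / (2 * η) := by
    rw [lt_div_iff₀ (by positivity)]
    linarith
  have hδle : (δ : ℝ) ≤ 1 / (2 * η) := Nat.floor_le (by positivity)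
  have hδgt : 1 / (2 * η) < (δ : ℝ) + 1 := Nat.lt_floor_add_one _
  have h14 : 1 / (4 * η) ≤ 1 / (2 * η) - 1 := by
    have : 1 / (2 * η) = 2 * (1 / (4 * η)) := by
      field_simp
      ring
    have h25 : (25 : ℝ) ≤ 1 / (4 * η) := by
      rw [le_div_iff₀ (by positivity)]
      linarith
    linarith
  have hδ14 : 1 / (4 * η) ≤ (δ : ℝ) := by linarith
  have hδ2 : (2 : ℝ) ≤ (δ : ℝ) := by linarith
  have hδ1 : 1 ≤ δ := by
    have : (1 : ℝ) ≤ (δ : ℝ) := by linarith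
    exact_mod_cast this
  have hlogη : 0 < Real.log (1 / η) := by
    apply Real.log_pos
    rw [lt_div_iff₀ hη0]
    linarith
  have hlogδ : Real.log (1 / η) / 2 ≤ Real.log δ := by
    have h1 : Real.log (1 / η) ≤ Real.log ((1 / (4 * η)) ^ 2) := by
      apply Real.log_le_log (by positivity)
      have : (1 / (4 * η)) ^ 2 = 1 / η * (1 / (16 * η)) := by
        field_simp
        ring
      rw [this]
      have h2 : 1 ≤ 1 / (16 * η) := by
        rw [le_div_iff₀ (by positivity)]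
        linarith
      exact le_mul_of_one_le_right (by positivity) h2
    rw [Real.log_pow] at h1
    push_cast at h1
    have h3 : Real.log (1 / (4 * η)) ≤ Real.log δ := Real.log_le_log (by positivity) hδ14
    linarith
  have hlogδ0 : 0 < Real.log δ := by linarith
  -- asymptotics
  have hE1 : ∀ᶠ n : ℕ in atTop, 1 / 3 < (g n : ℝ) / n :=
    hg.eventually (lt_mem_nhds (by linarith))
  have hlim : Tendsto (fun n : ℕ => 1 + 2 / (n : ℝ) - 2 * ((g n : ℝ) / n)) atTop (𝓝 η) := by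
    have h1 : Tendsto (fun n : ℕ => (2 : ℝ) / (n : ℝ)) atTop (𝓝 0) :=
      tendsto_const_div_atTop_nhds_zero_nat 2
    have h2 := (h1.const_add (1 : ℝ)).sub (hg.const_mul 2)
    have h3 : (1 : ℝ) + 0 - 2 * θ = η := by rw [hη]; ring
    rw [h3] at h2
    exact h2
  have hE2 : ∀ᶠ n : ℕ in atTop, 1 + 2 / (n : ℝ) - 2 * ((g n : ℝ) / n) < 6 / 5 * η :=
    hlim.eventually (gt_mem_nhds (by linarith))
  have hlogtop : Tendsto (fun n : ℕ => Real.log (n : ℝ)) atTop atTop :=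
    Real.tendsto_log_atTop.comp tendsto_natCast_atTop_atTop
  have hE3 : ∀ᶠ n : ℕ in atTop, 16 * Real.log (1 / η) ≤ Real.log (n : ℝ) :=
    hlogtop.eventually_ge_atTop _
  filter_upwards [hE1, hE2, hE3, eventually_ge_atTop 9] with n h1 h2 h3 h9 T hT
  obtain ⟨hconn, hgen⟩ := hT
  have hn9 : (9 : ℝ) ≤ (n : ℝ) := by exact_mod_cast h9
  have hn0 : (0 : ℝ) < (n : ℝ) := by linarith
  have : Nonempty (Fin (6 * n)) := ⟨⟨0, by omega⟩⟩
  have hg3 : 3 ≤ g n := by
    rw [lt_div_iff₀ hn0] at h1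
    have : (3 : ℝ) ≤ (g n : ℝ) := by linarith
    exact_mod_cast this
  have hgen' : (Nat.card T.V : ℝ) + 2 * (g n : ℝ) = (n : ℝ) + 2 := by
    have : Nat.card T.V + 2 * g n = n + 2 := hgen
    exact_mod_cast this
  have hV : (Nat.card T.V : ℝ) ≤ 6 / 5 * η * n := by
    have h4 : (1 + 2 / (n : ℝ) - 2 * ((g n : ℝ) / n)) * n ≤ 6 / 5 * η * n :=
      mul_le_mul_of_nonneg_right h2.le hn0.le
    have h5 : (1 + 2 / (n : ℝ) - 2 * ((g n : ℝ) / n)) * n = (Nat.card T.V : ℝ) := by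
      have : (Nat.card T.V : ℝ) = (n : ℝ) + 2 - 2 * (g n : ℝ) := by linarith
      rw [this]
      field_simp
    rw [h5] at h4
    exact h4
  have hnR : ((δ : ℝ) + 1) * (Nat.card T.V : ℝ) ≤ n := by
    have h6 : ((δ : ℝ) + 1) * (Nat.card T.V : ℝ) ≤ (1 / (2 * η) + 1) * (6 / 5 * η * n) := by
      apply mul_le_mul (by linarith) hV (Nat.cast_nonneg _) (by positivity)
    have h7 : (1 / (2 * η) + 1) * (6 / 5 * η * n) = (3 / 5 + 6 / 5 * η) * n := by
      field_simp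
      ring
    rw [h7] at h6
    nlinarith
  have hnN : (δ + 1) * Nat.card T.V ≤ n := by exact_mod_cast hnR
  have hVn : Nat.card T.V ≤ n := by
    calc Nat.card T.V = 1 * Nat.card T.V := (one_mul _).symm
      _ ≤ (δ + 1) * Nat.card T.V := Nat.mul_le_mul_right _ (by omega)
      _ ≤ n := hnN
  -- the integer `k`
  set k₀ : ℕ := ⌈Real.log n / Real.log δ⌉₊ with hk₀
  have hk1 : Real.log n / Real.log δ ≤ (k₀ : ℝ) := Nat.le_ceil _
  have hk2 : (k₀ : ℝ) < Real.log n / Real.log δ + 1 :=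
    Nat.ceil_lt_add_one (div_nonneg (Real.log_nonneg (by linarith)) hlogδ0.le)
  have hpow : (n : ℝ) ≤ (δ : ℝ) ^ k₀ := by
    rw [div_le_iff₀ hlogδ0] at hk1
    have h8 : Real.log n ≤ Real.log ((δ : ℝ) ^ k₀) := by
      rw [Real.log_pow]
      exact hk1
    exact (Real.log_le_log_iff hn0 (by positivity)).mp h8
  have hpow2 : n < δ ^ (k₀ + 1) := by
    have h8 : (n : ℝ) < (δ : ℝ) ^ (k₀ + 1) := by
      rw [pow_succ]
      nlinarith
    exact_mod_cast h8
  have hmain := sep_walk T hconn (n := n) (g := g n) (δ := δ) (k := k₀ + 1) (Fintype.card_fin _) hgen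
    hg3 hδ1 (lt_of_le_of_lt hVn hpow2) hnN
  obtain ⟨c, hc0, hc1, hc2, hc3, hc4⟩ := hmain
  refine ⟨c, hc0, hc1, hc2, hc3, hc4.trans ?_⟩
  push_cast
  have h10 : Real.log n / Real.log δ ≤ 2 * Real.log n / Real.log (1 / η) := by
    rw [div_le_div_iff₀ hlogδ0 hlogη]
    have hln : 0 ≤ Real.log n := Real.log_nonneg (by linarith)
    nlinarith
  have h11 : (16 : ℝ) ≤ Real.log n / Real.log (1 / η) := by
    rw [le_div_iff₀ hlogη]
    exact h3
  have h12 : 17 * Real.log n / Real.log (1 / η) =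
      8 * (2 * Real.log n / Real.log (1 / η)) + Real.log n / Real.log (1 / η) := by
    ring
  rw [h12]
  linarith

end GNH
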