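import Pool.Agent.SST.Defs

/-!
# Project GNH: separating non-contractible closed walks, not necessarily simple
-/

namespace SST

/-- There is a separating non-contractible cycle (not necessarily simple) of length at most `L`. -/
def Tri.HasSep {D : Type} (T : Tri D) (L : ℝ) : Prop :=
  ∃ c : List D, c ≠ [] ∧ T.Closed c ∧ T.NullHom c ∧ ¬ T.NullHtp c ∧ (c.length : ℝ) ≤ L

end SST
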