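import Pool.Agent.GNH.Indep
import Pool.Agent.GNH.AreaZero
import Pool.Agent.GNH.Comm
import Pool.Agent.GNH.Sep

/-!
# GNH-DetMain: short separating non-contractible closed walks if there are few vertices
Assembly of `exists_indep`, `exists_area_zero`, `comm_walk`.  The commutator has length `≤ 8 k`; it is not `[]`
because `[]` is null-homotopic (`Relation.EqvGen.refl`).
-/

namespace GNH

open SST Classical

variable {D : Type} [Fintype D]

theorem sep_walk (T : Tri D) [Nonempty D] (hc : T.Conn) {n g δ k : ℕ} (hD : Fintype.card D = 6 * n)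
    (hg : T.Genus n g) (h3 : 3 ≤ g) (hδ : 1 ≤ δ) (hV : Nat.card T.V < δ ^ k)
    (hn : (δ + 1) * Nat.card T.V ≤ n) : T.HasSep (8 * k) := by
  obtain ⟨v, α, β, x, y, hα, hβ, hlα, hlβ, hx, hy, hdet⟩ := exists_indep T hD hδ hV hn
  obtain ⟨x', y', hx', hy', hA, hdet'⟩ := exists_area_zero T hD hg h3 hx hy hdet
  obtain ⟨h1, h2, h4⟩ := comm_walk T hc hx' hy' hA hα hβ hdet'
  refine ⟨α ++ β ++ (α.map T.a).reverse ++ (β.map T.a).reverse, ?_, h1, h2, h4, ?_⟩
  · intro h0
    apply h4
    rw [h0]
    exact Relation.EqvGen.refl _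
  · have hl : (α ++ β ++ (α.map T.a).reverse ++ (β.map T.a).reverse).length ≤ 8 * k := by
      simp only [List.length_append, List.length_reverse, List.length_map]
      omega
    exact_mod_cast hl

end GNH
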