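import Pool.Agent.GNH.Upper

/-!
# GNH-Few: many gluings have few vertices
Claim: there are `C₀`, `p₀` such that for `p ≥ p₀` some `V₀ ∈ [1, C₀ √p]` has `gl p ≤ 4 C₀ p mv p V₀`.
PROOF.  Let `w = V - 1`.  `gl p ≥ gl (p - w) ∏_{j<w} 6 (p - 1 - j)` (`gl_grow`).
(1) `C₀ √p ≤ V ≤ p/2`: `mv p V ≤ (6p)^(2w)/(w!)^2 gl (p-w)` (`mv_upper`, `p + 1 - V = p - w`) and
`gl (p-w) ≤ gl p / (2p)^w` (each factor `6 (p-1-j) ≥ 2 p` for `j < w ≤ p/2 - 1`, `p ≥ 2`), so
`mv p V ≤ gl p (18 p)^w / (w!)^2 ≤ gl p (18 e^2 p / w^2)^w` (`w! ≥ (w/e)^w`), and `18 e^2 p / w^2 ≤ 1/4` if `w ≥ 24 √p`; the sum over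
`w ≥ max (24 √p) 3` of `4^{-w}` is `≤ 1/16`.
(2) `p/2 < V ≤ p + 2`: `mv p V ≤ (6p)^(2w)/(w!)^2 gl (p+1-V) ≤ (6 e p/w)^(2w) gl (p+1-V)`, `w ≥ p/2 - 1/2`; `(6ep/w)^(2w) ≤ exp (12 p)`
(`x^w/w! ≤ exp x` with `x = 6p`), `gl (p+1-V) ≤ gl (⌊p/2⌋ + 1)`-type monotonicity (`gl` is nondecreasing for `n ≥ 1`, `gl 0 = 1`,
`gl 1 = 5/6`, careful), and `gl p ≥ gl (⌈3p/4⌉) * (4p)^(p/4 - 1)`...: super-exponentially larger.  So for `p ≥ p₀` the sum over
`p/2 < V ≤ p+2` is `≤ gl p / 16`.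
(3) `conn_low`: `∑_{V ≤ p+2} mv p V ≥ gl p/2`, `mv p 0 = 0`.  So `∑_{1 ≤ V < C₀ √p} mv p V ≥ gl p/4`, and one of these at most `C₀ √p ≤ C₀ p` terms is
`≥ gl p/(4 C₀ p)`.   `C₀ = 30` should do.  (`p₀` large is allowed everywhere.)
-/

namespace GNH

private theorem glA (p w : ℕ) (h : 2 * w ≤ p) : gl (p - w) * (3 * (p : ℝ)) ^ w ≤ gl p := by
  induction w with
  | zero => simp
  | succ w ih =>
    have h1 := ih (by omega)
    have h2 := gl_grow (p - (w + 1))
    have e1 : p - (w + 1) + 1 = p - w := by omega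
    rw [e1] at h2
    have h3 : (3 * (p : ℝ)) ≤ 6 * ((p - (w + 1) : ℕ) : ℝ) := by
      have h4 : p ≤ 2 * (p - (w + 1)) := by omega
      have h5 : (p : ℝ) ≤ 2 * ((p - (w + 1) : ℕ) : ℝ) := by exact_mod_cast h4
      linarith
    have hg := gl_pos (p - (w + 1))
    have h6 : (0 : ℝ) ≤ (3 * (p : ℝ)) ^ w := by positivity
    calc gl (p - (w + 1)) * (3 * (p : ℝ)) ^ (w + 1)
        = (3 * (p : ℝ)) * gl (p - (w + 1)) * (3 * (p : ℝ)) ^ w := by ring
      _ ≤ (6 * ((p - (w + 1) : ℕ) : ℝ)) * gl (p - (w + 1)) * (3 * (p : ℝ)) ^ w := by gcongr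
      _ ≤ gl (p - w) * (3 * (p : ℝ)) ^ w := by gcongr
      _ ≤ gl p := h1

private theorem glB (h k : ℕ) : gl h * (6 * (h : ℝ)) ^ k ≤ gl (h + k) := by
  induction k with
  | zero => simp
  | succ k ih =>
    have h2 := gl_grow (h + k)
    have hg := gl_pos h
    have h3 : (6 * (h : ℝ)) ≤ 6 * ((h + k : ℕ) : ℝ) := by
      push_cast
      have : (0 : ℝ) ≤ k := by positivity
      linarith
    calc gl h * (6 * (h : ℝ)) ^ (k + 1) = (6 * (h : ℝ)) * (gl h * (6 * (h : ℝ)) ^ k) := by ring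
      _ ≤ (6 * ((h + k : ℕ) : ℝ)) * gl (h + k) := by gcongr
      _ ≤ gl (h + k + 1) := h2

private theorem glC (m h : ℕ) (hm : m ≤ h) (hh : 1 ≤ h) : gl m ≤ 2 * gl h := by
  have mono : ∀ k a : ℕ, 1 ≤ a → gl a ≤ gl (a + k) := by
    intro k a ha
    have h1 := glB a k
    have h2 : (1 : ℝ) ≤ (6 * (a : ℝ)) ^ k := by
      apply one_le_pow₀
      have : (1 : ℝ) ≤ a := by exact_mod_cast ha
      linarith
    have hg := gl_pos a
    nlinarith
  have g1 : gl 1 = 5 / 6 := by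
    have := gl_succ 0
    rw [gl_zero] at this
    norm_num at this
    exact this
  rcases Nat.eq_zero_or_pos m with h0 | h0
  · subst h0
    have h1 := mono (h - 1) 1 le_rfl
    rw [show 1 + (h - 1) = h by omega, g1] at h1
    rw [gl_zero]
    linarith
  · have h1 := mono (h - m) m h0
    rw [show m + (h - m) = h by omega] at h1
    have := gl_pos h
    linarith

private theorem keyA (p w : ℕ) (hp : 1 ≤ p) (hw : 24 * Real.sqrt p ≤ w) (h : 2 * w ≤ p) :
    (6 * (p : ℝ)) ^ (2 * w) / (w.factorial : ℝ) ^ 2 * gl (p - w) ≤ gl p / (4 * (p + 3)) := by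
  have hp' : (1 : ℝ) ≤ p := by exact_mod_cast hp
  have hA := glA p w h
  have hg := gl_pos p
  have hfac : (0 : ℝ) < w.factorial := by exact_mod_cast w.factorial_pos
  set s : ℝ := Real.sqrt (12 * p) with hs
  have hs0 : 0 ≤ s := Real.sqrt_nonneg _
  have hs2 : s ^ 2 = 12 * p := Real.sq_sqrt (by positivity)
  have hsq : Real.sqrt p ^ 2 = p := Real.sq_sqrt (by positivity)
  have hsp : 0 ≤ Real.sqrt p := Real.sqrt_nonneg _
  have hw0 : (0 : ℝ) ≤ w := by positivity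
  have hw2 : 576 * (p : ℝ) ≤ (w : ℝ) ^ 2 := by nlinarith
  have hs4 : 4 * s ≤ 2 / 3 * w := by
    have : s ≤ w / 6 := by
      apply abs_le_of_sq_le_sq' _ (by positivity) |>.2
      nlinarith
    linarith
  have h1 : s ^ w / w.factorial ≤ 1 / 2 ^ w := by
    have e1 := Real.pow_div_factorial_le_exp (x := 4 * s) (by positivity) w
    have e2 : Real.exp (4 * s) ≤ 2 ^ w := by
      have l2 := Real.log_two_gt_d9
      calc Real.exp (4 * s) ≤ Real.exp (w * Real.log 2) := by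
            apply Real.exp_le_exp.2
            nlinarith
        _ = 2 ^ w := by
            rw [mul_comm, Real.exp_mul, Real.exp_log (by norm_num)]
            simp
    rw [mul_pow] at e1
    have e3 : (4 : ℝ) ^ w = 2 ^ w * 2 ^ w := by
      rw [← mul_pow]
      norm_num
    have e4 : (0 : ℝ) < 2 ^ w := by positivity
    rw [e3] at e1
    have e5 : 2 ^ w * 2 ^ w * s ^ w / w.factorial ≤ 2 ^ w := e1.trans e2
    rw [le_div_iff₀ e4]
    have e6 : 2 ^ w * (s ^ w / w.factorial * 2 ^ w) ≤ 2 ^ w * 1 := by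
      calc 2 ^ w * (s ^ w / w.factorial * 2 ^ w) = 2 ^ w * 2 ^ w * s ^ w / w.factorial := by ring
        _ ≤ 2 ^ w := e5
        _ = 2 ^ w * 1 := by ring
    exact le_of_mul_le_mul_left e6 e4
  have h2 : (12 * (p : ℝ)) ^ w / (w.factorial : ℝ) ^ 2 ≤ 1 / (4 * (p + 3)) := by
    have e1 : (12 * (p : ℝ)) ^ w / (w.factorial : ℝ) ^ 2 = (s ^ w / w.factorial) ^ 2 := by
      rw [← hs2, ← pow_mul, div_pow, ← pow_mul, mul_comm 2 w]
    have e2 : 4 * ((p : ℝ) + 3) ≤ (2 ^ w) ^ 2 := by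
      have l2 := Real.log_two_gt_d9
      have e3 : Real.exp w ≤ ((2 : ℝ) ^ w) ^ 2 := by
        calc Real.exp w ≤ Real.exp ((2 * Real.log 2) * w) := by
              apply Real.exp_le_exp.2
              nlinarith
          _ = ((2 : ℝ) ^ w) ^ 2 := by
              rw [Real.exp_mul, mul_comm 2 (Real.log 2), Real.exp_mul, Real.exp_log (by norm_num)]
              rw [← Real.rpow_natCast, ← Real.rpow_natCast, ← Real.rpow_mul (by norm_num),
                ← Real.rpow_mul (by norm_num)]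
              congr 1
              push_cast
              ring
      have e4 := Real.quadratic_le_exp_of_nonneg hw0
      nlinarith
    rw [e1]
    calc (s ^ w / w.factorial) ^ 2 ≤ (1 / 2 ^ w) ^ 2 := by gcongr
      _ = 1 / (2 ^ w) ^ 2 := by rw [div_pow, one_pow]
      _ ≤ 1 / (4 * ((p : ℝ) + 3)) := by gcongr
  calc (6 * (p : ℝ)) ^ (2 * w) / (w.factorial : ℝ) ^ 2 * gl (p - w)
      = (12 * (p : ℝ)) ^ w / (w.factorial : ℝ) ^ 2 * (gl (p - w) * (3 * (p : ℝ)) ^ w) := by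
        have e : (6 * (p : ℝ)) ^ (2 * w) = (12 * (p : ℝ)) ^ w * (3 * (p : ℝ)) ^ w := by
          rw [pow_mul, ← mul_pow]
          congr 1
          ring
        rw [e]
        ring
    _ ≤ 1 / (4 * ((p : ℝ) + 3)) * gl p := by
        have := gl_pos (p - w)
        gcongr
    _ = gl p / (4 * (p + 3)) := by ring

private theorem keyB (p w : ℕ) (hp : Real.exp 100 ≤ p) (h : p < 2 * w) :
    (6 * (p : ℝ)) ^ (2 * w) / (w.factorial : ℝ) ^ 2 * gl (p - w) ≤ gl p / (4 * (p + 3)) := by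
  have hp1 : (101 : ℝ) ≤ p := by
    have := Real.add_one_le_exp (100 : ℝ)
    linarith
  have hpn : 101 ≤ p := by exact_mod_cast hp1
  have hfac : (0 : ℝ) < w.factorial := by exact_mod_cast w.factorial_pos
  have e1 := Real.pow_div_factorial_le_exp (x := 6 * (p : ℝ)) (by positivity) w
  have e2 : (6 * (p : ℝ)) ^ (2 * w) / (w.factorial : ℝ) ^ 2 ≤ Real.exp (12 * p) := by
    calc (6 * (p : ℝ)) ^ (2 * w) / (w.factorial : ℝ) ^ 2
        = ((6 * (p : ℝ)) ^ w / w.factorial) ^ 2 := by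
          rw [div_pow, ← pow_mul, mul_comm 2 w]
      _ ≤ (Real.exp (6 * p)) ^ 2 := by gcongr
      _ = Real.exp (12 * p) := by
          rw [← Real.exp_nat_mul]
          congr 1
          push_cast
          ring
  obtain ⟨a, ha⟩ : ∃ a, a = p / 2 + 1 := ⟨_, rfl⟩
  obtain ⟨k, hk⟩ : ∃ k, k = p - a := ⟨_, rfl⟩
  have e3 := glC (p - w) a (by omega) (by omega)
  have e4 := glB a k
  rw [show a + k = p by omega] at e4
  have hga := gl_pos a
  have e5 : Real.exp (100 * k) ≤ (6 * (a : ℝ)) ^ k := by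
    have e6 : Real.exp 100 ≤ 6 * (a : ℝ) := by
      have e7 : p ≤ 2 * a := by omega
      have e8 : (p : ℝ) ≤ 2 * a := by exact_mod_cast e7
      linarith
    rw [mul_comm, Real.exp_nat_mul]
    gcongr
  have e6 : Real.exp (12 * p) * 2 * (4 * (p + 3)) ≤ Real.exp (100 * k) := by
    have e7 : p ≤ 2 * k + 2 := by omega
    have e8 : (p : ℝ) ≤ 2 * k + 2 := by exact_mod_cast e7
    have e9 := Real.add_one_le_exp (p : ℝ)
    have e10 : 2 * (4 * ((p : ℝ) + 3)) ≤ Real.exp (2 * p) := by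
      have : Real.exp (2 * p) = Real.exp p * Real.exp p := by
        rw [← Real.exp_add]
        congr 1
        ring
      rw [this]
      nlinarith
    calc Real.exp (12 * p) * 2 * (4 * (p + 3)) = Real.exp (12 * p) * (2 * (4 * (p + 3))) := by ring
      _ ≤ Real.exp (12 * p) * Real.exp (2 * p) := by gcongr
      _ = Real.exp (12 * p + 2 * p) := by rw [Real.exp_add]
      _ ≤ Real.exp (100 * k) := by
          apply Real.exp_le_exp.2
          linarith
  have hq : (0 : ℝ) < 4 * ((p : ℝ) + 3) := by positivity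
  rw [le_div_iff₀ hq]
  have hgw := gl_pos (p - w)
  calc (6 * (p : ℝ)) ^ (2 * w) / (w.factorial : ℝ) ^ 2 * gl (p - w) * (4 * (p + 3))
      ≤ Real.exp (12 * p) * (2 * gl a) * (4 * (p + 3)) := by gcongr
    _ = gl a * (Real.exp (12 * p) * 2 * (4 * (p + 3))) := by ring
    _ ≤ gl a * Real.exp (100 * k) := by gcongr
    _ ≤ gl a * (6 * (a : ℝ)) ^ k := by gcongr
    _ ≤ gl p := e4

theorem few : ∃ (C₀ : ℝ) (p₀ : ℕ), 1 ≤ C₀ ∧ ∀ p : ℕ, p₀ ≤ p → ∃ V₀ : ℕ, 1 ≤ V₀ ∧
    (V₀ : ℝ) ≤ C₀ * Real.sqrt p ∧ gl p ≤ 4 * C₀ * p * mv p V₀ := by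
  refine ⟨30, ⌈Real.exp 100⌉₊, by norm_num, ?_⟩
  intro p hp
  have hp0 : Real.exp 100 ≤ p := Nat.ceil_le.1 hp
  have hp1 : (101 : ℝ) ≤ p := by
    have := Real.add_one_le_exp (100 : ℝ)
    linarith
  have hpn : 101 ≤ p := by exact_mod_cast hp1
  by_contra hcon
  push Not at hcon
  have hg := gl_pos p
  have hsq : Real.sqrt p ^ 2 = p := Real.sq_sqrt (by positivity)
  have hsp : 1 ≤ Real.sqrt p := by
    rw [Real.one_le_sqrt]
    linarith
  have hall : ∀ V ∈ Finset.range (p + 3), mv p V ≤ gl p / (4 * (p + 3)) := by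
    intro V hV
    rw [Finset.mem_range] at hV
    rcases Nat.eq_zero_or_pos V with h0 | h0
    · subst h0
      rw [mv_zero (by omega)]
      positivity
    · by_cases hs : (V : ℝ) ≤ 30 * Real.sqrt p
      · have h1 := hcon V h0 hs
        rw [le_div_iff₀ (by positivity)]
        have h2 := mv_nonneg p V
        nlinarith
      · push Not at hs
        have h1 := mv_upper (n := p) (V := V) (by omega) h0
        rw [show p + 1 - V = p - (V - 1) by omega] at h1
        refine h1.trans ?_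
        by_cases h2 : 2 * (V - 1) ≤ p
        · apply keyA p (V - 1) (by omega) _ h2
          have h3 : ((V - 1 : ℕ) : ℝ) = V - 1 := by
            rw [Nat.cast_sub h0]
            simp
          rw [h3]
          linarith
        · exact keyB p (V - 1) hp0 (by omega)
  have h1 := conn_low (n := p) (by omega)
  have h2 := Finset.sum_le_card_nsmul _ _ _ hall
  rw [Finset.card_range, nsmul_eq_mul] at h2
  have h3 : ((p + 3 : ℕ) : ℝ) * (gl p / (4 * (p + 3))) = gl p / 4 := by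
    push_cast
    field_simp
  rw [h3] at h2
  linarith

end GNH
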