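import Pool.Agent.GNH.Sep
import Pool.Agent.SST.E.Rooted

/-!
# GNH-Root: rooted triangulations

Transport of separating non-contractible closed walks, and the proportion of the rooted triangulations without a
short simple separating non-contractible cycle.
-/

namespace SST

private theorem root_symm {D D' : Type} (T : Tri D) (e : D ≃ D') :
    (T.map e).map e.symm = T := by
  rw [Tri.map_map, Equiv.self_trans_symm]
  exact Tri.ext' rfl rfl

private theorem root_list {D D' : Type} (e : D ≃ D') (c : List D) :
    (c.map e).map e.symm = c := by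
  rw [List.map_map, Equiv.symm_comp_self, List.map_id]

private theorem root_htp {D D' : Type} (T : Tri D) (e : D ≃ D') (c : List D) (h : T.NullHtp c) :
    (T.map e).NullHtp (c.map e) := by
  unfold Tri.NullHtp at h ⊢
  have key : ∀ x y : List D, Relation.EqvGen
      (fun x y => T.Closed x ∧ T.Closed y ∧ T.Step x y) x y →
      Relation.EqvGen (fun x y => (T.map e).Closed x ∧ (T.map e).Closed y ∧ (T.map e).Step x y)
        (x.map e) (y.map e) := by
    intro x y h1
    induction h1 with
    | rel x y h2 =>
      refine Relation.EqvGen.rel _ _ ⟨(T.map_walk e x).2 h2.1, (T.map_walk e y).2 h2.2.1, ?_⟩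
      rcases h2.2.2 with ⟨u, v, d⟩ | ⟨u, v, d⟩
      · have h3 := Tri.Step.spur (T := T.map e) (u.map e) (v.map e) (e d)
        rw [Tri.map_a] at h3
        simpa using h3
      · have h3 := Tri.Step.face (T := T.map e) (u.map e) (v.map e) (e d)
        rw [Tri.map_f, Tri.map_f] at h3
        simpa using h3
    | refl x => exact Relation.EqvGen.refl _
    | symm x y _ ih => exact Relation.EqvGen.symm _ _ ih
    | trans x y z _ _ ih1 ih2 => exact Relation.EqvGen.trans _ _ _ ih1 ih2
  exact key c [] h

private theorem root_sep {D D' : Type} (T : Tri D) (e : D ≃ D') (L : ℝ) (h : T.HasSep L) :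
    (T.map e).HasSep L := by
  obtain ⟨c, h1, h2, h4, h5, h6⟩ := h
  refine ⟨c.map e, ?_, (T.map_walk e c).2 h2, (T.map_nullHom e c).2 h4,
    fun h7 => h5 ?_, by rw [List.length_map]; exact h6⟩
  · intro h7
    exact h1 (List.map_eq_nil_iff.1 h7)
  · have h8 := root_htp (T.map e) e.symm _ h7
    rwa [root_symm, root_list] at h8

theorem Tri.map_hasSep {D D' : Type} (T : Tri D) (e : D ≃ D') (L : ℝ) :
    (T.map e).HasSep L ↔ T.HasSep L := by
  constructor
  · intro h
    have h1 := root_sep (T.map e) e.symm L h
    rwa [root_symm] at h1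
  · exact root_sep T e L

/-- The rooted triangulation has a separating non-contractible cycle (not necessarily simple) of
length at most `L`. -/
def RTri.HasSep {n g : ℕ} (L : ℝ) (q : RTri n g) : Prop :=
  Quotient.lift (s := rootSetoid n g) (fun x : Pairs n g => x.1.1.HasSep L)
    (by
      rintro x y ⟨π, h, -⟩
      simp only [h]
      exact propext (Tri.map_hasSep _ _ _).symm) q

end SST

namespace GNH

open SST

theorem sep_frac {n g : ℕ} (hn : 1 ≤ n) (L L' : ℝ) (h : ∀ T ∈ Trn n g, T.HasSep L)
    (h0 : 0 < (Trn n g).ncard) :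
    (Nat.card {q : RTri n g // q.HasSep L ∧ ¬ q.HasSSC L'} : ℝ) / Nat.card (RTri n g) =
      1 - ({T | T ∈ Trn n g ∧ T.HasSSC L'}.ncard : ℝ) / (Trn n g).ncard := by
  classical
  have hfinP : Finite (Pairs n g) := by
    unfold Pairs
    infer_instance
  have hfin : Finite (RTri n g) := by
    unfold RTri
    infer_instance
  have hne : Nonempty (RTri n g) := by
    obtain ⟨T, hT⟩ : (Trn n g).Nonempty := by
      rw [Set.nonempty_iff_ne_empty]
      intro h1
      rw [h1, Set.ncard_empty] at h0
      exact lt_irrefl _ h0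
    exact ⟨Quotient.mk (rootSetoid n g) ⟨(T, ⟨0, by omega⟩), hT⟩⟩
  have hpos : 0 < Nat.card (RTri n g) := Nat.card_pos
  have hsep : ∀ q : RTri n g, q.HasSep L := by
    intro q
    induction q using Quotient.ind with
    | _ x => exact h x.1.1 x.2
  have e1 : Nat.card {q : RTri n g // q.HasSep L ∧ ¬ q.HasSSC L'} =
      Nat.card {q : RTri n g // ¬ q.HasSSC L'} := by
    congr 1
    simp only [hsep, true_and]
  have e2 : Nat.card {q : RTri n g // q.HasSSC L'} + Nat.card {q : RTri n g // ¬ q.HasSSC L'} =
      Nat.card (RTri n g) := by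
    rw [← Nat.card_sum]
    exact Nat.card_congr (Equiv.sumCompl fun q : RTri n g => q.HasSSC L')
  have e3 : (Nat.card {q : RTri n g // ¬ q.HasSSC L'} : ℝ) =
      Nat.card (RTri n g) - Nat.card {q : RTri n g // q.HasSSC L'} := by
    rw [← e2]
    push_cast
    ring
  have hpos' : (Nat.card (RTri n g) : ℝ) ≠ 0 := by
    exact_mod_cast hpos.ne'
  rw [← ratio_eq hn L', e1, e3, sub_div, div_self hpos']

end GNH
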