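import Pool.Agent.GNH.Whp
import Pool.Agent.GNH.Root
import Pool.Agent.GNH.DetAsym

/-!
# GNH-Final
`final`: the fraction of rooted triangulations with a separating non-contractible cycle of length at most
`17 log n/log (1/(1-2θ))` and without a simple one of length at most `log n/30` tends to 1 (`det_asym`, `trn_pos`,
`sep_frac`, `whp`).  `ratio`: hence for `θ` close to `1/2` the two separating systoles differ by a factor `M`.
-/

namespace GNH

open SST Filter Topology

theorem final {θ : ℝ} (h : 1 / 2 - 1 / 10 ^ 50 < θ) (h' : θ < 1 / 2) {g : ℕ → ℕ}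
    (hg : Tendsto (fun n => (g n : ℝ) / n) atTop (𝓝 θ)) :
    Tendsto (fun n : ℕ =>
      (Nat.card {q : RTri n (g n) // q.HasSep (17 * Real.log n / Real.log (1 / (1 - 2 * θ))) ∧
        ¬ q.HasSSC (Real.log n / 30)} : ℝ) / Nat.card (RTri n (g n))) atTop (𝓝 1) := by
  have h99 : 99 / 200 < θ := lt_trans (by norm_num) h
  have h1 := det_asym θ h99 h' g hg
  have h2 := trn_pos (θ := θ) (by linarith) h' hg
  have h3 := whp h h' hg
  have h4 := h3.const_sub 1
  rw [sub_zero] at h4
  refine h4.congr' ?_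
  filter_upwards [h1, h2, eventually_ge_atTop 1] with n a b c
  exact (sep_frac c _ _ a b).symm

private theorem ssc_mono {n g : ℕ} {L L' : ℝ} (h : L ≤ L') (q : RTri n g) (hq : q.HasSSC L) :
    q.HasSSC L' := by
  revert hq
  refine Quotient.inductionOn q (fun x hx => ?_)
  obtain ⟨c, h1, h2, h3, h4, h5, h6⟩ := hx
  exact ⟨c, h1, h2, h3, h4, h5, h6.trans h⟩

private theorem rtri_finite (n g : ℕ) : Finite (RTri n g) := by
  have : Finite (Pairs n g) := Subtype.finite
  exact Quotient.finite _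

theorem ratio (M : ℝ) : ∃ θ₀ : ℝ, θ₀ < 1 / 2 ∧ ∀ θ : ℝ, θ₀ < θ → θ < 1 / 2 → ∀ g : ℕ → ℕ,
    Tendsto (fun n => (g n : ℝ) / n) atTop (𝓝 θ) →
    Tendsto (fun n : ℕ =>
      (Nat.card {q : RTri n (g n) // ∃ L : ℝ, q.HasSep L ∧ ¬ q.HasSSC (M * L)} : ℝ) /
        Nat.card (RTri n (g n))) atTop (𝓝 1) := by
  have hE : 0 < Real.exp (-(510 * |M| + 1)) := Real.exp_pos _
  refine ⟨max (1 / 2 - 1 / 10 ^ 50) (1 / 2 - Real.exp (-(510 * |M| + 1)) / 2), ?_, ?_⟩
  · apply max_lt
    · norm_num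
    · linarith
  intro θ h1 h2 g hg
  have h3 : 1 / 2 - 1 / 10 ^ 50 < θ := lt_of_le_of_lt (le_max_left _ _) h1
  have h4 : 1 / 2 - Real.exp (-(510 * |M| + 1)) / 2 < θ := lt_of_le_of_lt (le_max_right _ _) h1
  have h5 : 0 < 1 - 2 * θ := by linarith
  have h6 : 510 * |M| + 1 ≤ Real.log (1 / (1 - 2 * θ)) := by
    rw [one_div, Real.log_inv]
    have h7 : Real.log (1 - 2 * θ) ≤ Real.log (Real.exp (-(510 * |M| + 1))) :=
      Real.log_le_log h5 (by linarith)
    rw [Real.log_exp] at h7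
    linarith
  have hM : M ≤ |M| := le_abs_self M
  have hM0 : 0 ≤ |M| := abs_nonneg M
  have hΛ : 0 < Real.log (1 / (1 - 2 * θ)) := by linarith
  have hle : ∀ n : ℕ, M * (17 * Real.log n / Real.log (1 / (1 - 2 * θ))) ≤ Real.log n / 30 := by
    intro n
    have hn : 0 ≤ Real.log (n : ℝ) := Real.log_natCast_nonneg n
    rw [← mul_div_assoc, div_le_div_iff₀ hΛ (by norm_num)]
    have : (510 * M) * Real.log n ≤ Real.log (1 / (1 - 2 * θ)) * Real.log n :=
      mul_le_mul_of_nonneg_right (by linarith) hn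
    nlinarith
  refine tendsto_of_tendsto_of_tendsto_of_le_of_le (final h3 h2 hg) tendsto_const_nhds (fun n => ?_)
    (fun n => ?_)
  · have := rtri_finite n (g n)
    refine div_le_div_of_nonneg_right ?_ (Nat.cast_nonneg _)
    refine Nat.cast_le.2 ?_
    refine Nat.card_le_card_of_injective
      (fun q => ⟨q.1, _, q.2.1, fun h7 => q.2.2 (ssc_mono (hle n) q.1 h7)⟩) ?_
    intro q q' hqq
    have h8 : q.1 = q'.1 := by simpa using hqq
    exact Subtype.ext h8
  · have := rtri_finite n (g n)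
    refine div_le_one_of_le₀ ?_ (Nat.cast_nonneg _)
    refine Nat.cast_le.2 ?_
    exact Nat.card_le_card_of_injective _ Subtype.val_injective

end GNH
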