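import Pool.Agent.SST.Defs
import Pool.Agent.SST.T.Conj

/-!
# GNH-Gl: the number of all gluings of `2n` triangles
`gl n = #Tri (Fin (6n)) / (6n)!`.  `Tri (Fin (6n))` is the product of `{a : a^2 = 1 without fixed points}` and
`{f : f^3 = 1 without fixed points}`; these are counted by their cycle types.
-/

namespace GNH

open SST

/-- Number of gluings of `2n` triangles, weighted. -/
noncomputable def gl (n : ℕ) : ℝ := (Nat.card (Tri (Fin (6 * n))) : ℝ) / (6 * n).factorial

private theorem typeP (p b N : ℕ) (hp : p.Prime) (hN : N = p * b) (f : Equiv.Perm (Fin N)) :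
    (f ^ p = 1 ∧ ∀ d, f d ≠ d) ↔ f.cycleType = Multiset.replicate b p := by
  constructor
  · rintro ⟨h3, h2⟩
    have h4 : ∀ n ∈ f.cycleType, n = p := by
      intro n hn
      have h5 : n ∣ p := (Equiv.Perm.dvd_of_mem_cycleType hn).trans (orderOf_dvd_of_pow_eq_one h3)
      have h6 := Equiv.Perm.two_le_of_mem_cycleType hn
      rcases (Nat.dvd_prime hp).1 h5 with h7 | h7
      · omega
      · exact h7
    have h5 := Multiset.eq_replicate_card.2 h4
    have h6 : f.support = Finset.univ := by
      ext d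
      simp [h2 d]
    have h7 := Equiv.Perm.sum_cycleType f
    rw [h6, Finset.card_univ, Fintype.card_fin, h5, Multiset.sum_replicate, smul_eq_mul] at h7
    have h8 : Multiset.card f.cycleType = b := by
      have h9 : Multiset.card f.cycleType * p = b * p := by
        rw [h7, mul_comm b p]
        exact hN
      exact Nat.eq_of_mul_eq_mul_right hp.pos h9
    rw [h5, h8]
  · intro h
    have h1 : f ^ p = 1 := by
      rw [← orderOf_dvd_iff_pow_eq_one, ← Equiv.Perm.lcm_cycleType, h]
      exact Multiset.lcm_dvd.2 fun a ha => by rw [Multiset.eq_of_mem_replicate ha]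
    have h2 : f.support = Finset.univ := by
      rw [← Finset.card_eq_iff_eq_univ, ← Equiv.Perm.sum_cycleType, h, Multiset.sum_replicate,
        Fintype.card_fin, smul_eq_mul, mul_comm, hN]
    refine ⟨h1, fun d => ?_⟩
    have h3 : d ∈ f.support := by rw [h2]; exact Finset.mem_univ d
    exact Equiv.Perm.mem_support.1 h3

private theorem cardP (p b N : ℕ) (hp : p.Prime) (hN : N = p * b) :
    (Finset.univ.filter fun f : Equiv.Perm (Fin N) => f ^ p = 1 ∧ ∀ d, f d ≠ d).card *
      (p ^ b * b.factorial) = N.factorial := by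
  have h1 : (Finset.univ.filter fun f : Equiv.Perm (Fin N) => f ^ p = 1 ∧ ∀ d, f d ≠ d) =
      (Finset.univ.filter fun g : Equiv.Perm (Fin N) =>
      g.cycleType = Multiset.replicate b p) := by
    ext f
    rw [Finset.mem_filter, Finset.mem_filter, typeP p b N hp hN]
  have h2 := Equiv.Perm.card_of_cycleType_mul_eq (Fin N) (Multiset.replicate b p)
  have hcond : ((Multiset.replicate b p).sum ≤ Fintype.card (Fin N) ∧
      ∀ a ∈ Multiset.replicate b p, 2 ≤ a) := by
    refine ⟨?_, ?_⟩
    · rw [Multiset.sum_replicate, Fintype.card_fin, smul_eq_mul, mul_comm, hN]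
    · intro a ha
      rw [Multiset.eq_of_mem_replicate ha]
      exact hp.two_le
  have h0 : N - b * p = 0 := by
    rw [hN, mul_comm]
    exact Nat.sub_self _
  rw [if_pos hcond, ← h1, Fintype.card_fin, Multiset.sum_replicate, Multiset.prod_replicate,
    smul_eq_mul, h0, Nat.factorial_zero, one_mul] at h2
  have h3 : (∏ n ∈ (Multiset.replicate b p).toFinset,
      ((Multiset.replicate b p).count n).factorial) = b.factorial := by
    rw [Multiset.toFinset_replicate]
    by_cases hb : b = 0
    · rw [if_pos hb, hb]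
      simp
    · rw [if_neg hb, Finset.prod_singleton, Multiset.count_replicate_self]
  rw [h3] at h2
  exact h2

private theorem card_tri (N : ℕ) : Nat.card (Tri (Fin N)) =
    (Finset.univ.filter fun f : Equiv.Perm (Fin N) => f ^ 2 = 1 ∧ ∀ d, f d ≠ d).card *
      (Finset.univ.filter fun f : Equiv.Perm (Fin N) => f ^ 3 = 1 ∧ ∀ d, f d ≠ d).card := by
  have e : Tri (Fin N) ≃ {f : Equiv.Perm (Fin N) // f ^ 2 = 1 ∧ ∀ d, f d ≠ d} ×
      {f : Equiv.Perm (Fin N) // f ^ 3 = 1 ∧ ∀ d, f d ≠ d} :=
    { toFun := fun T => (⟨T.a, by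
          refine ⟨?_, T.ane⟩
          ext d
          simp [pow_succ, T.aa]⟩, ⟨T.f, by
          refine ⟨?_, T.fne⟩
          ext d
          simp [pow_succ, T.fff]⟩)
      invFun := fun q => ⟨q.1.1, q.2.1, fun d => by
          have h := congrArg (fun g : Equiv.Perm (Fin N) => g d) q.1.2.1
          simpa [pow_succ] using h, q.1.2.2, fun d => by
          have h := congrArg (fun g : Equiv.Perm (Fin N) => g d) q.2.2.1
          simpa [pow_succ] using h, q.2.2.2⟩
      left_inv := fun T => rfl
      right_inv := fun q => rfl }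
  rw [Nat.card_congr e, Nat.card_prod, Nat.card_eq_fintype_card, Nat.card_eq_fintype_card,
    Fintype.card_subtype, Fintype.card_subtype]

theorem gl_formula (n : ℕ) : gl n =
    (6 * n).factorial / (2 ^ (3 * n) * (3 * n).factorial * (3 ^ (2 * n) * (2 * n).factorial)) := by
  have hA := cardP 2 (3 * n) (6 * n) Nat.prime_two (by ring)
  have hF := cardP 3 (2 * n) (6 * n) Nat.prime_three (by ring)
  unfold gl
  rw [card_tri]
  set a := (Finset.univ.filter fun f : Equiv.Perm (Fin (6 * n)) =>
    f ^ 2 = 1 ∧ ∀ d, f d ≠ d).card with ha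
  set b := (Finset.univ.filter fun f : Equiv.Perm (Fin (6 * n)) =>
    f ^ 3 = 1 ∧ ∀ d, f d ≠ d).card with hb
  have hA' : (a : ℝ) * (2 ^ (3 * n) * (3 * n).factorial) = (6 * n).factorial := by
    exact_mod_cast hA
  have hF' : (b : ℝ) * (3 ^ (2 * n) * (2 * n).factorial) = (6 * n).factorial := by
    exact_mod_cast hF
  have hpos : (0 : ℝ) < ((6 * n).factorial : ℝ) := by exact_mod_cast Nat.factorial_pos _
  have hpA : (0 : ℝ) < 2 ^ (3 * n) * (3 * n).factorial := by
    have : (0 : ℝ) < ((3 * n).factorial : ℝ) := by exact_mod_cast Nat.factorial_pos _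
    positivity
  have hpF : (0 : ℝ) < 3 ^ (2 * n) * (2 * n).factorial := by
    have : (0 : ℝ) < ((2 * n).factorial : ℝ) := by exact_mod_cast Nat.factorial_pos _
    positivity
  rw [div_eq_div_iff hpos.ne' (mul_pos hpA hpF).ne']
  push_cast
  calc (a : ℝ) * b * (2 ^ (3 * n) * (3 * n).factorial * (3 ^ (2 * n) * (2 * n).factorial))
      = ((a : ℝ) * (2 ^ (3 * n) * (3 * n).factorial)) *
          ((b : ℝ) * (3 ^ (2 * n) * (2 * n).factorial)) := by ring
    _ = (6 * n).factorial * (6 * n).factorial := by rw [hA', hF']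

theorem gl_zero : gl 0 = 1 := by
  rw [gl_formula]
  simp

theorem gl_succ (n : ℕ) : gl (n + 1) = gl n * ((6 * n + 5) * (6 * n + 1) / (6 * (n + 1))) := by
  rw [gl_formula, gl_formula]
  have e1 : ((6 * (n + 1)).factorial : ℝ) = (6 * n + 6) * ((6 * n + 5) * ((6 * n + 4) *
      ((6 * n + 3) * ((6 * n + 2) * ((6 * n + 1) * (6 * n).factorial))))) := by
    have h : 6 * (n + 1) = 6 * n + 5 + 1 := by ring
    rw [h, Nat.factorial_succ, Nat.factorial_succ, Nat.factorial_succ, Nat.factorial_succ,
      Nat.factorial_succ, Nat.factorial_succ]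
    push_cast
    ring
  have e2 : ((3 * (n + 1)).factorial : ℝ) = (3 * n + 3) * ((3 * n + 2) * ((3 * n + 1) *
      (3 * n).factorial)) := by
    have h : 3 * (n + 1) = 3 * n + 2 + 1 := by ring
    rw [h, Nat.factorial_succ, Nat.factorial_succ, Nat.factorial_succ]
    push_cast
    ring
  have e3 : ((2 * (n + 1)).factorial : ℝ) = (2 * n + 2) * ((2 * n + 1) * (2 * n).factorial) := by
    have h : 2 * (n + 1) = 2 * n + 1 + 1 := by ring
    rw [h, Nat.factorial_succ, Nat.factorial_succ]
    push_cast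
    ring
  have e4 : (2 : ℝ) ^ (3 * (n + 1)) = 8 * 2 ^ (3 * n) := by
    have h : 3 * (n + 1) = 3 * n + 3 := by ring
    rw [h, pow_add]
    ring
  have e5 : (3 : ℝ) ^ (2 * (n + 1)) = 9 * 3 ^ (2 * n) := by
    have h : 2 * (n + 1) = 2 * n + 2 := by ring
    rw [h, pow_add]
    ring
  rw [e1, e2, e3, e4, e5]
  have p1 : (0 : ℝ) < ((6 * n).factorial : ℝ) := by exact_mod_cast Nat.factorial_pos _
  have p2 : (0 : ℝ) < ((3 * n).factorial : ℝ) := by exact_mod_cast Nat.factorial_pos _
  have p3 : (0 : ℝ) < ((2 * n).factorial : ℝ) := by exact_mod_cast Nat.factorial_pos _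
  have p4 : (0 : ℝ) < (2 : ℝ) ^ (3 * n) := by positivity
  have p5 : (0 : ℝ) < (3 : ℝ) ^ (2 * n) := by positivity
  field_simp
  ring

end GNH
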