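import Pool.Agent.GNH.Gl

/-!
# GNH-GlEst: estimates for `gl`
Positivity, upper and lower growth bounds and super-multiplicativity of the weighted number `gl n` of gluings,
all by induction from `gl_zero` and `gl_succ`.
-/

namespace GNH

theorem gl_pos (n : ℕ) : 0 < gl n := by
  induction n with
  | zero => rw [gl_zero]; exact one_pos
  | succ n ih =>
    rw [gl_succ]
    have hn : (0 : ℝ) ≤ n := Nat.cast_nonneg n
    have h : (0 : ℝ) < (6 * n + 5) * (6 * n + 1) / (6 * (n + 1)) := by positivity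
    exact mul_pos ih h

private theorem glest_ratio_le (n : ℕ) :
    ((6 * n + 5) * (6 * n + 1) / (6 * (n + 1)) : ℝ) ≤ 6 * (n + 1) := by
  have hn : (0 : ℝ) ≤ n := Nat.cast_nonneg n
  rw [div_le_iff₀ (by positivity)]
  nlinarith

private theorem glest_le_ratio (n : ℕ) :
    (6 * n : ℝ) ≤ (6 * n + 5) * (6 * n + 1) / (6 * (n + 1)) := by
  have hn : (0 : ℝ) ≤ n := Nat.cast_nonneg n
  rw [le_div_iff₀ (by positivity)]
  nlinarith

theorem gl_le (n : ℕ) : gl n ≤ 6 ^ n * n.factorial := by
  induction n with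
  | zero => rw [gl_zero]; simp
  | succ n ih =>
    rw [gl_succ, Nat.factorial_succ, pow_succ]
    push_cast
    have h0 : (0 : ℝ) ≤ (6 * n + 5) * (6 * n + 1) / (6 * (n + 1)) := by positivity
    calc gl n * ((6 * n + 5) * (6 * n + 1) / (6 * (n + 1)))
        ≤ (6 ^ n * n.factorial) * (6 * (n + 1)) :=
          mul_le_mul ih (glest_ratio_le n) h0 (by positivity)
      _ = 6 ^ n * 6 * ((n + 1) * n.factorial) := by ring

theorem gl_grow (n : ℕ) : 6 * n * gl n ≤ gl (n + 1) := by
  rw [gl_succ, mul_comm]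
  exact mul_le_mul_of_nonneg_left (glest_le_ratio n) (gl_pos n).le

private theorem glest_step (a b : ℕ) :
    ((6 * a + 5) * (6 * a + 1) / (6 * (a + 1)) : ℝ) * ((a + b + 1) / (a + 1)) ≤
      (6 * (a + b) + 5) * (6 * (a + b) + 1) / (6 * (a + b + 1)) := by
  have ha : (0 : ℝ) ≤ a := Nat.cast_nonneg a
  have hb : (0 : ℝ) ≤ b := Nat.cast_nonneg b
  rw [div_mul_div_comm, div_le_div_iff₀ (by positivity) (by positivity)]
  have hab : (0 : ℝ) ≤ a * b := mul_nonneg ha hb
  have key : (0 : ℝ) ≤ 36 * (a + 1) * (a + b + 1) - 5 * ((a + 1) + (a + b + 1)) := by nlinarith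
  have h := mul_nonneg hb key
  nlinarith

theorem gl_mul (a b : ℕ) : gl a * gl b * ((a + b).choose a : ℝ) ≤ gl (a + b) := by
  induction a with
  | zero => simp [gl_zero]
  | succ a ih =>
    have hc : ((a + 1 + b).choose (a + 1) : ℝ) = (a + b + 1) / (a + 1) * (a + b).choose a := by
      have h := Nat.add_one_mul_choose_eq (a + b) a
      have h1 : (((a + b : ℕ) : ℝ) + 1) * ((a + b).choose a : ℝ) =
          ((a + b + 1).choose (a + 1) : ℝ) * ((a : ℝ) + 1) := by exact_mod_cast h
      have ha : (a : ℝ) + 1 ≠ 0 := by positivity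
      rw [show a + 1 + b = a + b + 1 by ring, div_mul_eq_mul_div, eq_div_iff ha, ← h1]
      push_cast
      ring
    rw [hc, show a + 1 + b = (a + b) + 1 by ring, gl_succ, gl_succ]
    have hr : (0 : ℝ) ≤ (6 * a + 5) * (6 * a + 1) / (6 * (a + 1)) * ((a + b + 1) / (a + 1)) := by
      positivity
    calc gl a * ((6 * a + 5) * (6 * a + 1) / (6 * (a + 1))) * gl b *
          ((a + b + 1) / (a + 1) * (a + b).choose a)
        = (gl a * gl b * (a + b).choose a) *
          ((6 * a + 5) * (6 * a + 1) / (6 * (a + 1)) * ((a + b + 1) / (a + 1))) := by ring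
      _ ≤ gl (a + b) * ((6 * (a + b) + 5) * (6 * (a + b) + 1) / (6 * (a + b + 1))) :=
          mul_le_mul ih (glest_step a b) hr (gl_pos _).le
      _ = gl (a + b) * ((6 * ((a + b : ℕ) : ℝ) + 5) * (6 * ((a + b : ℕ) : ℝ) + 1) /
            (6 * (((a + b : ℕ) : ℝ) + 1))) := by push_cast; ring

end GNH
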