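import Pool.Agent.SST.Walk

/-!
# GNH-Htp: calculus of null-homotopic closed walks
`NullHtp c` is `Relation.EqvGen (Closed x ∧ Closed y ∧ Step x y) c []`.  The base point is lost at the empty
list only.  `Hp T u v` is homotopy of walks from `u` to `v` through walks from `u` to `v`.
* `Hp.congr`: `EqvGen` induction; `Step x y → Step (p ++ x ++ q) (p ++ y ++ q)` (associativity),
  `walk_append`.
* `nullHtp_of_hp`: a walk from `v` to `v` is closed; `EqvGen` mono.
* `hp_of_nullHtp`: let `Q x := ∀ v, T.IsWalk v x v → Hp T v v x []`.  If `Step x y`, `Closed x`, `Closed y` then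
  `Q x ↔ Q y`: (→) if `IsWalk v y v` then `IsWalk v x v` (removing a spur `d, a d` or a face boundary
  `d, f d, f (f d)`, which is a closed walk at `tl d`, from a walk; `hd_ff`, `hd_a`, `tl_f`); (←) if
  `IsWalk v x v` and `x = []` there is nothing to prove (`Hp` is reflexive); if `x ≠ []` then `y` is a closed walk
  at `v` (`Closed y` gives some base point `v'`, then `x` is a closed walk at `v'`, `walk_start` gives
  `v' = v`).  Hence `Q` is invariant under `EqvGen`, and `Q []` holds.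
* `htp_rot`: with `l : u → w`, `l' : w → u`: `l' ++ l ~ l' ++ (l ++ l') ++ rev l' ~ l' ++ rev l' ~ []` in `Hp T w w`
  (`rev l' := (l'.map T.a).reverse`; `Hp_rev : Hp T u u (l ++ rev l) []` by induction on `l`).
* `htp_inv`: `rev c ~ rev c ++ c ~ []` (as `c ~ []` and `rev c ++ c ~ []`).
* `htp_cancel`: `u ~ u ++ w ~ []`.   `htp_conj`: `[d] ++ u ++ [a d] ~ [d, a d] ~ []`.
* `htp_spur`: direct: one step.  `closed_spur`: the walk without the spur is closed.
* `htp_face_move`: `u ++ [d] ++ v ~ u ++ [d, a d, f (a d), f (f (a d))] ++ v ~ u ++ [f (a d), f (f (a d))] ++ v`.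
-/

namespace GNH

open SST

variable {D : Type}

/-- Homotopy of walks from `u` to `v`. -/
def Hp (T : Tri D) (u v : T.V) : List D → List D → Prop :=
  Relation.EqvGen fun x y => T.IsWalk u x v ∧ T.IsWalk u y v ∧ T.Step x y

private theorem hq_step {T : Tri D} (p q : List D) {x y : List D} (h : T.Step x y) :
    T.Step (p ++ x ++ q) (p ++ y ++ q) := by
  cases h with
  | spur u v d =>
    have := Tri.Step.spur (T := T) (p ++ u) (v ++ q) d
    simpa only [List.append_assoc] using this
  | face u v d =>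
    have := Tri.Step.face (T := T) (p ++ u) (v ++ q) d
    simpa only [List.append_assoc] using this

/-- removing a spur or the boundary of a face from a walk gives a walk. -/
private theorem hq_walk {T : Tri D} {x y : List D} (h : T.Step x y) {b b' : T.V}
    (hy : T.IsWalk b y b') : T.IsWalk b x b' := by
  cases h with
  | spur u v d =>
    obtain ⟨c, h1, h2⟩ := T.walk_split hy
    obtain ⟨c', h3, h4⟩ := T.walk_split h1
    have h5 : T.tl d = c' := h4.1
    have h6 : T.hd (T.a d) = c := h4.2.2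
    rw [T.hd_a, h5] at h6
    rw [h6] at h3
    exact T.walk_append h3 h2
  | face u v d =>
    obtain ⟨c, h1, h2⟩ := T.walk_split hy
    obtain ⟨c', h3, h4⟩ := T.walk_split h1
    have h5 : T.tl d = c' := h4.1
    have h6 : T.hd (T.f (T.f d)) = c := h4.2.2.2
    rw [T.hd_ff, h5] at h6
    rw [h6] at h3
    exact T.walk_append h3 h2

theorem Hp.congr {T : Tri D} {u v u' v' : T.V} {p q x y : List D} (hp : T.IsWalk u' p u)
    (hq : T.IsWalk v q v') (h : Hp T u v x y) : Hp T u' v' (p ++ x ++ q) (p ++ y ++ q) := by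
  induction h with
  | rel x y h =>
    exact Relation.EqvGen.rel _ _ ⟨T.walk_append (T.walk_append hp h.1) hq,
      T.walk_append (T.walk_append hp h.2.1) hq, hq_step p q h.2.2⟩
  | refl x => exact Relation.EqvGen.refl _
  | symm x y _ ih => exact Relation.EqvGen.symm _ _ ih
  | trans x y z _ _ ih1 ih2 => exact Relation.EqvGen.trans _ _ _ ih1 ih2

theorem nullHtp_of_hp {T : Tri D} {v : T.V} {c : List D} (h : Hp T v v c []) : T.NullHtp c := by
  unfold Hp at h
  unfold Tri.NullHtp
  refine Relation.EqvGen.mono ?_ _ _ h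
  intro x y h
  exact ⟨⟨v, h.1⟩, ⟨v, h.2.1⟩, h.2.2⟩

theorem hp_of_nullHtp {T : Tri D} {v : T.V} {c : List D} (hc : T.IsWalk v c v) (h : T.NullHtp c) :
    Hp T v v c [] := by
  have key : ∀ x y : List D,
      Relation.EqvGen (fun x y => T.Closed x ∧ T.Closed y ∧ T.Step x y) x y →
      ((∀ b, T.IsWalk b x b → Hp T b b x []) ↔ (∀ b, T.IsWalk b y b → Hp T b b y [])) := by
    intro x y hxy
    induction hxy with
    | rel x y h =>
      obtain ⟨_, hy, hs⟩ := h
      constructor
      · intro hx b hb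
        have h1 := hq_walk hs hb
        exact Relation.EqvGen.trans _ _ _
          (Relation.EqvGen.symm _ _ (Relation.EqvGen.rel _ _ ⟨h1, hb, hs⟩)) (hx b h1)
      · intro hyQ b hb
        by_cases hx : x = []
        · subst hx
          exact Relation.EqvGen.refl _
        · obtain ⟨b', hb'⟩ := hy
          have h1 := hq_walk hs hb'
          have h2 : b = b' := by
            cases x with
            | nil => exact absurd rfl hx
            | cons d l => exact hb.1.symm.trans h1.1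
          subst h2
          exact Relation.EqvGen.trans _ _ _ (Relation.EqvGen.rel _ _ ⟨hb, hb', hs⟩) (hyQ b hb')
    | refl x => exact Iff.rfl
    | symm x y _ ih => exact ih.symm
    | trans x y z _ _ ih1 ih2 => exact ih1.trans ih2
  exact (key c [] h).2 (fun _ _ => Relation.EqvGen.refl _) v hc

private theorem hq_spur (T : Tri D) (d : D) : Hp T (T.tl d) (T.tl d) [d, T.a d] [] := by
  refine Relation.EqvGen.symm _ _ (Relation.EqvGen.rel _ _ ⟨rfl, ⟨rfl, rfl, T.hd_a d⟩, ?_⟩)
  exact Tri.Step.spur (T := T) [] [] d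

theorem hp_rev (T : Tri D) {u v : T.V} {l : List D} (h : T.IsWalk u l v) :
    Hp T u u (l ++ (l.map T.a).reverse) [] := by
  induction l generalizing u with
  | nil => exact Relation.EqvGen.refl _
  | cons d l ih =>
    have h1 : T.tl d = u := h.1
    have h2 := ih h.2
    have h3 : T.IsWalk u [d] (T.hd d) := ⟨h1, rfl⟩
    have h4 : T.IsWalk (T.hd d) [T.a d] u := ⟨rfl, (T.hd_a d).trans h1⟩
    have h5 := Hp.congr h3 h4 h2
    have h6 := hq_spur T d
    rw [h1] at h6
    have h7 : d :: l ++ (List.map T.a (d :: l)).reverse =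
        [d] ++ (l ++ (l.map T.a).reverse) ++ [T.a d] := by
      simp
    rw [h7]
    exact Relation.EqvGen.trans _ _ _ h5 h6

theorem htp_rot (T : Tri D) {l l' : List D} (hc : T.Closed (l ++ l')) (h : T.NullHtp (l ++ l')) :
    T.NullHtp (l' ++ l) := by
  obtain ⟨v, hv⟩ := hc
  have h0 := hp_of_nullHtp hv h
  obtain ⟨w, hl, hl'⟩ := T.walk_split hv
  refine nullHtp_of_hp (v := w) ?_
  have hr : T.IsWalk v (l'.map T.a).reverse w := T.walk_rev hl'
  have h1 : Hp T w w (l' ++ l ++ (l' ++ (l'.map T.a).reverse) ++ []) (l' ++ l ++ [] ++ []) :=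
    Hp.congr (T.walk_append hl' hl) (show T.IsWalk w [] w from rfl) (hp_rev T hl')
  have h2 : Hp T w w (l' ++ (l ++ l') ++ (l'.map T.a).reverse) (l' ++ [] ++ (l'.map T.a).reverse) :=
    Hp.congr hl' hr h0
  have h3 := hp_rev T hl'
  simp only [List.append_nil, List.append_assoc] at h1 h2 h3
  exact Relation.EqvGen.trans _ _ _ (Relation.EqvGen.symm _ _ h1) (Relation.EqvGen.trans _ _ _ h2 h3)

theorem htp_inv (T : Tri D) {c : List D} (hc : T.Closed c) (h : T.NullHtp c) :
    T.NullHtp (c.map T.a).reverse := by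
  obtain ⟨v, hv⟩ := hc
  have h0 := hp_of_nullHtp hv h
  refine nullHtp_of_hp (v := v) ?_
  have hr : T.IsWalk v (c.map T.a).reverse v := T.walk_rev hv
  have h1 := hp_rev T hr
  have h2 : ((c.map T.a).reverse.map T.a).reverse = c := by
    rw [List.map_reverse, List.reverse_reverse, List.map_map]
    have : (T.a : D → D) ∘ T.a = id := by
      funext d
      exact T.aa d
    rw [this, List.map_id]
  rw [h2] at h1
  have h3 : Hp T v v ((c.map T.a).reverse ++ c ++ []) ((c.map T.a).reverse ++ [] ++ []) :=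
    Hp.congr hr (show T.IsWalk v [] v from rfl) h0
  simp only [List.append_nil] at h3
  exact Relation.EqvGen.trans _ _ _ (Relation.EqvGen.symm _ _ h3) h1

theorem htp_cancel (T : Tri D) {v : T.V} {u w : List D} (hu : T.IsWalk v u v) (hw : T.IsWalk v w v)
    (h : T.NullHtp (u ++ w)) (h' : T.NullHtp w) : T.NullHtp u := by
  have h0 := hp_of_nullHtp (T.walk_append hu hw) h
  have h1 := hp_of_nullHtp hw h'
  refine nullHtp_of_hp (v := v) ?_
  have h3 : Hp T v v (u ++ w ++ []) (u ++ [] ++ []) :=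
    Hp.congr hu (show T.IsWalk v [] v from rfl) h1
  simp only [List.append_nil] at h3
  exact Relation.EqvGen.trans _ _ _ (Relation.EqvGen.symm _ _ h3) h0

theorem htp_conj (T : Tri D) {d : D} {u : List D} (hu : T.IsWalk (T.hd d) u (T.hd d))
    (h : T.NullHtp u) : T.NullHtp ([d] ++ u ++ [T.a d]) := by
  have h0 := hp_of_nullHtp hu h
  have h3 : T.IsWalk (T.tl d) [d] (T.hd d) := ⟨rfl, rfl⟩
  have h4 : T.IsWalk (T.hd d) [T.a d] (T.tl d) := ⟨rfl, T.hd_a d⟩
  exact nullHtp_of_hp (v := T.tl d) (Relation.EqvGen.trans _ _ _ (Hp.congr h3 h4 h0) (hq_spur T d))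

theorem closed_spur (T : Tri D) {u v : List D} {d : D} (hc : T.Closed (u ++ [d, T.a d] ++ v)) :
    T.Closed (u ++ v) := by
  obtain ⟨b, hb⟩ := hc
  exact ⟨b, hq_walk (Tri.Step.spur (T := T) u v d) hb⟩

theorem htp_spur (T : Tri D) {u v : List D} {d : D} (hc : T.Closed (u ++ [d, T.a d] ++ v))
    (h : T.NullHtp (u ++ v)) : T.NullHtp (u ++ [d, T.a d] ++ v) :=
  Relation.EqvGen.trans _ _ _ (Relation.EqvGen.symm _ _ (Relation.EqvGen.rel _ _
    ⟨closed_spur T hc, hc, Tri.Step.spur (T := T) u v d⟩)) h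

theorem htp_face_move (T : Tri D) {u v : List D} {d : D} (hc : T.Closed (u ++ [d] ++ v))
    (h : T.NullHtp (u ++ [d] ++ v)) :
    T.Closed (u ++ [T.f (T.a d), T.f (T.f (T.a d))] ++ v) ∧
      T.NullHtp (u ++ [T.f (T.a d), T.f (T.f (T.a d))] ++ v) := by
  obtain ⟨b, hb⟩ := id hc
  obtain ⟨c1, h1, h2⟩ := T.walk_split hb
  have hface : T.IsWalk (T.hd d) [T.a d, T.f (T.a d), T.f (T.f (T.a d))] (T.hd d) :=
    ⟨rfl, T.tl_f _, T.tl_f _, T.hd_ff _⟩
  have hc1 : T.hd d = c1 := by
    obtain ⟨c2, h3, h4⟩ := T.walk_split h1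
    exact h4.2
  subst hc1
  have hy : T.IsWalk b (u ++ [d] ++ [T.a d, T.f (T.a d), T.f (T.f (T.a d))] ++ v) b :=
    T.walk_append (T.walk_append h1 hface) h2
  have hs1 := Tri.Step.face (T := T) (u ++ [d]) v (T.a d)
  have hs2 := Tri.Step.spur (T := T) u ([T.f (T.a d), T.f (T.f (T.a d))] ++ v) d
  have e1 : u ++ [d] ++ [T.a d, T.f (T.a d), T.f (T.f (T.a d))] ++ v =
      u ++ [d, T.a d] ++ ([T.f (T.a d), T.f (T.f (T.a d))] ++ v) := by
    simp
  rw [← e1, ← List.append_assoc] at hs2
  have hz : T.IsWalk b (u ++ [T.f (T.a d), T.f (T.f (T.a d))] ++ v) b := hq_walk hs2 hy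
  refine ⟨⟨b, hz⟩, ?_⟩
  exact Relation.EqvGen.trans _ _ _ (Relation.EqvGen.rel _ _ ⟨⟨b, hz⟩, ⟨b, hy⟩, hs2⟩)
    (Relation.EqvGen.trans _ _ _ (Relation.EqvGen.symm _ _
      (Relation.EqvGen.rel _ _ ⟨hc, ⟨b, hy⟩, hs1⟩)) h)

end GNH
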