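import Pool.Agent.GNH.WDim
import Pool.Agent.GNH.CocDim

/-!
# GNH-Indep: two short closed walks at one vertex with independent periods on cocycles
If there are none, every vertex `v` has a closed walk `w v` of length `≤ 2 k` (or `[]`) such that every
`x ∈ Co T` with `per x (w v) = 0` has period 0 along all closed walks at `v` of length `≤ 2 k`
(`exists_w`).  So the kernel of `x ↦ (v ↦ per x (w v))` on `Co T` is contained in `Wk T k`, and
`n + 1 ≤ finrank (Co T) ≤ card V + finrank (Wk T k) ≤ (δ + 1) card V ≤ n`, a contradiction.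
-/

namespace GNH

open SST Classical

variable {D : Type} [Fintype D]

private theorem exists_w (T : Tri D) (k : ℕ) (v : T.V)
    (h : ∀ (α β : List D) (x y : D → ℝ), T.IsWalk v α v → T.IsWalk v β v →
      α.length ≤ 2 * k → β.length ≤ 2 * k → T.IsCoc x → T.IsCoc y →
      per x α * per y β - per x β * per y α = 0) :
    ∃ w : List D, ∀ x, T.IsCoc x → per x w = 0 → ∀ α, T.IsWalk v α v → α.length ≤ 2 * k → per x α = 0 := by
  by_cases h0 : ∀ x, T.IsCoc x → ∀ α, T.IsWalk v α v → α.length ≤ 2 * k → per x α = 0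
  · exact ⟨[], fun x hx _ => h0 x hx⟩
  · push Not at h0
    obtain ⟨x₀, hx₀, α₀, hα₀, hl₀, hne⟩ := h0
    refine ⟨α₀, fun x hx hw α hα hl => ?_⟩
    have h1 := h α₀ α x₀ x hα₀ hα hl₀ hl hx₀ hx
    rw [hw, mul_zero, sub_zero] at h1
    exact (mul_eq_zero.1 h1).resolve_left hne

theorem exists_indep (T : Tri D) [Nonempty D] {n δ k : ℕ} (hD : Fintype.card D = 6 * n) (hδ : 1 ≤ δ)
    (hV : Nat.card T.V < δ ^ k) (hn : (δ + 1) * Nat.card T.V ≤ n) :
    ∃ (v : T.V) (α β : List D) (x y : D → ℝ), T.IsWalk v α v ∧ T.IsWalk v β v ∧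
      α.length ≤ 2 * k ∧ β.length ≤ 2 * k ∧ T.IsCoc x ∧ T.IsCoc y ∧
      per x α * per y β - per x β * per y α ≠ 0 := by
  by_contra hcon
  push Not at hcon
  haveI : Finite T.V := Quotient.finite _
  letI : Fintype T.V := Fintype.ofFinite _
  have hw : ∀ v : T.V, ∃ w : List D, ∀ x, T.IsCoc x → per x w = 0 →
      ∀ α, T.IsWalk v α v → α.length ≤ 2 * k → per x α = 0 := fun v =>
    exists_w T k v fun α β x y h1 h2 h3 h4 h5 h6 => hcon v α β x y h1 h2 h3 h4 h5 h6
  choose w hw using hw
  let Φ : Co T →ₗ[ℝ] (T.V → ℝ) :=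
    { toFun := fun x v => per x.1 (w v)
      map_add' := fun x y => by
        funext v
        exact per_add x.1 y.1 (w v)
      map_smul' := fun s x => by
        funext v
        exact per_smul s x.1 (w v) }
  have hker : ∀ x ∈ LinearMap.ker Φ, (x : D → ℝ) ∈ Wk T k := by
    intro x hx
    have h1 : ∀ v, per x.1 (w v) = 0 := fun v => congrFun (LinearMap.mem_ker.1 hx) v
    refine ⟨x.2.1, fun c hc hl => ?_⟩
    obtain ⟨v, hv⟩ := hc
    exact hw v x.1 ((mem_Co T x.1).1 x.2) (h1 v) c hv hl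
  let Ψ : LinearMap.ker Φ →ₗ[ℝ] Wk T k :=
    { toFun := fun x => ⟨(x : Co T), hker x.1 x.2⟩
      map_add' := fun x y => rfl
      map_smul' := fun s x => rfl }
  have hΨ : Function.Injective Ψ := by
    intro x y h
    have h1 : ((x : Co T) : D → ℝ) = ((y : Co T) : D → ℝ) :=
      congrArg (fun z : Wk T k => (z : D → ℝ)) h
    exact Subtype.ext (Subtype.ext h1)
  have h1 := LinearMap.finrank_le_finrank_of_injective hΨ
  have h2 := finrank_Wk T hδ hV
  have h3 := finrank_Co T hD
  have h4 := LinearMap.finrank_range_add_finrank_ker Φ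
  have h5 : Module.finrank ℝ (LinearMap.range Φ) ≤ Nat.card T.V := by
    refine (Submodule.finrank_le _).trans ?_
    rw [Module.finrank_fintype_fun_eq_card, Nat.card_eq_fintype_card]
  have h6 : (δ + 1) * Nat.card T.V = δ * Nat.card T.V + Nat.card T.V := by ring
  omega

end GNH
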