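import Pool.Agent.GNH.CapTwo

/-!
# GNH-Inj: the triangulation is determined by its two capped sides
From `cap h = cap h'`: `c i = c' i` (`(cap h).a (inr (i,0)) = inl ⟨c i, _⟩`); `T.f = T'.f` on `A` (`(cap h).f (inl d)`); for
`d ∈ A`: if `T.a d ∈ A` then `(cap h).a (inl d) = inl (T.a d)`, so `(cap h').a (inl d)` is an `inl`, so `T'.a d ∈ A` (otherwise
`capA_out`) and equal.  If `T.a d ∉ A`: `d = c i = c' i`; `T.a (c i) = rc T c i.rev`, and from the second equation (first claim for the complement)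
`rc T c = rc T' c'`: so `T.a d = T'.a d`.  For `d ∉ A`: the same with `h.compl`, `h'.compl`; if `T.a d ∈ A` then `d = T.a (c i)` and
`T.a d = c i = c' i`, and `d = rc T c i.rev = rc T' c' i.rev = T'.a (c' i)`, `T'.a d = c' i`.
-/

namespace GNH

open SST Classical

variable {D : Type} [Fintype D] {ℓ : ℕ}

private theorem cap_a_eq {T T' : Tri D} {A : Finset D} {c c' : Fin ℓ → D} (h : Cut T A c)
    (h' : Cut T' A c') (e1 : cap h = cap h') (x : {d // d ∈ A} ⊕ Fin ℓ × Fin 3) :
    capA h x = capA h' x := by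
  rw [← cap_a, ← cap_a, e1]

private theorem cap_f_eq {T T' : Tri D} {A : Finset D} {c c' : Fin ℓ → D} (h : Cut T A c)
    (h' : Cut T' A c') (e1 : cap h = cap h') {d : D} (hd : d ∈ A) : T.f d = T'.f d := by
  have h1 : capF h (Sum.inl ⟨d, hd⟩) = capF h' (Sum.inl ⟨d, hd⟩) := by
    rw [← cap_f, ← cap_f, e1]
  exact congrArg Subtype.val (Sum.inl_injective h1)

private theorem cap_c_eq {T T' : Tri D} {A : Finset D} {c c' : Fin ℓ → D} (h : Cut T A c)
    (h' : Cut T' A c') (e1 : cap h = cap h') (i : Fin ℓ) : c i = c' i := by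
  have h1 := cap_a_eq h h' e1 (Sum.inr (i, 0))
  rw [capA_zero, capA_zero] at h1
  exact congrArg Subtype.val (Sum.inl_injective h1)

private theorem cap_in_eq {T T' : Tri D} {A : Finset D} {c c' : Fin ℓ → D} (h : Cut T A c)
    (h' : Cut T' A c') (e1 : cap h = cap h') {d : D} (hd : d ∈ A) (hT : T.a d ∈ A) :
    T.a d = T'.a d := by
  have h1 := cap_a_eq h h' e1 (Sum.inl ⟨d, hd⟩)
  rw [capA_in h hd hT] at h1
  by_cases hT' : T'.a d ∈ A
  · rw [capA_in h' hd hT'] at h1
    exact congrArg Subtype.val (Sum.inl_injective h1)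
  · obtain ⟨i, -, hi⟩ := capA_out h' hd hT'
    rw [hi] at h1
    exact absurd h1 Sum.inl_ne_inr

theorem cap_inj {T T' : Tri D} {A : Finset D} {c c' : Fin ℓ → D} (h : Cut T A c) (h' : Cut T' A c')
    (e1 : cap h = cap h') (e2 : cap h.compl = cap h'.compl) : T = T' ∧ c = c' := by
  have hc : ∀ i, c i = c' i := cap_c_eq h h' e1
  have hr : ∀ i, rc T c i = rc T' c' i := cap_c_eq h.compl h'.compl e2
  have hac : ∀ i, T.a (c i) = T'.a (c' i) := by
    intro i
    have h1 : T.a (c i.rev.rev) = T'.a (c' i.rev.rev) := hr i.rev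
    rw [Fin.rev_rev] at h1
    exact h1
  have ha : ∀ d, T.a d = T'.a d := by
    intro d
    by_cases hd : d ∈ A
    · by_cases hT : T.a d ∈ A
      · exact cap_in_eq h h' e1 hd hT
      · obtain ⟨i, hi⟩ := (h.bd d).1 ⟨hd, hT⟩
        have h1 := hac i
        rw [← hc i, hi] at h1
        exact h1
    · have hd' : d ∈ Aᶜ := Finset.mem_compl.2 hd
      by_cases hT : T.a d ∈ Aᶜ
      · exact cap_in_eq h.compl h'.compl e2 hd' hT
      · obtain ⟨i, hi⟩ := (h.compl.bd d).1 ⟨hd', hT⟩
        have h1 : T.a d = c i.rev := by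
          rw [← hi]
          show T.a (T.a (c i.rev)) = c i.rev
          rw [T.aa]
        have h2 : T'.a d = c' i.rev := by
          rw [← hi, hr i]
          show T'.a (T'.a (c' i.rev)) = c' i.rev
          rw [T'.aa]
        rw [h1, h2, hc]
  have hf : ∀ d, T.f d = T'.f d := by
    intro d
    by_cases hd : d ∈ A
    · exact cap_f_eq h h' e1 hd
    · exact cap_f_eq h.compl h'.compl e2 (Finset.mem_compl.2 hd)
  exact ⟨Tri.ext' (Equiv.ext ha) (Equiv.ext hf), funext hc⟩

end GNH
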