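import Pool.Agent.GNH.Mv
import Pool.Agent.SST.S.SplitInj
import Pool.Agent.SST.S.SplitCard
import Pool.Agent.SST.S.SplitConn
import Pool.Agent.SST.S.Transfer
import Pool.Agent.SST.S.TailStep

/-!
# GNH-SplitIneq: splitting vertices
`n (6n - V) mv n V ≤ V (n+1) mv (n+1) (V+1)`.
PROOF.  Let `A := {(T, p, c) : T connected with V vertices, c ≠ p, tl c = tl p}`.  `transfer_ncard` with `X = Fin (6n)`, `E = Fin 6`,
`Y = Fin (6 (n+1))`: `Φ e (T, p, c) = ((T.split p c).map e, e (inl p))`, `ι (U, b) i = newD U b i` (the new darts are read off from the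
marked dart, see `SST/S/Split` `newD` and its lemmas, and the model `SST/S/TailStep`), injective: `split_inj` and
`map_inj`; values in `{(U, b) : U connected with V + 1 vertices}` (`split_conn`, `split_card_V`).  So
`A.ncard / (6n)! ≤ 6 (n+1) mv (n+1) (V+1)`.
For fixed `T` the number of `(p, c)` is `∑_v deg v ^ 2 - 6 n ≥ (6n)^2 / V - 6 n` (Cauchy-Schwarz over the `V` vertices, `∑ deg = 6 n`:
`inner_mul_le_norm_mul_norm` / `Finset.sum_mul_sq_le_sq_mul_sq` / `sq_sum_le_card_mul_sum_sq`).  So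
`(36 n^2 / V - 6 n) mv n V ≤ 6 (n+1) mv (n+1) (V+1)`.
-/

namespace GNH

open SST

open Classical in
private theorem cs_pairs {α κ : Type} (B : Finset α) (c : α → κ) {v : ℕ}
    (hc : (B.image c).card ≤ v) :
    (B.card : ℝ) ^ 2 ≤
      v * (((B.offDiag.filter fun q => c q.1 = c q.2).card : ℝ) + B.card) := by
  set K := B.image c with hK
  set E := (B ×ˢ B).filter fun q => c q.1 = c q.2 with hE
  have hmaps : ∀ q ∈ E, c q.1 ∈ K := by
    intro q hq
    rw [hE, Finset.mem_filter, Finset.mem_product] at hq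
    exact Finset.mem_image_of_mem c hq.1.1
  have h1 : E.card = ∑ k ∈ K, (B.filter fun a => c a = k).card ^ 2 := by
    rw [Finset.card_eq_sum_card_fiberwise (f := fun q : α × α => c q.1) (t := K) hmaps]
    refine Finset.sum_congr rfl fun k _ => ?_
    rw [pow_two, ← Finset.card_product]
    congr 1
    ext q
    rw [hE]
    simp only [Finset.mem_filter, Finset.mem_product]
    constructor
    · rintro ⟨⟨⟨h1, h2⟩, h3⟩, h4⟩
      exact ⟨⟨h1, h4⟩, ⟨h2, h3 ▸ h4⟩⟩
    · rintro ⟨⟨h1, h2⟩, ⟨h3, h4⟩⟩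
      exact ⟨⟨⟨h1, h3⟩, h2.trans h4.symm⟩, h2⟩
  have h2 : B.card = ∑ k ∈ K, (B.filter fun a => c a = k).card :=
    Finset.card_eq_sum_card_fiberwise (f := c) fun a ha => Finset.mem_image_of_mem c ha
  have h3 : (B.card : ℝ) ^ 2 ≤ K.card * (E.card : ℝ) := by
    rw [h1, h2]
    push_cast
    exact sq_sum_le_card_mul_sum_sq
  have h4 : E.card = (B.offDiag.filter fun q => c q.1 = c q.2).card + B.card := by
    rw [hE, ← Finset.diag_union_offDiag, Finset.filter_union, Finset.card_union_of_disjoint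
      (Finset.disjoint_filter_filter (Finset.disjoint_diag_offDiag B))]
    have h5 : B.diag.filter (fun q => c q.1 = c q.2) = B.diag := by
      rw [Finset.filter_eq_self]
      intro q hq
      rw [(Finset.mem_diag.1 hq).2]
    rw [h5, Finset.diag_card, add_comm]
  have h5 : (E.card : ℝ) = ((B.offDiag.filter fun q => c q.1 = c q.2).card : ℝ) + B.card := by
    exact_mod_cast h4
  rw [← h5]
  have h6 : (K.card : ℝ) ≤ v := by exact_mod_cast hc
  exact h3.trans (mul_le_mul_of_nonneg_right h6 (Nat.cast_nonneg _))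

open Classical in
/-- ordered pairs of different darts with the same tail -/
private noncomputable def off {n : ℕ} (T : Tri (Fin (6 * n))) :
    Finset (Fin (6 * n) × Fin (6 * n)) :=
  (Finset.univ : Finset (Fin (6 * n))).offDiag.filter fun q => T.tl q.1 = T.tl q.2

private theorem off_card {n : ℕ} (T : Tri (Fin (6 * n))) :
    (6 * n : ℝ) ^ 2 ≤ Nat.card T.V * ((off T).card + 6 * n) := by
  classical
  have hfin : Finite T.V := by
    unfold Tri.V
    infer_instance
  have : Fintype T.V := Fintype.ofFinite _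
  have h1 : ((Finset.univ : Finset (Fin (6 * n))).image T.tl).card ≤ Nat.card T.V := by
    rw [Nat.card_eq_fintype_card]
    exact Finset.card_le_univ _
  have h2 := cs_pairs (Finset.univ : Finset (Fin (6 * n))) T.tl h1
  rw [Finset.card_univ, Fintype.card_fin] at h2
  push_cast at h2
  exact h2

theorem mv_split {n V : ℕ} (hn : 1 ≤ n) (hV : 1 ≤ V) :
    (n : ℝ) * (6 * n - V) * mv n V ≤ V * (n + 1) * mv (n + 1) (V + 1) := by
  classical
  set M : Set (Tri (Fin (6 * n))) := {T | T.Conn ∧ Nat.card T.V = V} with hM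
  set M' : Set (Tri (Fin (6 * (n + 1)))) := {T | T.Conn ∧ Nat.card T.V = V + 1} with hM'
  set P : Set ((Tri (Fin (6 * n)) × Fin (6 * n)) × Fin (6 * n)) :=
    {x | x.1.1 ∈ M ∧ x.2 ≠ x.1.2 ∧ x.1.1.tl x.2 = x.1.1.tl x.1.2} with hP
  have key := transfer_ncard (X := Fin (6 * n)) (E := Fin 6) (Y := Fin (6 * (n + 1)))
    (A := (Tri (Fin (6 * n)) × Fin (6 * n)) × Fin (6 * n))
    (B := Tri (Fin (6 * (n + 1))) × Fin (6 * (n + 1)))
    (by simp only [Fintype.card_fin]; ring)
    P (M' ×ˢ (Set.univ : Set (Fin (6 * (n + 1)))))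
    (fun e x => ((x.1.1.split x.1.2 x.2).map e, e (Sum.inl x.1.2)))
    (fun y => Tri.newD y.1 y.2) (by
      rintro e ⟨⟨T, p⟩, c⟩ hx k
      obtain ⟨-, hne, -⟩ := hx
      show e (Sum.inr k) = Tri.newD ((T.split p c).map e) (e (Sum.inl p)) k
      rw [Tri.newD_map, Tri.newD_split T hne]) (by
      rintro e ⟨⟨T, p⟩, c⟩ hx ⟨⟨T', p'⟩, c'⟩ hx' he
      obtain ⟨-, hne, -⟩ := hx
      obtain ⟨-, hne', -⟩ := hx'
      have he1 := (Prod.mk.inj he).1
      have he2 := (Prod.mk.inj he).2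
      have hp : p = p' := Sum.inl_injective (e.injective he2)
      subst hp
      obtain ⟨h3, h4⟩ := Tri.split_inj T T' hne hne' (Tri.map_inj _ _ e he1)
      have h5 : c = c' := h4
      rw [h3, h5]) (by
      rintro e ⟨⟨T, p⟩, c⟩ hx
      obtain ⟨⟨hc, hv⟩, hne, htl⟩ := hx
      refine ⟨⟨(Tri.map_conn _ e).2 (T.split_conn hne hc), ?_⟩, Set.mem_univ _⟩
      show Nat.card ((T.split p c).map e).V = V + 1
      rw [Tri.map_V, T.split_card_V hne htl, hv])
  rw [Set.ncard_prod, Set.ncard_univ, Nat.card_eq_fintype_card, Fintype.card_fin,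
    Fintype.card_fin] at key
  -- the number of the marked triangulations
  have : Fintype (Tri (Fin (6 * n))) := Fintype.ofFinite _
  have hMf : M.toFinset.card = M.ncard := by
    rw [Set.ncard_eq_toFinset_card']
  have h1 : ∑ T ∈ M.toFinset, (off T).card ≤ P.ncard := by
    rw [← Finset.card_sigma, ← Set.ncard_coe_finset]
    refine Set.ncard_le_ncard_of_injOn
      (fun x : (_ : Tri (Fin (6 * n))) × (Fin (6 * n) × Fin (6 * n)) =>
        (((x.1, x.2.1), x.2.2) : (Tri (Fin (6 * n)) × Fin (6 * n)) × Fin (6 * n))) ?_ ?_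
      (Set.toFinite _)
    · rintro ⟨T, p, c⟩ hx
      rw [Finset.mem_coe, Finset.mem_sigma] at hx
      obtain ⟨hT, hpc⟩ := hx
      unfold off at hpc
      rw [Finset.mem_filter, Finset.mem_offDiag] at hpc
      exact ⟨Set.mem_toFinset.1 hT, hpc.1.2.2.symm, hpc.2.symm⟩
    · rintro ⟨T, p, c⟩ _ ⟨T', p', c'⟩ _ he
      have h2 := Prod.mk.inj he
      have h3 := Prod.mk.inj h2.1
      obtain ⟨rfl, rfl⟩ := h3
      obtain rfl := h2.2
      rfl
  have h2 : (M.ncard : ℝ) * ((6 * n : ℝ) ^ 2 - V * (6 * n)) ≤ V * P.ncard := by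
    have h3 : ∀ T ∈ M.toFinset, (6 * n : ℝ) ^ 2 - V * (6 * n) ≤ V * (off T).card := by
      intro T hT
      have h4 := off_card T
      have h5 : Nat.card T.V = V := (Set.mem_toFinset.1 hT).2
      rw [h5] at h4
      linarith
    have h4 := Finset.sum_le_sum h3
    rw [Finset.sum_const, nsmul_eq_mul, hMf, ← Finset.mul_sum] at h4
    refine h4.trans (mul_le_mul_of_nonneg_left ?_ (Nat.cast_nonneg V))
    exact_mod_cast h1
  have hf1 : (0 : ℝ) < ((6 * n).factorial : ℝ) := by exact_mod_cast Nat.factorial_pos _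
  have hf2 : (0 : ℝ) < ((6 * (n + 1)).factorial : ℝ) := by exact_mod_cast Nat.factorial_pos _
  have h3 : (P.ncard : ℝ) * ((6 * (n + 1)).factorial : ℝ) ≤
      M'.ncard * (6 * (n + 1)) * ((6 * n).factorial : ℝ) := by exact_mod_cast key
  have h4 : (P.ncard : ℝ) / ((6 * n).factorial : ℝ) ≤
      M'.ncard * (6 * (n + 1)) / ((6 * (n + 1)).factorial : ℝ) := by
    rw [div_le_div_iff₀ hf1 hf2]
    exact h3
  have h5 : (M.ncard : ℝ) * ((6 * n : ℝ) ^ 2 - V * (6 * n)) / ((6 * n).factorial : ℝ) ≤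
      V * (M'.ncard * (6 * (n + 1)) / ((6 * (n + 1)).factorial : ℝ)) := by
    refine (div_le_div_of_nonneg_right h2 hf1.le).trans ?_
    rw [mul_div_assoc]
    exact mul_le_mul_of_nonneg_left h4 (Nat.cast_nonneg V)
  have e1 : mv n V = (M.ncard : ℝ) / ((6 * n).factorial : ℝ) := rfl
  have e2 : mv (n + 1) (V + 1) = (M'.ncard : ℝ) / ((6 * (n + 1)).factorial : ℝ) := rfl
  have e3 : (M.ncard : ℝ) * ((6 * n : ℝ) ^ 2 - V * (6 * n)) / ((6 * n).factorial : ℝ) =
      6 * ((n : ℝ) * (6 * n - V) * mv n V) := by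
    rw [e1]
    ring
  have e4 : V * (M'.ncard * (6 * ((n : ℝ) + 1)) / ((6 * (n + 1)).factorial : ℝ)) =
      6 * (V * (n + 1) * mv (n + 1) (V + 1)) := by
    rw [e2]
    ring
  rw [e3, e4] at h5
  linarith

end GNH
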