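import Pool.Agent.GNH.Few
import Pool.Agent.GNH.SplitIneq

/-!
# GNH-Low: lower bound for `mv`
`n = V + p`, `p` even, `p ≥ p₀`, `V ≥ 1`.  `few` gives `V₀` with `1 ≤ V₀ ≤ C₀ √p`, `gl p ≤ 4 C₀ p mv p V₀`.  `V₀` is even: `mv p V₀ > 0` (`gl_pos`), so
`p + V₀` is even by `mv_parity`.  `i := V₀/2`, `j := V + i`.
(1) for `1 ≤ W ≤ m`: `mv m W ≤ mv (m+1) (W+1)`: `mv_split`: `m (6m - W) mv m W ≤ W (m+1) mv (m+1) (W+1)`, `m (6m - W) ≥ 5 m W ≥ W (m+1)`... (`m (6m-W) ≥ 5 m^2 ≥ 5 m W`,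
`5 m W ≥ (m+1) W`).  So `mv p V₀ ≤ mv (p+j) (V₀+j)` (`V₀ ≤ p` for `p ≥ p₀`).
(2) `mv_ineq` (drop the first term): for `m, W ≥ 1`, as `(W+3).choose 4 ≥ 1`: `mv (m+1) (W+3) ≤ 6 m (3m+2) mv m W ≤ 30 m^2 mv m W`.  Apply it `i` times from
`(p+j, V₀+j) = (n + i, V + 3 i)` down to `(n, V)`: `n + i ≤ 2 n`, so `mv (n+i) (V+3i) ≤ (120 n^2)^i mv n V`.
(3) `gl p ≤ 4 C₀ p (120 n^2)^i mv n V ≤ exp (C √n log n) mv n V` for `n ≥ 2`: `log (120 n^2) ≤ 9 log n` (`n ≥ 2`: `log 120 < 7 log 2`),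
`i ≤ C₀ √n / 2`, `log (4 C₀ n) ≤ C' √n log n`.
-/

namespace GNH

private theorem gl_pos' (n : ℕ) : 0 < gl n := by
  rw [gl_formula]
  positivity

private theorem step_one {m W : ℕ} (hW : 1 ≤ W) (h : W ≤ m) : mv m W ≤ mv (m + 1) (W + 1) := by
  have hm : 1 ≤ m := hW.trans h
  have hs := mv_split hm hW
  have hW' : (1 : ℝ) ≤ W := by exact_mod_cast hW
  have hm' : (1 : ℝ) ≤ m := by exact_mod_cast hm
  have h' : (W : ℝ) ≤ m := by exact_mod_cast h
  have hmv := mv_nonneg m W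
  have h1 : (W : ℝ) * (m + 1) ≤ m * (6 * m - W) := by nlinarith
  have h2 : (W : ℝ) * (m + 1) * mv m W ≤ W * (m + 1) * mv (m + 1) (W + 1) :=
    (mul_le_mul_of_nonneg_right h1 hmv).trans hs
  have h3 : (0 : ℝ) < W * (m + 1) := by positivity
  exact le_of_mul_le_mul_left h2 h3

private theorem iter_one {m W : ℕ} (hW : 1 ≤ W) (h : W ≤ m) (t : ℕ) :
    mv m W ≤ mv (m + t) (W + t) := by
  induction t with
  | zero => simp
  | succ t ih =>
    refine ih.trans ?_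
    have := step_one (m := m + t) (W := W + t) (by omega) (by omega)
    exact this

private theorem step_two {m W : ℕ} (hm : 1 ≤ m) (hW : 1 ≤ W) :
    mv (m + 1) (W + 3) ≤ 30 * (m : ℝ) ^ 2 * mv m W := by
  have h := mv_ineq hm hW
  have hm' : (1 : ℝ) ≤ m := by exact_mod_cast hm
  have h1 : (1 : ℝ) ≤ ((W + 3).choose 4 : ℝ) := by
    have : 0 < (W + 3).choose 4 := Nat.choose_pos (by omega)
    exact_mod_cast this
  have h2 := mv_nonneg (m + 1) (W + 1)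
  have h3 := mv_nonneg (m + 1) (W + 3)
  have h4 := mv_nonneg m W
  have h5 : (0 : ℝ) ≤ ((W + 1).choose 2 : ℝ) * mv (m + 1) (W + 1) := by positivity
  have h6 : mv (m + 1) (W + 3) ≤ ((W + 3).choose 4 : ℝ) * mv (m + 1) (W + 3) := by
    nlinarith
  have h7 : 6 * (m : ℝ) * (3 * m + 2) * mv m W ≤ 30 * (m : ℝ) ^ 2 * mv m W := by
    apply mul_le_mul_of_nonneg_right _ h4
    nlinarith
  linarith

private theorem iter_two {n V : ℕ} (hn : 1 ≤ n) (hV : 1 ≤ V) (N : ℝ) (t : ℕ)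
    (hN : (n : ℝ) + t ≤ N) :
    mv (n + t) (V + 3 * t) ≤ (30 * N ^ 2) ^ t * mv n V := by
  induction t with
  | zero => simp
  | succ t ih =>
    have hN' : (n : ℝ) + t ≤ N := by
      push_cast at hN
      linarith
    have h1 := step_two (m := n + t) (W := V + 3 * t) (by omega) (by omega)
    have h2 := ih hN'
    have e1 : n + (t + 1) = n + t + 1 := by ring
    have e2 : V + 3 * (t + 1) = V + 3 * t + 3 := by ring
    rw [e1, e2, pow_succ]
    refine h1.trans ?_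
    have h3 : ((n + t : ℕ) : ℝ) ^ 2 ≤ N ^ 2 := by
      apply pow_le_pow_left₀ (by positivity)
      push_cast
      exact hN'
    have h4 := mv_nonneg (n + t) (V + 3 * t)
    calc 30 * ((n + t : ℕ) : ℝ) ^ 2 * mv (n + t) (V + 3 * t)
        ≤ 30 * N ^ 2 * mv (n + t) (V + 3 * t) := by
          apply mul_le_mul_of_nonneg_right _ h4
          linarith
      _ ≤ 30 * N ^ 2 * ((30 * N ^ 2) ^ t * mv n V) := by
          apply mul_le_mul_of_nonneg_left h2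
          positivity
      _ = (30 * N ^ 2) ^ t * (30 * N ^ 2) * mv n V := by ring

theorem mv_low : ∃ (C : ℝ) (p₀ : ℕ), 0 < C ∧ 2 ≤ p₀ ∧ ∀ n V p : ℕ, n = V + p → Even p → p₀ ≤ p → 1 ≤ V →
    gl p ≤ Real.exp (C * Real.sqrt n * Real.log n) * mv n V := by
  obtain ⟨C₀, q₀, hC₀, hfew⟩ := few
  refine ⟨2 + 5 * C₀, max (max q₀ 2) (max ⌈C₀ ^ 2⌉₊ ⌈4 * C₀⌉₊), by linarith,
    (le_max_right q₀ 2).trans (le_max_left _ _), ?_⟩
  intro n V p hn hp hp0 hV
  have hq0 : q₀ ≤ p := ((le_max_left q₀ 2).trans (le_max_left _ _)).trans hp0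
  have hp2 : 2 ≤ p := ((le_max_right q₀ 2).trans (le_max_left _ _)).trans hp0
  have hc2 : C₀ ^ 2 ≤ p := by
    have h1 : ⌈C₀ ^ 2⌉₊ ≤ p := ((le_max_left _ _).trans (le_max_right _ _)).trans hp0
    exact (Nat.le_ceil _).trans (by exact_mod_cast h1)
  have hc4 : 4 * C₀ ≤ p := by
    have h1 : ⌈4 * C₀⌉₊ ≤ p := ((le_max_right _ _).trans (le_max_right _ _)).trans hp0
    exact (Nat.le_ceil _).trans (by exact_mod_cast h1)
  obtain ⟨V₀, hV1, hV2, hgl⟩ := hfew p hq0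
  have hp2' : (2 : ℝ) ≤ p := by exact_mod_cast hp2
  have hsq : Real.sqrt p ^ 2 = p := Real.sq_sqrt (by linarith)
  have hsq0 : 0 ≤ Real.sqrt p := Real.sqrt_nonneg _
  -- V₀ ≤ p
  have hVp : V₀ ≤ p := by
    have h1 : C₀ ≤ Real.sqrt p := Real.le_sqrt_of_sq_le hc2
    have h2 : (V₀ : ℝ) ≤ p := by
      calc (V₀ : ℝ) ≤ C₀ * Real.sqrt p := hV2
        _ ≤ Real.sqrt p * Real.sqrt p := mul_le_mul_of_nonneg_right h1 hsq0
        _ = p := by rw [← sq, hsq]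
    exact_mod_cast h2
  -- V₀ even
  have hmvpos : 0 < mv p V₀ := by
    by_contra h
    have h0 : mv p V₀ = 0 := le_antisymm (not_lt.1 h) (mv_nonneg _ _)
    rw [h0, mul_zero] at hgl
    exact absurd (gl_pos' p) (not_lt.2 hgl)
  have heven : Even (p + V₀) := by
    by_contra h
    rw [mv_parity h] at hmvpos
    exact lt_irrefl _ hmvpos
  have hV0e : Even V₀ := (Nat.even_add.1 heven).1 hp
  obtain ⟨i, hi⟩ := hV0e
  have hpn : p ≤ n := by omega
  have hn1 : 1 ≤ n := by omega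
  have hn2 : (2 : ℝ) ≤ n := by
    have : 2 ≤ n := by omega
    exact_mod_cast this
  have hpn' : (p : ℝ) ≤ n := by exact_mod_cast hpn
  have hi2 : (i : ℝ) ≤ C₀ * Real.sqrt n / 2 := by
    have h1 : (V₀ : ℝ) = i + i := by exact_mod_cast hi
    have h2 : Real.sqrt p ≤ Real.sqrt n := Real.sqrt_le_sqrt hpn'
    have h3 : C₀ * Real.sqrt p ≤ C₀ * Real.sqrt n := mul_le_mul_of_nonneg_left h2 (by linarith)
    linarith
  -- chain
  have hA : mv p V₀ ≤ mv (n + i) (V + 3 * i) := by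
    have h := iter_one hV1 hVp (V + i)
    have e1 : p + (V + i) = n + i := by omega
    have e2 : V₀ + (V + i) = V + 3 * i := by omega
    rwa [e1, e2] at h
  have hB : mv (n + i) (V + 3 * i) ≤ (30 * (2 * (n : ℝ)) ^ 2) ^ i * mv n V := by
    apply iter_two hn1 hV
    have h1 : (i : ℝ) ≤ n := by
      have : i ≤ n := by omega
      exact_mod_cast this
    linarith
  have hmvn := mv_nonneg n V
  have hpow : (30 * (2 * (n : ℝ)) ^ 2) ^ i ≤ (n : ℝ) ^ (9 * i) := by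
    rw [pow_mul]
    apply pow_le_pow_left₀ (by positivity)
    have h7 : (2 : ℝ) ^ 7 ≤ (n : ℝ) ^ 7 := pow_le_pow_left₀ (by norm_num) hn2 7
    have h8 : (120 : ℝ) ≤ (n : ℝ) ^ 7 := by
      refine le_trans ?_ h7
      norm_num
    calc 30 * (2 * (n : ℝ)) ^ 2 = 120 * (n : ℝ) ^ 2 := by ring
      _ ≤ (n : ℝ) ^ 7 * (n : ℝ) ^ 2 := mul_le_mul_of_nonneg_right h8 (by positivity)
      _ = (n : ℝ) ^ 9 := by ring
  have hcoef : 4 * C₀ * p ≤ (n : ℝ) ^ 2 := by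
    calc 4 * C₀ * p ≤ p * p := mul_le_mul_of_nonneg_right hc4 (by linarith)
      _ ≤ n * n := by nlinarith
      _ = (n : ℝ) ^ 2 := by ring
  have hn0 : (0 : ℝ) < n := by linarith
  have hlog : 0 ≤ Real.log n := Real.log_nonneg (by linarith)
  have hexp : (n : ℝ) ^ (2 + 9 * i) ≤ Real.exp ((2 + 5 * C₀) * Real.sqrt n * Real.log n) := by
    have e1 : (n : ℝ) ^ (2 + 9 * i) = Real.exp (((2 + 9 * i : ℕ) : ℝ) * Real.log n) := by
      rw [Real.exp_nat_mul, Real.exp_log hn0]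
    rw [e1]
    apply Real.exp_le_exp.2
    apply mul_le_mul_of_nonneg_right _ hlog
    push_cast
    have h1 : 1 ≤ Real.sqrt n := Real.one_le_sqrt.2 (by linarith)
    nlinarith
  calc gl p ≤ 4 * C₀ * p * mv p V₀ := hgl
    _ ≤ 4 * C₀ * p * ((n : ℝ) ^ (9 * i) * mv n V) := by
        apply mul_le_mul_of_nonneg_left _ (by positivity)
        exact hA.trans (hB.trans (mul_le_mul_of_nonneg_right hpow hmvn))
    _ ≤ (n : ℝ) ^ 2 * ((n : ℝ) ^ (9 * i) * mv n V) :=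
        mul_le_mul_of_nonneg_right hcoef (by positivity)
    _ = (n : ℝ) ^ (2 + 9 * i) * mv n V := by ring
    _ ≤ Real.exp ((2 + 5 * C₀) * Real.sqrt n * Real.log n) * mv n V :=
        mul_le_mul_of_nonneg_right hexp hmvn

end GNH
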