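import Pool.Agent.GNH.Defs

/-!
# GNH-MooreA: a dense set of edges contains a subset of large minimum degree
Let `S` be closed under reversal with `S.card > 2 δ (number of vertices of S)`.  Removing again and
again the vertices of degree at most `δ` one keeps this inequality.
-/

namespace GNH

open SST Classical

variable {D : Type} [Fintype D]

theorem exists_dense (T : Tri D) {S : Finset D} (hS : T.AC S) {δ : ℕ}
    (h : 2 * δ * (T.VK S).card < S.card) :
    ∃ S' ⊆ S, T.AC S' ∧ S'.Nonempty ∧ ∀ v ∈ T.VK S', δ + 1 ≤ T.degK S' v := by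
  induction hn : S.card using Nat.strong_induction_on generalizing S with
  | _ n ih =>
    by_cases hall : ∀ v ∈ T.VK S, δ + 1 ≤ T.degK S v
    · refine ⟨S, Finset.Subset.refl S, hS, ?_, hall⟩
      rw [← Finset.card_pos]
      omega
    · push Not at hall
      obtain ⟨v, hv, hdeg⟩ := hall
      obtain ⟨d0, hd0, hd0v⟩ := Finset.mem_image.1 hv
      obtain ⟨S'', hS''⟩ : ∃ S'' : Finset D,
          S'' = S.filter fun d => ¬ (T.tl d = v ∨ T.hd d = v) := ⟨_, rfl⟩
      have hmem : ∀ d, d ∈ S'' ↔ d ∈ S ∧ ¬ (T.tl d = v ∨ T.hd d = v) := by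
        intro d
        rw [hS'', Finset.mem_filter]
      have hAC : T.AC S'' := by
        intro d hd
        obtain ⟨h1, h2⟩ := (hmem d).1 hd
        rw [hmem]
        refine ⟨hS d h1, ?_⟩
        rintro (h3 | h3)
        · exact h2 (Or.inr h3)
        · apply h2
          left
          have h4 : T.hd (T.a d) = T.tl d := by
            show T.tl (T.a (T.a d)) = T.tl d
            rw [T.aa]
          rw [← h4]
          exact h3
      have hrem : (S.filter fun d => (T.tl d = v ∨ T.hd d = v)).card ≤ 2 * T.degK S v := by
        have h1 : (S.filter fun d => (T.tl d = v ∨ T.hd d = v)) ⊆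
            (S.filter fun d => T.tl d = v) ∪ (S.filter fun d => T.tl d = v).image T.a := by
          intro d hd
          obtain ⟨h2, h3 | h3⟩ := Finset.mem_filter.1 hd
          · exact Finset.mem_union_left _ (Finset.mem_filter.2 ⟨h2, h3⟩)
          · refine Finset.mem_union_right _ (Finset.mem_image.2 ⟨T.a d, ?_, T.aa d⟩)
            exact Finset.mem_filter.2 ⟨hS d h2, h3⟩
        have h4 := Finset.card_le_card h1
        have h5 := Finset.card_union_le (S.filter fun d => T.tl d = v)
          ((S.filter fun d => T.tl d = v).image T.a)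
        have h6 : ((S.filter fun d => T.tl d = v).image T.a).card ≤
            (S.filter fun d => T.tl d = v).card := Finset.card_image_le
        have h7 : T.degK S v = (S.filter fun d => T.tl d = v).card := rfl
        omega
      have hcard : S.card = (S.filter fun d => (T.tl d = v ∨ T.hd d = v)).card + S''.card := by
        rw [hS'']
        exact (Finset.card_filter_add_card_filter_not (s := S)
          (fun d => (T.tl d = v ∨ T.hd d = v))).symm
      have hlt : S''.card < S.card := by
        have h1 : 0 < (S.filter fun d => (T.tl d = v ∨ T.hd d = v)).card :=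
          Finset.card_pos.2 ⟨d0, Finset.mem_filter.2 ⟨hd0, Or.inl hd0v⟩⟩
        omega
      have hVK : T.VK S'' ⊆ (T.VK S).erase v := by
        intro u hu
        obtain ⟨d, hd, rfl⟩ := Finset.mem_image.1 hu
        obtain ⟨h1, h2⟩ := (hmem d).1 hd
        exact Finset.mem_erase.2 ⟨fun h3 => h2 (Or.inl h3), Finset.mem_image_of_mem _ h1⟩
      have hVc := Finset.card_le_card hVK
      rw [Finset.card_erase_of_mem hv] at hVc
      have hVp : 0 < (T.VK S).card := Finset.card_pos.2 ⟨v, hv⟩
      have hnew : 2 * δ * (T.VK S'').card < S''.card := by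
        obtain ⟨k, hk⟩ : ∃ k, (T.VK S).card = k + 1 := ⟨(T.VK S).card - 1, by omega⟩
        have h1 : (T.VK S'').card ≤ k := by omega
        have h2 : 2 * δ * (T.VK S'').card ≤ 2 * δ * k := Nat.mul_le_mul_left _ h1
        have h3 : 2 * δ * (k + 1) = 2 * δ * k + 2 * δ := by ring
        rw [hk, h3] at h
        omega
      obtain ⟨S', h1, h2, h3, h4⟩ := ih S''.card (by omega) hAC hnew rfl
      refine ⟨S', h1.trans ?_, h2, h3, h4⟩
      rw [hS'']
      exact Finset.filter_subset _ _

end GNH
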