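import Pool.Agent.GNH.Defs

/-!
# GNH-MooreB: Moore bound
Let `S` be non-empty and closed under reversal, every vertex of `S` has at least `δ + 1` darts of `S`
leaving it (`δ ≥ 1`), and every closed walk in `S` of length at most `2 k` has chain 0.  Then there are at least
`δ ^ k` vertices.  Proof: two non-backtracking walks of length at most `k` with the same ends are equal.
-/

namespace GNH

open SST Classical

variable {D : Type} [Fintype D]

/-- the next dart is not the reverse of the last one -/
private def Rd {D : Type} (T : Tri D) (d e : D) : Prop := e ≠ T.a d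

private theorem moore_dup {D : Type} (T : Tri D) (c : List D) (h : ¬ (c.map T.tl).Nodup) :
    ∃ l1 x l2 y l3, c = l1 ++ ((x :: l2) ++ (y :: l3)) ∧ T.tl x = T.tl y := by
  induction c with
  | nil => exact absurd List.nodup_nil h
  | cons d c ih =>
    by_cases hc : (c.map T.tl).Nodup
    · rw [List.map_cons, List.nodup_cons] at h
      have h1 : T.tl d ∈ c.map T.tl := by
        by_contra h2
        exact h ⟨h2, hc⟩
      obtain ⟨y, hy, hyd⟩ := List.mem_map.1 h1
      obtain ⟨s, t, hst⟩ := List.append_of_mem hy
      exact ⟨[], d, s, y, t, by rw [hst]; rfl, hyd.symm⟩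
    · obtain ⟨l1, x, l2, y, l3, h1, h2⟩ := ih hc
      exact ⟨d :: l1, x, l2, y, l3, by rw [h1]; rfl, h2⟩

private theorem moore_closed {D : Type} (T : Tri D) {S : Finset D} {k : ℕ}
    (h0 : ∀ c : List D, T.Closed c → c.length ≤ 2 * k → (∀ d ∈ c, d ∈ S) → ∀ d, T.chain c d = 0) :
    ∀ n : ℕ, ∀ c : List D, c.length = n → c ≠ [] → T.Closed c → c.length ≤ 2 * k →
      (∀ d ∈ c, d ∈ S) → List.IsChain (Rd T) c → False := by
  intro n
  induction n using Nat.strong_induction_on with
  | _ n ih =>
    intro c hn hne hcl hlen hS hch
    by_cases hnd : (c.map T.tl).Nodup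
    · obtain ⟨e, l, rfl⟩ := List.exists_cons_of_ne_nil hne
      have h1 := h0 _ hcl hlen hS e
      rw [Tri.chain_cons, Tri.ind_self, Tri.ind_ne (T.ane e).symm] at h1
      rw [List.map_cons, List.nodup_cons] at hnd
      have h2 : e ∉ l := fun h => hnd.1 (List.mem_map_of_mem h)
      have h3 : T.a e ∉ l := by
        intro h
        cases l with
        | nil => exact absurd h (List.not_mem_nil)
        | cons e2 l2 =>
          rw [List.isChain_cons_cons] at hch
          rcases List.mem_cons.1 h with h | h
          · exact hch.1 h.symm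
          · have h4 : T.tl e2 = T.tl (T.a e) := by
              obtain ⟨v, hv⟩ := hcl
              exact hv.2.1
            rw [List.map_cons, List.nodup_cons] at hnd
            apply hnd.2.1
            rw [h4]
            exact List.mem_map_of_mem h
      rw [Tri.chain_of_not_mem T h2 h3] at h1
      exact absurd h1 (by norm_num)
    · obtain ⟨l1, x, l2, y, l3, rfl, hxy⟩ := moore_dup T c hnd
      obtain ⟨v, hv⟩ := hcl
      obtain ⟨w, -, hw⟩ := Tri.walk_split T hv
      obtain ⟨w', hw1, hw2⟩ := Tri.walk_split T hw
      have e1 : T.tl x = w := hw1.1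
      have e2 : T.tl y = w' := hw2.1
      have hww : w = w' := by rw [← e1, ← e2, hxy]
      subst hww
      have hch2 : List.IsChain (Rd T) (x :: l2) := by
        rw [List.isChain_append] at hch
        have := hch.2.1
        rw [List.isChain_append] at this
        exact this.1
      refine ih (x :: l2).length ?_ (x :: l2) rfl (List.cons_ne_nil _ _) ⟨w, hw1⟩ ?_ ?_ hch2
      · rw [← hn]
        simp only [List.length_append, List.length_cons]
        omega
      · simp only [List.length_append, List.length_cons] at hlen ⊢
        omega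
      · intro d hd
        refine hS d ?_
        rw [List.mem_append, List.mem_append]
        exact Or.inr (Or.inl hd)

private theorem moore_rev {D : Type} (T : Tri D) {p : List D} (h : List.IsChain (Rd T) p) :
    List.IsChain (Rd T) (p.map T.a).reverse := by
  rw [List.isChain_reverse, List.isChain_map]
  refine h.imp ?_
  intro d e hde hc
  apply hde
  have h1 : T.a d = T.a (T.a e) := hc
  rw [h1, T.aa]

private theorem moore_unique {D : Type} (T : Tri D) {S : Finset D} (hS : T.AC S) {k : ℕ}
    (h0 : ∀ c : List D, T.Closed c → c.length ≤ 2 * k → (∀ d ∈ c, d ∈ S) → ∀ d, T.chain c d = 0)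
    (p : List D) : ∀ (q : List D) (u v : T.V), p.length + q.length ≤ 2 * k →
      T.IsWalk u p v → T.IsWalk u q v → List.IsChain (Rd T) p → List.IsChain (Rd T) q →
      (∀ d ∈ p, d ∈ S) → (∀ d ∈ q, d ∈ S) → p = q := by
  induction p with
  | nil =>
    intro q u v hl hp hq _ hcq _ hSq
    by_contra hne
    have huv : u = v := hp
    subst huv
    exact moore_closed T h0 q.length q rfl (fun h => hne h.symm) ⟨u, hq⟩
      (by simpa using hl) hSq hcq
  | cons x p ih =>
    intro q u v hl hp hq hcp hcq hSp hSq
    cases q with
    | nil =>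
      exfalso
      have huv : u = v := hq
      subst huv
      exact moore_closed T h0 (x :: p).length (x :: p) rfl (List.cons_ne_nil _ _) ⟨u, hp⟩
        (by simpa using hl) hSp hcp
    | cons y q =>
      by_cases hxy : x = y
      · subst hxy
        have h1 := ih q (T.hd x) v (by simp only [List.length_cons] at hl; omega) hp.2 hq.2
          (List.isChain_cons.1 hcp).2 (List.isChain_cons.1 hcq).2
          (fun d hd => hSp d (List.mem_cons_of_mem _ hd))
          (fun d hd => hSq d (List.mem_cons_of_mem _ hd))
        rw [h1]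
      · exfalso
        have hcl : T.Closed (((x :: p).map T.a).reverse ++ (y :: q)) :=
          ⟨v, Tri.walk_append T (Tri.walk_rev T hp) hq⟩
        refine moore_closed T h0 _ _ rfl ?_ hcl ?_ ?_ ?_
        · intro h
          rw [List.append_eq_nil_iff] at h
          exact List.cons_ne_nil _ _ h.2
        · rw [List.length_append, List.length_reverse, List.length_map]
          exact hl
        · intro d hd
          rw [List.mem_append, List.mem_reverse, List.mem_map] at hd
          rcases hd with ⟨e, he, rfl⟩ | hd
          · exact hS e (hSp e he)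
          · exact hSq d hd
        · rw [List.isChain_append]
          refine ⟨moore_rev T hcp, hcq, ?_⟩
          intro a ha b hb
          rw [List.map_cons, List.reverse_cons, List.getLast?_append] at ha
          have ha' : T.a x = a := by simpa using ha
          have hb' : y = b := by simpa using hb
          subst ha' hb'
          intro h
          apply hxy
          rw [h, T.aa]

/-- ends of the non-backtracking walks with `j + 1` darts of `S` and first dart `d` -/
private noncomputable def Nd (T : Tri D) (S : Finset D) : ℕ → D → Finset T.V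
  | 0, d => {T.hd d}
  | j + 1, d => (S.filter (fun e => T.tl e = T.hd d ∧ e ≠ T.a d)).biUnion (Nd T S j)

omit [Fintype D] in
private theorem nd_mem (T : Tri D) {S : Finset D} (j : ℕ) : ∀ d ∈ S, ∀ v ∈ Nd T S j d,
    ∃ l : List D, l.length = j ∧ T.IsWalk (T.tl d) (d :: l) v ∧ List.IsChain (Rd T) (d :: l) ∧
      ∀ e ∈ d :: l, e ∈ S := by
  induction j with
  | zero =>
    intro d hd v hv
    have hv' : v = T.hd d := Finset.mem_singleton.1 hv
    subst hv'
    refine ⟨[], rfl, ⟨rfl, rfl⟩, List.isChain_singleton _, ?_⟩
    intro e he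
    rw [List.mem_singleton] at he
    rw [he]
    exact hd
  | succ j ih =>
    intro d hd v hv
    obtain ⟨e, he, hve⟩ := Finset.mem_biUnion.1 hv
    rw [Finset.mem_filter] at he
    obtain ⟨l, h1, h2, h3, h4⟩ := ih e he.1 v hve
    refine ⟨e :: l, by rw [List.length_cons, h1], ⟨rfl, ?_⟩, ?_, ?_⟩
    · rw [← he.2.1]
      exact h2
    · rw [List.isChain_cons_cons]
      exact ⟨he.2.2, h3⟩
    · intro x hx
      rcases List.mem_cons.1 hx with hx | hx
      · rw [hx]
        exact hd
      · exact h4 x hx

omit [Fintype D] in
private theorem nd_card (T : Tri D) {S : Finset D} (hS : T.AC S) {δ k : ℕ}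
    (hdeg : ∀ v ∈ T.VK S, δ + 1 ≤ T.degK S v)
    (h0 : ∀ c : List D, T.Closed c → c.length ≤ 2 * k → (∀ d ∈ c, d ∈ S) → ∀ d, T.chain c d = 0)
    (j : ℕ) (hj : j ≤ k) : ∀ d ∈ S, δ ^ j ≤ (Nd T S j d).card := by
  induction j with
  | zero =>
    intro d _
    rw [pow_zero]
    exact (Finset.card_singleton (T.hd d)).symm.le
  | succ j ih =>
    intro d hd
    show δ ^ (j + 1) ≤
      ((S.filter (fun e => T.tl e = T.hd d ∧ e ≠ T.a d)).biUnion (Nd T S j)).card
    rw [Finset.card_biUnion]
    · have h1 : δ ≤ (S.filter (fun e => T.tl e = T.hd d ∧ e ≠ T.a d)).card := by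
        have h2 : δ + 1 ≤ T.degK S (T.hd d) :=
          hdeg _ (Finset.mem_image.2 ⟨T.a d, hS d hd, rfl⟩)
        have h3 : T.degK S (T.hd d) ≤
            (insert (T.a d) (S.filter (fun e => T.tl e = T.hd d ∧ e ≠ T.a d))).card := by
          refine Finset.card_le_card ?_
          intro e he
          rw [Finset.mem_filter] at he
          by_cases h : e = T.a d
          · rw [h]
            exact Finset.mem_insert_self _ _
          · exact Finset.mem_insert_of_mem (Finset.mem_filter.2 ⟨he.1, he.2, h⟩)
        have h4 := Finset.card_insert_le (T.a d)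
          (S.filter (fun e => T.tl e = T.hd d ∧ e ≠ T.a d))
        omega
      calc δ ^ (j + 1) = δ * δ ^ j := by rw [pow_succ, mul_comm]
        _ ≤ (S.filter (fun e => T.tl e = T.hd d ∧ e ≠ T.a d)).card * δ ^ j :=
          Nat.mul_le_mul_right _ h1
        _ = ∑ _e ∈ S.filter (fun e => T.tl e = T.hd d ∧ e ≠ T.a d), δ ^ j := by
          rw [Finset.sum_const, smul_eq_mul]
        _ ≤ _ := Finset.sum_le_sum fun e he =>
          ih (by omega) e (Finset.mem_filter.1 he).1
    · intro e he e' he' hne
      rw [Finset.mem_coe, Finset.mem_filter] at he he'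
      show Disjoint (Nd T S j e) (Nd T S j e')
      rw [Finset.disjoint_left]
      intro v hv hv'
      obtain ⟨l, a1, a2, a3, a4⟩ := nd_mem T j e he.1 v hv
      obtain ⟨l', b1, b2, b3, b4⟩ := nd_mem T j e' he'.1 v hv'
      rw [he.2.1] at a2
      rw [he'.2.1] at b2
      have := moore_unique T hS h0 (e :: l) (e' :: l') (T.hd d) v
        (by rw [List.length_cons, List.length_cons, a1, b1]; omega) a2 b2 a3 b3 a4 b4
      exact hne (List.cons.inj this).1

theorem moore (T : Tri D) {S : Finset D} (hS : T.AC S) (hne : S.Nonempty) {δ k : ℕ} (hδ : 1 ≤ δ)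
    (hdeg : ∀ v ∈ T.VK S, δ + 1 ≤ T.degK S v)
    (h0 : ∀ c : List D, T.Closed c → c.length ≤ 2 * k → (∀ d ∈ c, d ∈ S) → ∀ d, T.chain c d = 0) :
    δ ^ k ≤ Nat.card T.V := by
  obtain ⟨d, hd⟩ := hne
  have hfin : Finite T.V := inferInstanceAs (Finite (Quotient _))
  have : Fintype T.V := Fintype.ofFinite _
  rw [Nat.card_eq_fintype_card]
  exact (nd_card T hS hdeg h0 k le_rfl d hd).trans (Finset.card_le_univ _)

end GNH
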