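import Mathlib

/-!
# GNH-Param: choice of the parameters (real analysis only)
`η := 1 - 2 θ ∈ (0, 2 * 10^(-50))`, `V := n + 2 - 2 g n`, `V/n → η`; `G := ⌊√(n V)/(2 * 10^8)⌋₊` (so `4 * 10^16 G^2 ≤ n V`).  For large `n`:
`η n/2 ≤ V ≤ (3/2) η n`, so `8000000 V ≤ n`, `n - V ≥ n/2 ≥ p₀`, `g n ≥ 3`.
Last claim: `Q = V + ℓ`, `ℓ ≤ log n`: `η n/2 ≤ Q ≤ 2 η n`.  `x^Q/Q! ≤ (e x/Q)^Q` (`Q! ≥ (Q/e)^Q`: `Nat.factorial_lower_bound`-like, or
`x^Q/Q! = (x/Q)^Q * Q^Q/Q! ≤ (x/Q)^Q e^Q` from `Q^Q/Q! ≤ exp Q`).  So `((24 n)^Q/Q!)^2 ≤ exp (2 Q log (24 e n/Q)) ≤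
exp (4 η n log (131/η))` (`24 e * 2 ≤ 131`, and the logarithm is positive), `log y ≤ 4 y^(1/4)` (`Real.log_le_rpow_div` or similar):
`log (131/η) ≤ 4 (131/η)^(1/4) ≤ 14 η^(-1/4)`.  So the exponent is `≤ 56 η^(3/4) n`.
`4^G ≥ exp ((log 4) (√(n V)/(2 * 10^8) - 1))`, `√(n V) ≥ n √(η/2)`, `log 4 ≥ 1.38`: `≥ exp (4.8 * 10^(-9) √η n - 2)`.
`56 η^(3/4) ≤ 10^(-9) √η` as `η^(1/4) ≤ (2 * 10^(-50))^(1/4) ≤ 10^(-12)`.  So the left-hand side is
`≤ exp (log 1000 + 4 log n + 10^(-9) √η n + C √n log n + 2 - 4.8 * 10^(-9) √η n) ≤ exp (- log n)` for large `n`.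
-/

namespace GNH

open Filter Topology

private theorem pow_fact {n Q : ℕ} {η : ℝ} (hη : 0 < η) (hn : 0 < n) (hQ : η / 2 * n ≤ Q) :
    (24 * (n : ℝ)) ^ Q / (Q.factorial : ℝ) ≤ Real.exp (Q * (1 + Real.log (48 / η))) := by
  have hn' : (0 : ℝ) < n := by exact_mod_cast hn
  have hQ0 : (0 : ℝ) < Q := lt_of_lt_of_le (by positivity) hQ
  have h1 : (Q : ℝ) ^ Q / (Q.factorial : ℝ) ≤ Real.exp Q :=
    Real.pow_div_factorial_le_exp (Q : ℝ) hQ0.le Q
  have h2 : (24 * (n : ℝ) / Q) ^ Q ≤ (48 / η) ^ Q := by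
    apply pow_le_pow_left₀ (by positivity)
    rw [div_le_div_iff₀ hQ0 hη]
    nlinarith
  have h3 : (48 / η) ^ Q = Real.exp (Q * Real.log (48 / η)) := by
    rw [Real.exp_nat_mul, Real.exp_log (by positivity)]
  calc (24 * (n : ℝ)) ^ Q / (Q.factorial : ℝ)
      = (24 * (n : ℝ) / Q) ^ Q * ((Q : ℝ) ^ Q / (Q.factorial : ℝ)) := by
        rw [div_pow]
        have : (Q : ℝ) ^ Q ≠ 0 := by positivity
        field_simp
    _ ≤ Real.exp (Q * Real.log (48 / η)) * Real.exp Q := by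
        rw [← h3]
        exact mul_le_mul h2 h1 (by positivity) (by positivity)
    _ = Real.exp (Q * (1 + Real.log (48 / η))) := by
        rw [← Real.exp_add]; ring_nf

private theorem final_est {n Q G : ℕ} {C t W δ : ℝ} (hn : 1 ≤ n) (ht : 0 < t) (ht1 : t ≤ 4 / 10 ^ 13)
    (hQ1 : t ^ 4 / 2 * n ≤ Q) (hQ2 : (Q : ℝ) ≤ 2 * t ^ 4 * n)
    (hW : (7 / 10 : ℝ) * (t ^ 2 * n) ≤ W) (hG : W / (2 * 10 ^ 8) - 1 ≤ G)
    (hlog : Real.log n ≤ δ * Real.sqrt n) (hδ : (|C| + 5) * δ ≤ 1 / 10 ^ 9 * t ^ 2) (hδ0 : 0 < δ)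
    (hn9 : 9 ≤ 1 / 10 ^ 9 * t ^ 2 * n) :
    1000 * (n : ℝ) ^ 4 * (((24 * (n : ℝ)) ^ Q / (Q.factorial : ℝ)) ^ 2 *
          Real.exp (C * Real.sqrt n * Real.log n) / 4 ^ G) ≤ 1 / n := by
  have hn' : (1 : ℝ) ≤ n := by exact_mod_cast hn
  have hn0 : (0 : ℝ) < n := by linarith
  have hη : 0 < t ^ 4 := by positivity
  have hlog0 : 0 ≤ Real.log n := Real.log_nonneg hn'
  -- the first factor
  have hΛ : Real.log (48 / t ^ 4) ≤ 12 / t := by
    have h1 : 48 / t ^ 4 ≤ (3 / t) ^ 4 := by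
      rw [div_pow]
      apply div_le_div_of_nonneg_right _ hη.le
      norm_num
    have h2 : Real.log (48 / t ^ 4) ≤ Real.log ((3 / t) ^ 4) := Real.log_le_log (by positivity) h1
    have h3 : Real.log ((3 / t) ^ 4) = 4 * Real.log (3 / t) := by
      rw [Real.log_pow]; norm_num
    have h4 : Real.log (3 / t) ≤ 3 / t := by
      have := Real.log_le_sub_one_of_pos (show 0 < 3 / t by positivity)
      linarith
    have h5 : 12 / t = 4 * (3 / t) := by ring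
    rw [h5]
    linarith
  have hΛ0 : 0 ≤ 1 + Real.log (48 / t ^ 4) := by
    have h1 : 1 ≤ 48 / t ^ 4 := by
      rw [le_div_iff₀ hη]
      have : t ^ 4 ≤ 1 := pow_le_one₀ ht.le (by linarith)
      linarith
    have := Real.log_nonneg h1
    linarith
  have hA := pow_fact hη hn hQ1
  have hA2 : ((24 * (n : ℝ)) ^ Q / (Q.factorial : ℝ)) ^ 2 ≤ Real.exp (1 / 10 ^ 9 * t ^ 2 * n) := by
    have h0 : 0 ≤ (24 * (n : ℝ)) ^ Q / (Q.factorial : ℝ) := by positivity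
    calc ((24 * (n : ℝ)) ^ Q / (Q.factorial : ℝ)) ^ 2
        ≤ (Real.exp (Q * (1 + Real.log (48 / t ^ 4)))) ^ 2 := pow_le_pow_left₀ h0 hA 2
      _ = Real.exp (2 * (Q * (1 + Real.log (48 / t ^ 4)))) := by
          rw [← Real.exp_nat_mul]; norm_num
      _ ≤ Real.exp (1 / 10 ^ 9 * t ^ 2 * n) := by
          apply Real.exp_le_exp.mpr
          calc 2 * ((Q : ℝ) * (1 + Real.log (48 / t ^ 4)))
              ≤ 2 * ((2 * t ^ 4 * n) * (1 + 12 / t)) := by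
                apply mul_le_mul_of_nonneg_left _ (by norm_num)
                exact mul_le_mul hQ2 (by linarith) hΛ0 (by positivity)
            _ = (4 * t ^ 2 + 48 * t) * (t ^ 2 * n) := by field_simp; ring
            _ ≤ (1 / 10 ^ 9) * (t ^ 2 * n) := by
                apply mul_le_mul_of_nonneg_right _ (by positivity)
                nlinarith
            _ = 1 / 10 ^ 9 * t ^ 2 * n := by ring
  -- the last factor
  have hG4 : Real.exp (48 / 10 ^ 10 * t ^ 2 * n - 2) ≤ 4 ^ G := by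
    have h4 : (4 : ℝ) = Real.exp (Real.log 4) := (Real.exp_log (by norm_num)).symm
    rw [h4, ← Real.exp_nat_mul]
    apply Real.exp_le_exp.mpr
    have hl4 : (1.38 : ℝ) ≤ Real.log 4 := by
      have : Real.log 4 = 2 * Real.log 2 := by
        rw [show (4 : ℝ) = 2 ^ 2 by norm_num, Real.log_pow]; norm_num
      rw [this]
      have := Real.log_two_gt_d9
      linarith
    have hl4' : Real.log 4 ≤ 2 := by
      have : Real.log 4 = 2 * Real.log 2 := by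
        rw [show (4 : ℝ) = 2 ^ 2 by norm_num, Real.log_pow]; norm_num
      rw [this]
      have := Real.log_two_lt_d9
      linarith
    have hG' : (7 / 10 : ℝ) * (t ^ 2 * n) / (2 * 10 ^ 8) - 1 ≤ G := by
      refine le_trans ?_ hG
      have : (7 / 10 : ℝ) * (t ^ 2 * n) / (2 * 10 ^ 8) ≤ W / (2 * 10 ^ 8) :=
        div_le_div_of_nonneg_right hW (by norm_num)
      linarith
    have hx : 0 ≤ t ^ 2 * n := by positivity
    have h5 : ((7 / 10 : ℝ) * (t ^ 2 * n) / (2 * 10 ^ 8) - 1) * Real.log 4 ≤ G * Real.log 4 :=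
      mul_le_mul_of_nonneg_right hG' (by linarith)
    refine le_trans ?_ h5
    have h6 : (7 / 10 : ℝ) * (t ^ 2 * n) / (2 * 10 ^ 8) * 1.38 ≤
        (7 / 10 : ℝ) * (t ^ 2 * n) / (2 * 10 ^ 8) * Real.log 4 :=
      mul_le_mul_of_nonneg_left hl4 (by positivity)
    have h7 : 48 / 10 ^ 10 * t ^ 2 * n ≤ (7 / 10 : ℝ) * (t ^ 2 * n) / (2 * 10 ^ 8) * 1.38 := by
      have : (7 / 10 : ℝ) * (t ^ 2 * n) / (2 * 10 ^ 8) * 1.38 = (483 / 10 ^ 11) * (t ^ 2 * n) := by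
        ring
      rw [this]
      have h8 : 48 / 10 ^ 10 * t ^ 2 * n = (480 / 10 ^ 11) * (t ^ 2 * n) := by ring
      rw [h8]
      apply mul_le_mul_of_nonneg_right _ hx
      norm_num
    linarith
  have h1000 : (1000 : ℝ) ≤ Real.exp 7 := by
    have h1 : (2.7 : ℝ) ≤ Real.exp 1 := by
      have := Real.exp_one_gt_d9
      linarith
    calc (1000 : ℝ) ≤ (2.7 : ℝ) ^ 7 := by norm_num
      _ ≤ (Real.exp 1) ^ 7 := pow_le_pow_left₀ (by norm_num) h1 7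
      _ = Real.exp 7 := by rw [← Real.exp_nat_mul]; norm_num
  have hn4 : (n : ℝ) ^ 4 = Real.exp (4 * Real.log n) := by
    have h := Real.exp_nat_mul (Real.log n) 4
    rw [Real.exp_log hn0] at h
    rw [← h]; norm_num
  have hexp0 : 0 < Real.exp (48 / 10 ^ 10 * t ^ 2 * n - 2) := Real.exp_pos _
  have hCs : C * Real.sqrt n * Real.log n + 5 * Real.log n ≤ 1 / 10 ^ 9 * t ^ 2 * n := by
    have hs : 1 ≤ Real.sqrt n := by
      rw [show (1 : ℝ) = Real.sqrt 1 by simp]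
      exact Real.sqrt_le_sqrt hn'
    have hss : Real.sqrt n * Real.sqrt n = n := Real.mul_self_sqrt hn0.le
    have h1 : C * Real.sqrt n * Real.log n ≤ |C| * Real.sqrt n * (δ * Real.sqrt n) := by
      have : C * Real.sqrt n * Real.log n ≤ |C| * Real.sqrt n * Real.log n := by
        apply mul_le_mul_of_nonneg_right _ hlog0
        exact mul_le_mul_of_nonneg_right (le_abs_self C) (by positivity)
      refine le_trans this ?_
      exact mul_le_mul_of_nonneg_left hlog (by positivity)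
    have h2 : 5 * Real.log n ≤ 5 * (Real.sqrt n * (δ * Real.sqrt n)) := by
      apply mul_le_mul_of_nonneg_left _ (by norm_num)
      refine le_trans hlog ?_
      have : 0 ≤ δ * Real.sqrt n := by positivity
      nlinarith
    calc C * Real.sqrt n * Real.log n + 5 * Real.log n
        ≤ |C| * Real.sqrt n * (δ * Real.sqrt n) + 5 * (Real.sqrt n * (δ * Real.sqrt n)) :=
          add_le_add h1 h2
      _ = ((|C| + 5) * δ) * (Real.sqrt n * Real.sqrt n) := by ring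
      _ ≤ (1 / 10 ^ 9 * t ^ 2) * (Real.sqrt n * Real.sqrt n) :=
          mul_le_mul_of_nonneg_right hδ (by positivity)
      _ = 1 / 10 ^ 9 * t ^ 2 * n := by rw [hss]
  have hx : 0 ≤ t ^ 2 * n := by positivity
  calc 1000 * (n : ℝ) ^ 4 * (((24 * (n : ℝ)) ^ Q / (Q.factorial : ℝ)) ^ 2 *
          Real.exp (C * Real.sqrt n * Real.log n) / 4 ^ G)
      ≤ (Real.exp 7 * Real.exp (4 * Real.log n)) * ((Real.exp (1 / 10 ^ 9 * t ^ 2 * n) *
          Real.exp (C * Real.sqrt n * Real.log n)) / Real.exp (48 / 10 ^ 10 * t ^ 2 * n - 2)) := by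
        rw [hn4]
        apply mul_le_mul
        · exact mul_le_mul_of_nonneg_right h1000 (Real.exp_pos _).le
        · apply div_le_div₀ (by positivity) _ hexp0 hG4
          exact mul_le_mul_of_nonneg_right hA2 (Real.exp_pos _).le
        · positivity
        · positivity
    _ = Real.exp (7 + 4 * Real.log n + (1 / 10 ^ 9 * t ^ 2 * n + C * Real.sqrt n * Real.log n -
          (48 / 10 ^ 10 * t ^ 2 * n - 2))) := by
        rw [← Real.exp_add, ← Real.exp_add, ← Real.exp_sub, ← Real.exp_add]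
    _ ≤ Real.exp (-Real.log n) := by
        apply Real.exp_le_exp.mpr
        have e1 : 48 / 10 ^ 10 * t ^ 2 * (n : ℝ) = (48 / 10 ^ 10) * (t ^ 2 * n) := by ring
        have e2 : 1 / 10 ^ 9 * t ^ 2 * (n : ℝ) = (1 / 10 ^ 9) * (t ^ 2 * n) := by ring
        rw [e2] at hCs hn9
        rw [e1, e2]
        linarith
    _ = 1 / n := by
        rw [Real.exp_neg, Real.exp_log hn0, one_div]

theorem param (C : ℝ) (p₀ : ℕ) {θ : ℝ} (h : 1 / 2 - 1 / 10 ^ 50 < θ) (h' : θ < 1 / 2) {g : ℕ → ℕ}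
    (hg : Tendsto (fun n => (g n : ℝ) / n) atTop (𝓝 θ)) :
    ∀ᶠ n : ℕ in atTop, ∃ V G : ℕ, V + 2 * g n = n + 2 ∧ 1 ≤ V ∧ 8000000 * V ≤ n ∧
      4 * 10 ^ 16 * G ^ 2 ≤ n * V ∧ (1 - 2 * θ) / 2 * n ≤ V ∧ p₀ ≤ n - V ∧ 3 ≤ g n ∧
      ∀ ℓ : ℕ, (ℓ : ℝ) ≤ Real.log n →
        1000 * (n : ℝ) ^ 4 * (((24 * (n : ℝ)) ^ (V + ℓ) / ((V + ℓ).factorial : ℝ)) ^ 2 *
          Real.exp (C * Real.sqrt n * Real.log n) / 4 ^ G) ≤ 1 / n := by
  obtain ⟨η, hηe⟩ : ∃ η, η = 1 - 2 * θ := ⟨_, rfl⟩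
  have hη : 0 < η := by rw [hηe]; linarith
  have hη2 : η < 2 / 10 ^ 50 := by rw [hηe]; linarith
  rw [← hηe]
  obtain ⟨t, ht, ht2, ht4⟩ : ∃ t : ℝ, 0 < t ∧ t ^ 2 = Real.sqrt η ∧ t ^ 4 = η := by
    refine ⟨Real.sqrt (Real.sqrt η), ?_, ?_, ?_⟩
    · exact Real.sqrt_pos.mpr (Real.sqrt_pos.mpr hη)
    · exact Real.sq_sqrt (Real.sqrt_nonneg η)
    · have h1 : (Real.sqrt (Real.sqrt η)) ^ 4 = ((Real.sqrt (Real.sqrt η)) ^ 2) ^ 2 := by ring
      rw [h1, Real.sq_sqrt (Real.sqrt_nonneg η), Real.sq_sqrt hη.le]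
  have ht1 : t ≤ 4 / 10 ^ 13 := by
    by_contra hcon
    push Not at hcon
    have h1 : (4 / 10 ^ 13 : ℝ) ^ 4 < t ^ 4 := pow_lt_pow_left₀ hcon (by norm_num) (by norm_num)
    rw [ht4] at h1
    have h2 : (2 / 10 ^ 50 : ℝ) ≤ (4 / 10 ^ 13 : ℝ) ^ 4 := by norm_num
    linarith
  obtain ⟨δ, hδ0, hδ⟩ : ∃ δ : ℝ, 0 < δ ∧ (|C| + 5) * δ ≤ 1 / 10 ^ 9 * t ^ 2 := by
    refine ⟨1 / 10 ^ 9 * t ^ 2 / (|C| + 5), by positivity, ?_⟩
    have : (|C| + 5) ≠ 0 := by positivity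
    rw [mul_div_cancel₀ _ this]
  have E1 : ∀ᶠ n : ℕ in atTop, |(g n : ℝ) / n - θ| < η / 8 := by
    have := (Metric.tendsto_atTop.mp hg) (η / 8) (by positivity)
    obtain ⟨N, hN⟩ := this
    filter_upwards [eventually_ge_atTop N] with n hn
    have := hN n hn
    rwa [Real.dist_eq] at this
  have E2 : ∀ᶠ n : ℕ in atTop, (8 / η : ℝ) ≤ n := tendsto_natCast_atTop_atTop.eventually_ge_atTop _
  have E3 : ∀ᶠ n : ℕ in atTop, (9 / (1 / 10 ^ 9 * t ^ 2) : ℝ) ≤ n :=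
    tendsto_natCast_atTop_atTop.eventually_ge_atTop _
  have E4 : ∀ᶠ n : ℕ in atTop, (2 * p₀ + 100 : ℝ) ≤ n :=
    tendsto_natCast_atTop_atTop.eventually_ge_atTop _
  have Elog : ∀ c : ℝ, 0 < c → ∀ᶠ n : ℕ in atTop, Real.log n ≤ c * Real.sqrt n := by
    intro c hc
    have h1 := (isLittleO_log_rpow_atTop (show (0 : ℝ) < 1 / 2 by norm_num)).bound hc
    have h2 := tendsto_natCast_atTop_atTop (R := ℝ) |>.eventually h1
    filter_upwards [h2] with n hn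
    have h3 : ‖(n : ℝ) ^ (1 / 2 : ℝ)‖ = Real.sqrt n := by
      rw [Real.sqrt_eq_rpow, Real.norm_of_nonneg (Real.rpow_nonneg (Nat.cast_nonneg n) _)]
    rw [h3] at hn
    exact le_trans (Real.le_norm_self _) hn
  have E5 := Elog δ hδ0
  have E6 := Elog (η / 2) (by positivity)
  filter_upwards [E1, E2, E3, E4, E5, E6] with n e1 e2 e3 e4 e5 e6
  have hn100 : (100 : ℝ) ≤ n := by
    have : (0 : ℝ) ≤ p₀ := Nat.cast_nonneg _
    linarith
  have hn0 : (0 : ℝ) < n := by linarith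
  have hn1 : 1 ≤ n := by
    have : (1 : ℝ) ≤ n := by linarith
    exact_mod_cast this
  have hηn : 8 ≤ η * n := by
    rw [div_le_iff₀ hη] at e2
    linarith
  rw [abs_lt] at e1
  have hg1 : (g n : ℝ) < (θ + η / 8) * n := by
    have : (g n : ℝ) / n < θ + η / 8 := by linarith [e1.2]
    rwa [div_lt_iff₀ hn0] at this
  have hg2 : (θ - η / 8) * n < (g n : ℝ) := by
    have : θ - η / 8 < (g n : ℝ) / n := by linarith [e1.1]
    rwa [lt_div_iff₀ hn0] at this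
  have hθ : θ = (1 - η) / 2 := by rw [hηe]; ring
  have hle : 2 * g n ≤ n + 2 := by
    have : (2 * g n : ℝ) ≤ n + 2 := by
      rw [hθ] at hg1
      nlinarith
    exact_mod_cast this
  obtain ⟨V, hV⟩ : ∃ V, V + 2 * g n = n + 2 := ⟨n + 2 - 2 * g n, by omega⟩
  have hVr : (V : ℝ) = n + 2 - 2 * g n := by
    have : ((V + 2 * g n : ℕ) : ℝ) = ((n + 2 : ℕ) : ℝ) := by rw [hV]
    push_cast at this
    linarith
  have hV1 : 3 / 4 * (η * n) ≤ V := by
    rw [hVr]; rw [hθ] at hg1; nlinarith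
  have hV2 : (V : ℝ) ≤ 3 / 2 * (η * n) := by
    rw [hVr]; rw [hθ] at hg2; nlinarith
  have hVn : (8000000 * V : ℝ) ≤ n := by
    have : η * n ≤ 2 / 10 ^ 50 * n := mul_le_mul_of_nonneg_right hη2.le hn0.le
    have h2 : (8000000 : ℝ) * (3 / 2 * (2 / 10 ^ 50 * n)) ≤ n := by
      have : (8000000 : ℝ) * (3 / 2 * (2 / 10 ^ 50 * n)) = (24000000 / 10 ^ 50) * n := by ring
      rw [this]
      have : (24000000 / 10 ^ 50 : ℝ) ≤ 1 := by norm_num
      nlinarith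
    linarith
  have hVn' : 8000000 * V ≤ n := by exact_mod_cast hVn
  have hnV0 : (0 : ℝ) ≤ n * V := by positivity
  refine ⟨V, ⌊Real.sqrt (n * V) / (2 * 10 ^ 8)⌋₊, hV, ?_, hVn', ?_, ?_, ?_, ?_, ?_⟩
  · have : (1 : ℝ) ≤ V := by linarith
    exact_mod_cast this
  · have h1 : ((⌊Real.sqrt (n * V) / (2 * 10 ^ 8)⌋₊ : ℕ) : ℝ) ≤ Real.sqrt (n * V) / (2 * 10 ^ 8) :=
      Nat.floor_le (by positivity)
    have h2 : (4 * 10 ^ 16 * ((⌊Real.sqrt (n * V) / (2 * 10 ^ 8)⌋₊ : ℕ) : ℝ) ^ 2) ≤ n * V := by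
      have h3 : ((⌊Real.sqrt (n * V) / (2 * 10 ^ 8)⌋₊ : ℕ) : ℝ) ^ 2 ≤
          (Real.sqrt (n * V) / (2 * 10 ^ 8)) ^ 2 := pow_le_pow_left₀ (by positivity) h1 2
      have h4 : (Real.sqrt (n * V) / (2 * 10 ^ 8)) ^ 2 = (n * V) / (4 * 10 ^ 16) := by
        rw [div_pow, Real.sq_sqrt hnV0]; norm_num
      rw [h4] at h3
      rw [le_div_iff₀ (by norm_num)] at h3
      linarith
    exact_mod_cast h2
  · linarith
  · have h1 : (p₀ : ℝ) + V ≤ n := by
      have : (V : ℝ) ≤ n / 2 := by linarith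
      linarith
    have h2 : p₀ + V ≤ n := by exact_mod_cast h1
    omega
  · have h1 : (2 * 3 : ℝ) ≤ 2 * g n := by
      have : (V : ℝ) ≤ n / 2 := by linarith
      linarith
    have : (3 : ℝ) ≤ g n := by linarith
    exact_mod_cast this
  · intro ℓ hℓ
    have hss : Real.sqrt n * Real.sqrt n = n := Real.mul_self_sqrt hn0.le
    have hs1 : 1 ≤ Real.sqrt n := by
      rw [show (1 : ℝ) = Real.sqrt 1 by simp]
      exact Real.sqrt_le_sqrt (by linarith)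
    have hℓ2 : (ℓ : ℝ) ≤ η / 2 * n := by
      refine le_trans hℓ (le_trans e6 ?_)
      apply mul_le_mul_of_nonneg_left _ (by positivity)
      nlinarith
    have hW : (7 / 10 : ℝ) * (t ^ 2 * n) ≤ Real.sqrt (n * V) := by
      apply Real.le_sqrt_of_sq_le
      have h1 : ((7 / 10 : ℝ) * (t ^ 2 * n)) ^ 2 = 49 / 100 * (t ^ 4) * n * n := by ring
      rw [h1, ht4]
      nlinarith
    refine final_est (Q := V + ℓ) (t := t) (W := Real.sqrt (n * V)) (δ := δ) hn1 ht ht1 ?_ ?_ hW ?_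
      e5 hδ hδ0 ?_
    · push_cast
      rw [ht4]
      have : (0 : ℝ) ≤ ℓ := Nat.cast_nonneg _
      linarith
    · push_cast
      rw [ht4]
      linarith
    · have := Nat.lt_floor_add_one (Real.sqrt (n * V) / (2 * 10 ^ 8))
      linarith
    · rw [div_le_iff₀ (by positivity)] at e3
      linarith

end GNH
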