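import Pool.Agent.GNH.Htp
import Pool.Agent.SST.D.DDefs

/-!
# GNH-Polygon: the contour of a spanning tree of faces
`A` is a non-empty set of faces (closed under `f`) which is connected through edges with both sides in `A`.
`Inv T A w` collects the properties of the contour `w` of a spanning tree of the faces of `A`. It holds for a
single face (`inv_start`), it is preserved when a face is glued to `A` along a dart `d` of the contour
(`inv_step`), and the connectivity hypothesis allows such a step as long as the whole set is not reached.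
-/

namespace GNH

open SST Classical

variable {D : Type} [Fintype D]


private structure Inv (T : Tri D) (A : Finset D) (w : List D) : Prop where
  hf : ∀ d ∈ A, T.f d ∈ A
  hcl : T.Closed w
  hnh : T.NullHtp w
  hnd : w.Nodup
  hmem : ∀ d ∈ w, d ∈ A
  hcr : ∀ d ∈ A, d ∉ w → T.a d ∈ A ∧ T.a d ∉ w
  hlen : 3 * w.length = A.card + 6
  htl : ∀ d ∈ A, ∃ e ∈ w, T.tl e = T.tl d

omit [Fintype D] in
private theorem f_ne_ff (T : Tri D) (d : D) : T.f d ≠ T.f (T.f d) := fun h => T.fne (T.f d) h.symm

omit [Fintype D] in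
private theorem ne_ff (T : Tri D) (d : D) : d ≠ T.f (T.f d) := fun h => by
  have h1 : T.f d = T.f (T.f (T.f d)) := congrArg T.f h
  rw [T.fff] at h1
  exact T.fne d h1

private theorem inv_start (T : Tri D) (d : D) :
    Inv T ({d, T.f d, T.f (T.f d)} : Finset D) [d, T.f d, T.f (T.f d)] := by
  have n1 : d ≠ T.f d := (T.fne d).symm
  have n2 := f_ne_ff T d
  have n3 := ne_ff T d
  have hcl : T.Closed [d, T.f d, T.f (T.f d)] :=
    ⟨T.tl d, rfl, T.tl_f d, T.tl_f (T.f d), T.hd_ff d⟩
  refine ⟨?_, hcl, ?_, ?_, ?_, ?_, ?_, ?_⟩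
  · intro e he
    simp only [Finset.mem_insert, Finset.mem_singleton] at he ⊢
    rcases he with rfl | rfl | rfl
    · exact Or.inr (Or.inl rfl)
    · exact Or.inr (Or.inr rfl)
    · exact Or.inl (T.fff d)
  · refine Relation.EqvGen.symm _ _ (Relation.EqvGen.rel _ _ ⟨⟨T.tl d, rfl⟩, hcl, ?_⟩)
    have := Tri.Step.face (T := T) [] [] d
    simpa using this
  · simp only [List.nodup_cons, List.mem_cons, List.not_mem_nil, or_false, not_or, not_false_iff,
      List.nodup_nil, and_true]
    exact ⟨⟨n1, n3⟩, n2⟩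
  · intro e he
    simpa using he
  · intro e he he'
    exact absurd (by simpa using he) he'
  · rw [Finset.card_insert_of_notMem, Finset.card_insert_of_notMem, Finset.card_singleton]
    · rfl
    · simpa using n2
    · simp only [Finset.mem_insert, Finset.mem_singleton, not_or]
      exact ⟨n1, n3⟩
  · intro e he
    exact ⟨e, by simpa using he, rfl⟩

omit [Fintype D] in
private theorem next_tl (T : Tri D) {u v : List D} {e : D} (hc : T.Closed (u ++ [e] ++ v)) :
    ∃ e' ∈ u ++ [e] ++ v, T.tl e' = T.hd e := by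
  have h : T.Closed ([e] ++ v ++ u) := by
    have := T.closed_rotate (l := u) (l' := [e] ++ v) (by simpa using hc)
    simpa using this
  obtain ⟨p, h1, h2⟩ := h
  have h3 : T.IsWalk (T.hd e) (v ++ u) p := h2
  cases hvu : v ++ u with
  | nil =>
    rw [hvu] at h3
    have h4 : T.hd e = p := h3
    exact ⟨e, by simp, by rw [h4]; exact h1⟩
  | cons e' l =>
    rw [hvu] at h3
    have h5 : e' ∈ v ++ u := by rw [hvu]; exact List.mem_cons_self
    refine ⟨e', ?_, h3.1⟩
    simp only [List.mem_append, List.mem_singleton] at h5 ⊢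
    tauto

private theorem inv_step (T : Tri D) {A : Finset D} {w : List D} (hI : Inv T A w) {d : D} (hd : d ∈ A)
    (had : T.a d ∉ A) :
    ∃ w', Inv T (insert (T.a d) (insert (T.f (T.a d)) (insert (T.f (T.f (T.a d))) A))) w' ∧
      (insert (T.a d) (insert (T.f (T.a d)) (insert (T.f (T.f (T.a d))) A))).card = A.card + 3 := by
  set b := T.a d with hb
  have n1 : b ≠ T.f b := (T.fne b).symm
  have n2 := f_ne_ff T b
  have n3 := ne_ff T b
  have hfb : T.f b ∉ A := by
    intro h
    have h1 := hI.hf _ (hI.hf _ h)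
    rw [T.fff] at h1
    exact had h1
  have hffb : T.f (T.f b) ∉ A := by
    intro h
    have h1 := hI.hf _ h
    rw [T.fff] at h1
    exact had h1
  have hcard : (insert b (insert (T.f b) (insert (T.f (T.f b)) A))).card = A.card + 3 := by
    rw [Finset.card_insert_of_notMem, Finset.card_insert_of_notMem, Finset.card_insert_of_notMem hffb]
    · simp only [Finset.mem_insert, not_or]
      exact ⟨n2, hfb⟩
    · simp only [Finset.mem_insert, not_or]
      exact ⟨n1, n3, had⟩
  have hdw : d ∈ w := by
    by_contra h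
    exact had (hI.hcr d hd h).1
  obtain ⟨u, v, huv⟩ := List.append_of_mem hdw
  have huv' : w = u ++ [d] ++ v := by rw [huv]; simp
  subst huv'
  have hmv := htp_face_move T hI.hcl hI.hnh
  have hnd := hI.hnd
  have hmu : ∀ e ∈ u, e ∈ A := fun e he => hI.hmem e (by simp [he])
  have hmvv : ∀ e ∈ v, e ∈ A := fun e he => hI.hmem e (by simp [he])
  have hnd2 : u.Nodup ∧ v.Nodup ∧ d ∉ u ∧ d ∉ v ∧ ∀ e ∈ u, e ∉ v := by
    rw [List.append_assoc] at hnd
    have h1 := List.nodup_append.1 hnd
    obtain ⟨h2, h3, h4⟩ := h1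
    have h5 : (d :: v).Nodup := h3
    rw [List.nodup_cons] at h5
    refine ⟨h2, h5.2, ?_, h5.1, ?_⟩
    · intro h
      exact h4 d h d (by simp) rfl
    · intro e he he'
      exact h4 e he e (by simp [he']) rfl
  obtain ⟨hu, hv, hdu, hdv, huv2⟩ := hnd2
  refine ⟨u ++ [T.f b, T.f (T.f b)] ++ v, ⟨?_, hmv.1, hmv.2, ?_, ?_, ?_, ?_, ?_⟩, hcard⟩
  · intro e he
    simp only [Finset.mem_insert] at he ⊢
    rcases he with rfl | rfl | rfl | he
    · exact Or.inr (Or.inl rfl)
    · exact Or.inr (Or.inr (Or.inl rfl))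
    · exact Or.inl (T.fff b)
    · exact Or.inr (Or.inr (Or.inr (hI.hf e he)))
  · have h1 : [T.f b, T.f (T.f b)].Nodup := by
      simp only [List.nodup_cons, List.mem_singleton, List.not_mem_nil, not_false_iff,
        List.nodup_nil, and_true]
      exact n2
    have h2 : (u ++ [T.f b, T.f (T.f b)]).Nodup := by
      refine List.nodup_append.2 ⟨hu, h1, ?_⟩
      rintro e he e' he' rfl
      simp only [List.mem_cons, List.not_mem_nil, or_false] at he'
      rcases he' with rfl | rfl
      · exact hfb (hmu _ he)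
      · exact hffb (hmu _ he)
    refine List.nodup_append.2 ⟨h2, hv, ?_⟩
    rintro e he e' he' rfl
    simp only [List.mem_append, List.mem_cons, List.not_mem_nil, or_false] at he
    rcases he with he | rfl | rfl
    · exact huv2 _ he he'
    · exact hfb (hmvv _ he')
    · exact hffb (hmvv _ he')
  · intro e he
    simp only [List.mem_append, List.mem_cons, List.not_mem_nil, or_false] at he
    simp only [Finset.mem_insert]
    rcases he with (he | rfl | rfl) | he
    · exact Or.inr (Or.inr (Or.inr (hmu e he)))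
    · exact Or.inr (Or.inl rfl)
    · exact Or.inr (Or.inr (Or.inl rfl))
    · exact Or.inr (Or.inr (Or.inr (hmvv e he)))
  · intro e he he'
    simp only [List.mem_append, List.mem_cons, List.not_mem_nil, or_false, not_or] at he'
    obtain ⟨⟨he1, he2, he3⟩, he4⟩ := he'
    simp only [Finset.mem_insert] at he
    -- membership in the new walk
    have key : ∀ x : D, x ≠ T.f b → x ≠ T.f (T.f b) → x ∉ u → x ∉ v →
        x ∉ u ++ [T.f b, T.f (T.f b)] ++ v := by
      intro x h1 h2 h3 h4
      simp only [List.mem_append, List.mem_cons, List.not_mem_nil, or_false, not_or]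
      exact ⟨⟨h3, h1, h2⟩, h4⟩
    rcases he with rfl | rfl | rfl | he
    · -- `e = b`, `a e = d`
      have h1 : T.a (T.a d) = d := T.aa d
      rw [hb, h1]
      refine ⟨?_, key d ?_ ?_ hdu hdv⟩
      · simp only [Finset.mem_insert]
        exact Or.inr (Or.inr (Or.inr hd))
      · rintro h; exact hfb (h ▸ hd)
      · rintro h; exact hffb (h ▸ hd)
    · exact absurd rfl he2
    · exact absurd rfl he3
    · by_cases hed : e = d
      · subst hed
        refine ⟨?_, key _ n1 n3 ?_ ?_⟩
        · simp only [Finset.mem_insert]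
          exact Or.inl rfl
        · intro h; exact had (hmu _ h)
        · intro h; exact had (hmvv _ h)
      · have hew : e ∉ u ++ [d] ++ v := by
          simp only [List.mem_append, List.mem_singleton, not_or]
          exact ⟨⟨he1, hed⟩, he4⟩
        obtain ⟨h1, h2⟩ := hI.hcr e he hew
        simp only [List.mem_append, List.mem_singleton, not_or] at h2
        refine ⟨?_, key _ ?_ ?_ h2.1.1 h2.2⟩
        · simp only [Finset.mem_insert]
          exact Or.inr (Or.inr (Or.inr h1))
        · rintro h; exact hfb (h ▸ h1)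
        · rintro h; exact hffb (h ▸ h1)
  · have h1 := hI.hlen
    rw [hcard]
    simp only [List.length_append, List.length_cons, List.length_nil] at h1 ⊢
    omega
  · intro e he
    have hf1 : T.f b ∈ u ++ [T.f b, T.f (T.f b)] ++ v := by simp
    have hf2 : T.f (T.f b) ∈ u ++ [T.f b, T.f (T.f b)] ++ v := by simp
    simp only [Finset.mem_insert] at he
    rcases he with rfl | rfl | rfl | he
    · have hc' : T.Closed ((u ++ [T.f b]) ++ [T.f (T.f b)] ++ v) := by
        have := hmv.1
        simpa using this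
      obtain ⟨e', he', h'⟩ := next_tl T hc'
      rw [T.hd_ff] at h'
      exact ⟨e', by simpa using he', h'⟩
    · exact ⟨_, hf1, rfl⟩
    · exact ⟨_, hf2, rfl⟩
    · obtain ⟨e1, he1, h1⟩ := hI.htl e he
      by_cases hed : e1 = d
      · refine ⟨T.f b, hf1, ?_⟩
        rw [← h1, hed, T.tl_f, hb, T.hd_a]
      · refine ⟨e1, ?_, h1⟩
        simp only [List.mem_append, List.mem_singleton, List.mem_cons, List.not_mem_nil, or_false] at he1 ⊢
        tauto

private theorem grow (T : Tri D) {A : Finset D} (hf : ∀ d ∈ A, T.f d ∈ A)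
    (hcon : ∀ S ⊆ A, S.Nonempty → (∀ d ∈ S, T.f d ∈ S ∧ (T.a d ∈ A → T.a d ∈ S)) → S = A) (n : ℕ) :
    ∀ (S : Finset D) (w : List D), S ⊆ A → S.Nonempty → Inv T S w → A.card ≤ S.card + n →
      ∃ w, Inv T A w := by
  induction n with
  | zero =>
    intro S w hS hne hI hc
    have h := Finset.eq_of_subset_of_card_le hS (by simpa using hc)
    exact ⟨w, h ▸ hI⟩
  | succ n ih =>
    intro S w hS hne hI hc
    by_cases hSA : S = A
    · exact ⟨w, hSA ▸ hI⟩
    have h1 : ∃ d ∈ S, T.a d ∈ A ∧ T.a d ∉ S := by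
      by_contra h
      push Not at h
      exact hSA (hcon S hS hne (fun d hd => ⟨hI.hf d hd, h d hd⟩))
    obtain ⟨d, hd, hadA, had⟩ := h1
    obtain ⟨w', hI', hcard⟩ := inv_step T hI hd had
    refine ih _ w' ?_ ?_ hI' (by rw [hcard]; omega)
    · intro e he
      simp only [Finset.mem_insert] at he
      rcases he with rfl | rfl | rfl | he
      · exact hadA
      · exact hf _ hadA
      · exact hf _ (hf _ hadA)
      · exact hS he
    · exact ⟨_, Finset.mem_insert_self _ _⟩

theorem polygon (T : Tri D) {A : Finset D} (hf : ∀ d ∈ A, T.f d ∈ A) (hne : A.Nonempty)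
    (hcon : ∀ S ⊆ A, S.Nonempty → (∀ d ∈ S, T.f d ∈ S ∧ (T.a d ∈ A → T.a d ∈ S)) → S = A) :
    ∃ w : List D, T.Closed w ∧ T.NullHtp w ∧ w.Nodup ∧ (∀ d ∈ w, d ∈ A) ∧
      (∀ d ∈ A, d ∉ w → T.a d ∈ A ∧ T.a d ∉ w) ∧ 3 * w.length = A.card + 6 ∧
      ∀ d ∈ A, ∃ e ∈ w, T.tl e = T.tl d := by
  obtain ⟨d, hd⟩ := hne
  have hS : ({d, T.f d, T.f (T.f d)} : Finset D) ⊆ A := by
    intro e he
    simp only [Finset.mem_insert, Finset.mem_singleton] at he
    rcases he with rfl | rfl | rfl
    · exact hd
    · exact hf _ hd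
    · exact hf _ (hf _ hd)
  obtain ⟨w, hI⟩ := grow T hf hcon A.card _ _ hS ⟨d, Finset.mem_insert_self _ _⟩ (inv_start T d)
    (by omega)
  exact ⟨w, hI.hcl, hI.hnh, hI.hnd, hI.hmem, hI.hcr, hI.hlen, hI.htl⟩

end GNH
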