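import Pool.Agent.GNH.SplitIneq

/-!
# GNH-R1: the large side when the other side is small
`n₂ + k + 2 g₁ = n + 1`, `V₂ + k = V + 1`, `V₂ ≥ 1`, `g₁ ≥ 1`, `n ≤ 2 n₂`, `4 (V + 4) ≤ n`, `V ≥ 1`.
(1) for `n ≤ 2 m`, `m ≥ 1`, `W ≤ V + 3`: `mv m W ≤ (W/n) mv (m+1) (W+1)`, `W ≥ 1`: `mv_split`: `m (6m - W) mv m W ≤ W (m+1) mv (m+1)(W+1)`, `m + 1 ≤ 2 m`,
`6 m - W ≥ 3 n - n/4 ≥ 2 n`, so `m (6m-W) ≥ 2 m n ≥ n (m+1)`.
(2) `k` times from `(n₂, V₂)` to `(n₂ + k, V + 1)`: factor `∏_{W=V₂}^{V} W/n ≤ (V/n)^k`.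
(3) for `W = V + 1`, `n ≤ 2 m`, `m + 2 ≤ n + 1`: by (1) three times and `mv_ineq` at `(m+2, W)` (second term):
`mv m W ≤ W (W+1) (W+2)/n^3 * mv (m+3) (W+3)`, `(W+3).choose 4 * mv (m+3) (W+3) ≤ 6 (m+2) (3m+8) mv (m+2) W`,
`(W+3).choose 4 = (W+3)(W+2)(W+1)W/24`: `mv m W ≤ 144 (m+2)(3m+8)/(n^3 (W+3)) mv (m+2) W ≤ 2304/(n V) mv (m+2) W`
(`m + 2 ≤ n + 1 ≤ 2 n`, `3 m + 8 ≤ 3 n + 5 ≤ 8 n`).
(4) `g₁` times from `(n₂ + k, V+1) = (n + 1 - 2 g₁, V + 1)` to `(n+1, V+1)`.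
(5) `mv_ineq` at `(n, V)` (first term): `mv (n+1) (V+1) ≤ 12 n (3n+2)/((V+1) V) mv n V ≤ 60 n^2/V^2 mv n V`.
-/

namespace GNH

private theorem r1_step {n V m W : ℕ} (hn1 : 1 ≤ n) (hVn : 4 * (V + 4) ≤ n) (hm : n ≤ 2 * m)
    (hW : 1 ≤ W) (hWV : W ≤ V + 3) :
    (n : ℝ) * mv m W ≤ W * mv (m + 1) (W + 1) := by
  have hm1 : 1 ≤ m := by omega
  have h := mv_split hm1 hW
  have hmv := mv_nonneg m W
  have h1 : (n : ℝ) ≤ 2 * m := by exact_mod_cast hm
  have h2 : (W : ℝ) ≤ V + 3 := by exact_mod_cast hWV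
  have h3 : 4 * ((V : ℝ) + 4) ≤ n := by exact_mod_cast hVn
  have h4 : (1 : ℝ) ≤ m := by exact_mod_cast hm1
  have h5 : (1 : ℝ) ≤ n := by exact_mod_cast hn1
  have h6 : 2 * (n : ℝ) ≤ 6 * m - W := by linarith
  have h7 : (n : ℝ) * (m + 1) ≤ m * (6 * m - W) := by
    have h8 : (m : ℝ) * (2 * n) ≤ m * (6 * m - W) := mul_le_mul_of_nonneg_left h6 (by linarith)
    have h9 : (n : ℝ) * (m + 1) ≤ m * (2 * n) := by nlinarith
    linarith
  have h10 : (n : ℝ) * (m + 1) * mv m W ≤ W * (m + 1) * mv (m + 1) (W + 1) :=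
    (mul_le_mul_of_nonneg_right h7 hmv).trans h
  have h11 : (0 : ℝ) < m + 1 := by linarith
  have h12 : ((m : ℝ) + 1) * (n * mv m W) ≤ (m + 1) * (W * mv (m + 1) (W + 1)) := by
    linarith
  exact le_of_mul_le_mul_left h12 h11

private theorem r1_choose2 (V : ℕ) : (((V + 1).choose 2 : ℕ) : ℝ) = ((V : ℝ) + 1) * V / 2 := by
  rw [Nat.cast_choose_two]
  push_cast
  ring

private theorem r1_choose4 (W : ℕ) : 24 * (((W + 3).choose 4 : ℕ) : ℝ) =
    ((W : ℝ) + 3) * (W + 2) * (W + 1) * W := by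
  have h1 : (W + 3).choose 4 * Nat.factorial 4 = (W + 3).descFactorial 4 := by
    rw [Nat.descFactorial_eq_factorial_mul_choose, mul_comm]
  have h2 : (W + 3).descFactorial 4 = (W + 3) * (W + 2) * (W + 1) * W := by
    have e : W + 3 - 1 = W + 2 := by omega
    have e2 : W + 3 - 2 = W + 1 := by omega
    have e3 : W + 3 - 3 = W := by omega
    rw [Nat.descFactorial_succ, Nat.descFactorial_succ, Nat.descFactorial_succ,
      Nat.descFactorial_succ, Nat.descFactorial_zero, e3, e2, e, Nat.sub_zero]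
    ring
  have h3 : Nat.factorial 4 = 24 := rfl
  rw [h2, h3] at h1
  have h4 : (((W + 3).choose 4 * 24 : ℕ) : ℝ) = (((W + 3) * (W + 2) * (W + 1) * W : ℕ) : ℝ) := by
    exact_mod_cast h1
  push_cast at h4
  linarith

private theorem r1_two {n V m : ℕ} (hn1 : 1 ≤ n) (hV : 1 ≤ V) (hVn : 4 * (V + 4) ≤ n)
    (hm : n ≤ 2 * m) (hmn : m + 2 ≤ n + 1) :
    mv m (V + 1) ≤ 2304 / ((n : ℝ) * V) * mv (m + 2) (V + 1) := by
  have s1 := r1_step (W := V + 1) hn1 hVn hm (by omega) (by omega)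
  have s2 := r1_step (m := m + 1) (W := V + 2) hn1 hVn (by omega) (by omega) (by omega)
  have s3 := r1_step (m := m + 2) (W := V + 3) hn1 hVn (by omega) (by omega) (by omega)
  have s4 := mv_ineq (n := m + 2) (V := V + 1) (by omega) (by omega)
  have c4 := r1_choose4 (V + 1)
  have hn0 : (0 : ℝ) < n := by exact_mod_cast hn1
  have hV0 : (0 : ℝ) < V := by exact_mod_cast hV
  have e1 : m + 1 + 1 = m + 2 := by omega
  have e2 : V + 2 + 1 = V + 3 := by omega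
  have e3 : V + 1 + 1 = V + 2 := by omega
  have e4 : m + 2 + 1 = m + 3 := by omega
  have e5 : V + 3 + 1 = V + 4 := by omega
  have e6 : V + 1 + 3 = V + 4 := by omega
  rw [e3] at s1
  rw [e1, e2] at s2
  rw [e4, e5] at s3
  rw [e3, e4, e6] at s4
  rw [e6] at c4
  have p1 := mv_nonneg m (V + 1)
  have p2 := mv_nonneg (m + 1) (V + 2)
  have p3 := mv_nonneg (m + 2) (V + 3)
  have p4 := mv_nonneg (m + 3) (V + 4)
  have p5 := mv_nonneg (m + 2) (V + 1)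
  have p6 := mv_nonneg (m + 3) (V + 2)
  generalize mv m (V + 1) = a1 at *
  generalize mv (m + 1) (V + 2) = a2 at *
  generalize mv (m + 2) (V + 3) = a3 at *
  generalize mv (m + 3) (V + 4) = a4 at *
  generalize mv (m + 2) (V + 1) = a5 at *
  generalize mv (m + 3) (V + 2) = a6 at *
  have hc2 : (0 : ℝ) ≤ (((V + 2).choose 2 : ℕ) : ℝ) := Nat.cast_nonneg _
  generalize (((V + 4).choose 4 : ℕ) : ℝ) = C4 at *
  generalize (((V + 2).choose 2 : ℕ) : ℝ) = C2 at *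
  push_cast at s1 s2 s3 s4 c4
  have hmn' : (m : ℝ) + 2 ≤ n + 1 := by exact_mod_cast hmn
  have hn1' : (1 : ℝ) ≤ n := by exact_mod_cast hn1
  have hm0 : (0 : ℝ) ≤ m := Nat.cast_nonneg m
  generalize (n : ℝ) = x at *
  generalize (V : ℝ) = v at *
  generalize (m : ℝ) = y at *
  -- x^3 a1 ≤ (v+1)(v+2)(v+3) a4
  have t1 : x * (x * (x * a1)) ≤ (v + 1) * ((v + 2) * ((v + 3) * a4)) := by
    calc x * (x * (x * a1)) ≤ x * (x * ((v + 1) * a2)) := by gcongr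
      _ = (v + 1) * (x * (x * a2)) := by ring
      _ ≤ (v + 1) * (x * ((v + 2) * a3)) := by gcongr
      _ = (v + 1) * ((v + 2) * (x * a3)) := by ring
      _ ≤ (v + 1) * ((v + 2) * ((v + 3) * a4)) := by gcongr
  have t2 : C4 * a4 ≤ 6 * (y + 2) * (3 * (y + 2) + 2) * a5 := by
    have := mul_nonneg hc2 p6
    linarith
  have t3 : (v + 4) * ((v + 1) * ((v + 2) * ((v + 3) * a4))) = 24 * (C4 * a4) := by
    have h1 : 24 * (C4 * a4) = 24 * C4 * a4 := by ring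
    rw [h1, c4]
    ring
  have t4 : (v + 4) * (x * (x * (x * a1))) ≤ 144 * (y + 2) * (3 * (y + 2) + 2) * a5 := by
    have h1 : (v + 4) * (x * (x * (x * a1))) ≤ (v + 4) * ((v + 1) * ((v + 2) * ((v + 3) * a4))) :=
      mul_le_mul_of_nonneg_left t1 (by linarith)
    rw [t3] at h1
    linarith
  have t5 : 144 * (y + 2) * (3 * (y + 2) + 2) * a5 ≤ 2304 * x * x * a5 := by
    apply mul_le_mul_of_nonneg_right _ p5
    have h1 : y + 2 ≤ 2 * x := by linarith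
    have h2 : 3 * (y + 2) + 2 ≤ 8 * x := by linarith
    have h3 : (y + 2) * (3 * (y + 2) + 2) ≤ 2 * x * (8 * x) :=
      mul_le_mul h1 h2 (by linarith) (by linarith)
    nlinarith
  have t6 : v * (x * (x * (x * a1))) ≤ 2304 * x * x * a5 := by
    have h1 : 0 ≤ x * (x * (x * a1)) := by positivity
    nlinarith
  have hx2 : 0 < x * x := by positivity
  have t7 : (x * x) * (x * v * a1) ≤ (x * x) * (2304 * a5) := by linarith
  have t8 : x * v * a1 ≤ 2304 * a5 := le_of_mul_le_mul_left t7 hx2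
  rw [div_mul_eq_mul_div, le_div_iff₀ (by positivity)]
  linarith

theorem large_side {n V n₂ V₂ k g₁ : ℕ} (h1 : n₂ + k + 2 * g₁ = n + 1) (h2 : V₂ + k = V + 1)
    (hV₂ : 1 ≤ V₂) (hV : 1 ≤ V) (hg : 1 ≤ g₁) (hn : n ≤ 2 * n₂) (hVn : 4 * (V + 4) ≤ n) :
    mv n₂ V₂ ≤ 60 * (n : ℝ) ^ 2 / (V : ℝ) ^ 2 * (2304 / ((n : ℝ) * V)) ^ g₁ *
      ((V : ℝ) / n) ^ k * mv n V := by
  have hn1 : 1 ≤ n := by omega
  have hn0 : (0 : ℝ) < n := by exact_mod_cast hn1
  have hV0 : (0 : ℝ) < V := by exact_mod_cast hV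
  -- (2)
  have a1 : ∀ j, j ≤ k → mv n₂ V₂ ≤ ((V : ℝ) / n) ^ j * mv (n₂ + j) (V₂ + j) := by
    intro j
    induction j with
    | zero =>
      intro _
      rw [pow_zero, one_mul, add_zero, add_zero]
    | succ j ih =>
      intro hj
      have h3 := ih (by omega)
      have h4 := r1_step (n := n) (V := V) (m := n₂ + j) (W := V₂ + j) hn1 hVn (by omega)
        (by omega) (by omega)
      have h5 : ((V₂ + j : ℕ) : ℝ) ≤ V := by
        have : V₂ + j ≤ V := by omega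
        exact_mod_cast this
      have h6 : (n : ℝ) * mv (n₂ + j) (V₂ + j) ≤ V * mv (n₂ + j + 1) (V₂ + j + 1) :=
        h4.trans (mul_le_mul_of_nonneg_right h5 (mv_nonneg _ _))
      have h7 : mv (n₂ + j) (V₂ + j) ≤ (V : ℝ) / n * mv (n₂ + j + 1) (V₂ + j + 1) := by
        rw [div_mul_eq_mul_div, le_div_iff₀ hn0]
        linarith
      calc mv n₂ V₂ ≤ ((V : ℝ) / n) ^ j * mv (n₂ + j) (V₂ + j) := h3
        _ ≤ ((V : ℝ) / n) ^ j * ((V : ℝ) / n * mv (n₂ + j + 1) (V₂ + j + 1)) :=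
            mul_le_mul_of_nonneg_left h7 (by positivity)
        _ = ((V : ℝ) / n) ^ (j + 1) * mv (n₂ + (j + 1)) (V₂ + (j + 1)) := by
            rw [pow_succ, ← add_assoc, ← add_assoc]
            ring
  -- (4)
  have a2 : ∀ j, j ≤ g₁ → mv (n₂ + k) (V + 1) ≤
      (2304 / ((n : ℝ) * V)) ^ j * mv (n₂ + k + 2 * j) (V + 1) := by
    intro j
    induction j with
    | zero =>
      intro _
      rw [pow_zero, one_mul, mul_zero, add_zero]
    | succ j ih =>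
      intro hj
      have h3 := ih (by omega)
      have h4 := r1_two (n := n) (V := V) (m := n₂ + k + 2 * j) hn1 hV hVn (by omega) (by omega)
      calc mv (n₂ + k) (V + 1) ≤ (2304 / ((n : ℝ) * V)) ^ j * mv (n₂ + k + 2 * j) (V + 1) := h3
        _ ≤ (2304 / ((n : ℝ) * V)) ^ j *
              (2304 / ((n : ℝ) * V) * mv (n₂ + k + 2 * j + 2) (V + 1)) :=
            mul_le_mul_of_nonneg_left h4 (by positivity)
        _ = (2304 / ((n : ℝ) * V)) ^ (j + 1) * mv (n₂ + k + 2 * (j + 1)) (V + 1) := by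
            rw [pow_succ, mul_add, mul_one, ← add_assoc]
            ring
  have b1 := a1 k le_rfl
  rw [h2] at b1
  have b2 := a2 g₁ le_rfl
  rw [h1] at b2
  -- (5)
  have b3 : mv (n + 1) (V + 1) ≤ 60 * (n : ℝ) ^ 2 / (V : ℝ) ^ 2 * mv n V := by
    have h3 := mv_ineq hn1 hV
    have h4 : 0 ≤ (((V + 3).choose 4 : ℕ) : ℝ) * mv (n + 1) (V + 3) :=
      mul_nonneg (Nat.cast_nonneg _) (mv_nonneg _ _)
    have h5 : ((V : ℝ) + 1) * V / 2 * mv (n + 1) (V + 1) ≤ 6 * n * (3 * n + 2) * mv n V := by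
      rw [← r1_choose2]
      linarith
    have p1 := mv_nonneg (n + 1) (V + 1)
    have p2 := mv_nonneg n V
    have hn1' : (1 : ℝ) ≤ n := by exact_mod_cast hn1
    rw [div_mul_eq_mul_div, le_div_iff₀ (by positivity)]
    generalize mv (n + 1) (V + 1) = x at *
    generalize mv n V = y at *
    generalize (n : ℝ) = N at *
    generalize (V : ℝ) = v at *
    have h6 : 6 * N * (3 * N + 2) * y ≤ 30 * N ^ 2 * y := by
      apply mul_le_mul_of_nonneg_right _ p2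
      nlinarith
    have h7 : v ^ 2 / 2 * x ≤ (v + 1) * v / 2 * x := by
      apply mul_le_mul_of_nonneg_right _ p1
      nlinarith
    nlinarith
  calc mv n₂ V₂ ≤ ((V : ℝ) / n) ^ k * mv (n₂ + k) (V + 1) := b1
    _ ≤ ((V : ℝ) / n) ^ k * ((2304 / ((n : ℝ) * V)) ^ g₁ * mv (n + 1) (V + 1)) :=
        mul_le_mul_of_nonneg_left b2 (by positivity)
    _ ≤ ((V : ℝ) / n) ^ k * ((2304 / ((n : ℝ) * V)) ^ g₁ *
          (60 * (n : ℝ) ^ 2 / (V : ℝ) ^ 2 * mv n V)) := by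
        apply mul_le_mul_of_nonneg_left _ (by positivity)
        exact mul_le_mul_of_nonneg_left b3 (by positivity)
    _ = 60 * (n : ℝ) ^ 2 / (V : ℝ) ^ 2 * (2304 / ((n : ℝ) * V)) ^ g₁ *
          ((V : ℝ) / n) ^ k * mv n V := by ring

end GNH
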