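import Pool.Agent.GNH.R1Term

/-!
# GNH-R1Sum: sum over the pairs with a small first side
Every non-zero term has even `p.1 + q.1` (`mv_parity`), so `p.1 + 2 = q.1 + 2 g₁` with `1 ≤ g₁ ≤ G`; `q.1 = ℓ + 1 + k`;
`r1_term` bounds it by `M (1/2)^k (1/2)^g₁`.  For fixed `q` the map `p ↦ g₁` is injective, and `q ↦ k` is injective, so
the sum is at most `4 M`.  The second statement follows by symmetry.
-/

namespace GNH

open Finset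

private theorem R1Sum_geo {α : Type} (S : Finset α) (h : α → ℕ) (hinj : Set.InjOn h S) :
    ∑ x ∈ S, (1 / 2 : ℝ) ^ h x ≤ 2 := by
  classical
  rw [← Finset.sum_image (f := fun m : ℕ => (1 / 2 : ℝ) ^ m) hinj]
  exact (summable_geometric_two.sum_le_tsum _ fun _ _ => by positivity).trans
    (le_of_eq tsum_geometric_two)

theorem region_one {n V ℓ G : ℕ} (hℓ : 1 ≤ ℓ) (hV : 1 ≤ V) (hVn : 8000000 * V ≤ n)
    (hG : 4 * 10 ^ 16 * G ^ 2 ≤ n * V) :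
    ∑ p ∈ antidiagonal (n + ℓ), ∑ q ∈ antidiagonal (V + ℓ + 2),
      (if ℓ + 1 ≤ q.1 ∧ q.1 ≤ p.1 ∧ ℓ + 1 ≤ q.2 ∧ q.2 ≤ p.2 ∧ p.1 + 2 ≤ q.1 + 2 * G then
        36 * (p.1 : ℝ) * p.2 * mv p.1 q.1 * mv p.2 q.2 else 0) ≤
      10 ^ 22 * (ℓ * 2000000 ^ ℓ) * (n : ℝ) ^ 2 / (V : ℝ) ^ 3 * mv n V := by
  classical
  obtain ⟨M, hM⟩ : ∃ M : ℝ, M = 210000 * 10 ^ 16 * (n : ℝ) ^ 2 / (V : ℝ) ^ 3 *
      (ℓ * 2000000 ^ ℓ) * mv n V := ⟨_, rfl⟩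
  have hM0 : 0 ≤ M := by
    have := mv_nonneg n V
    rw [hM]
    positivity
  rw [Finset.sum_comm]
  have hterm : ∀ q ∈ antidiagonal (V + ℓ + 2), ∀ p ∈ antidiagonal (n + ℓ),
      (if ℓ + 1 ≤ q.1 ∧ q.1 ≤ p.1 ∧ ℓ + 1 ≤ q.2 ∧ q.2 ≤ p.2 ∧ p.1 + 2 ≤ q.1 + 2 * G then
        36 * (p.1 : ℝ) * p.2 * mv p.1 q.1 * mv p.2 q.2 else 0) ≤
      if ℓ + 1 ≤ q.1 then (if Even (p.1 + q.1) ∧ q.1 ≤ p.1 then
        M * (1 / 2) ^ (q.1 - (ℓ + 1)) * (1 / 2) ^ ((p.1 + 2 - q.1) / 2) else 0) else 0 := by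
    intro q hq p hp
    rw [HasAntidiagonal.mem_antidiagonal] at hq hp
    by_cases hc : ℓ + 1 ≤ q.1 ∧ q.1 ≤ p.1 ∧ ℓ + 1 ≤ q.2 ∧ q.2 ≤ p.2 ∧ p.1 + 2 ≤ q.1 + 2 * G
    · rw [if_pos hc]
      obtain ⟨h1, h2, h3, h4, h5⟩ := hc
      rw [if_pos h1]
      by_cases he : Even (p.1 + q.1)
      · rw [if_pos ⟨he, h2⟩]
        obtain ⟨g₁, hg₁⟩ : ∃ g₁, g₁ = (p.1 + 2 - q.1) / 2 := ⟨_, rfl⟩
        obtain ⟨k, hk⟩ : ∃ k, k = q.1 - (ℓ + 1) := ⟨_, rfl⟩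
        have he' : p.1 + 2 = q.1 + 2 * g₁ := by
          obtain ⟨r, hr⟩ := he
          omega
        rw [← hg₁, ← hk]
        have hgG : g₁ ≤ G := by omega
        have hG' : 4 * 10 ^ 16 * g₁ ^ 2 ≤ n * V :=
          (Nat.mul_le_mul_left _ (Nat.pow_le_pow_left hgG 2)).trans hG
        refine (r1_term hℓ hV hVn (by omega : 1 ≤ g₁) hG' (by omega : p.1 + 1 = ℓ + k + 2 * g₁)
          (by omega : q.1 = ℓ + 1 + k) hp hq (by omega)).trans (le_of_eq ?_)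
        rw [hM]
        ring
      · rw [if_neg fun h => he h.1, mv_parity he, mul_zero, zero_mul]
    · rw [if_neg hc]
      split_ifs
      · positivity
      · exact le_rfl
      · exact le_rfl
  refine (Finset.sum_le_sum fun q hq => Finset.sum_le_sum fun p hp => hterm q hq p hp).trans ?_
  have hrow : ∀ q ∈ antidiagonal (V + ℓ + 2), (∑ p ∈ antidiagonal (n + ℓ),
      if ℓ + 1 ≤ q.1 then (if Even (p.1 + q.1) ∧ q.1 ≤ p.1 then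
        M * (1 / 2) ^ (q.1 - (ℓ + 1)) * (1 / 2) ^ ((p.1 + 2 - q.1) / 2) else 0) else 0) ≤
      if ℓ + 1 ≤ q.1 then (2 * M) * (1 / 2) ^ (q.1 - (ℓ + 1)) else 0 := by
    intro q _
    by_cases h1 : ℓ + 1 ≤ q.1
    · rw [if_pos h1, Finset.sum_congr rfl fun p _ => if_pos h1, ← Finset.sum_filter,
        ← Finset.mul_sum]
      have h2 := R1Sum_geo ((antidiagonal (n + ℓ)).filter fun p => Even (p.1 + q.1) ∧ q.1 ≤ p.1)
        (fun p => (p.1 + 2 - q.1) / 2) (by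
          intro p hp p' hp' h
          rw [Finset.mem_coe, mem_filter, HasAntidiagonal.mem_antidiagonal] at hp hp'
          obtain ⟨h3, ⟨r, hr⟩, h5⟩ := hp
          obtain ⟨h6, ⟨r', hr'⟩, h8⟩ := hp'
          have h9 : (p.1 + 2 - q.1) / 2 = (p'.1 + 2 - q.1) / 2 := h
          refine Prod.ext ?_ ?_ <;> omega)
      have h3 : 0 ≤ M * (1 / 2) ^ (q.1 - (ℓ + 1)) := by positivity
      refine (mul_le_mul_of_nonneg_left h2 h3).trans (le_of_eq ?_)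
      ring
    · rw [if_neg h1, Finset.sum_congr rfl fun p _ => if_neg h1, Finset.sum_const_zero]
  refine (Finset.sum_le_sum hrow).trans ?_
  rw [← Finset.sum_filter, ← Finset.mul_sum]
  have h2 := R1Sum_geo ((antidiagonal (V + ℓ + 2)).filter fun q => ℓ + 1 ≤ q.1)
    (fun q => q.1 - (ℓ + 1)) (by
      intro q hq q' hq' h
      rw [Finset.mem_coe, mem_filter, HasAntidiagonal.mem_antidiagonal] at hq hq'
      have h9 : q.1 - (ℓ + 1) = q'.1 - (ℓ + 1) := h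
      refine Prod.ext ?_ ?_ <;> omega)
  refine (mul_le_mul_of_nonneg_left h2 (by positivity)).trans ?_
  have h3 : 0 ≤ (ℓ * 2000000 ^ ℓ) * (n : ℝ) ^ 2 / (V : ℝ) ^ 3 * mv n V := by
    have := mv_nonneg n V
    positivity
  have h4 : 2 * M * 2 = 840000 * 10 ^ 16 *
      ((ℓ * 2000000 ^ ℓ) * (n : ℝ) ^ 2 / (V : ℝ) ^ 3 * mv n V) := by
    rw [hM]
    ring
  have h5 : 10 ^ 22 * (ℓ * 2000000 ^ ℓ) * (n : ℝ) ^ 2 / (V : ℝ) ^ 3 * mv n V =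
      10 ^ 22 * ((ℓ * 2000000 ^ ℓ) * (n : ℝ) ^ 2 / (V : ℝ) ^ 3 * mv n V) := by ring
  rw [h4, h5]
  exact mul_le_mul_of_nonneg_right (by norm_num) h3

theorem region_one' {n V ℓ G : ℕ} (hℓ : 1 ≤ ℓ) (hV : 1 ≤ V) (hVn : 8000000 * V ≤ n)
    (hG : 4 * 10 ^ 16 * G ^ 2 ≤ n * V) :
    ∑ p ∈ antidiagonal (n + ℓ), ∑ q ∈ antidiagonal (V + ℓ + 2),
      (if ℓ + 1 ≤ q.1 ∧ q.1 ≤ p.1 ∧ ℓ + 1 ≤ q.2 ∧ q.2 ≤ p.2 ∧ p.2 + 2 ≤ q.2 + 2 * G then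
        36 * (p.1 : ℝ) * p.2 * mv p.1 q.1 * mv p.2 q.2 else 0) ≤
      10 ^ 22 * (ℓ * 2000000 ^ ℓ) * (n : ℝ) ^ 2 / (V : ℝ) ^ 3 * mv n V := by
  refine le_trans (le_of_eq ?_) (region_one hℓ hV hVn hG)
  rw [← Finset.Nat.sum_antidiagonal_swap]
  refine Finset.sum_congr rfl fun p _ => ?_
  rw [← Finset.Nat.sum_antidiagonal_swap]
  refine Finset.sum_congr rfl fun q _ => ?_
  simp only [Prod.fst_swap, Prod.snd_swap]
  by_cases hc : ℓ + 1 ≤ q.1 ∧ q.1 ≤ p.1 ∧ ℓ + 1 ≤ q.2 ∧ q.2 ≤ p.2 ∧ p.1 + 2 ≤ q.1 + 2 * G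
  · rw [if_pos hc, if_pos ⟨hc.2.2.1, hc.2.2.2.1, hc.1, hc.2.1, hc.2.2.2.2⟩]
    ring
  · rw [if_neg hc, if_neg fun h => hc ⟨h.2.2.1, h.2.2.2.1, h.1, h.2.1, h.2.2.2.2⟩]

end GNH
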