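import Pool.Agent.GNH.Upper

/-!
# GNH-Small: bound for the small side
`mv_upper`: `mv n₁ V₁ ≤ ((6 n₁)^w / w!)^2 * gl (n₁ + 1 - V₁)`, `w = V₁ - 1`, `n₁ + 1 - V₁ = 2 g₁ - 1`.
`(6 n₁)^w / w! ≤ exp (6 n₁)` (`Real.pow_div_factorial_le_exp` or a term of the exponential series), so the square is
`≤ exp (12 n₁) = (exp 12)^n₁ ≤ 166666^n₁` (`exp 12 < 166666`: `Real.exp_one_lt_d9`, `2.7182818286^12 < 162756`).
`gl (2g₁-1) ≤ 6^(2g₁-1) (2g₁-1)! ≤ 6^(2g₁) (2 g₁)^(2g₁) = 12^(2g₁) g₁^(2g₁) ≤ 12^n₁ g₁^(2g₁)` as `2 g₁ = n₁ + 2 - V₁ ≤ n₁`.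
`166666 * 12 ≤ 2000000`.
-/

namespace GNH

private theorem exp_twelve : Real.exp 12 ≤ 166666 := by
  have h1 : Real.exp 12 = Real.exp 1 ^ 12 := by
    rw [← Real.exp_nat_mul]
    norm_num
  rw [h1]
  have h2 : Real.exp 1 ≤ 2.7182818286 := Real.exp_one_lt_d9.le
  calc Real.exp 1 ^ 12 ≤ (2.7182818286 : ℝ) ^ 12 := pow_le_pow_left₀ (Real.exp_pos 1).le h2 12
    _ ≤ 166666 := by norm_num

theorem mv_small {n₁ V₁ g₁ : ℕ} (h : n₁ + 2 = V₁ + 2 * g₁) (hV : 2 ≤ V₁) (hg : 1 ≤ g₁) :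
    mv n₁ V₁ ≤ (2000000 : ℝ) ^ n₁ * (g₁ : ℝ) ^ (2 * g₁) := by
  have hn : 1 ≤ n₁ := by omega
  have h1 := mv_upper (n := n₁) (V := V₁) hn (by omega)
  obtain ⟨w, rfl⟩ : ∃ w, V₁ = w + 1 := ⟨V₁ - 1, by omega⟩
  have hw : w + 1 - 1 = w := by omega
  have hg1 : n₁ + 1 - (w + 1) = 2 * g₁ - 1 := by omega
  rw [hw, hg1] at h1
  -- the first factor
  have h2 : (6 * (n₁ : ℝ)) ^ (2 * w) / ((w).factorial : ℝ) ^ 2 ≤ (166666 : ℝ) ^ n₁ := by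
    have h3 : (6 * (n₁ : ℝ)) ^ w / (w.factorial : ℝ) ≤ Real.exp (6 * (n₁ : ℝ)) :=
      Real.pow_div_factorial_le_exp (6 * (n₁ : ℝ)) (by positivity) w
    have h4 : (6 * (n₁ : ℝ)) ^ (2 * w) / ((w).factorial : ℝ) ^ 2 =
        ((6 * (n₁ : ℝ)) ^ w / (w.factorial : ℝ)) ^ 2 := by
      rw [div_pow, ← pow_mul, mul_comm w 2]
    have h5 : (0 : ℝ) ≤ (6 * (n₁ : ℝ)) ^ w / (w.factorial : ℝ) := by positivity
    rw [h4]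
    calc ((6 * (n₁ : ℝ)) ^ w / (w.factorial : ℝ)) ^ 2
        ≤ Real.exp (6 * (n₁ : ℝ)) ^ 2 := pow_le_pow_left₀ h5 h3 2
      _ = Real.exp 12 ^ n₁ := by
          rw [← Real.exp_nat_mul, ← Real.exp_nat_mul]
          congr 1
          push_cast
          ring
      _ ≤ (166666 : ℝ) ^ n₁ := pow_le_pow_left₀ (Real.exp_pos _).le exp_twelve n₁
  -- the second factor
  have h6 : gl (2 * g₁ - 1) ≤ (12 : ℝ) ^ n₁ * (g₁ : ℝ) ^ (2 * g₁) := by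
    have h7 := gl_le (2 * g₁ - 1)
    have h8 : (6 : ℝ) ^ (2 * g₁ - 1) ≤ 6 ^ (2 * g₁) :=
      pow_le_pow_right₀ (by norm_num) (by omega)
    have h9 : (((2 * g₁ - 1).factorial : ℕ) : ℝ) ≤ ((2 * g₁ : ℕ) : ℝ) ^ (2 * g₁) := by
      have h10 : (2 * g₁ - 1).factorial ≤ (2 * g₁) ^ (2 * g₁) :=
        (Nat.factorial_le (by omega)).trans (Nat.factorial_le_pow (2 * g₁))
      exact_mod_cast h10
    have h11 : (6 : ℝ) ^ (2 * g₁) * ((2 * g₁ : ℕ) : ℝ) ^ (2 * g₁) =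
        12 ^ (2 * g₁) * (g₁ : ℝ) ^ (2 * g₁) := by
      rw [← mul_pow, ← mul_pow]
      congr 1
      push_cast
      ring
    have h12 : (12 : ℝ) ^ (2 * g₁) ≤ 12 ^ n₁ := pow_le_pow_right₀ (by norm_num) (by omega)
    calc gl (2 * g₁ - 1) ≤ 6 ^ (2 * g₁ - 1) * ((2 * g₁ - 1).factorial : ℝ) := h7
      _ ≤ 6 ^ (2 * g₁) * ((2 * g₁ : ℕ) : ℝ) ^ (2 * g₁) := by
          apply mul_le_mul h8 h9 (by positivity) (by positivity)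
      _ = 12 ^ (2 * g₁) * (g₁ : ℝ) ^ (2 * g₁) := h11
      _ ≤ (12 : ℝ) ^ n₁ * (g₁ : ℝ) ^ (2 * g₁) :=
          mul_le_mul_of_nonneg_right h12 (by positivity)
  have hgl : 0 ≤ gl (2 * g₁ - 1) := by
    unfold gl
    positivity
  calc mv n₁ (w + 1) ≤ (6 * (n₁ : ℝ)) ^ (2 * w) / ((w).factorial : ℝ) ^ 2 * gl (2 * g₁ - 1) := h1
    _ ≤ (166666 : ℝ) ^ n₁ * ((12 : ℝ) ^ n₁ * (g₁ : ℝ) ^ (2 * g₁)) :=
        mul_le_mul h2 h6 hgl (by positivity)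
    _ = (1999992 : ℝ) ^ n₁ * (g₁ : ℝ) ^ (2 * g₁) := by
        rw [← mul_assoc, ← mul_pow]
        norm_num
    _ ≤ (2000000 : ℝ) ^ n₁ * (g₁ : ℝ) ^ (2 * g₁) := by
        apply mul_le_mul_of_nonneg_right _ (by positivity)
        exact pow_le_pow_left₀ (by norm_num) (by norm_num) n₁

end GNH
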