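import Pool.Agent.GNH.R1
import Pool.Agent.GNH.Small

/-!
# GNH-R1Term: one term of the sum with a small first side
`n₁ = ℓ + k + 2 g₁ - 1`, `V₁ = ℓ + 1 + k`, `n₁ + n₂ = n + ℓ`, `V₁ + V₂ = V + ℓ + 2` (so `n₂ + k + 2 g₁ = n + 1`, `V₂ + k = V + 1`), `V₂ ≥ 2`,
`8000000 V ≤ n`, `4 * 10^16 * g₁^2 ≤ n V`.
* `n ≤ 2 n₂`: `n₂ = n + 1 - k - 2 g₁`, `k ≤ V ≤ n/8000000`, `g₁ ≤ n/4` (if `g₁ > n/4` then `10^16 n^2/4 ≤ n V ≤ n^2`, impossible for `n ≥ 1`).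
* `mv_small` for the first factor (`V₁ ≥ 2`), `large_side` for the second, `n₂ ≤ 2 n` (`k, g₁ ≥ 0`), `n₁ ≤ ℓ (k+1) (2 g₁ + 1)`,
  `2000000^n₁ ≤ 2000000^ℓ 2000000^k 2000000^(2 g₁)`:
  term `≤ 4320 n^3/V^2 * ℓ 2000000^ℓ * (k+1) (2000000 V/n)^k * (2 g₁+1) (2304 * 2000000^2 g₁^2/(n V))^g₁ * mv n V`.
* `2000000 V/n ≤ 1/4`, `k + 1 ≤ 2^k`: `(k+1) (1/4)^k ≤ (1/2)^k`.
* `2304 * 2000000^2 = 9.216 * 10^15 ≤ 10^16`; `x := 10^16 g₁^2/(n V) ≤ 1/4`: `x^g₁ ≤ x (1/4)^(g₁-1) = 10^16/(n V) * g₁^2 * 4 * (1/4)^g₁`;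
  `(2 g₁ + 1) g₁^2 ≤ 3 g₁^3 ≤ 12 * 2^g₁` (`g^3 ≤ 4 * 2^g` for all `g`), so
  `(2g₁+1) x^g₁ ≤ 48 * 10^16/(n V) * (1/2)^g₁`.
* `4320 * 48 ≤ 210000`.
-/

namespace GNH

private theorem cube_le (g : ℕ) : g ^ 3 ≤ 4 * 2 ^ g := by
  rcases Nat.lt_or_ge g 4 with h | h
  · interval_cases g <;> norm_num
  · induction g, h using Nat.le_induction with
    | base => norm_num
    | succ m hm ih =>
      have h1 : (m + 1) ^ 3 ≤ 2 * m ^ 3 := by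
        have : m ^ 3 ≥ 4 * m ^ 2 := by
          rw [pow_succ, mul_comm]; exact Nat.mul_le_mul_right _ hm
        have h2 : m ^ 2 ≥ 4 * m := by
          rw [pow_two]; exact Nat.mul_le_mul_right _ hm
        nlinarith
      calc (m + 1) ^ 3 ≤ 2 * m ^ 3 := h1
        _ ≤ 2 * (4 * 2 ^ m) := Nat.mul_le_mul_left _ ih
        _ = 4 * 2 ^ (m + 1) := by ring

private theorem Pbound (k : ℕ) (t : ℝ) (h0 : 0 ≤ t) (h1 : t ≤ 1 / 4) :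
    ((k : ℝ) + 1) * t ^ k ≤ (1 / 2) ^ k := by
  have hk : ((k : ℝ) + 1) ≤ 2 ^ k := by
    have := @Nat.lt_two_pow_self k
    have : k + 1 ≤ 2 ^ k := this
    exact_mod_cast this
  calc ((k : ℝ) + 1) * t ^ k ≤ 2 ^ k * (1 / 4) ^ k :=
        mul_le_mul hk (pow_le_pow_left₀ h0 h1 k) (pow_nonneg h0 k) (by positivity)
    _ = (1 / 2) ^ k := by rw [← mul_pow]; norm_num

private theorem Qbound (g : ℕ) (hg : 1 ≤ g) (y : ℝ) (hy : 0 ≤ y)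
    (h1 : 10 ^ 16 * ((g : ℝ) ^ 2 * y) ≤ 1 / 4) :
    (2 * (g : ℝ) + 1) * (2304 * 2000000 ^ 2 * ((g : ℝ) ^ 2 * y)) ^ g ≤
      48 * 10 ^ 16 * y * (1 / 2) ^ g := by
  set x : ℝ := 10 ^ 16 * ((g : ℝ) ^ 2 * y) with hx
  have hx0 : 0 ≤ x := by positivity
  have hgr : (1 : ℝ) ≤ (g : ℝ) := by exact_mod_cast hg
  have hle : 2304 * 2000000 ^ 2 * ((g : ℝ) ^ 2 * y) ≤ x := by
    rw [hx]
    apply mul_le_mul_of_nonneg_right (by norm_num) (by positivity)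
  have hpow : x ^ g ≤ 4 * x * (1 / 4) ^ g := by
    obtain ⟨m, rfl⟩ : ∃ m, g = m + 1 := ⟨g - 1, by omega⟩
    rw [pow_succ, pow_succ]
    have := pow_le_pow_left₀ hx0 h1 m
    nlinarith [mul_le_mul_of_nonneg_left this hx0]
  have hc : (g : ℝ) ^ 3 ≤ 4 * 2 ^ g := by exact_mod_cast cube_le g
  have hc2 : (2 * (g : ℝ) + 1) * (g : ℝ) ^ 2 ≤ 12 * 2 ^ g := by
    nlinarith [mul_le_mul_of_nonneg_right hgr (by positivity : (0 : ℝ) ≤ (g : ℝ) ^ 2)]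
  calc (2 * (g : ℝ) + 1) * (2304 * 2000000 ^ 2 * ((g : ℝ) ^ 2 * y)) ^ g
      ≤ (2 * (g : ℝ) + 1) * x ^ g := by
        apply mul_le_mul_of_nonneg_left (pow_le_pow_left₀ (by positivity) hle g) (by positivity)
    _ ≤ (2 * (g : ℝ) + 1) * (4 * x * (1 / 4) ^ g) :=
        mul_le_mul_of_nonneg_left hpow (by positivity)
    _ = ((2 * (g : ℝ) + 1) * (g : ℝ) ^ 2) * (4 * 10 ^ 16 * y * (1 / 4) ^ g) := by rw [hx]; ring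
    _ ≤ (12 * 2 ^ g) * (4 * 10 ^ 16 * y * (1 / 4) ^ g) :=
        mul_le_mul_of_nonneg_right hc2 (by positivity)
    _ = 48 * 10 ^ 16 * y * (1 / 2) ^ g := by
        have : (2 : ℝ) ^ g * (1 / 4) ^ g = (1 / 2) ^ g := by rw [← mul_pow]; norm_num
        rw [← this]; ring

theorem r1_term {n V ℓ n₁ n₂ V₁ V₂ k g₁ : ℕ} (hℓ : 1 ≤ ℓ) (hV : 1 ≤ V) (hVn : 8000000 * V ≤ n)
    (hg : 1 ≤ g₁) (hG : 4 * 10 ^ 16 * g₁ ^ 2 ≤ n * V) (h1 : n₁ + 1 = ℓ + k + 2 * g₁)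
    (h2 : V₁ = ℓ + 1 + k) (h3 : n₁ + n₂ = n + ℓ) (h4 : V₁ + V₂ = V + ℓ + 2) (h5 : 2 ≤ V₂) :
    36 * (n₁ : ℝ) * n₂ * mv n₁ V₁ * mv n₂ V₂ ≤
      210000 * 10 ^ 16 * (n : ℝ) ^ 2 / (V : ℝ) ^ 3 * (ℓ * 2000000 ^ ℓ) * (1 / 2) ^ k * (1 / 2) ^ g₁ *
        mv n V := by
  have hn0 : 0 < n := by omega
  have hg4 : 8 * g₁ ≤ n := by
    by_contra hc
    push Not at hc
    have h6 : n * V ≤ n * n := Nat.mul_le_mul_left _ (by omega)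
    have h7 : (n + 1) * (n + 1) ≤ (8 * g₁) * (8 * g₁) := Nat.mul_le_mul hc hc
    nlinarith
  have hkV : k ≤ V := by omega
  have hn2 : n ≤ 2 * n₂ := by omega
  have hn2' : n₂ ≤ n := by omega
  have B1 := mv_small (n₁ := n₁) (V₁ := V₁) (g₁ := g₁) (by omega) (by omega) hg
  have B2 := large_side (n := n) (V := V) (n₂ := n₂) (V₂ := V₂) (k := k) (g₁ := g₁)
    (by omega) (by omega) (by omega) hV hg hn2 (by omega)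
  have hnr : (0 : ℝ) < n := by exact_mod_cast hn0
  have hVr : (0 : ℝ) < V := by exact_mod_cast hV
  have hℓr : (1 : ℝ) ≤ ℓ := by exact_mod_cast hℓ
  have hkr : (0 : ℝ) ≤ k := by positivity
  have hgr : (1 : ℝ) ≤ g₁ := by exact_mod_cast hg
  have A1 : (n₁ : ℝ) ≤ ℓ * (k + 1) * (2 * g₁ + 1) := by
    have e : (n₁ : ℝ) + 1 = ℓ + k + 2 * g₁ := by exact_mod_cast h1
    have e1 : (0 : ℝ) ≤ (ℓ - 1) * k := mul_nonneg (by linarith) hkr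
    have e2 : (0 : ℝ) ≤ (ℓ - 1) * g₁ := mul_nonneg (by linarith) (by linarith)
    have e3 : (0 : ℝ) ≤ ℓ * k * g₁ := by positivity
    nlinarith
  have A2 : (n₂ : ℝ) ≤ 2 * n := by
    have : (n₂ : ℝ) ≤ n := by exact_mod_cast hn2'
    linarith
  have A3 : mv n₁ V₁ ≤ (2000000 : ℝ) ^ ℓ * 2000000 ^ k * (2000000 ^ 2 * (g₁ : ℝ) ^ 2) ^ g₁ := by
    refine B1.trans ?_
    have e1 : (2000000 : ℝ) ^ n₁ ≤ 2000000 ^ ℓ * 2000000 ^ k * (2000000 ^ 2) ^ g₁ := by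
      rw [← pow_mul, ← pow_add, ← pow_add]
      exact pow_le_pow_right₀ (by norm_num) (by omega)
    calc (2000000 : ℝ) ^ n₁ * (g₁ : ℝ) ^ (2 * g₁)
        ≤ (2000000 ^ ℓ * 2000000 ^ k * (2000000 ^ 2) ^ g₁) * (g₁ : ℝ) ^ (2 * g₁) :=
          mul_le_mul_of_nonneg_right e1 (by positivity)
      _ = _ := by rw [pow_mul, mul_pow (2000000 ^ 2 : ℝ)]; ring
  have hmv := mv_nonneg n V
  have L : 36 * (n₁ : ℝ) * n₂ * mv n₁ V₁ * mv n₂ V₂ ≤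
      36 * (ℓ * (k + 1) * (2 * g₁ + 1)) * (2 * n) *
        ((2000000 : ℝ) ^ ℓ * 2000000 ^ k * (2000000 ^ 2 * (g₁ : ℝ) ^ 2) ^ g₁) *
        (60 * (n : ℝ) ^ 2 / (V : ℝ) ^ 2 * (2304 / ((n : ℝ) * V)) ^ g₁ *
          ((V : ℝ) / n) ^ k * mv n V) := by
    have m1 := mv_nonneg n₁ V₁
    have m2 := mv_nonneg n₂ V₂
    gcongr
  have Pb := Pbound k (2000000 * (V : ℝ) / n) (by positivity) (by
    rw [div_le_iff₀ hnr]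
    have : (8000000 : ℝ) * V ≤ n := by exact_mod_cast hVn
    linarith)
  have Qb := Qbound g₁ hg (1 / ((n : ℝ) * V)) (by positivity) (by
    have : (4 : ℝ) * 10 ^ 16 * (g₁ : ℝ) ^ 2 ≤ n * V := by exact_mod_cast hG
    rw [← mul_assoc, mul_one_div, div_le_iff₀ (by positivity)]
    linarith)
  refine L.trans ?_
  have E1 : 36 * ((ℓ : ℝ) * (k + 1) * (2 * g₁ + 1)) * (2 * n) *
        ((2000000 : ℝ) ^ ℓ * 2000000 ^ k * (2000000 ^ 2 * (g₁ : ℝ) ^ 2) ^ g₁) *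
        (60 * (n : ℝ) ^ 2 / (V : ℝ) ^ 2 * (2304 / ((n : ℝ) * V)) ^ g₁ *
          ((V : ℝ) / n) ^ k * mv n V) =
      4320 * (n : ℝ) ^ 3 / (V : ℝ) ^ 2 * (ℓ * 2000000 ^ ℓ) *
        ((((k : ℝ) + 1) * (2000000 * (V : ℝ) / n) ^ k) *
        ((2 * (g₁ : ℝ) + 1) * (2304 * 2000000 ^ 2 * ((g₁ : ℝ) ^ 2 * (1 / ((n : ℝ) * V)))) ^ g₁)) *
          mv n V := by
    have e1 : (2000000 * (V : ℝ) / n) ^ k = 2000000 ^ k * ((V : ℝ) / n) ^ k := by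
      rw [← mul_pow, mul_div_assoc]
    have e2 : (2304 * 2000000 ^ 2 * ((g₁ : ℝ) ^ 2 * (1 / ((n : ℝ) * V)))) ^ g₁ =
        (2000000 ^ 2 * (g₁ : ℝ) ^ 2) ^ g₁ * (2304 / ((n : ℝ) * V)) ^ g₁ := by
      rw [← mul_pow]; congr 1; ring
    rw [e1, e2]; ring
  rw [E1]
  have PQ : (((k : ℝ) + 1) * (2000000 * (V : ℝ) / n) ^ k) *
        ((2 * (g₁ : ℝ) + 1) * (2304 * 2000000 ^ 2 * ((g₁ : ℝ) ^ 2 * (1 / ((n : ℝ) * V)))) ^ g₁) ≤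
      (1 / 2) ^ k * (48 * 10 ^ 16 * (1 / ((n : ℝ) * V)) * (1 / 2) ^ g₁) :=
    mul_le_mul Pb Qb (by positivity) (by positivity)
  calc 4320 * (n : ℝ) ^ 3 / (V : ℝ) ^ 2 * (ℓ * 2000000 ^ ℓ) *
        ((((k : ℝ) + 1) * (2000000 * (V : ℝ) / n) ^ k) *
        ((2 * (g₁ : ℝ) + 1) * (2304 * 2000000 ^ 2 * ((g₁ : ℝ) ^ 2 * (1 / ((n : ℝ) * V)))) ^ g₁)) *
          mv n V
      ≤ 4320 * (n : ℝ) ^ 3 / (V : ℝ) ^ 2 * (ℓ * 2000000 ^ ℓ) *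
        ((1 / 2) ^ k * (48 * 10 ^ 16 * (1 / ((n : ℝ) * V)) * (1 / 2) ^ g₁)) * mv n V := by
        apply mul_le_mul_of_nonneg_right _ hmv
        exact mul_le_mul_of_nonneg_left PQ (by positivity)
    _ = 207360 * (10 ^ 16 * (n : ℝ) ^ 2 / (V : ℝ) ^ 3 * (ℓ * 2000000 ^ ℓ) * (1 / 2) ^ k *
        (1 / 2) ^ g₁ * mv n V) := by
        field_simp
        ring
    _ ≤ 210000 * (10 ^ 16 * (n : ℝ) ^ 2 / (V : ℝ) ^ 3 * (ℓ * 2000000 ^ ℓ) * (1 / 2) ^ k *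
        (1 / 2) ^ g₁ * mv n V) := by
        apply mul_le_mul_of_nonneg_right (by norm_num)
        positivity
    _ = _ := by ring

end GNH
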