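import Pool.Agent.GNH.Upper

/-!
# GNH-R2: both sides large
One term: `p = (p₁, p₂)`, `q = (q₁, q₂)`, `1 ≤ qᵢ ≤ pᵢ`, `p₁ + p₂ = n + ℓ ≤ 2 n`, `q₁ + q₂ = V + ℓ + 2`.  `mv_upper` twice: product `≤
(6 p₁)^(2(q₁-1)) (6 p₂)^(2(q₂-1)) / ((q₁-1)! (q₂-1)!)^2 * gl a * gl b`, `a = p₁ + 1 - q₁`, `b = p₂ + 1 - q₂`, `a + b = n - V`.
* `(6 pᵢ) ≤ 12 n`: first product `≤ (12 n)^(2 Q)`, `Q = V + ℓ = (q₁ - 1) + (q₂ - 1)`.
* `Q! = (q₁-1)! (q₂-1)! Q.choose (q₁-1) ≤ (q₁-1)! (q₂-1)! 2^Q`: so the quotient is `≤ (24 n)^(2Q)/(Q!)^2`.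
* `gl a gl b ≤ gl (n - V)/(a+b).choose a` (`gl_mul`) and `(a+b).choose a ≥ 2^(min a b) ≥ 4^G` since `a, b ≥ 2 G` (`q₁ + 2 G < p₁ + 2`).
  (`(a+b).choose a ≥ 2^a` for `a ≤ b`: `∏_{i<a} (b+1+i)/(i+1)`, or `Nat.four_pow_le_two_mul_self_mul_centralBinom`-free induction:
  `(a+1+b).choose (a+1) = (a+b).choose a * (a+1+b)/(a+1) ≥ 2 (a+b).choose a` if `b ≥ a + 1`.)
* `36 p₁ p₂ ≤ 36 n^2` (`4 p₁ p₂ ≤ (p₁+p₂)^2 ≤ 4 n^2`); number of terms `(n+ℓ+1)(V+ℓ+3) ≤ 3 n * 5 n`; `36 * 15 ≤ 1000`.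
-/

namespace GNH

open Finset

private theorem choose_ge_aux {a b : ℕ} (h : a ≤ b) : 2 ^ a ≤ (a + b).choose a := by
  induction a with
  | zero => simp
  | succ a ih =>
    have h1 := ih (by omega)
    have h2 := Nat.add_one_mul_choose_eq (a + b) a
    have h3 : (a + 1) * (2 * (a + b).choose a) ≤ (a + 1) * ((a + b + 1).choose (a + 1)) := by
      calc (a + 1) * (2 * (a + b).choose a) = (2 * (a + 1)) * (a + b).choose a := by ring
        _ ≤ (a + b + 1) * (a + b).choose a := Nat.mul_le_mul_right _ (by omega)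
        _ = (a + 1) * ((a + b + 1).choose (a + 1)) := by rw [h2, mul_comm]
    have h4 := Nat.le_of_mul_le_mul_left h3 (by omega)
    have h5 : a + 1 + b = a + b + 1 := by ring
    rw [h5, pow_succ]
    calc 2 ^ a * 2 ≤ (a + b).choose a * 2 := Nat.mul_le_mul_right _ h1
      _ = 2 * (a + b).choose a := by ring
      _ ≤ _ := h4

theorem choose_ge {a b G : ℕ} (ha : 2 * G ≤ a) (hb : 2 * G ≤ b) : 4 ^ G ≤ (a + b).choose a := by
  have h0 : 4 ^ G = 2 ^ (2 * G) := by rw [pow_mul]; norm_num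
  rw [h0]
  rcases le_total a b with h | h
  · exact (Nat.pow_le_pow_right (by norm_num) ha).trans (choose_ge_aux h)
  · have h1 := choose_ge_aux h
    have h2 : (b + a).choose b = (a + b).choose a := by
      rw [add_comm b a]
      exact (Nat.choose_symm_add (a := a) (b := b)).symm
    rw [h2] at h1
    exact (Nat.pow_le_pow_right (by norm_num) hb).trans h1

theorem r2_term {n V ℓ G p₁ p₂ q₁ q₂ : ℕ} (hℓ : ℓ ≤ n) (h1 : p₁ + p₂ = n + ℓ)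
    (h2 : q₁ + q₂ = V + ℓ + 2) (h3 : 1 ≤ q₁) (h4 : 1 ≤ q₂) (h5 : q₁ ≤ p₁) (h6 : q₂ ≤ p₂)
    (h7 : q₁ + 2 * G < p₁ + 2) (h8 : q₂ + 2 * G < p₂ + 2) :
    mv p₁ q₁ * mv p₂ q₂ ≤ ((24 * (n : ℝ)) ^ (V + ℓ) / ((V + ℓ).factorial : ℝ)) ^ 2 *
      gl (n - V) / 4 ^ G := by
  obtain ⟨x, rfl⟩ : ∃ x, q₁ = x + 1 := ⟨q₁ - 1, by omega⟩
  obtain ⟨y, rfl⟩ : ∃ y, q₂ = y + 1 := ⟨q₂ - 1, by omega⟩
  obtain ⟨a, ha⟩ : ∃ a, p₁ = x + a := ⟨p₁ - x, by omega⟩
  obtain ⟨b, hb⟩ : ∃ b, p₂ = y + b := ⟨p₂ - y, by omega⟩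
  have hxy : x + y = V + ℓ := by omega
  have hab : a + b = n - V := by omega
  have hu1 := mv_upper (n := p₁) (V := x + 1) (by omega) (by omega)
  have hu2 := mv_upper (n := p₂) (V := y + 1) (by omega) (by omega)
  have e1 : p₁ + 1 - (x + 1) = a := by omega
  have e2 : p₂ + 1 - (y + 1) = b := by omega
  rw [e1, Nat.add_sub_cancel] at hu1
  rw [e2, Nat.add_sub_cancel] at hu2
  have hn0 : (0 : ℝ) ≤ n := Nat.cast_nonneg n
  have hp1 : 6 * (p₁ : ℝ) ≤ 12 * n := by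
    have : p₁ ≤ 2 * n := by omega
    have : (p₁ : ℝ) ≤ 2 * n := by exact_mod_cast this
    linarith
  have hp2 : 6 * (p₂ : ℝ) ≤ 12 * n := by
    have : p₂ ≤ 2 * n := by omega
    have : (p₂ : ℝ) ≤ 2 * n := by exact_mod_cast this
    linarith
  have hp1' : (0 : ℝ) ≤ 6 * (p₁ : ℝ) := by positivity
  have hp2' : (0 : ℝ) ≤ 6 * (p₂ : ℝ) := by positivity
  have hxf : (0 : ℝ) < (x.factorial : ℝ) := by exact_mod_cast Nat.factorial_pos x
  have hyf : (0 : ℝ) < (y.factorial : ℝ) := by exact_mod_cast Nat.factorial_pos y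
  have hvf : (0 : ℝ) < ((V + ℓ).factorial : ℝ) := by exact_mod_cast Nat.factorial_pos _
  have hga := gl_pos a
  have hgb := gl_pos b
  -- the product of the two bounds
  have hv1 : mv p₁ (x + 1) ≤ (12 * (n : ℝ)) ^ (2 * x) / (x.factorial : ℝ) ^ 2 * gl a := by
    refine hu1.trans (mul_le_mul_of_nonneg_right ?_ hga.le)
    exact div_le_div_of_nonneg_right (pow_le_pow_left₀ hp1' hp1 _) (by positivity)
  have hv2 : mv p₂ (y + 1) ≤ (12 * (n : ℝ)) ^ (2 * y) / (y.factorial : ℝ) ^ 2 * gl b := by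
    refine hu2.trans (mul_le_mul_of_nonneg_right ?_ hgb.le)
    exact div_le_div_of_nonneg_right (pow_le_pow_left₀ hp2' hp2 _) (by positivity)
  have hprod : mv p₁ (x + 1) * mv p₂ (y + 1) ≤
      ((12 * (n : ℝ)) ^ (2 * x) / (x.factorial : ℝ) ^ 2 * gl a) *
      ((12 * (n : ℝ)) ^ (2 * y) / (y.factorial : ℝ) ^ 2 * gl b) :=
    mul_le_mul hv1 hv2 (mv_nonneg _ _) (by positivity)
  -- gluings
  have hch : (4 : ℝ) ^ G ≤ ((a + b).choose a : ℝ) := by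
    have := choose_ge (a := a) (b := b) (G := G) (by omega) (by omega)
    exact_mod_cast this
  have hgl : gl a * gl b ≤ gl (n - V) / 4 ^ G := by
    have h := gl_mul a b
    rw [hab] at h
    rw [le_div_iff₀ (by positivity)]
    refine le_trans (mul_le_mul_of_nonneg_left ?_ (by positivity)) h
    rw [← hab]
    exact hch
  -- factorials
  have hfac : ((V + ℓ).factorial : ℝ) ≤ (x.factorial : ℝ) * y.factorial * 2 ^ (V + ℓ) := by
    rw [← hxy]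
    have h := Nat.add_choose_mul_factorial_mul_factorial x y
    have h' : (((x + y).choose y : ℕ) : ℝ) * x.factorial * y.factorial = (x + y).factorial := by
      exact_mod_cast h
    have hc : (((x + y).choose y : ℕ) : ℝ) ≤ 2 ^ (x + y) := by
      exact_mod_cast Nat.choose_le_two_pow (x + y) y
    rw [← h']
    calc (((x + y).choose y : ℕ) : ℝ) * x.factorial * y.factorial
        = (x.factorial : ℝ) * y.factorial * ((x + y).choose y : ℕ) := by ring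
      _ ≤ (x.factorial : ℝ) * y.factorial * 2 ^ (x + y) :=
          mul_le_mul_of_nonneg_left hc (by positivity)
  have hquot : (12 * (n : ℝ)) ^ (V + ℓ) / ((x.factorial : ℝ) * y.factorial) ≤
      (24 * (n : ℝ)) ^ (V + ℓ) / ((V + ℓ).factorial : ℝ) := by
    rw [div_le_div_iff₀ (by positivity) hvf]
    have e : (24 * (n : ℝ)) ^ (V + ℓ) = (12 * (n : ℝ)) ^ (V + ℓ) * 2 ^ (V + ℓ) := by
      rw [← mul_pow]; congr 1; ring
    rw [e]
    calc (12 * (n : ℝ)) ^ (V + ℓ) * ((V + ℓ).factorial : ℝ)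
        ≤ (12 * (n : ℝ)) ^ (V + ℓ) * ((x.factorial : ℝ) * y.factorial * 2 ^ (V + ℓ)) :=
          mul_le_mul_of_nonneg_left hfac (by positivity)
      _ = (12 * (n : ℝ)) ^ (V + ℓ) * 2 ^ (V + ℓ) * ((x.factorial : ℝ) * y.factorial) := by ring
  have hq0 : (0 : ℝ) ≤ (12 * (n : ℝ)) ^ (V + ℓ) / ((x.factorial : ℝ) * y.factorial) := by
    positivity
  calc mv p₁ (x + 1) * mv p₂ (y + 1)
      ≤ ((12 * (n : ℝ)) ^ (2 * x) / (x.factorial : ℝ) ^ 2 * gl a) *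
        ((12 * (n : ℝ)) ^ (2 * y) / (y.factorial : ℝ) ^ 2 * gl b) := hprod
    _ = ((12 * (n : ℝ)) ^ (V + ℓ) / ((x.factorial : ℝ) * y.factorial)) ^ 2 * (gl a * gl b) := by
        rw [← hxy, mul_comm 2 x, mul_comm 2 y, pow_mul, pow_mul, pow_add, div_pow, mul_pow, mul_pow]
        field_simp
    _ ≤ ((24 * (n : ℝ)) ^ (V + ℓ) / ((V + ℓ).factorial : ℝ)) ^ 2 * (gl (n - V) / 4 ^ G) :=
        mul_le_mul (pow_le_pow_left₀ hq0 hquot 2) hgl (by positivity) (by positivity)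
    _ = _ := by ring

theorem region_two {n V ℓ G : ℕ} (hn : 1 ≤ n) (hℓ : ℓ ≤ n) (hV : V ≤ n) :
    ∑ p ∈ antidiagonal (n + ℓ), ∑ q ∈ antidiagonal (V + ℓ + 2),
      (if ℓ + 1 ≤ q.1 ∧ q.1 ≤ p.1 ∧ ℓ + 1 ≤ q.2 ∧ q.2 ≤ p.2 ∧ q.1 + 2 * G < p.1 + 2 ∧
          q.2 + 2 * G < p.2 + 2 then
        36 * (p.1 : ℝ) * p.2 * mv p.1 q.1 * mv p.2 q.2 else 0) ≤
      1000 * (n : ℝ) ^ 4 * (((24 * (n : ℝ)) ^ (V + ℓ) / ((V + ℓ).factorial : ℝ)) ^ 2 *
        gl (n - V) / 4 ^ G) := by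
  have hn1 : (1 : ℝ) ≤ n := by exact_mod_cast hn
  set B : ℝ := ((24 * (n : ℝ)) ^ (V + ℓ) / ((V + ℓ).factorial : ℝ)) ^ 2 *
        gl (n - V) / 4 ^ G with hB
  have hB0 : 0 ≤ B := by
    have := gl_pos (n - V)
    rw [hB]
    positivity
  have hterm : ∀ p ∈ antidiagonal (n + ℓ), ∀ q ∈ antidiagonal (V + ℓ + 2),
      (if ℓ + 1 ≤ q.1 ∧ q.1 ≤ p.1 ∧ ℓ + 1 ≤ q.2 ∧ q.2 ≤ p.2 ∧ q.1 + 2 * G < p.1 + 2 ∧
          q.2 + 2 * G < p.2 + 2 then
        36 * (p.1 : ℝ) * p.2 * mv p.1 q.1 * mv p.2 q.2 else 0) ≤ 36 * (n : ℝ) ^ 2 * B := by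
    intro p hp q hq
    rw [HasAntidiagonal.mem_antidiagonal] at hp hq
    split_ifs with hc
    · obtain ⟨c1, c2, c3, c4, c5, c6⟩ := hc
      have ht := r2_term (n := n) (V := V) (ℓ := ℓ) (G := G) hℓ hp hq (by omega) (by omega)
        c2 c4 c5 c6
      rw [← hB] at ht
      have hpp : (p.1 : ℝ) * p.2 ≤ (n : ℝ) ^ 2 := by
        have h1 : ((p.1 : ℝ) + p.2) ≤ 2 * n := by
          have : p.1 + p.2 ≤ 2 * n := by omega
          exact_mod_cast this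
        have h2 : (0 : ℝ) ≤ (p.1 : ℝ) := Nat.cast_nonneg _
        have h3 : (0 : ℝ) ≤ (p.2 : ℝ) := Nat.cast_nonneg _
        nlinarith [sq_nonneg ((p.1 : ℝ) - p.2)]
      have hm0 : 0 ≤ mv p.1 q.1 * mv p.2 q.2 := mul_nonneg (mv_nonneg _ _) (mv_nonneg _ _)
      calc 36 * (p.1 : ℝ) * p.2 * mv p.1 q.1 * mv p.2 q.2
          = 36 * ((p.1 : ℝ) * p.2) * (mv p.1 q.1 * mv p.2 q.2) := by ring
        _ ≤ 36 * (n : ℝ) ^ 2 * B := by
            apply mul_le_mul _ ht hm0 (by positivity)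
            linarith
    · positivity
  calc _ ≤ ∑ p ∈ antidiagonal (n + ℓ), ∑ q ∈ antidiagonal (V + ℓ + 2), 36 * (n : ℝ) ^ 2 * B :=
        sum_le_sum fun p hp => sum_le_sum fun q hq => hterm p hp q hq
    _ = (((n : ℝ) + ℓ + 1) * ((V : ℝ) + ℓ + 2 + 1)) * (36 * (n : ℝ) ^ 2 * B) := by
        rw [sum_const, sum_const, Nat.card_antidiagonal, Nat.card_antidiagonal]
        simp only [nsmul_eq_mul]
        push_cast
        ring
    _ ≤ (15 * (n : ℝ) ^ 2) * (36 * (n : ℝ) ^ 2 * B) := by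
        apply mul_le_mul_of_nonneg_right _ (by positivity)
        have hl : (ℓ : ℝ) ≤ n := by exact_mod_cast hℓ
        have hv : (V : ℝ) ≤ n := by exact_mod_cast hV
        have h1 : ((n : ℝ) + ℓ + 1) ≤ 3 * n := by linarith
        have h2 : ((V : ℝ) + ℓ + 2 + 1) ≤ 5 * n := by linarith
        calc ((n : ℝ) + ℓ + 1) * ((V : ℝ) + ℓ + 2 + 1) ≤ (3 * n) * (5 * n) :=
              mul_le_mul h1 h2 (by positivity) (by positivity)
          _ = 15 * (n : ℝ) ^ 2 := by ring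
    _ = 540 * ((n : ℝ) ^ 4 * B) := by ring
    _ ≤ 1000 * ((n : ℝ) ^ 4 * B) := by
        apply mul_le_mul_of_nonneg_right (by norm_num) (by positivity)
    _ = _ := by ring

end GNH
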