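import Pool.Agent.GNH.Count
import Pool.Agent.GNH.R1Sum
import Pool.Agent.GNH.R2
import Pool.Agent.GNH.Low
import Pool.Agent.GNH.Param

/-!
# GNH-Total: expected number of simple separating non-contractible cycles of length ℓ
`cut_count`; every pair `(p, q)` with the four conditions satisfies `p.1 + 2 ≤ q.1 + 2 G` or `p.2 + 2 ≤ q.2 + 2 G` or both reversed strict
inequalities: the sum is at most the sum of `region_one`, `region_one'`, `region_two` (termwise, all terms `≥ 0`).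
`gl (n - V) ≤ exp (C √n log n) mv n V` (`mv_low` with `p = n - V`, even as `V + 2 g = n + 2`, `p ≥ p₀`), and `param` gives for `ℓ ≤ log n` (`ℓ ≤ n`)
`region_two ≤ (1/n) mv n V`.  `V ≥ (η/2) n`: `n^2/V^3 ≤ 8/(η^3 n)`; `2 * 10^22 * 8 ≤ 10^24`.
-/

namespace GNH

open SST Filter Topology

theorem total {θ : ℝ} (h : 1 / 2 - 1 / 10 ^ 50 < θ) (h' : θ < 1 / 2) {g : ℕ → ℕ}
    (hg : Tendsto (fun n => (g n : ℝ) / n) atTop (𝓝 θ)) :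
    ∀ᶠ n : ℕ in atTop, ∃ V : ℕ, V + 2 * g n = n + 2 ∧ 1 ≤ V ∧ 3 ≤ g n ∧
      ∀ ℓ : ℕ, 1 ≤ ℓ → (ℓ : ℝ) ≤ Real.log n →
        ((SSC n V ℓ).ncard : ℝ) / (6 * n).factorial ≤
          (10 ^ 24 / (1 - 2 * θ) ^ 3 * (ℓ * 2000000 ^ ℓ) / n + 1 / n) * mv n V := by
  obtain ⟨C, p₀, hC, hp₀, hlow⟩ := mv_low
  filter_upwards [param C p₀ h h' hg, eventually_ge_atTop 1] with n hn hn1
  obtain ⟨V, G, hV, hV1, h8, hG, hVη, hp, hg3, hpar⟩ := hn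
  refine ⟨V, hV, hV1, hg3, fun ℓ hℓ hℓn => ?_⟩
  have hVn : V ≤ n := by omega
  have hnR : (1 : ℝ) ≤ n := by exact_mod_cast hn1
  have hn0 : (0 : ℝ) < n := by linarith
  have hVR : (1 : ℝ) ≤ V := by exact_mod_cast hV1
  have hV0 : (0 : ℝ) < V := by linarith
  have hη : 0 < 1 - 2 * θ := by linarith
  have hℓn' : ℓ ≤ n := by
    have h1 : Real.log n ≤ n - 1 := Real.log_le_sub_one_of_pos hn0
    have h2 : (ℓ : ℝ) ≤ n := by linarith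
    exact_mod_cast h2
  have hm := mv_nonneg n V
  have hgl : gl (n - V) ≤ Real.exp (C * Real.sqrt n * Real.log n) * mv n V := by
    refine hlow n V (n - V) (by omega) ?_ hp hV1
    exact ⟨g n - 1, by omega⟩
  refine (cut_count hn1 hℓ).trans ?_
  have hr1 := region_one (n := n) (V := V) (ℓ := ℓ) (G := G) hℓ hV1 h8 hG
  have hr1' := region_one' (n := n) (V := V) (ℓ := ℓ) (G := G) hℓ hV1 h8 hG
  have hr2 := region_two (n := n) (V := V) (ℓ := ℓ) (G := G) hn1 hℓn' hVn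
  have hterm : ∀ p ∈ Finset.HasAntidiagonal.antidiagonal (n + ℓ), ∀ q ∈ Finset.HasAntidiagonal.antidiagonal (V + ℓ + 2),
      (if ℓ + 1 ≤ q.1 ∧ q.1 ≤ p.1 ∧ ℓ + 1 ≤ q.2 ∧ q.2 ≤ p.2 then
          36 * (p.1 : ℝ) * p.2 * mv p.1 q.1 * mv p.2 q.2 else 0) ≤
      (if ℓ + 1 ≤ q.1 ∧ q.1 ≤ p.1 ∧ ℓ + 1 ≤ q.2 ∧ q.2 ≤ p.2 ∧ p.1 + 2 ≤ q.1 + 2 * G then
        36 * (p.1 : ℝ) * p.2 * mv p.1 q.1 * mv p.2 q.2 else 0) +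
      (if ℓ + 1 ≤ q.1 ∧ q.1 ≤ p.1 ∧ ℓ + 1 ≤ q.2 ∧ q.2 ≤ p.2 ∧ p.2 + 2 ≤ q.2 + 2 * G then
        36 * (p.1 : ℝ) * p.2 * mv p.1 q.1 * mv p.2 q.2 else 0) +
      (if ℓ + 1 ≤ q.1 ∧ q.1 ≤ p.1 ∧ ℓ + 1 ≤ q.2 ∧ q.2 ≤ p.2 ∧ q.1 + 2 * G < p.1 + 2 ∧
          q.2 + 2 * G < p.2 + 2 then
        36 * (p.1 : ℝ) * p.2 * mv p.1 q.1 * mv p.2 q.2 else 0) := by
    intro p _ q _
    have h0 : 0 ≤ 36 * (p.1 : ℝ) * p.2 * mv p.1 q.1 * mv p.2 q.2 := by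
      have := mv_nonneg p.1 q.1
      have := mv_nonneg p.2 q.2
      positivity
    generalize 36 * (p.1 : ℝ) * p.2 * mv p.1 q.1 * mv p.2 q.2 = x at h0 ⊢
    have e1 : 0 ≤ (if ℓ + 1 ≤ q.1 ∧ q.1 ≤ p.1 ∧ ℓ + 1 ≤ q.2 ∧ q.2 ≤ p.2 ∧
        p.1 + 2 ≤ q.1 + 2 * G then x else 0) := by split_ifs <;> [exact h0; exact le_rfl]
    have e2 : 0 ≤ (if ℓ + 1 ≤ q.1 ∧ q.1 ≤ p.1 ∧ ℓ + 1 ≤ q.2 ∧ q.2 ≤ p.2 ∧
        p.2 + 2 ≤ q.2 + 2 * G then x else 0) := by split_ifs <;> [exact h0; exact le_rfl]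
    have e3 : 0 ≤ (if ℓ + 1 ≤ q.1 ∧ q.1 ≤ p.1 ∧ ℓ + 1 ≤ q.2 ∧ q.2 ≤ p.2 ∧
        q.1 + 2 * G < p.1 + 2 ∧ q.2 + 2 * G < p.2 + 2 then x else 0) := by
      split_ifs <;> [exact h0; exact le_rfl]
    by_cases hc : ℓ + 1 ≤ q.1 ∧ q.1 ≤ p.1 ∧ ℓ + 1 ≤ q.2 ∧ q.2 ≤ p.2
    · rw [if_pos hc]
      by_cases c1 : p.1 + 2 ≤ q.1 + 2 * G
      · rw [if_pos (⟨hc.1, hc.2.1, hc.2.2.1, hc.2.2.2, c1⟩ : ℓ + 1 ≤ q.1 ∧ q.1 ≤ p.1 ∧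
          ℓ + 1 ≤ q.2 ∧ q.2 ≤ p.2 ∧ p.1 + 2 ≤ q.1 + 2 * G)]
        linarith
      · by_cases c2 : p.2 + 2 ≤ q.2 + 2 * G
        · rw [if_pos (⟨hc.1, hc.2.1, hc.2.2.1, hc.2.2.2, c2⟩ : ℓ + 1 ≤ q.1 ∧ q.1 ≤ p.1 ∧
            ℓ + 1 ≤ q.2 ∧ q.2 ≤ p.2 ∧ p.2 + 2 ≤ q.2 + 2 * G)]
          linarith
        · rw [if_pos (⟨hc.1, hc.2.1, hc.2.2.1, hc.2.2.2, by omega, by omega⟩ :
            ℓ + 1 ≤ q.1 ∧ q.1 ≤ p.1 ∧ ℓ + 1 ≤ q.2 ∧ q.2 ≤ p.2 ∧ q.1 + 2 * G < p.1 + 2 ∧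
            q.2 + 2 * G < p.2 + 2)]
          linarith
    · rw [if_neg hc]
      linarith
  have hsum := Finset.sum_le_sum fun p hp => Finset.sum_le_sum fun q hq => hterm p hp q hq
  refine hsum.trans ?_
  simp only [Finset.sum_add_distrib]
  refine (add_le_add (add_le_add hr1 hr1') hr2).trans ?_
  have hb1 : (n : ℝ) ^ 2 / (V : ℝ) ^ 3 ≤ 8 / ((1 - 2 * θ) ^ 3 * n) := by
    have h3 : (1 - 2 * θ) ^ 3 * (n : ℝ) ^ 3 ≤ 8 * (V : ℝ) ^ 3 := by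
      have := pow_le_pow_left₀ (by positivity) hVη 3
      nlinarith [this]
    rw [div_le_div_iff₀ (by positivity) (by positivity)]
    nlinarith [h3]
  have hb2 : 1000 * (n : ℝ) ^ 4 * (((24 * (n : ℝ)) ^ (V + ℓ) / ((V + ℓ).factorial : ℝ)) ^ 2 *
      gl (n - V) / 4 ^ G) ≤ 1 / n * mv n V := by
    have h4 := hpar ℓ hℓn
    calc 1000 * (n : ℝ) ^ 4 * (((24 * (n : ℝ)) ^ (V + ℓ) / ((V + ℓ).factorial : ℝ)) ^ 2 *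
          gl (n - V) / 4 ^ G)
        ≤ 1000 * (n : ℝ) ^ 4 * (((24 * (n : ℝ)) ^ (V + ℓ) / ((V + ℓ).factorial : ℝ)) ^ 2 *
          (Real.exp (C * Real.sqrt n * Real.log n) * mv n V) / 4 ^ G) := by gcongr
      _ = 1000 * (n : ℝ) ^ 4 * (((24 * (n : ℝ)) ^ (V + ℓ) / ((V + ℓ).factorial : ℝ)) ^ 2 *
          Real.exp (C * Real.sqrt n * Real.log n) / 4 ^ G) * mv n V := by ring
      _ ≤ 1 / n * mv n V := mul_le_mul_of_nonneg_right h4 hm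
  have hb3 : (10 : ℝ) ^ 22 * (ℓ * 2000000 ^ ℓ) * (n : ℝ) ^ 2 / (V : ℝ) ^ 3 ≤
      10 ^ 22 * (ℓ * 2000000 ^ ℓ) * (8 / ((1 - 2 * θ) ^ 3 * n)) := by
    rw [mul_div_assoc]
    gcongr
  have hb4 : (10 : ℝ) ^ 22 * (ℓ * 2000000 ^ ℓ) * (8 / ((1 - 2 * θ) ^ 3 * n)) * 2 ≤
      10 ^ 24 / (1 - 2 * θ) ^ 3 * (ℓ * 2000000 ^ ℓ) / n := by
    have : (10 : ℝ) ^ 24 / (1 - 2 * θ) ^ 3 * (ℓ * 2000000 ^ ℓ) / n -
        10 ^ 22 * (ℓ * 2000000 ^ ℓ) * (8 / ((1 - 2 * θ) ^ 3 * n)) * 2 =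
        84 * 10 ^ 22 * (ℓ * 2000000 ^ ℓ) / ((1 - 2 * θ) ^ 3 * n) := by
      field_simp
      ring
    have h5 : 0 ≤ 84 * 10 ^ 22 * ((ℓ : ℝ) * 2000000 ^ ℓ) / ((1 - 2 * θ) ^ 3 * n) := by
      positivity
    linarith
  have hb5 := mul_le_mul_of_nonneg_right hb3 hm
  have hb6 := mul_le_mul_of_nonneg_right hb4 hm
  linarith

end GNH
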