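import Pool.Agent.GNH.ConnLow

namespace GNH

theorem mv_upper {n V : ℕ} (hn : 1 ≤ n) (hV : 1 ≤ V) :
    mv n V ≤ (6 * (n : ℝ)) ^ (2 * (V - 1)) / ((V - 1).factorial : ℝ) ^ 2 * gl (n + 1 - V) := by
  induction V generalizing n with
  | zero => omega
  | succ V ih =>
    rcases Nat.eq_zero_or_pos V with h0 | hVp
    · subst h0
      simpa using mv_le_gl n 1
    obtain ⟨W, rfl⟩ : ∃ W, V = W + 1 := ⟨V - 1, by omega⟩
    rcases Nat.lt_or_ge n 2 with hn2 | hn2
    · have hn1 : n = 1 := by omega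
      subst hn1
      by_cases hW : W = 1
      · subst hW
        have h1 : mv 1 3 ≤ gl 1 := mv_le_gl 1 3
        have h2 : gl 1 ≤ 6 := by simpa using gl_le 1
        have h3 : (6 * ((1 : ℕ) : ℝ)) ^ (2 * (1 + 1 + 1 - 1)) / ((1 + 1 + 1 - 1).factorial : ℝ) ^ 2
            * gl (1 + 1 - (1 + 1 + 1)) = 324 := by
          have : (1 + 1 - (1 + 1 + 1) : ℕ) = 0 := by norm_num
          rw [this, gl_zero]
          norm_num [Nat.factorial]
        rw [h3]
        change mv 1 3 ≤ 324
        linarith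
      · have hz : mv 1 (W + 1 + 1) = 0 := by
          rcases Nat.eq_zero_or_pos W with h | h
          · subst h
            exact mv_parity (by decide)
          · exact mv_gt le_rfl (by omega)
        rw [hz]
        have := gl_pos (1 + 1 - (W + 1 + 1))
        positivity
    · obtain ⟨m, rfl⟩ : ∃ m, n = m + 1 := ⟨n - 1, by omega⟩
      have hm : 1 ≤ m := by omega
      have key := mv_ineq (n := m) (V := W + 1) hm (by omega)
      have ihm := ih (n := m) hm (by omega)
      have e1 : m + 1 + 1 - (W + 1 + 1) = m + 1 - (W + 1) := by omega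
      rw [e1]
      have e2 : W + 1 + 1 - 1 = W + 1 := by omega
      have e3 : W + 1 - 1 = W := by omega
      rw [e2]
      rw [e3] at ihm
      have hc : (((W + 1 + 1).choose 2 : ℕ) : ℝ) = ((W : ℝ) + 2) * (W + 1) / 2 := by
        rw [Nat.cast_choose_two]
        push_cast
        ring
      rw [hc] at key
      have h0 : 0 ≤ (((W + 1 + 3).choose 4 : ℕ) : ℝ) * mv (m + 1) (W + 1 + 3) :=
        mul_nonneg (by positivity) (mv_nonneg _ _)
      have hb : 0 ≤ mv m (W + 1) := mv_nonneg _ _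
      have hw : (0 : ℝ) < (W : ℝ) + 1 := by positivity
      have hmr : (0 : ℝ) ≤ (m : ℝ) := by positivity
      have k1 : ((W : ℝ) + 1) ^ 2 * mv (m + 1) (W + 1 + 1) ≤ (6 * ((m : ℝ) + 1)) ^ 2 * mv m (W + 1) := by
        have a1 : ((W : ℝ) + 2) * (W + 1) / 2 * mv (m + 1) (W + 1 + 1) ≤ 6 * m * (3 * m + 2) * mv m (W + 1) := by
          linarith
        have a2 : ((W : ℝ) + 1) ^ 2 * mv (m + 1) (W + 1 + 1) ≤
            ((W : ℝ) + 2) * (W + 1) * mv (m + 1) (W + 1 + 1) := by
          apply mul_le_mul_of_nonneg_right _ (mv_nonneg _ _)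
          nlinarith
        have a3 : 12 * (m : ℝ) * (3 * m + 2) * mv m (W + 1) ≤ (6 * ((m : ℝ) + 1)) ^ 2 * mv m (W + 1) := by
          apply mul_le_mul_of_nonneg_right _ hb
          nlinarith
        nlinarith
      have hf : ((W + 1).factorial : ℝ) = ((W : ℝ) + 1) * W.factorial := by
        rw [Nat.factorial_succ]
        push_cast
        ring
      have hg : 0 < gl (m + 1 - (W + 1)) := gl_pos _
      have hfw : (0 : ℝ) < (W.factorial : ℝ) := by positivity
      rw [hf]
      have k2 : mv (m + 1) (W + 1 + 1) ≤ (6 * ((m : ℝ) + 1)) ^ 2 / ((W : ℝ) + 1) ^ 2 * mv m (W + 1) := by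
        rw [div_mul_eq_mul_div, le_div_iff₀ (by positivity)]
        linarith
      refine k2.trans ?_
      have k3 : mv m (W + 1) ≤ (6 * ((m : ℝ) + 1)) ^ (2 * W) / (W.factorial : ℝ) ^ 2 * gl (m + 1 - (W + 1)) := by
        refine ihm.trans ?_
        gcongr
        linarith
      calc (6 * ((m : ℝ) + 1)) ^ 2 / ((W : ℝ) + 1) ^ 2 * mv m (W + 1)
          ≤ (6 * ((m : ℝ) + 1)) ^ 2 / ((W : ℝ) + 1) ^ 2 *
            ((6 * ((m : ℝ) + 1)) ^ (2 * W) / (W.factorial : ℝ) ^ 2 * gl (m + 1 - (W + 1))) := by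
            gcongr
        _ = (6 * (((m + 1 : ℕ)) : ℝ)) ^ (2 * (W + 1)) / (((W : ℝ) + 1) * W.factorial) ^ 2 *
            gl (m + 1 - (W + 1)) := by
            push_cast
            field_simp
            ring

end GNH
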