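import Pool.Agent.GNH.MooreA
import Pool.Agent.GNH.MooreB

/-!
# GNH-WDim: the antisymmetric functions without short periods form a small space

A minimal set of darts, closed under reversal, on which the elements of `Wk T k` are determined is sparse
by the Moore bound.
-/

namespace GNH

open SST Classical

variable {D : Type} [Fintype D]

omit [Fintype D] in
private theorem per_of (T : Tri D) {x : D → ℝ} {e : D} (hx : ∀ d, x (T.a d) = - x d)
    (c : List D) (h0 : ∀ d ∈ c, d ≠ e → d ≠ T.a e → x d = 0) :
    per x c = x e * (T.chain c e : ℝ) := by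
  induction c with
  | nil => simp [per, Tri.chain]
  | cons d c ih =>
    rw [per_cons, ih fun d' hd' => h0 d' (List.mem_cons_of_mem _ hd')]
    rw [Tri.chain_cons]
    have h2 : x d = x e * ((Tri.ind d e - Tri.ind d (T.a e) : ℤ) : ℝ) := by
      unfold Tri.ind
      by_cases h3 : d = e
      · have h4 : e ≠ T.a e := (T.ane e).symm
        rw [h3, if_pos rfl, if_neg h4]
        push_cast
        ring
      · by_cases h4 : d = T.a e
        · rw [if_neg h3, if_pos h4, h4, hx]
          push_cast
          ring
        · rw [h0 d (List.mem_cons_self ..) h3 h4, if_neg h3, if_neg h4]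
          push_cast
          ring
    rw [h2]
    push_cast
    ring

theorem finrank_Wk (T : Tri D) {δ k : ℕ} (hδ : 1 ≤ δ) (hV : Nat.card T.V < δ ^ k) :
    Module.finrank ℝ (Wk T k) ≤ δ * Nat.card T.V := by
  have hfinV : Finite T.V := by
    unfold Tri.V
    infer_instance
  -- sets of darts which determine the elements of `Wk`
  let P : Finset D → Prop := fun S => T.AC S ∧ ∀ x ∈ Wk T k, (∀ d ∈ S, x d = 0) → x = 0
  have hP : ∃ S, P S := ⟨Finset.univ, fun _ _ => Finset.mem_univ _,
    fun x _ h => funext fun d => h d (Finset.mem_univ d)⟩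
  obtain ⟨S, hS, hmin⟩ := WellFounded.has_min (measure (Finset.card (α := D))).wf {S | P S} hP
  obtain ⟨hAC, hdet⟩ : P S := hS
  -- minimality
  have hx : ∀ e ∈ S, ∃ x ∈ Wk T k, (∀ d ∈ S, d ≠ e → d ≠ T.a e → x d = 0) ∧ x e ≠ 0 := by
    intro e he
    by_contra hcon
    push Not at hcon
    have hP' : P ((S.erase e).erase (T.a e)) := by
      refine ⟨fun d hd => ?_, fun x hxW hx0 => ?_⟩
      · rw [Finset.mem_erase, Finset.mem_erase] at hd ⊢
        obtain ⟨h1, h2, h3⟩ := hd
        refine ⟨fun h => h2 (T.a.injective h), fun h => h1 ?_, hAC d h3⟩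
        rw [← h, T.aa]
      · have h1 : ∀ d ∈ S, d ≠ e → d ≠ T.a e → x d = 0 := fun d hd h2 h3 =>
          hx0 d (Finset.mem_erase.2 ⟨h3, Finset.mem_erase.2 ⟨h2, hd⟩⟩)
        have h2 := hcon x hxW h1
        refine hdet x hxW fun d hd => ?_
        by_cases h3 : d = e
        · rw [h3, h2]
        · by_cases h4 : d = T.a e
          · rw [h4, hxW.1, h2, neg_zero]
          · exact h1 d hd h3 h4
    refine hmin _ hP' ?_
    show ((S.erase e).erase (T.a e)).card < S.card
    exact lt_of_le_of_lt (Finset.card_le_card (Finset.erase_subset _ _))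
      (Finset.card_erase_lt_of_mem he)
  -- short closed walks have chain zero
  have hchain : ∀ c : List D, T.Closed c → c.length ≤ 2 * k → (∀ d ∈ c, d ∈ S) →
      ∀ d, T.chain c d = 0 := by
    intro c hc hl hcS e
    by_cases he : e ∈ S
    · obtain ⟨x, hxW, hx0, hxe⟩ := hx e he
      have h1 := per_of T hxW.1 c (e := e) fun d hd h2 h3 => hx0 d (hcS d hd) h2 h3
      rw [hxW.2 c hc hl] at h1
      have h2 := mul_eq_zero.1 h1.symm
      rcases h2 with h2 | h2
      · exact absurd h2 hxe
      · exact_mod_cast h2
    · refine Tri.chain_of_not_mem T (fun h => he (hcS e h)) fun h => he ?_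
      have h1 := hAC _ (hcS _ h)
      rwa [T.aa] at h1
  have hcard : S.card ≤ 2 * δ * Nat.card T.V := by
    by_contra hlt
    push Not at hlt
    have h1 : (T.VK S).card ≤ Nat.card T.V := by
      have := Fintype.ofFinite T.V
      rw [Nat.card_eq_fintype_card]
      exact Finset.card_le_univ _
    have h2 : 2 * δ * (T.VK S).card < S.card :=
      lt_of_le_of_lt (Nat.mul_le_mul_left _ h1) hlt
    obtain ⟨S', hsub, hAC', hne, hdeg⟩ := exists_dense T hAC h2
    have h3 := moore T hAC' hne hδ hdeg fun c hc hl hcS => hchain c hc hl fun d hd => hsub (hcS d hd)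
    omega
  -- half of the darts of `S`
  obtain ⟨e⟩ : Nonempty (D ≃ Fin (Fintype.card D)) := ⟨Fintype.equivFin D⟩
  set Cp : Finset D := S.filter fun d => e d < e (T.a d) with hCp
  have hcard' : 2 * Cp.card ≤ S.card := by
    have h1 : Disjoint Cp (Cp.image T.a) := by
      rw [Finset.disjoint_left]
      intro d hd hd'
      obtain ⟨d', hd1, rfl⟩ := Finset.mem_image.1 hd'
      have h2 := (Finset.mem_filter.1 hd).2
      have h3 := (Finset.mem_filter.1 hd1).2
      rw [T.aa] at h2
      exact lt_asymm h2 h3
    have h2 : Cp ∪ Cp.image T.a ⊆ S := by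
      intro d hd
      rcases Finset.mem_union.1 hd with h3 | h3
      · exact (Finset.mem_filter.1 h3).1
      · obtain ⟨d', hd1, rfl⟩ := Finset.mem_image.1 h3
        exact hAC d' (Finset.mem_filter.1 hd1).1
    have h3 := Finset.card_le_card h2
    rw [Finset.card_union_of_disjoint h1, Finset.card_image_of_injective _ T.a.injective] at h3
    omega
  let Rp : Wk T k →ₗ[ℝ] (Cp → ℝ) :=
    { toFun := fun h d => h.1 d.1
      map_add' := fun h h' => by
        funext d
        simp only [Submodule.coe_add, Pi.add_apply]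
      map_smul' := fun c h => by
        funext d
        simp only [Submodule.coe_smul, Pi.smul_apply, RingHom.id_apply] }
  have hinj : Function.Injective Rp := by
    rw [← LinearMap.ker_eq_bot, LinearMap.ker_eq_bot']
    intro h hh
    have h1 : ∀ d ∈ Cp, h.1 d = 0 := fun d hd => congrFun hh ⟨d, hd⟩
    apply Subtype.ext
    refine hdet h.1 h.2 fun d hd => ?_
    rcases lt_trichotomy (e d) (e (T.a d)) with h2 | h2 | h2
    · exact h1 d (Finset.mem_filter.2 ⟨hd, h2⟩)
    · exact absurd (e.injective h2).symm (T.ane d)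
    · have h3 : h.1 (T.a d) = 0 := by
        refine h1 (T.a d) (Finset.mem_filter.2 ⟨hAC d hd, ?_⟩)
        rw [T.aa]
        exact h2
      rw [h.2.1 d] at h3
      linarith
  have h1 := LinearMap.finrank_le_finrank_of_injective hinj
  rw [Module.finrank_fintype_fun_eq_card, Fintype.card_coe] at h1
  have h2 : 2 * Cp.card ≤ 2 * (δ * Nat.card T.V) := by
    rw [← mul_assoc]
    exact hcard'.trans hcard
  omega

end GNH
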