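import Pool.Agent.GNH.Total
import Pool.Agent.SST.E.Pos

/-!
# GNH-Whp: no short simple separating non-contractible cycles, labelled triangulations
`markov`: if `T.HasSSC L` then there are `ℓ ∈ [1, ⌊L⌋]` and `c : Fin ℓ → Fin (6n)` with `(T, c) ∈ SSC n V ℓ` (the list `c` of length `ℓ ≥ 1`;
`List.ofFn c.get = c`: `List.ofFn_get`); so the number of such `T` is at most the sum of `(SSC n V ℓ).ncard` (image under `Prod.fst`,
`Set.ncard_image_le`, union over `ℓ`).  `Trn n g = {T connected, V + 2 g = n + 2}`, so `card V = V`.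
`whp`: `(Trn n (g n)).ncard / (6n)! = nu n (g n) = mv n V > 0` (`nu_pos` of `SST/E/Pos` with `SST.toda_two` for the hypothesis, `2 g n ≤ n + 1` as `V ≥ 1`; or simply
division by 0 is harmless: if `(Trn ..).ncard = 0` the ratio is `0/0 = 0`).  With `L = log n/30`:
ratio `≤ ∑_{ℓ=1}^{⌊L⌋} (10^24/η^3 * ℓ 2000000^ℓ/n + 1/n) ≤ L (10^24/η^3 * L * 2000000^L + 1)/n`, and `2000000 ≤ exp 15`, so
`2000000^L ≤ exp (log n/2) = √n`: the bound is `O((log n)^2/√n) → 0`.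
-/

namespace GNH

open SST Filter Topology

private theorem exp15 : (2000000 : ℝ) ≤ Real.exp 15 := by
  have h : (2.7 : ℝ) ≤ Real.exp 1 := by
    have := Real.exp_one_gt_d9
    linarith
  have h2 : Real.exp 15 = Real.exp 1 ^ 15 := by
    rw [← Real.exp_nat_mul]
    norm_num
  rw [h2]
  calc (2000000 : ℝ) ≤ 2.7 ^ 15 := by norm_num
    _ ≤ _ := pow_le_pow_left₀ (by norm_num) h 15

private theorem sum_bound (K : ℝ) (hK : 0 ≤ K) {n : ℕ} (hn : 3 ≤ n) :
    ∑ ℓ ∈ Finset.Icc 1 ⌊Real.log n / 30⌋₊, (K * ((ℓ : ℝ) * 2000000 ^ ℓ) / n + 1 / n) ≤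
      (K + 1) * (Real.log n ^ 2 / Real.sqrt n) := by
  have hn3 : (3 : ℝ) ≤ n := by exact_mod_cast hn
  have hn0 : (0 : ℝ) < n := by linarith
  have hlog : 1 ≤ Real.log n := by
    rw [Real.le_log_iff_exp_le hn0]
    have := Real.exp_one_lt_d9
    linarith
  set L : ℝ := Real.log n / 30 with hL
  have hL0 : 0 ≤ L := by rw [hL]; positivity
  have hLl : L ≤ Real.log n := by rw [hL]; linarith
  have hsq : 0 < Real.sqrt n := Real.sqrt_pos.2 hn0
  have hsq1 : 1 ≤ Real.sqrt n := by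
    rw [Real.one_le_sqrt]
    linarith
  have hexp : Real.exp (Real.log n / 2) = Real.sqrt n := by
    rw [Real.exp_half, Real.exp_log hn0]
  have hterm : ∀ ℓ ∈ Finset.Icc 1 ⌊L⌋₊, K * ((ℓ : ℝ) * 2000000 ^ ℓ) / n + 1 / n ≤
      (K + 1) * (Real.log n / Real.sqrt n) := by
    intro ℓ hℓ
    rw [Finset.mem_Icc] at hℓ
    have h1 : (ℓ : ℝ) ≤ L := (Nat.le_floor_iff hL0).1 hℓ.2
    have h2 : (2000000 : ℝ) ^ ℓ ≤ Real.sqrt n := by
      calc (2000000 : ℝ) ^ ℓ ≤ Real.exp 15 ^ ℓ := pow_le_pow_left₀ (by norm_num) exp15 ℓ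
        _ = Real.exp (ℓ * 15) := by rw [← Real.exp_nat_mul]
        _ ≤ Real.exp (Real.log n / 2) := by
            apply Real.exp_le_exp.2
            rw [hL] at h1
            linarith
        _ = _ := hexp
    have h3 : (ℓ : ℝ) * 2000000 ^ ℓ ≤ Real.log n * Real.sqrt n :=
      mul_le_mul (h1.trans hLl) h2 (by positivity) (by linarith)
    have h4 : K * ((ℓ : ℝ) * 2000000 ^ ℓ) / n + 1 / n ≤
        (K + 1) * (Real.log n * Real.sqrt n) / n := by
      rw [← add_div]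
      apply div_le_div_of_nonneg_right _ hn0.le
      have h5 : 1 ≤ Real.log n * Real.sqrt n := one_le_mul_of_one_le_of_one_le hlog hsq1
      have h6 := mul_le_mul_of_nonneg_left h3 hK
      linarith
    refine h4.trans (le_of_eq ?_)
    rw [mul_div_assoc]
    congr 1
    rw [div_eq_div_iff hn0.ne' hsq.ne', mul_assoc, Real.mul_self_sqrt hn0.le]
  refine (Finset.sum_le_card_nsmul _ _ _ hterm).trans ?_
  rw [Nat.card_Icc, Nat.add_sub_cancel, nsmul_eq_mul]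
  have h7 : (⌊L⌋₊ : ℝ) ≤ Real.log n := (Nat.floor_le hL0).trans hLl
  have h8 : 0 ≤ (K + 1) * (Real.log n / Real.sqrt n) := by positivity
  calc (⌊L⌋₊ : ℝ) * ((K + 1) * (Real.log n / Real.sqrt n))
      ≤ Real.log n * ((K + 1) * (Real.log n / Real.sqrt n)) := mul_le_mul_of_nonneg_right h7 h8
    _ = _ := by ring

private theorem lim_bound (K : ℝ) :
    Tendsto (fun n : ℕ => (K + 1) * (Real.log n ^ 2 / Real.sqrt n)) atTop (𝓝 0) := by
  have h1 : Tendsto (fun x : ℝ => Real.log x ^ 2 / Real.sqrt x) atTop (𝓝 0) := by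
    have h2 := isLittleO_log_rpow_rpow_atTop (2 : ℝ) (show (0 : ℝ) < 1 / 2 by norm_num)
    have h3 := h2.tendsto_div_nhds_zero
    refine h3.congr' ?_
    filter_upwards [eventually_ge_atTop 1] with x hx
    rw [Real.sqrt_eq_rpow, Real.rpow_two]
  have h4 := (h1.comp tendsto_natCast_atTop_atTop).const_mul (K + 1)
  rw [mul_zero] at h4
  exact h4

theorem markov {n g V : ℕ} (hV : V + 2 * g = n + 2) (L : ℝ) :
    {T | T ∈ Trn n g ∧ T.HasSSC L}.ncard ≤ ∑ ℓ ∈ Finset.Icc 1 ⌊L⌋₊, (SSC n V ℓ).ncard := by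
  have hsub : {T | T ∈ Trn n g ∧ T.HasSSC L} ⊆
      ⋃ ℓ ∈ Finset.Icc 1 ⌊L⌋₊, Prod.fst '' SSC n V ℓ := by
    rintro T ⟨⟨h1, h2⟩, c, hc, c1, c2, c3, c4, c5⟩
    have hpos : 1 ≤ c.length := List.length_pos_iff.2 hc
    have hL : c.length ≤ ⌊L⌋₊ := Nat.le_floor c5
    have h2' : Nat.card T.V + 2 * g = n + 2 := h2
    have e : List.ofFn c.get = c := List.ofFn_get c
    rw [Set.mem_iUnion₂]
    refine ⟨c.length, Finset.mem_Icc.2 ⟨hpos, hL⟩, (T, c.get), ⟨h1, ?_, ?_, ?_, ?_, ?_⟩, rfl⟩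
    · show Nat.card T.V = V
      omega
    · show T.Closed (List.ofFn c.get)
      rw [e]
      exact c1
    · show T.Simple (List.ofFn c.get)
      rw [e]
      exact c2
    · show T.NullHom (List.ofFn c.get)
      rw [e]
      exact c3
    · show ¬ T.NullHtp (List.ofFn c.get)
      rw [e]
      exact c4
  refine (Set.ncard_le_ncard hsub (Set.toFinite _)).trans ?_
  refine (Finset.set_ncard_biUnion_le _ _).trans ?_
  exact Finset.sum_le_sum fun ℓ _ => Set.ncard_image_le (Set.toFinite _)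

theorem whp {θ : ℝ} (h : 1 / 2 - 1 / 10 ^ 50 < θ) (h' : θ < 1 / 2) {g : ℕ → ℕ}
    (hg : Tendsto (fun n => (g n : ℝ) / n) atTop (𝓝 θ)) :
    Tendsto (fun n : ℕ => ({T | T ∈ Trn n (g n) ∧ T.HasSSC (Real.log n / 30)}.ncard : ℝ) /
      (Trn n (g n)).ncard) atTop (𝓝 0) := by
  have hη : 0 < 1 - 2 * θ := by linarith
  obtain ⟨K, hK⟩ : ∃ K : ℝ, K = 10 ^ 24 / (1 - 2 * θ) ^ 3 := ⟨_, rfl⟩
  have hK0 : 0 ≤ K := by rw [hK]; positivity
  refine tendsto_of_tendsto_of_tendsto_of_le_of_le' tendsto_const_nhds (lim_bound K) ?_ ?_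
  · exact Eventually.of_forall fun n => by positivity
  filter_upwards [total h h' hg, eventually_ge_atTop 3] with n h1 hn
  obtain ⟨V, hV, hV1, -, hT⟩ := h1
  have hn3 : (3 : ℝ) ≤ n := by exact_mod_cast hn
  have hn0 : (0 : ℝ) < n := by linarith
  have hlog : 0 ≤ Real.log n := Real.log_nonneg (by linarith)
  refine le_trans ?_ (sum_bound K hK0 hn)
  have hfac : (0 : ℝ) < (6 * n).factorial := by exact_mod_cast Nat.factorial_pos _
  have hmv : ((Trn n (g n)).ncard : ℝ) = mv n V * (6 * n).factorial := by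
    have h2 := mv_nu (n := n) (g := g n) (by omega)
    have h3 : n + 2 - 2 * g n = V := by omega
    rw [h3] at h2
    rw [← h2, nu, div_mul_cancel₀ _ hfac.ne']
  have hS0 : 0 ≤ ∑ ℓ ∈ Finset.Icc 1 ⌊Real.log n / 30⌋₊,
      (K * ((ℓ : ℝ) * 2000000 ^ ℓ) / n + 1 / n) :=
    Finset.sum_nonneg fun ℓ _ => by positivity
  apply div_le_of_le_mul₀ (Nat.cast_nonneg _) hS0
  have h4 : ({T | T ∈ Trn n (g n) ∧ T.HasSSC (Real.log n / 30)}.ncard : ℝ) ≤
      ∑ ℓ ∈ Finset.Icc 1 ⌊Real.log n / 30⌋₊, ((SSC n V ℓ).ncard : ℝ) := by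
    exact_mod_cast markov hV (Real.log n / 30)
  refine h4.trans ?_
  rw [Finset.sum_mul]
  apply Finset.sum_le_sum
  intro ℓ hℓ
  rw [Finset.mem_Icc] at hℓ
  have h5 : (ℓ : ℝ) ≤ Real.log n / 30 := (Nat.le_floor_iff (by positivity)).1 hℓ.2
  have h6 := hT ℓ hℓ.1 (by linarith)
  rw [div_le_iff₀ hfac, ← hK] at h6
  refine h6.trans (le_of_eq ?_)
  rw [hmv]
  ring

theorem trn_pos {θ : ℝ} (h : 0 < θ) (h' : θ < 1 / 2) {g : ℕ → ℕ}
    (hg : Tendsto (fun n => (g n : ℝ) / n) atTop (𝓝 θ)) :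
    ∀ᶠ n : ℕ in atTop, 0 < (Trn n (g n)).ncard := by
  obtain ⟨C, -, hC⟩ := ratios (fun {n g} hn => SST.T.nu_ineq1 n g hn) (fun {n g} hn => SST.T.nu_ineq2 n g hn) h h'
  filter_upwards [hC g hg] with n h1
  have h2 := h1.2.1
  rw [Nat.pos_iff_ne_zero]
  intro h3
  rw [nu, h3, Nat.cast_zero, zero_div] at h2
  exact lt_irrefl _ h2

end GNH
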